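import Pool.Agent.H12.KF.Defs

/-!
# [H12 KF AB2] the counting lemma with a subgroup (abstract algebra), 100-150 lines; it replaces `abs_card`

Put `B = Y ⧸ X.map dv` (finite). `e` acts on `B` (`e (dv x) = dv (E x)`, `E x ∈ X`), idempotent (`he`). `coker := L ⧸ X.map (R ∘ dv)`.
  (1) `#coker = #(e B / l e B)`: the map `Y → L → coker` is surjective with kernel `{y | ∃ x ∈ X, R (y - dv x) = 0} = {y | ∃ x ∈ X, ∃ z, e (y - dv x) = l z}` (`hker`) `= {y | e y ∈ X.map dv + l Y}` (`⊇`: if `e y = dv x + l z`, `x ∈ X`, then `e (e y) = dv (E x) + l e z` and `e (e y) = e y + l dv u`, so `e (y - dv x) = e y - dv (E x) = l (e z - dv u)`).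
      The class of `y` is in it iff `e [y] ∈ l B`, iff `e [y] ∈ l e B`. So `coker ≃ e B / l e B`.
  (2) `#(e B / l e B) = #{β ∈ e B | l β = 0}` (a finite commutative group, `x ↦ l x`), in particular `#coker ≤ #B`; take a bijection (or an injection) `coker → {β ∈ e B | l β = 0}`.
  (3) for `β ∈ e B`, `l β = 0` choose `y_β` with class `β` and `x_β ∈ X` with `l y_β = dv x_β`: `R (dv x_β) = l R y_β = 0`; `f q = x_β` for the `β` of `q`. If `E (x_β - x_β') = l u` then `l e (y_β - y_β') = e (dv (x_β - x_β')) = l dv u`, so `e (y_β - y_β') = dv u` (`htf`) and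
      `β - β' = e (β - β') = [dv u]`; and `l u = E (..) ∈ X`, so `u = t + x'`, `t ∈ T`, `x' ∈ X`: `β' = β - [dv t]`: at most `#T ≤ M₀` possibilities for `β'`.
-/

set_option autoImplicit false

open scoped Classical

noncomputable section

namespace H12.KF

private theorem card_quot_range {G : Type} [AddCommGroup G] [Finite G] (φ : G →+ G) :
    Nat.card (G ⧸ φ.range) = Nat.card φ.ker := by
  have h1 := AddSubgroup.card_eq_card_quotient_mul_card_addSubgroup φ.range
  have h2 := AddSubgroup.card_eq_card_quotient_mul_card_addSubgroup φ.ker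
  have h3 : Nat.card (G ⧸ φ.ker) = Nat.card φ.range :=
    Nat.card_congr (QuotientAddGroup.quotientKerEquivRange φ).toEquiv
  rw [h3, h1, mul_comm] at h2
  exact Nat.eq_of_mul_eq_mul_left Nat.card_pos h2

theorem abs_card2 {X₁ Y L : Type} [AddCommGroup X₁] [AddCommGroup Y] [AddCommGroup L] {l M₀ : ℕ}
    (htf : ∀ y : Y, l • y = 0 → y = 0) (hl : ∀ t : L, l • t = 0) (dv : X₁ →+ Y) (E : X₁ →+ X₁)
    (e : Y →+ Y) (hde : ∀ x, dv (E x) = e (dv x)) (X : AddSubgroup X₁) (hEX : ∀ x ∈ X, E x ∈ X)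
    (he : ∀ y, ∃ u ∈ X, e (e y) - e y = l • dv u)
    (hfin : Finite (Y ⧸ X.map dv))
    (hM : ∃ T : Finset X₁, T.card ≤ M₀ ∧ ∀ u, l • u ∈ X → ∃ t ∈ T, u - t ∈ X)
    (R : Y →+ L) (hR : Function.Surjective R)
    (hker : ∀ y, R y = 0 ↔ ∃ z, e y = l • z) :
    Finite (L ⧸ X.map (R.comp dv)) ∧
      Nat.card (L ⧸ X.map (R.comp dv)) ≤ Nat.card (Y ⧸ X.map dv) ∧
      ∃ f : (L ⧸ X.map (R.comp dv)) → X₁, (∀ q, f q ∈ X ∧ R (dv (f q)) = 0) ∧
        ∀ q, Nat.card {q' // ∃ u, E (f q - f q') = l • u} ≤ M₀ := by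
  obtain ⟨T, hT1, hT2⟩ := hM
  have hcomap : X.map dv ≤ (X.map dv).comap e := by
    rintro _ ⟨x, hx, rfl⟩
    exact ⟨E x, hEX x hx, hde x⟩
  let eb : (Y ⧸ X.map dv) →+ (Y ⧸ X.map dv) := QuotientAddGroup.map _ _ e hcomap
  have heb : ∀ y : Y, eb (QuotientAddGroup.mk y) = QuotientAddGroup.mk (e y) := fun _ => rfl
  have hidem : ∀ β, eb (eb β) = eb β := by
    intro β
    obtain ⟨y, rfl⟩ := QuotientAddGroup.mk_surjective β
    obtain ⟨u, hu, h⟩ := he y
    rw [heb, heb, QuotientAddGroup.eq_iff_sub_mem, h]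
    exact ⟨l • u, X.nsmul_mem hu l, map_nsmul dv l u⟩
  have hfix : ∀ β ∈ eb.range, eb β = β := by
    rintro _ ⟨γ, rfl⟩
    exact hidem γ
  let ml : eb.range →+ eb.range := nsmulAddMonoidHom l
  have hml : ∀ g : eb.range, ((ml g : eb.range) : Y ⧸ X.map dv) = l • (g : Y ⧸ X.map dv) := fun _ => rfl
  have : Finite eb.range := inferInstance
  have : Finite ml.ker := inferInstance
  have : Finite (eb.range ⧸ ml.range) := inferInstance
  -- the two maps
  let s2 : Y → eb.range ⧸ ml.range := fun y =>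
    QuotientAddGroup.mk (⟨eb (QuotientAddGroup.mk y), ⟨_, rfl⟩⟩ : eb.range)
  have hs2 : ∀ y y', s2 y = s2 y' →
      (QuotientAddGroup.mk (R y) : L ⧸ X.map (R.comp dv)) = QuotientAddGroup.mk (R y') := by
    intro y y' h
    have h1 := (QuotientAddGroup.eq_iff_sub_mem).1 h
    obtain ⟨⟨g, hg⟩, hg1⟩ := h1
    obtain ⟨γ, hγ⟩ := hg
    obtain ⟨z', rfl⟩ := QuotientAddGroup.mk_surjective γ
    have h2 : l • g = eb (QuotientAddGroup.mk y) - eb (QuotientAddGroup.mk y') := congrArg Subtype.val hg1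
    have h3 : (QuotientAddGroup.mk (e (y - y')) : Y ⧸ X.map dv) = QuotientAddGroup.mk (l • e z') := by
      rw [← heb, QuotientAddGroup.mk_sub, map_sub, ← h2, ← hγ]
      rfl
    rw [QuotientAddGroup.eq_iff_sub_mem] at h3
    obtain ⟨x, hx, hx1⟩ := h3
    have h4 : e (y - y') = dv x + l • e z' := by
      rw [hx1]
      abel
    obtain ⟨u, hu, hu1⟩ := he (y - y')
    have h5 : e ((y - y') - dv x) = l • (e (e z') - dv u) := by
      have h6 : e (e (y - y')) = dv (E x) + l • e (e z') := by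
        rw [h4, map_add, map_nsmul, hde]
      rw [map_sub, ← hde, smul_sub, ← hu1, h6]
      abel
    have h7 : R ((y - y') - dv x) = 0 := (hker _).2 ⟨_, h5⟩
    rw [QuotientAddGroup.eq_iff_sub_mem]
    refine ⟨x, hx, ?_⟩
    rw [map_sub, map_sub] at h7
    exact (sub_eq_zero.1 h7).symm
  have hτ : Nonempty ((eb.range ⧸ ml.range) ≃ ml.ker) := Finite.card_eq.1 (card_quot_range ml)
  obtain ⟨τ⟩ := hτ
  have hsurj : ∀ q : L ⧸ X.map (R.comp dv), ∃ y : Y, QuotientAddGroup.mk (R y) = q := by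
    intro q
    obtain ⟨t, rfl⟩ := QuotientAddGroup.mk_surjective q
    obtain ⟨y, rfl⟩ := hR t
    exact ⟨y, rfl⟩
  choose ys hys using hsurj
  let b : (L ⧸ X.map (R.comp dv)) → ml.ker := fun q => τ (s2 (ys q))
  have hb : Function.Injective b := by
    intro q q' h
    have h1 := hs2 _ _ (τ.injective h)
    rwa [hys, hys] at h1
  have hfin2 : Finite (L ⧸ X.map (R.comp dv)) := Finite.of_injective b hb
  let bB : (L ⧸ X.map (R.comp dv)) → (Y ⧸ X.map dv) := fun q => ((b q : eb.range) : Y ⧸ X.map dv)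
  have hbB : Function.Injective bB := fun q q' h =>
    hb (Subtype.ext (Subtype.ext h))
  refine ⟨hfin2, Nat.card_le_card_of_injective bB hbB, ?_⟩
  have hlb : ∀ q, l • bB q = 0 := fun q => by
    have h1 : ml (b q : eb.range) = 0 := (b q).2
    exact congrArg Subtype.val h1
  have hfb : ∀ q, eb (bB q) = bB q := fun q => hfix _ (b q : eb.range).2
  have hch : ∀ q, ∃ (y : Y) (x : X₁), QuotientAddGroup.mk y = bB q ∧ x ∈ X ∧ dv x = l • y := by
    intro q
    obtain ⟨y, hy⟩ := QuotientAddGroup.mk_surjective (bB q)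
    have h1 : (QuotientAddGroup.mk (l • y) : Y ⧸ X.map dv) = 0 := by
      have h2 := hlb q
      rw [← hy] at h2
      exact h2
    rw [QuotientAddGroup.eq_zero_iff] at h1
    obtain ⟨x, hx, hx1⟩ := h1
    exact ⟨y, x, hy, hx, hx1⟩
  choose yb xb hyb hxb hxy using hch
  refine ⟨xb, fun q => ⟨hxb q, ?_⟩, fun q => ?_⟩
  · rw [hxy, map_nsmul, hl]
  · have hex : ∀ q' : {q' // ∃ u, E (xb q - xb q') = l • u}, ∃ t ∈ T,
        bB q'.1 = bB q - QuotientAddGroup.mk (dv t) := by
      rintro ⟨q', u, hu⟩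
      have h1 : l • (e (yb q - yb q') - dv u) = 0 := by
        rw [smul_sub, ← map_nsmul, smul_sub, ← hxy, ← hxy, ← map_sub, ← hde, hu, map_nsmul, sub_self]
      have h2 : e (yb q - yb q') = dv u := sub_eq_zero.1 (htf _ h1)
      have h3 : l • u ∈ X := by
        rw [← hu]
        exact hEX _ (X.sub_mem (hxb q) (hxb q'))
      obtain ⟨t, ht, ht1⟩ := hT2 u h3
      refine ⟨t, ht, ?_⟩
      have h4 : bB q - bB q' = QuotientAddGroup.mk (dv u) := by
        rw [← h2, ← heb, QuotientAddGroup.mk_sub, map_sub, hyb, hyb, hfb, hfb]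
      have h5 : (QuotientAddGroup.mk (dv u) : Y ⧸ X.map dv) = QuotientAddGroup.mk (dv t) := by
        rw [QuotientAddGroup.eq_iff_sub_mem]
        exact ⟨u - t, ht1, map_sub dv u t⟩
      rw [← h5, ← h4]
      abel
    choose tt htt1 htt2 using hex
    have hinj : Function.Injective (fun q' => (⟨tt q', htt1 q'⟩ : T)) := by
      intro q' q'' h
      have h1 : tt q' = tt q'' := congrArg Subtype.val h
      have h2 : bB q'.1 = bB q''.1 := by rw [htt2, htt2, h1]
      exact Subtype.ext (hbB h2)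
    have h3 := Nat.card_le_card_of_injective _ hinj
    have h4 : Nat.card T = T.card := by rw [Nat.card_eq_fintype_card, Fintype.card_coe]
    rw [h4] at h3
    exact h3.trans hT1

end H12.KF
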