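import Pool.Agent.H12.KF.Defs

/-!
# [H12 KF ABS] the operator `cact` and the counting lemma (abstract algebra), 120-170 lines

* `cact_idem`: `c * c - c = n k` (`IdT`, `choose`), `z = cact A k y` (reindex `a = b b'`, as `EE_EE` in `H51/SN/Nft.lean`).
* `cact_nat`: `f` equivariant.
* `abs_card`. Put `B = Y ⧸ dv.range` (finite). `e` acts on `B` (`e (dv x) = dv (E x)`), idempotent (`he`). `coker := 𝓛 ⧸ (R ∘ dv).range`.
  (1) `#coker = #(e B / l e B)`: the map `Y → 𝓛 → coker` is surjective with kernel `{y | R y ∈ R (dv x)} = {y | ∃ x z, e (y - dv x) = l z}` (`hker`) `= {y | e y ∈ dv.range + l Y}` (`⊇`: if `e y = dv x + l z` then with `y' = y - dv (E-part)`: `e (e y) = e y - l dv u`, so `e (y - e y) = - l dv u'`, i.e. `R (y - e y) = 0`, and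
  `R (e y) = R (dv x) + R (l z) = R (dv x) + l R z`; and `l R z = 0`?: use `hl : ∀ t : 𝓛, l • t = 0`). So `coker ≃ e B / l e B` by `y ↦ [e y]`.
  (2) `#(e B / l e B) = #{β ∈ e B | l β = 0}` (a finite commutative group; `x ↦ l x`).
  (3) for `β ∈ e B`, `l β = 0` choose `y_β`, `l y_β = dv x_β`: `R (dv x_β) = l R y_β = 0`. If `E (x_β - x_β') = l u` then `l e (y_β - y_β') = l dv u`, so `e (y_β - y_β') = dv u` (`htf`) and `β = e β = e β' = β'`.
-/

set_option autoImplicit false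

open scoped Classical

noncomputable section

namespace H12.KF

private theorem cact_apply {Q : Type} [Group Q] [Fintype Q] {ι : Type} [Fintype ι] {M : Type} [AddCommGroup M]
    (A : Q →* AddMonoid.End M) (c : ι → ι → Q → ℤ) (y : ι → M) (i : ι) :
    cact A c y i = ∑ j, ∑ a, c i j a • A a (y j) := rfl

theorem cact_idem {Q : Type} [Group Q] [Fintype Q] {ι : Type} [Fintype ι] {M : Type} [AddCommGroup M]
    (A : Q →* AddMonoid.End M) (c : ι → ι → Q → ℤ) {n : ℕ} (h : IdT n c) (y : ι → M) :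
    ∃ z, cact A c (cact A c y) - cact A c y = n • z := by
  choose q hq using h
  refine ⟨cact A q y, ?_⟩
  funext i
  rw [Pi.sub_apply, Pi.smul_apply, cact_apply, cact_apply, cact_apply]
  have h1 : ∀ k b, c i k b • A b (cact A c y k) = ∑ j, ∑ a, (c i k b * c k j (b⁻¹ * a)) • A a (y j) := by
    intro k b
    rw [cact_apply, map_sum, Finset.smul_sum]
    refine Finset.sum_congr rfl fun j _ => ?_
    rw [map_sum, Finset.smul_sum, ← Equiv.sum_comp (Equiv.mulLeft b⁻¹)]
    refine Finset.sum_congr rfl fun a _ => ?_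
    rw [Equiv.coe_mulLeft, map_zsmul, smul_smul]
    congr 1
    have h2 : A b (A (b⁻¹ * a) (y j)) = (A b * A (b⁻¹ * a)) (y j) := rfl
    rw [h2, ← map_mul, mul_inv_cancel_left]
  have h3 : ∑ k, ∑ b, c i k b • A b (cact A c y k) =
      ∑ j, ∑ a, (∑ k, ∑ b, c i k b * c k j (b⁻¹ * a)) • A a (y j) := by
    calc _ = ∑ k, ∑ b, ∑ j, ∑ a, (c i k b * c k j (b⁻¹ * a)) • A a (y j) :=
          Finset.sum_congr rfl fun k _ => Finset.sum_congr rfl fun b _ => h1 k b
      _ = ∑ k, ∑ j, ∑ b, ∑ a, (c i k b * c k j (b⁻¹ * a)) • A a (y j) :=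
          Finset.sum_congr rfl fun k _ => Finset.sum_comm
      _ = ∑ j, ∑ k, ∑ b, ∑ a, (c i k b * c k j (b⁻¹ * a)) • A a (y j) := Finset.sum_comm
      _ = ∑ j, ∑ k, ∑ a, ∑ b, (c i k b * c k j (b⁻¹ * a)) • A a (y j) :=
          Finset.sum_congr rfl fun j _ => Finset.sum_congr rfl fun k _ => Finset.sum_comm
      _ = ∑ j, ∑ a, ∑ k, ∑ b, (c i k b * c k j (b⁻¹ * a)) • A a (y j) :=
          Finset.sum_congr rfl fun j _ => Finset.sum_comm
      _ = _ := by
          refine Finset.sum_congr rfl fun j _ => Finset.sum_congr rfl fun a _ => ?_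
          rw [Finset.sum_smul]
          refine Finset.sum_congr rfl fun k _ => ?_
          rw [Finset.sum_smul]
  rw [h3, ← Finset.sum_sub_distrib, Finset.smul_sum]
  refine Finset.sum_congr rfl fun j _ => ?_
  rw [← Finset.sum_sub_distrib, Finset.smul_sum]
  refine Finset.sum_congr rfl fun a _ => ?_
  rw [← sub_smul, hq i j a, mul_smul, natCast_zsmul]

theorem cact_nat {Q : Type} [Group Q] [Fintype Q] {ι : Type} [Fintype ι] {M N : Type} [AddCommGroup M]
    [AddCommGroup N] (A : Q →* AddMonoid.End M) (B : Q →* AddMonoid.End N) (f : M →+ N)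
    (hf : ∀ a x, f (A a x) = B a (f x)) (c : ι → ι → Q → ℤ) (y : ι → M) (i : ι) :
    f (cact A c y i) = cact B c (fun j => f (y j)) i := by
  rw [cact_apply, cact_apply, map_sum]
  refine Finset.sum_congr rfl fun j _ => ?_
  rw [map_sum]
  refine Finset.sum_congr rfl fun a _ => ?_
  rw [map_zsmul, hf]

/-- in a finite commutative group the quotient by the multiples of `l` has as many elements as the `l`-torsion -/
private theorem card_tors {C : Type} [AddCommGroup C] [Finite C] (l : ℕ) :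
    Nat.card (C ⧸ (nsmulAddMonoidHom l : C →+ C).range) = Nat.card (nsmulAddMonoidHom l : C →+ C).ker := by
  set φ : C →+ C := nsmulAddMonoidHom l
  have h1 := AddSubgroup.card_eq_card_quotient_mul_card_addSubgroup φ.range
  have h2 := AddSubgroup.card_eq_card_quotient_mul_card_addSubgroup φ.ker
  have h3 : Nat.card (C ⧸ φ.ker) = Nat.card φ.range := Nat.card_congr (QuotientAddGroup.quotientKerEquivRange φ).toEquiv
  rw [h3, h1, mul_comm (Nat.card φ.range)] at h2
  exact Nat.eq_of_mul_eq_mul_right Nat.card_pos h2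

theorem abs_card {X Y L : Type} [AddCommGroup X] [AddCommGroup Y] [AddCommGroup L] {l : ℕ}
    (htf : ∀ y : Y, l • y = 0 → y = 0) (hl : ∀ t : L, l • t = 0) (dv : X →+ Y) (E : X →+ X)
    (e : Y →+ Y) (hde : ∀ x, dv (E x) = e (dv x)) (he : ∀ y, ∃ u, e (e y) - e y = l • dv u)
    (hfin : Finite (Y ⧸ dv.range)) (R : Y →+ L) (hR : Function.Surjective R)
    (hker : ∀ y, R y = 0 ↔ ∃ z, e y = l • z) :
    Finite (L ⧸ (R.comp dv).range) ∧ Nat.card (L ⧸ (R.comp dv).range) ≤ Nat.card (Y ⧸ dv.range) ∧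
      ∃ f : (L ⧸ (R.comp dv).range) → X, (∀ q, R (dv (f q)) = 0) ∧
        ∀ q q', (∃ u, E (f q - f q') = l • u) → q = q' := by
  have hle : dv.range ≤ ((QuotientAddGroup.mk' (R.comp dv).range).comp R).ker := by
    rintro _ ⟨x, rfl⟩
    rw [AddMonoidHom.mem_ker]
    exact (QuotientAddGroup.eq_zero_iff _).2 ⟨x, rfl⟩
  let ρ : (Y ⧸ dv.range) →+ (L ⧸ (R.comp dv).range) :=
    QuotientAddGroup.lift dv.range ((QuotientAddGroup.mk' (R.comp dv).range).comp R) hle
  have hρ : ∀ y : Y, ρ (y : Y ⧸ dv.range) = ((R y : L) : L ⧸ (R.comp dv).range) := fun y => rfl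
  have hρs : Function.Surjective ρ := by
    intro q
    obtain ⟨t, rfl⟩ := QuotientAddGroup.mk_surjective q
    obtain ⟨y, rfl⟩ := hR t
    exact ⟨(y : Y ⧸ dv.range), hρ y⟩
  have hfinL : Finite (L ⧸ (R.comp dv).range) := Finite.of_surjective ρ hρs
  refine ⟨hfinL, Nat.card_le_card_of_surjective ρ hρs, ?_⟩
  have hRe : ∀ y, R (e y) = R y := by
    intro y
    obtain ⟨u, hu⟩ := he y
    have h1 : R (e y - y) = 0 := (hker _).2 ⟨dv u, by rw [map_sub, hu]⟩
    rw [map_sub] at h1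
    exact sub_eq_zero.1 h1
  let eB : (Y ⧸ dv.range) →+ (Y ⧸ dv.range) := QuotientAddGroup.map dv.range dv.range e (by
    rintro _ ⟨x, rfl⟩
    exact ⟨E x, hde x⟩)
  have heB : ∀ y : Y, eB (y : Y ⧸ dv.range) = ((e y : Y) : Y ⧸ dv.range) := fun y => rfl
  have heB2 : ∀ b, eB (eB b) = eB b := by
    intro b
    obtain ⟨y, rfl⟩ := QuotientAddGroup.mk_surjective b
    obtain ⟨u, hu⟩ := he y
    rw [heB, heB, ← sub_eq_zero, ← QuotientAddGroup.mk_sub, hu]
    exact (QuotientAddGroup.eq_zero_iff _).2 ⟨l • u, map_nsmul dv l u⟩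
  -- the surjection from `C / l C`
  have hle2 : (nsmulAddMonoidHom l : eB.range →+ eB.range).range ≤ (ρ.comp eB.range.subtype).ker := by
    rintro _ ⟨b, rfl⟩
    rw [AddMonoidHom.mem_ker]
    show ρ (((l • b : eB.range) : Y ⧸ dv.range)) = 0
    have h1 : (((l • b : eB.range) : Y ⧸ dv.range)) = l • (b : Y ⧸ dv.range) := rfl
    rw [h1, map_nsmul]
    obtain ⟨t, ht⟩ := QuotientAddGroup.mk_surjective (ρ (b : Y ⧸ dv.range))
    rw [← ht, ← QuotientAddGroup.mk_nsmul, hl t, QuotientAddGroup.mk_zero]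
  let σ : (eB.range ⧸ (nsmulAddMonoidHom l : eB.range →+ eB.range).range) →+ (L ⧸ (R.comp dv).range) :=
    QuotientAddGroup.lift _ (ρ.comp eB.range.subtype) hle2
  have hσs : Function.Surjective σ := by
    intro q
    obtain ⟨t, rfl⟩ := QuotientAddGroup.mk_surjective q
    obtain ⟨y, rfl⟩ := hR t
    refine ⟨((⟨eB (y : Y ⧸ dv.range), ⟨_, rfl⟩⟩ : eB.range) : eB.range ⧸ (nsmulAddMonoidHom l : eB.range →+ eB.range).range), ?_⟩
    show ρ (eB (y : Y ⧸ dv.range)) = _
    rw [heB, hρ, hRe]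
  have hcard : Nat.card (L ⧸ (R.comp dv).range) ≤ Nat.card (nsmulAddMonoidHom l : eB.range →+ eB.range).ker := by
    rw [← card_tors]
    exact Nat.card_le_card_of_surjective σ hσs
  obtain ⟨g⟩ : Nonempty ((L ⧸ (R.comp dv).range) ↪ (nsmulAddMonoidHom l : eB.range →+ eB.range).ker) := by
    have i1 : Fintype (L ⧸ (R.comp dv).range) := Fintype.ofFinite _
    have i2 : Fintype (nsmulAddMonoidHom l : eB.range →+ eB.range).ker := Fintype.ofFinite _
    rw [Nat.card_eq_fintype_card, Nat.card_eq_fintype_card] at hcard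
    exact Function.Embedding.nonempty_of_card_le hcard
  have hch : ∀ q : L ⧸ (R.comp dv).range, ∃ (x : X) (y : Y), (y : Y ⧸ dv.range) = ((g q).1 : Y ⧸ dv.range) ∧ dv x = l • y := by
    intro q
    obtain ⟨y, hy⟩ := QuotientAddGroup.mk_surjective ((g q).1 : Y ⧸ dv.range)
    have h1 : l • ((g q).1 : Y ⧸ dv.range) = 0 := by
      have h2 : (nsmulAddMonoidHom l : eB.range →+ eB.range) (g q).1 = 0 := (AddMonoidHom.mem_ker).1 (g q).2
      exact congrArg (fun b : eB.range => (b : Y ⧸ dv.range)) h2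
    rw [← hy, ← QuotientAddGroup.mk_nsmul] at h1
    obtain ⟨x, hx⟩ := (QuotientAddGroup.eq_zero_iff _).1 h1
    exact ⟨x, y, hy, hx⟩
  choose f y hy hf using hch
  refine ⟨f, fun q => ?_, fun q q' hqq => ?_⟩
  · rw [hf, map_nsmul, hl]
  · obtain ⟨u, hu⟩ := hqq
    have h1 : l • (e (y q - y q') - dv u) = 0 := by
      rw [smul_sub, ← map_nsmul, smul_sub, ← hf, ← hf, ← map_sub, ← hde, hu, map_nsmul, sub_self]
    have h2 := sub_eq_zero.1 (htf _ h1)
    have h3 : eB ((g q).1 : Y ⧸ dv.range) = eB ((g q').1 : Y ⧸ dv.range) := by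
      rw [← hy, ← hy, heB, heB, ← sub_eq_zero, ← QuotientAddGroup.mk_sub, ← map_sub, h2]
      exact (QuotientAddGroup.eq_zero_iff _).2 ⟨u, rfl⟩
    have h4 : ∀ b : eB.range, eB (b : Y ⧸ dv.range) = (b : Y ⧸ dv.range) := by
      rintro ⟨_, ⟨b, rfl⟩⟩
      exact heB2 b
    rw [h4, h4] at h3
    exact g.injective (Subtype.ext (Subtype.ext h3))

end H12.KF
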