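import Pool.Agent.H12.KF.Defs

/-!
# [H12 KF BAS] bases, 60-110 lines

* `exists_bs`: `V` is a module over `ZMod l` (`AddCommGroup.zmodModule`), finite-dimensional; take `Module.finBasis (ZMod l) V`; `co` = `repr`; `co_m`: `repr (∑ n j • m j) = ..` with `n j • x = (n j : ZMod l) • x` (`Int.cast_smul_eq_zsmul`).
* `bs_sum`: both sides have the same coordinates (`co_m` with `n j = (co x j).val`, `ZMod.natCast_val`/`ZMod.natCast_zmod_val`), `inj` for the difference.
* `bs_act`: apply `co` to `a • x = ∑ j (co x j).val • (a • m j)` (`bs_sum`, `smul_sum`, `smul_comm` of `a •` with naturals: `DistribMulAction`, `map_nsmul`).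
* `bs_zsmul`: `n • x = n' • x` if `n = n'` in `ZMod l` (`l • x = 0`).
-/

set_option autoImplicit false

open scoped Classical

noncomputable section

namespace H12.KF

private theorem exists_bs_aux {l : ℕ} [Fact l.Prime] (V : Type) [AddCommGroup V] [Finite V]
    [Module (ZMod l) V] : ∃ d : ℕ, Nonempty (Bs l V (Fin d)) := by
  have hfin : Module.Finite (ZMod l) V := Module.Finite.of_finite
  let b := Module.finBasis (ZMod l) V
  refine ⟨Module.finrank (ZMod l) V, ⟨⟨fun j => b j, b.equivFun.toLinearMap.toAddMonoidHom, ?_, ?_⟩⟩⟩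
  · intro n i
    have h1 : ∑ j, n j • b j = b.equivFun.symm fun j => (n j : ZMod l) := by
      rw [b.equivFun_symm_apply]
      refine Finset.sum_congr rfl fun j _ => ?_
      rw [Int.cast_smul_eq_zsmul]
    show b.equivFun (∑ j, n j • b j) i = (n i : ZMod l)
    rw [h1, LinearEquiv.apply_symm_apply]
  · intro x hx
    have h1 : b.equivFun x = 0 := hx
    exact (LinearEquiv.map_eq_zero_iff b.equivFun).1 h1

theorem exists_bs {l : ℕ} (hl : l.Prime) (V : Type) [AddCommGroup V] [Finite V]
    (hV : ∀ x : V, l • x = 0) : ∃ d : ℕ, Nonempty (Bs l V (Fin d)) := by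
  haveI : Fact l.Prime := ⟨hl⟩
  letI : Module (ZMod l) V := AddCommGroup.zmodModule hV
  exact exists_bs_aux V

variable {l : ℕ} {V : Type} [AddCommGroup V] {ι : Type} [Fintype ι]

private theorem bs_ext (b : Bs l V ι) {x y : V} (h : b.co x = b.co y) : x = y := by
  have h1 : b.co (x - y) = 0 := by rw [map_sub, h, sub_self]
  exact sub_eq_zero.1 (b.inj _ h1)

theorem bs_sum (hl : l.Prime) (b : Bs l V ι) (x : V) : ∑ j, (b.co x j).val • b.m j = x := by
  haveI : NeZero l := ⟨hl.ne_zero⟩
  apply bs_ext b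
  funext i
  have h1 := b.co_m (fun j => ((b.co x j).val : ℤ)) i
  have h2 : ∑ j, (((b.co x j).val : ℕ) : ℤ) • b.m j = ∑ j, (b.co x j).val • b.m j :=
    Finset.sum_congr rfl fun j _ => natCast_zsmul _ _
  rw [h2] at h1
  rw [h1, Int.cast_natCast, ZMod.natCast_zmod_val]

theorem bs_zsmul (hl : l.Prime) (b : Bs l V ι) {n n' : ℤ} (h : (n : ZMod l) = n') (x : V) :
    n • x = n' • x := by
  apply bs_ext b
  funext i
  rw [map_zsmul, map_zsmul, Pi.smul_apply, Pi.smul_apply, zsmul_eq_mul, zsmul_eq_mul, h]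

theorem bs_act (hl : l.Prime) {Q : Type} [Group Q] [DistribMulAction Q V] (b : Bs l V ι) (a : Q)
    (x : V) (i : ι) : b.co (a • x) i = ∑ j, b.co x j * b.co (a • b.m j) i := by
  haveI : NeZero l := ⟨hl.ne_zero⟩
  have h1 : a • x = ∑ j, (b.co x j).val • (a • b.m j) := by
    have h2 : a • x = a • ∑ j, (b.co x j).val • b.m j := by rw [bs_sum hl b x]
    rw [h2, Finset.smul_sum]
    refine Finset.sum_congr rfl fun j _ => ?_
    exact map_nsmul (DistribSMul.toAddMonoidHom V a) _ _
  rw [h1, map_sum, Finset.sum_apply]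
  refine Finset.sum_congr rfl fun j _ => ?_
  rw [map_nsmul, Pi.smul_apply, nsmul_eq_mul, ZMod.natCast_zmod_val]

end H12.KF
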