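import Pool.Agent.H12.KF.Dvf
import Pool.Agent.H51.SN.Kum
import Pool.Agent.H63.MA.KumB
import Pool.Agent.H63.MA.SymB

/-!
# [H12 KF RY] elements which are one-units over `S'`, 90-140 lines

`Ry S'`: the `x : Fˣ` with `One1 w x` for all primes `w` of `F` over places in `S'` (a subgroup: `H63/MA/SymA.lean` has the lemmas `one1_mul`, .. for `One1`).
* `ry_ex`: `act a` permutes the primes over `S'` (`pm_under`); `One1 w (e x)` iff `One1 (e⁻¹ w) x` (as `ord_pm` in `H51/SN/Nft.lean`: the valuation of `e z` at `e w` is the valuation of `z` at `w`).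
* `ry_fin`: let `X₂` be the subgroup of the `x` with `ord w x = 0` for all `w` over `S'`. An element of the kernel of `(Wp F S0 →₀ ℤ) → ClassGroup (𝓞 F)` is `dv1 S0 x` with an `x` whose divisor is supported outside `S0`, so `x ∈ X₂` (`S' ⊆ S0`): `[Y : dv1 X₂] ≤ #ClassGroup` (see the proof of `dv_fin`; prove it again here if it is private there).
  `[X₂ : Ry S'] ≤ ∏_{w over S'} (nm w - 1)` (the residue map `X₂ → ∏ (𝓞 F / w)ˣ` has kernel `Ry S'`; it is enough to map to the finite set `∏ 𝓞 F / w`: write `x = a / b` with `b` prime to `w`, `x ↦ a b⁻¹`; or use `v.valuation` and the residue field of the valuation ring) `≤ ∏_{v ∈ S'} (nm v)^[F:K]` (`∏_{w | v} nm w ≤ (nm v)^[F:K]`: `∑ e f = [F:K]`, `Ideal.sum_ramification_inertia`, see `har_fibre` in `H57/TLS/Har`, `nm_over`).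
  Then products over `ι`. The last clause with `m` = the index (`m • y ∈ range`).
* `ry_tor`: for `u : Fˣ` with `u ^ l ∈ Ry`: `ord w u = 0` at the `w` over `S'` and the residue of `u` at `w` is an `l`-th root of unity (at most `l` in the residue field `𝓞 F / w`); two such `u` with the same residues at all `w` over `S'` differ by an element of `Ry`; there are at most `#S' [F:K]` primes `w` over `S'`: choose representatives. Then families over `ι`.
-/

set_option autoImplicit false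

open scoped NumberField
open IsDedekindDomain H38.ML
open scoped Classical

noncomputable section

namespace H12.KF

open H63.MA H51.SN H67.AQ

section gen

variable {K' : Type} [Field K'] [NumberField K'] {L : Type} [Field L] [NumberField L] [Algebra K' L]

private theorem ry_prod (v : Pl K') (s : Finset (Pl L)) (hs : ∀ w ∈ s, Over w v) :
    ∏ w ∈ s, nm w ≤ nm v ^ Module.finrank K' L := by
  have h1 : ∏ w ∈ s, w.asIdeal ∣ Ideal.map (algebraMap (𝓞 K') (𝓞 L)) v.asIdeal := by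
    have h2 : ∏ I ∈ s.image (fun w => w.asIdeal), I ∣
        Ideal.map (algebraMap (𝓞 K') (𝓞 L)) v.asIdeal := by
      apply Finset.prod_primes_dvd
      · intro I hI
        obtain ⟨w, -, rfl⟩ := Finset.mem_image.1 hI
        exact w.prime
      · intro I hI
        obtain ⟨w, hw, rfl⟩ := Finset.mem_image.1 hI
        rw [Ideal.dvd_iff_le, Ideal.map_le_iff_le_comap]
        exact (hs w hw).ge
    rwa [Finset.prod_image] at h2
    intro w _ w' _ h
    exact HeightOneSpectrum.ext h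
  have h2 : Ideal.absNorm (∏ w ∈ s, w.asIdeal) ∣
      Ideal.absNorm (Ideal.map (algebraMap (𝓞 K') (𝓞 L)) v.asIdeal) := map_dvd _ h1
  rw [map_prod, Ideal.absNorm_algebraMap] at h2
  have h3 : Module.finrank (𝓞 K') (𝓞 L) = Module.finrank K' L :=
    (IsFractionRing.finrank_eq (𝓞 K') K' (𝓞 L) L).symm
  rw [h3] at h2
  refine Nat.le_of_dvd ?_ h2
  exact pow_pos (lt_trans zero_lt_one (one_lt_nm v)) _

private theorem ry_card (v : Pl K') (s : Finset (Pl L)) (hs : ∀ w ∈ s, Over w v) :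
    s.card ≤ Module.finrank K' L := by
  have h1 : nm v ^ s.card ≤ ∏ w ∈ s, nm w := by
    rw [← Finset.prod_const]
    refine Finset.prod_le_prod' fun w hw => ?_
    obtain ⟨f, hf, h⟩ := nm_over (hs w hw)
    rw [h]
    exact Nat.le_self_pow (by omega) _
  exact (Nat.pow_le_pow_iff_right (one_lt_nm v)).1 (h1.trans (ry_prod v s hs))

private theorem ry_res {w : Pl L} {x y : Lˣ} (hx : ord w x = 0) (hy : ord w y = 0)
    (h : symb_rs w (x : L) = symb_rs w (y : L)) : One1 w (x * y⁻¹) := by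
  have hx1 := (ord_eq_zero_iff w x).1 hx
  have hy1 := (ord_eq_zero_iff w y).1 hy
  have h1 := (symb_rs_eq_iff w hx1.le hy1.le).1 h
  unfold One1
  have h2 : ((x * y⁻¹ : Lˣ) : L) - 1 = ((x : L) - y) * (y : L)⁻¹ := by
    rw [Units.val_mul, Units.val_inv_eq_inv_val]
    have := y.ne_zero
    field_simp
  rw [h2, map_mul, map_inv₀, hy1, inv_one, mul_one]
  exact h1

end gen

section ideals

variable {F' : Type} [Field F'] [NumberField F']

/-- the order of an integral element is the multiplicity of the prime -/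
private theorem ord_em (v : Pl F') (x : F'ˣ) (a : 𝓞 F') (h : (x : F') = algebraMap (𝓞 F') F' a) :
    ∃ k : ℕ, ord v x = k ∧ emultiplicity v.asIdeal (Ideal.span {a}) = k := by
  have hle : ∀ n : ℕ, (n : ℤ) ≤ ord v x ↔ v.asIdeal ^ n ∣ Ideal.span {a} := by
    intro n
    have h2 : v.valuation F' (x : F') = v.intValuation a := by
      rw [h]
      exact v.valuation_of_algebraMap a
    rw [Ideal.dvd_span_singleton, ← HeightOneSpectrum.intValuation_le_pow_iff_mem, ← h2, val_eq,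
      WithZero.exp_le_exp, neg_le_neg_iff]
  have h0 : 0 ≤ ord v x := by
    have h1 := (hle 0).2 (by rw [pow_zero]; exact one_dvd _)
    simpa using h1
  obtain ⟨k, hk⟩ := Int.eq_ofNat_of_zero_le h0
  refine ⟨k, hk, emultiplicity_eq_coe.2 ⟨(hle k).1 hk.ge, fun h1 => ?_⟩⟩
  have h2 := (hle (k + 1)).2 h1
  push_cast at h2
  omega

private theorem em_ne {u v : Pl F'} (h : u ≠ v) : emultiplicity v.asIdeal u.asIdeal = 0 := by
  refine emultiplicity_eq_zero.2 fun h1 => h ?_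
  have h2 : u.asIdeal ≤ v.asIdeal := Ideal.dvd_iff_le.1 h1
  exact HeightOneSpectrum.ext (u.isMaximal.eq_of_le v.isPrime.ne_top h2)

private theorem em_self (v : Pl F') : emultiplicity v.asIdeal v.asIdeal = 1 := by
  have h0 : v.asIdeal ≠ 0 := v.ne_bot
  have h1 : emultiplicity v.asIdeal v.asIdeal = ((1 : ℕ) : ℕ∞) := by
    refine emultiplicity_eq_coe.2 ⟨by rw [pow_one], fun h => ?_⟩
    have h2 : v.asIdeal ^ (1 + 1) ∣ v.asIdeal ^ 1 := by
      rw [pow_one]
      exact h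
    have h3 := (pow_dvd_pow_iff h0 v.prime.not_isUnit).1 h2
    omega
  rw [h1, Nat.cast_one]

private theorem em_prod {W : Type} (f : W → Pl F') (hf : Function.Injective f) (s : Finset W)
    (e : W → ℕ) (w : W) :
    emultiplicity (f w).asIdeal (∏ u ∈ s, (f u).asIdeal ^ e u) =
      ((if w ∈ s then e w else 0 : ℕ) : ℕ∞) := by
  rw [Finset.emultiplicity_prod (f w).prime]
  have h1 : ∀ u ∈ s, emultiplicity (f w).asIdeal ((f u).asIdeal ^ e u) =
      if u = w then ((e w : ℕ) : ℕ∞) else 0 := by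
    intro u _
    rw [emultiplicity_pow (f w).prime]
    by_cases h : u = w
    · rw [if_pos h, h, em_self, mul_one]
    · rw [if_neg h, em_ne (fun h2 => h (hf h2)), mul_zero]
  rw [Finset.sum_congr rfl h1, Finset.sum_ite_eq']
  by_cases h : w ∈ s
  · rw [if_pos h, if_pos h]
  · rw [if_neg h, if_neg h, Nat.cast_zero]

/-- the class of a prime -/
private def cp (v : Pl F') : Additive (ClassGroup (𝓞 F')) :=
  Additive.ofMul (ClassGroup.mk0 ⟨v.asIdeal, mem_nonZeroDivisors_of_ne_zero v.ne_bot⟩)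

private theorem cp_ker {W : Type} (f : W → Pl F') (hf : Function.Injective f) (δ : W →₀ ℤ)
    (h : δ.sum (fun w n => n • cp (f w)) = 0) : ∃ x : F'ˣ, ∀ w, ord (f w) x = δ w := by
  let g : W → nonZeroDivisors (Ideal (𝓞 F')) := fun w =>
    ⟨(f w).asIdeal, mem_nonZeroDivisors_of_ne_zero (f w).ne_bot⟩
  let I : nonZeroDivisors (Ideal (𝓞 F')) := ∏ w ∈ δ.support, g w ^ (δ w).toNat
  let J : nonZeroDivisors (Ideal (𝓞 F')) := ∏ w ∈ δ.support, g w ^ (-δ w).toNat
  have hI : (I : Ideal (𝓞 F')) = ∏ w ∈ δ.support, (f w).asIdeal ^ (δ w).toNat := by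
    rw [Submonoid.coe_finsetProd]
    rfl
  have hJ : (J : Ideal (𝓞 F')) = ∏ w ∈ δ.support, (f w).asIdeal ^ (-δ w).toNat := by
    rw [Submonoid.coe_finsetProd]
    rfl
  have hIJ : ClassGroup.mk0 I = ClassGroup.mk0 J := by
    have h1 : Additive.ofMul (ClassGroup.mk0 I) - Additive.ofMul (ClassGroup.mk0 J) =
        δ.sum (fun w n => n • cp (f w)) := by
      have hI1 : ClassGroup.mk0 I = ∏ w ∈ δ.support, ClassGroup.mk0 (g w) ^ (δ w).toNat := by
        rw [map_prod (ClassGroup.mk0 (R := 𝓞 F'))]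
        exact Finset.prod_congr rfl fun w _ => map_pow _ _ _
      have hJ1 : ClassGroup.mk0 J = ∏ w ∈ δ.support, ClassGroup.mk0 (g w) ^ (-δ w).toNat := by
        rw [map_prod (ClassGroup.mk0 (R := 𝓞 F'))]
        exact Finset.prod_congr rfl fun w _ => map_pow _ _ _
      rw [hI1, hJ1, ofMul_prod, ofMul_prod, ← Finset.sum_sub_distrib, Finsupp.sum]
      refine Finset.sum_congr rfl fun w _ => ?_
      rw [ofMul_pow, ofMul_pow]
      have h2 : δ w = ((δ w).toNat : ℤ) - ((-δ w).toNat : ℤ) := by omega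
      have h3 : δ w • cp (f w) = (((δ w).toNat : ℤ) - ((-δ w).toNat : ℤ)) • cp (f w) := by
        rw [← h2]
      rw [h3, sub_smul, natCast_zsmul, natCast_zsmul]
      rfl
    rw [h, sub_eq_zero] at h1
    exact Additive.ofMul.injective h1
  obtain ⟨x, y, hx, hy, hxy⟩ := ClassGroup.mk0_eq_mk0_iff.1 hIJ
  have hx' : algebraMap (𝓞 F') F' x ≠ 0 := by
    rw [Ne, FaithfulSMul.algebraMap_eq_zero_iff]
    exact hx
  have hy' : algebraMap (𝓞 F') F' y ≠ 0 := by
    rw [Ne, FaithfulSMul.algebraMap_eq_zero_iff]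
    exact hy
  refine ⟨Units.mk0 _ hy' * (Units.mk0 _ hx')⁻¹, fun w => ?_⟩
  obtain ⟨k, hk, hk'⟩ := ord_em (f w) (Units.mk0 _ hx') x rfl
  obtain ⟨m, hm, hm'⟩ := ord_em (f w) (Units.mk0 _ hy') y rfl
  rw [ord_mul, ord_inv, hk, hm]
  have h1 := congrArg (emultiplicity (f w).asIdeal) hxy
  rw [emultiplicity_mul (f w).prime, emultiplicity_mul (f w).prime, hk', hm', hI, hJ,
    em_prod f hf, em_prod f hf] at h1
  have h2 : k + (if w ∈ δ.support then (δ w).toNat else 0) =
      m + (if w ∈ δ.support then (-δ w).toNat else 0) := by exact_mod_cast h1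
  by_cases hw : w ∈ δ.support
  · rw [if_pos hw, if_pos hw] at h2
    omega
  · rw [if_neg hw, if_neg hw] at h2
    rw [Finsupp.notMem_support_iff] at hw
    omega

end ideals

variable {K : IntermediateField ℚ QBar} [NumberField K] {Q : Type} [Group Q]
  {F : IntermediateField K QBar} [NumberField F]

/-- the one-units over `S'` -/
def Ry (F : IntermediateField K QBar) [NumberField F] (S' : Finset (Pl K)) :
    AddSubgroup (Additive Fˣ) where
  carrier := {x | ∀ w : Pl F, (∃ v ∈ S', Over w v) → One1 w x.toMul}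
  zero_mem' := fun w _ => one1_one w
  add_mem' := fun {_ _} hx hy w hw => one1_mul (hx w hw) (hy w hw)
  neg_mem' := fun {_} hx w hw => one1_inv (hx w hw)

theorem mem_Ry {S' : Finset (Pl K)} {x : Additive Fˣ} :
    x ∈ Ry F S' ↔ ∀ w : Pl F, (∃ v ∈ S', Over w v) → One1 w x.toMul := Iff.rfl

theorem ry_ex {act : Q →* (F ≃+* F)} (h : KTriv act) (S' : Finset (Pl K)) (a : Q)
    {x : Additive Fˣ} (hx : x ∈ Ry F S') : ex act a x ∈ Ry F S' := by
  rw [mem_Ry] at hx ⊢
  rintro w ⟨v, hv, hw⟩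
  obtain ⟨w', rfl⟩ := (pm (act a)).surjective w
  have h1 : Over w' v := by
    unfold Over at hw ⊢
    rw [← hw]
    exact (pm_under h a w').symm
  have h2 := hx w' ⟨v, hv, h1⟩
  unfold One1 at h2 ⊢
  have h3 : ((ex act a x).toMul : F) - 1 = act a ((x.toMul : F) - 1) := by
    rw [map_sub, map_one]
    rfl
  rw [h3]
  by_cases h0 : (x.toMul : F) - 1 = 0
  · rw [h0, map_zero, map_zero]
    exact zero_lt_one
  · have h4 := ord_pm (act a) w' (Units.mk0 _ h0)
    have h5 := val_eq w' (Units.mk0 _ h0)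
    have h6 := val_eq (pm (act a) w') (Units.map ((act a : F →+* F) : F →* F) (Units.mk0 _ h0))
    rw [h4, ← h5] at h6
    have h7 : ((Units.map ((act a : F →+* F) : F →* F) (Units.mk0 _ h0) : Fˣ) : F) =
        act a ((x.toMul : F) - 1) := rfl
    rw [h7] at h6
    rw [h6]
    exact h2

/-- the primes over `v` -/
private abbrev Ov (F : IntermediateField K QBar) [NumberField F] (v : Pl K) : Type :=
  {w : Pl F // Over w v}

private theorem ov_fin (v : Pl K) : Finite (Ov F v) := (over_finite (L := F) v).to_subtype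

private theorem ov_card (v : Pl K) : Nat.card (Ov F v) ≤ Module.finrank K F := by
  have := ov_fin (F := F) v
  cases nonempty_fintype (Ov F v)
  have h1 := ry_card v ((Finset.univ : Finset (Ov F v)).map ⟨Subtype.val, Subtype.val_injective⟩)
    (fun w hw => by
      obtain ⟨w', -, rfl⟩ := Finset.mem_map.1 hw
      exact w'.2)
  rwa [Finset.card_map, Finset.card_univ, ← Nat.card_eq_fintype_card] at h1

private theorem ov_prod (v : Pl K) : ∏ᶠ w : Ov F v, nm w.1 ≤ nm v ^ Module.finrank K F := by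
  have := ov_fin (F := F) v
  cases nonempty_fintype (Ov F v)
  rw [finprod_eq_prod_of_fintype]
  have h1 := ry_prod v ((Finset.univ : Finset (Ov F v)).map ⟨Subtype.val, Subtype.val_injective⟩)
    (fun w hw => by
      obtain ⟨w', -, rfl⟩ := Finset.mem_map.1 hw
      exact w'.2)
  rwa [Finset.prod_map] at h1

/-- the residues -/
private def rsd (F : IntermediateField K QBar) [NumberField F] (S' : Finset (Pl K)) (x : Fˣ) :
    (v : {v // v ∈ S'}) → (w : Ov F v.1) → symbK w.1 :=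
  fun _ w => symb_rs w.1 (x : F)

private theorem rsd_ry (S' : Finset (Pl K)) {x y : Fˣ}
    (hx : ∀ w : Pl F, (∃ v ∈ S', Over w v) → ord w x = 0)
    (hy : ∀ w : Pl F, (∃ v ∈ S', Over w v) → ord w y = 0) (h : rsd F S' x = rsd F S' y) :
    Additive.ofMul x - Additive.ofMul y ∈ Ry F S' := by
  rw [mem_Ry]
  rintro w ⟨v, hv, hw⟩
  have h1 := congrFun (congrFun h ⟨v, hv⟩) ⟨w, hw⟩
  have h2 := ry_res (hx w ⟨v, hv, hw⟩) (hy w ⟨v, hv, hw⟩) h1
  rw [← div_eq_mul_inv] at h2
  exact h2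

theorem ry_tor (F : IntermediateField K QBar) [NumberField F] {l : ℕ} (hl : l.Prime)
    (S' : Finset (Pl K)) (ι : Type) [Fintype ι] :
    ∃ T : Finset (ι → Additive Fˣ), T.card ≤ (l ^ (S'.card * Module.finrank K F)) ^ Fintype.card ι ∧
      ∀ u : ι → Additive Fˣ, (∀ j, l • u j ∈ Ry F S') → ∃ t ∈ T, ∀ j, u j - t j ∈ Ry F S' := by
  have hof : ∀ v : Pl K, Finite (Ov F v) := ov_fin
  have hlp : 0 < l := hl.pos
  obtain ⟨R, hR⟩ : ∃ R : (w : Pl F) → Set (symbK w), ∀ w r, r ∈ R w ↔ r ^ l = 1 :=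
    ⟨fun w => {r | r ^ l = 1}, fun _ _ => Iff.rfl⟩
  have hRc : ∀ w, Finite (R w) ∧ Nat.card (R w) ≤ l := by
    intro w
    have h0 : IsDomain (symbK w) := Ideal.Quotient.isDomain w.asIdeal
    have h1 : R w = ((Polynomial.nthRoots l (1 : symbK w)).toFinset : Set (symbK w)) := by
      ext r
      rw [hR, Finset.mem_coe, Multiset.mem_toFinset, Polynomial.mem_nthRoots hlp]
    rw [h1]
    refine ⟨inferInstance, ?_⟩
    rw [Nat.card_coe_set_eq, Set.ncard_coe_finset]
    exact (Multiset.toFinset_card_le _).trans (Polynomial.card_nthRoots l 1)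
  have hRf : ∀ w, Finite (R w) := fun w => (hRc w).1
  have hord : ∀ (x : Additive Fˣ), l • x ∈ Ry F S' → ∀ w : Pl F, (∃ v ∈ S', Over w v) →
      ord w x.toMul = 0 ∧ symb_rs w (x.toMul : F) ^ l = 1 := by
    intro x hx w hw
    have h1 : One1 w (x.toMul ^ l) := mem_Ry.1 hx w hw
    have h2 := ord_of_one1 h1
    rw [ord_pow] at h2
    have h4 : ord w x.toMul = 0 := by
      rcases mul_eq_zero.1 h2 with h | h
      · exact absurd (Int.natCast_eq_zero.1 h) hlp.ne'
      · exact h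
    have h3 : w.valuation F (x.toMul : F) = 1 := (ord_eq_zero_iff w _).1 h4
    refine ⟨(ord_eq_zero_iff w _).2 h3, ?_⟩
    rw [← symb_rs_pow w h3.le, ← symb_rs_one, symb_rs_eq_iff w (by rw [map_pow, h3, one_pow])
      (by rw [map_one])]
    unfold One1 at h1
    rwa [Units.val_pow_eq_pow_val] at h1
  obtain ⟨ch, hch⟩ : ∃ ch : ((j : ι) → (v : {v // v ∈ S'}) → (w : Ov F v.1) → R w.1) →
      (ι → Additive Fˣ), ∀ r, (∃ u : ι → Additive Fˣ, (∀ j, l • u j ∈ Ry F S') ∧
        ∀ j v w, rsd F S' (u j).toMul v w = r j v w) → (∀ j, l • ch r j ∈ Ry F S') ∧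
        ∀ j v w, rsd F S' (ch r j).toMul v w = r j v w := by
    have h1 : ∀ r : ((j : ι) → (v : {v // v ∈ S'}) → (w : Ov F v.1) → R w.1),
        ∃ c : ι → Additive Fˣ, (∃ u : ι → Additive Fˣ, (∀ j, l • u j ∈ Ry F S') ∧
        ∀ j v w, rsd F S' (u j).toMul v w = r j v w) → (∀ j, l • c j ∈ Ry F S') ∧
        ∀ j v w, rsd F S' (c j).toMul v w = r j v w := by
      intro r
      by_cases h : ∃ u : ι → Additive Fˣ, (∀ j, l • u j ∈ Ry F S') ∧
        ∀ j v w, rsd F S' (u j).toMul v w = r j v w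
      · obtain ⟨u, hu⟩ := h
        exact ⟨u, fun _ => hu⟩
      · exact ⟨0, fun h' => absurd h' h⟩
    choose c hc using h1
    exact ⟨c, hc⟩
  cases nonempty_fintype ((j : ι) → (v : {v // v ∈ S'}) → (w : Ov F v.1) → R w.1)
  refine ⟨Finset.univ.image ch, ?_, fun u hu => ?_⟩
  · refine Finset.card_image_le.trans ?_
    rw [Finset.card_univ, ← Nat.card_eq_fintype_card, Nat.card_pi, Finset.prod_const,
      Finset.card_univ]
    refine Nat.pow_le_pow_left ?_ _
    rw [Nat.card_pi]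
    have h1 : ∀ v : {v // v ∈ S'}, Nat.card ((w : Ov F v.1) → R w.1) ≤ l ^ Module.finrank K F := by
      intro v
      cases nonempty_fintype (Ov F v.1)
      rw [Nat.card_pi]
      calc ∏ w : Ov F v.1, Nat.card (R w.1) ≤ ∏ _w : Ov F v.1, l :=
            Finset.prod_le_prod' fun w _ => (hRc w.1).2
        _ = l ^ Nat.card (Ov F v.1) := by
            rw [Finset.prod_const, Finset.card_univ, Nat.card_eq_fintype_card]
        _ ≤ _ := Nat.pow_le_pow_right hlp (ov_card v.1)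
    calc _ ≤ ∏ _v : {v // v ∈ S'}, l ^ Module.finrank K F := Finset.prod_le_prod' fun v _ => h1 v
      _ = _ := by
          rw [Finset.prod_const, Finset.card_univ, Fintype.card_coe, ← pow_mul, mul_comm]
  · obtain ⟨r, hr⟩ : ∃ r : (j : ι) → (v : {v // v ∈ S'}) → (w : Ov F v.1) → R w.1,
        ∀ j v w, rsd F S' (u j).toMul v w = r j v w :=
      ⟨fun j v w => ⟨rsd F S' (u j).toMul v w,
        (hR _ _).2 (hord (u j) (hu j) w.1 ⟨v.1, v.2, w.2⟩).2⟩, fun j v w => rfl⟩
    obtain ⟨h1, h2⟩ := hch r ⟨u, hu, hr⟩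
    refine ⟨ch r, Finset.mem_image_of_mem _ (Finset.mem_univ r), fun j => ?_⟩
    refine rsd_ry S' (x := (u j).toMul) (y := (ch r j).toMul)
      (fun w hw => (hord (u j) (hu j) w hw).1) (fun w hw => (hord (ch r j) (h1 j) w hw).1) ?_
    funext v w
    rw [hr, h2]

/-- the class of a divisor -/
private def cl1 (F : IntermediateField K QBar) [NumberField F] (S0 : Finset (Pl K)) :
    (Wp F S0 →₀ ℤ) →+ Additive (ClassGroup (𝓞 F)) where
  toFun y := y.sum fun w n => n • cp w.1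
  map_zero' := Finsupp.sum_zero_index
  map_add' _ _ := Finsupp.sum_add_index' (fun _ => zero_smul _ _) (fun _ _ _ => add_smul _ _ _)

private theorem cl1_ker (S0 : Finset (Pl K)) (y : Wp F S0 →₀ ℤ) (h : cl1 F S0 y = 0) :
    ∃ x : Fˣ, dv1 S0 (Additive.ofMul x) = y ∧
      ∀ w : Pl F, (∃ v ∈ S0, Over w v) → ord w x = 0 := by
  obtain ⟨δ, hδ⟩ : ∃ δ : Pl F →₀ ℤ, δ = y.embDomain ⟨Subtype.val, Subtype.val_injective⟩ :=
    ⟨_, rfl⟩
  have h1 : δ.sum (fun w n => n • cp (id w)) = 0 := by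
    rw [hδ, Finsupp.sum_embDomain]
    exact h
  obtain ⟨x, hx⟩ := cp_ker (id : Pl F → Pl F) Function.injective_id δ h1
  refine ⟨x, ?_, ?_⟩
  · refine Finsupp.ext fun w => ?_
    have h2 := hx w.1
    rw [hδ] at h2
    have h3 := Finsupp.embDomain_apply_self ⟨Subtype.val, Subtype.val_injective⟩ y w
    exact h2.trans h3
  · rintro w ⟨v, hv, hw⟩
    have h2 := hx w
    rw [hδ, Finsupp.embDomain_of_notMem_range] at h2
    · exact h2
    · rintro ⟨w', hw'⟩
      have h3 : w'.1 = w := hw'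
      refine w'.2 v hv ?_
      rw [h3]
      exact hw

private theorem fin_aux (F : IntermediateField K QBar) [NumberField F] (S0 S' : Finset (Pl K))
    (hS' : S' ⊆ S0) (ι : Type) [Fintype ι] (D : AddSubgroup (ι → (Wp F S0 →₀ ℤ)))
    (hD : ∀ y : ι → Additive Fˣ, (∀ j, y j ∈ Ry F S') → dv S0 y ∈ D) :
    Finite ((ι → (Wp F S0 →₀ ℤ)) ⧸ D) ∧
      Nat.card ((ι → (Wp F S0 →₀ ℤ)) ⧸ D) ≤
        (Nat.card (ClassGroup (𝓞 F)) * (∏ v ∈ S', nm v) ^ Module.finrank K F) ^
          Fintype.card ι := by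
  have hof : ∀ v : Pl K, Finite (Ov F v) := ov_fin
  have hsf : ∀ w : Pl F, Finite (symbK w) := fun w =>
    Ideal.finiteQuotientOfFreeOfNeBot _ w.ne_bot
  have hcl : Finite (Additive (ClassGroup (𝓞 F))) := inferInstanceAs (Finite (ClassGroup (𝓞 F)))
  -- the representatives of the classes
  obtain ⟨rp, hrp⟩ : ∃ rp : Additive (ClassGroup (𝓞 F)) → (Wp F S0 →₀ ℤ),
      ∀ y, cl1 F S0 (rp (cl1 F S0 y)) = cl1 F S0 y := by
    have h1 : ∀ c : Additive (ClassGroup (𝓞 F)), ∃ z : Wp F S0 →₀ ℤ,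
        (∃ y, cl1 F S0 y = c) → cl1 F S0 z = c := by
      intro c
      by_cases h : ∃ y, cl1 F S0 y = c
      · obtain ⟨y, hy⟩ := h
        exact ⟨y, fun _ => hy⟩
      · exact ⟨0, fun h' => absurd h' h⟩
    choose z hz using h1
    exact ⟨z, fun y => hz _ ⟨y, rfl⟩⟩
  have hx : ∀ y : Wp F S0 →₀ ℤ, ∃ x : Fˣ,
      dv1 S0 (Additive.ofMul x) = y - rp (cl1 F S0 y) ∧
        ∀ w : Pl F, (∃ v ∈ S0, Over w v) → ord w x = 0 := fun y =>
    cl1_ker S0 _ (by rw [map_sub, hrp, sub_self])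
  choose x hx1 hx2 using hx
  obtain ⟨Ψ, hΨ⟩ : ∃ Ψ : (Wp F S0 →₀ ℤ) → Additive (ClassGroup (𝓞 F)) ×
      ((v : {v // v ∈ S'}) → (w : Ov F v.1) → symbK w.1),
      ∀ y, Ψ y = (cl1 F S0 y, rsd F S' (x y)) := ⟨_, fun _ => rfl⟩
  have hinj : ∀ y z : Wp F S0 →₀ ℤ, Ψ y = Ψ z → ∃ u ∈ Ry F S', dv1 S0 u = y - z := by
    intro y z h
    rw [hΨ, hΨ, Prod.mk.injEq] at h
    refine ⟨Additive.ofMul (x y) - Additive.ofMul (x z), rsd_ry S' (fun w hw => ?_)
      (fun w hw => ?_) h.2, ?_⟩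
    · obtain ⟨v, hv, hv2⟩ := hw
      exact hx2 y w ⟨v, hS' hv, hv2⟩
    · obtain ⟨v, hv, hv2⟩ := hw
      exact hx2 z w ⟨v, hS' hv, hv2⟩
    · rw [map_sub, hx1, hx1, h.1]
      abel
  have hinj2 : Function.Injective
      (fun q : (ι → (Wp F S0 →₀ ℤ)) ⧸ D => fun j : ι => Ψ (q.out j)) := by
    intro q q' hqq
    have h1 : ∀ j, ∃ u ∈ Ry F S', dv1 S0 u = q'.out j - q.out j := fun j =>
      hinj _ _ (congrFun hqq j).symm
    choose u hu hu2 using h1
    have h2 : -q.out + q'.out ∈ D := by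
      have h3 := hD u hu
      have h4 : dv S0 u = -q.out + q'.out := by
        funext j
        have h5 : dv S0 u j = dv1 S0 (u j) := rfl
        rw [h5, hu2, Pi.add_apply, Pi.neg_apply]
        abel
      rwa [h4] at h3
    have h3 := QuotientAddGroup.eq.2 h2
    rw [← QuotientAddGroup.out_eq' q, ← QuotientAddGroup.out_eq' q']
    exact h3
  refine ⟨Finite.of_injective _ hinj2, ?_⟩
  have h1 := Nat.card_le_card_of_injective _ hinj2
  refine h1.trans ?_
  rw [Nat.card_fun, Nat.card_eq_fintype_card (α := ι)]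
  refine Nat.pow_le_pow_left ?_ _
  rw [Nat.card_prod]
  refine Nat.mul_le_mul le_rfl ?_
  rw [Nat.card_pi]
  have h2 : ∀ v : {v // v ∈ S'}, Nat.card ((w : Ov F v.1) → symbK w.1) ≤
      nm v.1 ^ Module.finrank K F := by
    intro v
    cases nonempty_fintype (Ov F v.1)
    rw [Nat.card_pi]
    have h3 := ov_prod (F := F) v.1
    rw [finprod_eq_prod_of_fintype] at h3
    simpa only [symb_card] using h3
  calc _ ≤ ∏ v : {v // v ∈ S'}, nm v.1 ^ Module.finrank K F := Finset.prod_le_prod' fun v _ => h2 v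
    _ = _ := by
        rw [Finset.prod_pow, Finset.prod_coe_sort S' (fun v => nm v)]

theorem ry_fin (F : IntermediateField K QBar) [NumberField F] (S0 S' : Finset (Pl K))
    (hS' : S' ⊆ S0) (ι : Type) [Fintype ι] (D : AddSubgroup (ι → (Wp F S0 →₀ ℤ)))
    (hD : ∀ y : ι → Additive Fˣ, (∀ j, y j ∈ Ry F S') → dv S0 y ∈ D) :
    Finite ((ι → (Wp F S0 →₀ ℤ)) ⧸ D) ∧
      Nat.card ((ι → (Wp F S0 →₀ ℤ)) ⧸ D) ≤
        (Nat.card (ClassGroup (𝓞 F)) * (∏ v ∈ S', nm v) ^ Module.finrank K F) ^ Fintype.card ι ∧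
      ∃ m : ℕ, m ≠ 0 ∧ ∀ y : ι → (Wp F S0 →₀ ℤ), ∃ u : ι → Additive Fˣ, (∀ j, u j ∈ Ry F S') ∧
        m • y = dv S0 u := by
  obtain ⟨h1, h2⟩ := fin_aux F S0 S' hS' ι D hD
  refine ⟨h1, h2, ?_⟩
  obtain ⟨E, hE⟩ : ∃ E : AddSubgroup (ι → Additive Fˣ), ∀ u, u ∈ E ↔ ∀ j, u j ∈ Ry F S' :=
    ⟨AddSubgroup.pi Set.univ fun _ => Ry F S', fun u =>
      ⟨fun h j => h j (Set.mem_univ j), fun h j _ => h j⟩⟩
  obtain ⟨h3, -⟩ := fin_aux F S0 S' hS' ι (E.map (dv S0)) fun y hy =>
    AddSubgroup.mem_map_of_mem _ ((hE y).2 hy)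
  refine ⟨Nat.card ((ι → (Wp F S0 →₀ ℤ)) ⧸ E.map (dv S0)), Nat.card_pos.ne', fun y => ?_⟩
  have h4 : Nat.card ((ι → (Wp F S0 →₀ ℤ)) ⧸ E.map (dv S0)) • y ∈ E.map (dv S0) := by
    rw [← QuotientAddGroup.eq_zero_iff, QuotientAddGroup.mk_nsmul]
    exact card_nsmul_eq_zero'
  obtain ⟨u, hu, hu2⟩ := h4
  exact ⟨u, (hE u).1 hu, hu2.symm⟩

end H12.KF
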