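import Pool.Agent.H12.KF.Sub
import Pool.Agent.H63.MA.AFin
import Pool.Agent.H63.MA.RayC

/-!
# H12-KF-TDF: second half of the fibre chapter: definitions (complete)

`T` a finite `Q`-module with `m T = 0`, `m` squarefree.
* `Vp T l`: the elements killed by `l`, with the action of `Q`.
* `cl m l`: an integer which is `1` modulo `l` and `0` modulo `m / l`; `prl x = cl m l • x` is the component in `Vp T l`.
* `sgl s v`: the label which is `s` at `v` and `0` elsewhere (if this is a label, otherwise `0`).
* `il`: the labels with values in `Vp T l` as labels with values in `T`.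
* `fo x v`: the elements of the orbit of `x` which are fixed by `φ (dec (P.P v))`.
* `gx χ x v = ∑ s ∈ fo x v, χ (sgl s v)`.
* `Cut B g`: `g` outside `B`, `0` on `B`.
* `Win B X lam`: the finite sets `q` of places, disjoint from `B`, with `X < nr q ≤ lam X`. `Bx B X lam`: families of pairwise disjoint elements of `Win`.
* `TypT`: typed equivariant homomorphisms with values in `T`.
-/

set_option autoImplicit false

open scoped NumberField
open IsDedekindDomain H38.ML
open scoped Classical

noncomputable section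

namespace H12.KF

open H63.MA H51.SN H67.AQ

section alg

variable {Q : Type} [Group Q] (T : Type) [AddCommGroup T] [DistribMulAction Q T]

/-- the elements killed by `l` -/
def Vp (T : Type) [AddCommGroup T] (l : ℕ) : AddSubgroup T where
  carrier := {x | l • x = 0}
  zero_mem' := smul_zero l
  add_mem' := by
    intro x y hx hy
    have h1 : l • x = 0 := hx
    have h2 : l • y = 0 := hy
    change l • (x + y) = 0
    rw [smul_add, h1, h2, add_zero]
  neg_mem' := by
    intro x hx
    have h1 : l • x = 0 := hx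
    change l • (-x) = 0
    rw [smul_neg, h1, neg_zero]

instance (l : ℕ) : DistribMulAction Q (Vp T l) where
  smul a x := ⟨a • (x : T), by
    have h1 : l • (x : T) = 0 := x.2
    change l • (a • (x : T)) = 0
    have h2 := map_nsmul (DistribMulAction.toAddMonoidHom T a) l (x : T)
    rw [h1, map_zero] at h2
    exact h2.symm⟩
  one_smul x := Subtype.ext (one_smul Q (x : T))
  mul_smul a b x := Subtype.ext (mul_smul a b (x : T))
  smul_zero a := Subtype.ext (smul_zero a)
  smul_add a x y := Subtype.ext (smul_add a (x : T) (y : T))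

/-- one modulo `l` and zero modulo `m / l` -/
def cl (m l : ℕ) : ℤ :=
  if h : ∃ c : ℤ, (l : ℤ) ∣ c - 1 ∧ ((m / l : ℕ) : ℤ) ∣ c then h.choose else 0

end alg

section lab

variable {K : IntermediateField ℚ QBar} [NumberField K] {Q : Type} [Group Q] {T : Type}
  [AddCommGroup T] [DistribMulAction Q T]

/-- the label which is `s` at `v` -/
def sgl (φ : Gal(QBar/K) →* Q) (P : DP K QBar) (S0 : Finset (Pl K)) (s : T) (v : Pl K) :
    Lab φ P S0 T :=
  if h : v ∉ S0 ∧ ∀ σ ∈ dec (K := K) (P.P v), φ σ • s = s then
    ⟨Finsupp.single v s, by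
      refine ⟨fun v' hv' => ?_, fun v' σ hσ => ?_⟩
      · rw [Finsupp.single_apply, if_neg]
        rintro rfl
        exact h.1 hv'
      · rw [Finsupp.single_apply]
        split_ifs with h1
        · subst h1
          exact h.2 σ hσ
        · exact smul_zero _⟩
  else 0

/-- the labels with values in `Vp T l` as labels with values in `T` -/
def il (φ : Gal(QBar/K) →* Q) (P : DP K QBar) (S0 : Finset (Pl K)) (T : Type) [AddCommGroup T]
    [DistribMulAction Q T] (l : ℕ) : Lab φ P S0 (Vp T l) →+ Lab φ P S0 T where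
  toFun t := ⟨Finsupp.mapRange (fun x : Vp T l => (x : T)) rfl t.1, by
    refine ⟨fun v hv => ?_, fun v σ hσ => ?_⟩
    · rw [Finsupp.mapRange_apply, t.2.1 v hv]
      rfl
    · rw [Finsupp.mapRange_apply]
      exact congrArg (fun x : Vp T l => (x : T)) (t.2.2 v σ hσ)⟩
  map_zero' := by
    apply Subtype.ext
    ext v
    rfl
  map_add' t t' := by
    apply Subtype.ext
    ext v
    rfl

/-- the elements of the orbit of `x` fixed by the decomposition group -/
def fo [Finite T] (φ : Gal(QBar/K) →* Q) (P : DP K QBar) (x : T) (v : Pl K) : Finset T :=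
  (Set.toFinite {s : T | (∃ a : Q, s = a • x) ∧ ∀ σ ∈ dec (K := K) (P.P v), φ σ • s = s}).toFinset

/-- the local sum of a character -/
def gx [Finite T] {φ : Gal(QBar/K) →* Q} {P : DP K QBar} {S0 : Finset (Pl K)}
    (χ : AddChar (Lab φ P S0 T) ℂ) (x : T) (v : Pl K) : ℂ :=
  ∑ s ∈ fo φ P x v, χ (sgl φ P S0 s v)

/-- typed equivariant homomorphisms with values in `T` -/
structure TypT (m : ℕ) (ζ : ℕ → K) (φ : Gal(QBar/K) →* Q) (P : DP K QBar)
    (S0 : Finset (Pl K)) (t : Pl K → T) (κ : Gal(QBar/K) → T) : Prop where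
  isA : IsA φ κ
  ft : ∃ E : IntermediateField K QBar, FiniteDimensional K E ∧ ∀ σ ∈ E.fixingSubgroup, κ σ = 0
  out : ∀ γ, φ γ ≠ 1 → κ γ = 0
  zero : ∀ v, v ∉ S0 → t v = 0 → ∀ τ ∈ (P.P v).inertia Gal(QBar/K), φ τ = 1 → κ τ = 0
  tame : ∀ v, v ∉ S0 → (∀ τ ∈ (P.P v).inertia Gal(QBar/K), φ τ = 1) → ∀ l : ℕ, l.Prime →
    l ∣ m → l • t v = 0 → ∀ π : Kˣ, ord v π = 1 → ∀ τ ∈ (P.P v).inertia Gal(QBar/K),
      κ τ = (kq l (ζ l) (algebraMap K QBar (π : K)) τ).val • t v

end lab

section box

variable {K : Type} [Field K] [NumberField K]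

/-- `g` outside `B` -/
def Cut (B : Finset (Pl K)) (g : Pl K → ℂ) (v : Pl K) : ℂ := if v ∈ B then 0 else g v

/-- the products of places outside `B` with norm in `(X, lam X]` -/
def Win (B : Finset (Pl K)) (X lam : ℝ) : Finset (Finset (Pl K)) :=
  (AF K (lam * X)).filter fun q => X < nr q ∧ Disjoint q B

/-- the families of pairwise disjoint products -/
def Bx {J : Type} [Fintype J] (B : Finset (Pl K)) (X : J → ℝ) (lam : ℝ) :
    Finset (J → Finset (Pl K)) :=
  (Fintype.piFinset fun j => Win B (X j) lam).filter fun f => ∀ i j, i ≠ j → Disjoint (f i) (f j)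

end box

end H12.KF
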