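import Pool.Agent.H12.KF.Non
import Pool.Agent.H12.KF.Ry
import Pool.Agent.H12.KF.TDf

/-!
# [H12 KF CH1] a nontrivial character of the labels: the prime, the element and the subfield, 100-150 lines

1. `m • t = 0` for all labels, so `χ t ^ m = 1`. For `l ∈ m.primeFactors` the values of `χ ∘ il l` are `l`-th roots of unity: there is a homomorphism `ξ l : Lab (Vp T l) →+ ZMod l` with `ep l (ξ l t) = χ (il l t)` (the values of `ep l` are all `l`-th roots of unity: `rayc_std`, `ZMod.stdAddChar`; `ep l` is injective: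
   `ep_eq_one`, `ep_add`). Every label `t` is `∑ l, il l (cl m l • t)` (see `FbT` for `cl`), so if all `ξ l = 0` then `χ = 1`. So `ξ l ≠ 0` for some `l`.
2. `R` from `lab_ex` for the basis `b l`. `hξ`: for `y` in the ray group `il l (R (dv y)) ∈ H₀` (hypothesis `hray`), so `ep l (ξ (R (dv y))) = 1`.
3. `non` (contraposition; its hypothesis `hξ ≠ 0`) with the set `L l = {x : Vp T l | (x : T) ∈ L}`: it generates `Vp T l`: apply `x ↦ cl m l • x`, `T → Vp T l`, to `closure L = ⊤`: an element of `L` of order `l' ≠ l` goes to `0`, one of order `l` to itself (every element of `L` has prime order, which divides `m`).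
-/

set_option autoImplicit false

open scoped NumberField
open IsDedekindDomain H38.ML
open scoped Classical

noncomputable section

namespace H12.KF

open H63.MA H51.SN H67.AQ

variable {K : IntermediateField ℚ QBar} [NumberField K] {Q : Type} [Group Q] [Fintype Q]
  {T : Type} [AddCommGroup T] [DistribMulAction Q T] {F : IntermediateField K QBar} [NumberField F]

/-- every root of unity is a value of `ep` -/
private theorem ep_ex {l : ℕ} (hl : l.Prime) {z : ℂ} (hz : z ^ l = 1) : ∃ a : ZMod l, ep l a = z := by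
  have : NeZero l := ⟨hl.ne_zero⟩
  have hz0 : z ≠ 0 := by
    rintro rfl
    rw [zero_pow hl.ne_zero] at hz
    exact zero_ne_one hz
  obtain ⟨i, hi, h⟩ := (Complex.mem_rootsOfUnity l (Units.mk0 z hz0)).1 (by
    rw [mem_rootsOfUnity]
    exact Units.ext hz)
  refine ⟨(i : ZMod l), ?_⟩
  unfold ep
  rw [ZMod.val_natCast_of_lt hi]
  exact h

private theorem ep_inj {l : ℕ} (hl : l.Prime) {a b : ZMod l} (h : ep l a = ep l b) : a = b := by
  have : NeZero l := ⟨hl.ne_zero⟩
  apply ZMod.injective_stdAddChar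
  rw [← rayc_std, ← rayc_std, h]

private theorem xi_ex {l : ℕ} (hl : l.Prime) {A : Type} [AddCommGroup A] (hA : ∀ a : A, l • a = 0)
    (ψ : AddChar A ℂ) : ∃ ξ : A →+ ZMod l, ∀ a, ep l (ξ a) = ψ a := by
  have h1 : ∀ a : A, ∃ x : ZMod l, ep l x = ψ a := by
    intro a
    apply ep_ex hl
    rw [← AddChar.map_nsmul_eq_pow, hA, AddChar.map_zero_eq_one]
  choose f hf using h1
  refine ⟨⟨⟨f, ?_⟩, ?_⟩, hf⟩
  · apply ep_inj hl
    rw [hf, ep_zero, AddChar.map_zero_eq_one]
  · intro a a'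
    change f (a + a') = f a + f a'
    apply ep_inj hl
    rw [hf, ep_add hl, hf, hf, AddChar.map_add_eq_mul]

private theorem map_sum_prod {A : Type} [AddCommGroup A] (χ : AddChar A ℂ) {ι : Type} (s : Finset ι)
    (f : ι → A) : χ (∑ i ∈ s, f i) = ∏ i ∈ s, χ (f i) := by
  induction s using Finset.induction_on with
  | empty => rw [Finset.sum_empty, Finset.prod_empty, AddChar.map_zero_eq_one]
  | insert a s ha ih => rw [Finset.sum_insert ha, Finset.prod_insert ha, AddChar.map_add_eq_mul, ih]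

private theorem cl_spec {m : ℕ} (hm : Squarefree m) {l : ℕ} (hl : l.Prime) (hlm : l ∣ m) :
    (l : ℤ) ∣ cl m l - 1 ∧ ((m / l : ℕ) : ℤ) ∣ cl m l := by
  have h : ∃ c : ℤ, (l : ℤ) ∣ c - 1 ∧ ((m / l : ℕ) : ℤ) ∣ c := by
    have hc : IsCoprime (l : ℤ) ((m / l : ℕ) : ℤ) := by
      rw [Nat.isCoprime_iff_coprime]
      exact Nat.coprime_of_squarefree_mul (by rw [Nat.mul_div_cancel' hlm]; exact hm)
    obtain ⟨a, b, hab⟩ := hc
    refine ⟨b * ((m / l : ℕ) : ℤ), ⟨-a, ?_⟩, Dvd.intro_left b rfl⟩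
    linear_combination hab
  unfold cl
  rw [dif_pos h]
  exact h.choose_spec

private theorem cl_mul {m : ℕ} (hm : Squarefree m) (hmT : ∀ x : T, m • x = 0) {l : ℕ} (hl : l.Prime)
    (hlm : l ∣ m) (x : T) : l • (cl m l • x) = 0 := by
  obtain ⟨c, hc⟩ := (cl_spec hm hl hlm).2
  have h1 : ((m / l : ℕ) : ℤ) * (l : ℤ) = (m : ℤ) := by
    rw [← Nat.cast_mul, Nat.div_mul_cancel hlm]
  have h2 : (l : ℤ) * (((m / l : ℕ) : ℤ) * c) = c * (m : ℤ) := by
    rw [← h1]
    ring
  rw [hc, ← natCast_zsmul, smul_smul, h2, mul_smul, natCast_zsmul, hmT, smul_zero]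

/-- the component in `Vp T l` -/
private theorem pr_ex {m : ℕ} (hm : Squarefree m) (hmT : ∀ x : T, m • x = 0) {l : ℕ} (hl : l.Prime)
    (hlm : l ∣ m) : ∃ π : T →+ Vp T l, ∀ x, ((π x : Vp T l) : T) = cl m l • x := by
  refine ⟨⟨⟨fun x => ⟨cl m l • x, cl_mul hm hmT hl hlm x⟩, ?_⟩, ?_⟩, fun x => rfl⟩
  · exact Subtype.ext (smul_zero _)
  · intro x y
    exact Subtype.ext (smul_add _ _ _)

private theorem cl_one {m : ℕ} (hm : Squarefree m) {l : ℕ} (hl : l.Prime)
    (hlm : l ∣ m) (x : T) (hx : l • x = 0) : cl m l • x = x := by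
  obtain ⟨c, hc⟩ := (cl_spec hm hl hlm).1
  have h1 : cl m l = c * (l : ℤ) + 1 := by linear_combination hc
  rw [h1, add_smul, one_smul, mul_smul, natCast_zsmul, hx, smul_zero, zero_add]

private theorem cl_zero {m : ℕ} (hm : Squarefree m) {l : ℕ} (hl : l.Prime)
    (hlm : l ∣ m) {p : ℕ} (hp : p.Prime) (hpm : p ∣ m) (hpl : p ≠ l) (x : T) (hx : p • x = 0) :
    cl m l • x = 0 := by
  have h1 : (p : ℤ) ∣ cl m l := by
    refine Dvd.dvd.trans ?_ (cl_spec hm hl hlm).2
    rw [Int.natCast_dvd_natCast]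
    have h2 : p ∣ l * (m / l) := by rw [Nat.mul_div_cancel' hlm]; exact hpm
    exact (Nat.Coprime.dvd_mul_left ((Nat.coprime_primes hp hl).2 hpl)).1 h2
  obtain ⟨c, hc⟩ := h1
  rw [hc, mul_comm, mul_smul, natCast_zsmul, hx, smul_zero]

private theorem cl_sum {m : ℕ} (hm : Squarefree m) (hmT : ∀ x : T, m • x = 0) (x : T) :
    ∑ l : m.primeFactors, cl m (l : ℕ) • x = x := by
  rw [← Finset.sum_smul]
  have h1 : (m : ℤ) ∣ ∑ l : m.primeFactors, cl m (l : ℕ) - 1 := by
    have h2 : (m : ℤ) = ∏ p ∈ m.primeFactors, (p : ℤ) := by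
      rw [← Nat.cast_prod, Nat.prod_primeFactors_of_squarefree hm]
    rw [h2]
    refine Finset.prod_dvd_of_coprime ?_ ?_
    · intro p hp q hq hpq
      change IsCoprime (p : ℤ) (q : ℤ)
      rw [Nat.isCoprime_iff_coprime]
      exact (Nat.coprime_primes (Nat.prime_of_mem_primeFactors hp) (Nat.prime_of_mem_primeFactors hq)).2 hpq
    · intro p hp
      have hpp := Nat.prime_of_mem_primeFactors hp
      have hpm := Nat.dvd_of_mem_primeFactors hp
      rw [← Finset.add_sum_erase Finset.univ _ (Finset.mem_univ (⟨p, hp⟩ : m.primeFactors)), add_sub_right_comm]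
      refine dvd_add (cl_spec hm hpp hpm).1 (Finset.dvd_sum fun q hq => ?_)
      have hqp : (q : ℕ) ≠ p := fun h => Finset.ne_of_mem_erase hq (Subtype.ext h)
      have hqq := Nat.prime_of_mem_primeFactors q.2
      have hqm := Nat.dvd_of_mem_primeFactors q.2
      refine Dvd.dvd.trans ?_ (cl_spec hm hqq hqm).2
      rw [Int.natCast_dvd_natCast]
      have h3 : p ∣ (q : ℕ) * (m / (q : ℕ)) := by rw [Nat.mul_div_cancel' hqm]; exact hpm
      exact (Nat.Coprime.dvd_mul_left ((Nat.coprime_primes hpp hqq).2 hqp.symm)).1 h3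
  obtain ⟨c, hc⟩ := h1
  have h2 : ∑ l : m.primeFactors, cl m (l : ℕ) = c * (m : ℤ) + 1 := by linear_combination hc
  rw [h2, add_smul, one_smul, mul_smul, natCast_zsmul, hmT, smul_zero, zero_add]

/-- the component of a label -/
private theorem lab_pr {m : ℕ} (hm : Squarefree m) (hmT : ∀ x : T, m • x = 0) {l : ℕ} (hl : l.Prime)
    (hlm : l ∣ m) {φ : Gal(QBar/K) →* Q} {P : DP K QBar} {S0 : Finset (Pl K)} (t : Lab φ P S0 T) :
    ∃ t' : Lab φ P S0 (Vp T l), ∀ v, (il φ P S0 T l t' : Pl K →₀ T) v = cl m l • (t : Pl K →₀ T) v := by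
  obtain ⟨π, hπ⟩ := pr_ex hm hmT hl hlm (T := T)
  refine ⟨⟨Finsupp.mapRange (fun x => π x) (map_zero π) t.1, ?_, ?_⟩, fun v => ?_⟩
  · intro v hv
    rw [Finsupp.mapRange_apply, t.2.1 v hv, map_zero]
  · intro v σ hσ
    rw [Finsupp.mapRange_apply]
    apply Subtype.ext
    change φ σ • ((π (t.1 v) : Vp T l) : T) = ((π (t.1 v) : Vp T l) : T)
    rw [hπ]
    have h1 := map_zsmul (DistribSMul.toAddMonoidHom T (φ σ)) (cl m l) (t.1 v)
    have h2 := t.2.2 v σ hσ
    change φ σ • (cl m l • t.1 v) = cl m l • (φ σ • t.1 v) at h1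
    rw [h1, h2]
  · change (((Finsupp.mapRange (fun x => π x) (map_zero π) t.1) v : Vp T l) : T) = _
    rw [Finsupp.mapRange_apply, hπ]

theorem ch1 {m : ℕ} (hm : Squarefree m) (hmT : ∀ x : T, m • x = 0)
    (hmQ : Nat.Coprime m (Nat.card Q)) {d : m.primeFactors → ℕ}
    (b : ∀ l : m.primeFactors, Bs (l : ℕ) (Vp T (l : ℕ)) (Fin (d l)))
    {φ : Gal(QBar/K) →* Q} (hs : Function.Surjective φ) {act : Q →* (F ≃+* F)}
    (h : KTriv act) (H : Acts F φ act) (P : DP K QBar) {S0 S' : Finset (Pl K)}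
    (H₀ : AddSubgroup (Lab φ P S0 T))
    (hray : ∀ (l : m.primeFactors) (t : Lab φ P S0 T) (y : Fin (d l) → Additive Fˣ),
        (∀ j, y j ∈ Ry F S') →
        (∀ v, (t : Pl K →₀ T) v = ((lb (b l).m h P S0 (dv S0 y) v : Vp T (l : ℕ)) : T)) → t ∈ H₀)
    (χ : AddChar (Lab φ P S0 T) ℂ) (hχ : χ ≠ 1) (hχ0 : ∀ t ∈ H₀, χ t = 1) (L : Set T)
    (hL : AddSubgroup.closure L = ⊤) (hLp : ∀ x ∈ L, (addOrderOf x).Prime) :
    ∃ (l : m.primeFactors) (R : (Fin (d l) → (Wp F S0 →₀ ℤ)) →+ Lab φ P S0 (Vp T (l : ℕ)))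
      (ξ : Lab φ P S0 (Vp T (l : ℕ)) →+ ZMod l) (x : Vp T (l : ℕ)) (U : Subgroup Q)
      (E : IntermediateField K F) (_ : NumberField E),
      (∀ δ v, (R δ : Pl K →₀ Vp T (l : ℕ)) v = lb (b l).m h P S0 δ v) ∧
      (∀ t, ep l (ξ t) = χ (il φ P S0 T l t)) ∧
      (∀ y : Fin (d l) → Additive Fˣ, (∀ j, y j ∈ Ry F S') → ξ (R (dv S0 y)) = 0) ∧
      (x : T) ∈ L ∧ SubF act U E ∧ (∀ a, a ∈ U ↔ a • x = x) ∧
      ∃ w' : Pl E, lam (b l) R ξ U E x w' ≠ 0 := by
  by_contra hno
  have hV : ∀ (l : m.primeFactors) (x : Vp T (l : ℕ)), (l : ℕ) • x = 0 := fun l x => Subtype.ext x.2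
  have hlV : ∀ (l : m.primeFactors) (t : Lab φ P S0 (Vp T (l : ℕ))), (l : ℕ) • t = 0 := by
    intro l t
    refine Subtype.ext (Finsupp.ext fun v => ?_)
    exact hV l (t.1 v)
  have h1 : ∀ l : m.primeFactors, ∃ ξ : Lab φ P S0 (Vp T (l : ℕ)) →+ ZMod l,
      ∀ t, ep l (ξ t) = χ (il φ P S0 T l t) := by
    intro l
    obtain ⟨ξ, hξ⟩ := xi_ex (Nat.prime_of_mem_primeFactors l.2) (hlV l)
      (χ.compAddMonoidHom (il φ P S0 T (l : ℕ)))
    exact ⟨ξ, fun t => hξ t⟩
  choose ξ hξ using h1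
  have h2 : ∃ l, ξ l ≠ 0 := by
    by_contra h0
    apply hχ
    refine DFunLike.ext _ _ fun t => ?_
    rw [AddChar.one_apply]
    have h3 : ∀ l : m.primeFactors, ∃ t' : Lab φ P S0 (Vp T (l : ℕ)),
        ∀ v, (il φ P S0 T l t' : Pl K →₀ T) v = cl m l • (t : Pl K →₀ T) v := fun l =>
      lab_pr hm hmT (Nat.prime_of_mem_primeFactors l.2) (Nat.dvd_of_mem_primeFactors l.2) t
    choose t' ht' using h3
    have h4 : t = ∑ l : m.primeFactors, il φ P S0 T (l : ℕ) (t' l) := by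
      refine Subtype.ext (Finsupp.ext fun v => ?_)
      rw [AddSubgroup.val_finsetSum, Finsupp.finsetSum_apply, Finset.sum_congr rfl fun l _ => ht' l v,
        cl_sum hm hmT]
    rw [h4, map_sum_prod]
    refine Finset.prod_eq_one fun l _ => ?_
    rw [← hξ l]
    have h5 : ξ l = 0 := by
      by_contra h6
      exact h0 ⟨l, h6⟩
    rw [h5, AddMonoidHom.zero_apply, ep_zero]
  obtain ⟨l, hl0⟩ := h2
  have hl := Nat.prime_of_mem_primeFactors l.2
  have hlm := Nat.dvd_of_mem_primeFactors l.2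
  obtain ⟨R, hR⟩ := lab_ex hl (b l) h H P S0
  have h3 : ∀ y : Fin (d l) → Additive Fˣ, (∀ j, y j ∈ Ry F S') → ξ l (R (dv S0 y)) = 0 := by
    intro y hy
    rw [← ep_eq_one hl, hξ l]
    refine hχ0 _ (hray l _ y hy fun v => ?_)
    rw [← hR]
    rfl
  obtain ⟨π, hπ⟩ := pr_ex hm hmT hl hlm (T := T)
  have hgen : AddSubgroup.closure {x : Vp T (l : ℕ) | (x : T) ∈ L} = ⊤ := by
    rw [eq_top_iff]
    intro x _
    have e1 : π (x : T) = x := by
      apply Subtype.ext
      rw [hπ]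
      exact cl_one hm hl hlm (x : T) x.2
    have e2 : ∀ y : T, π y ∈ AddSubgroup.closure {x : Vp T (l : ℕ) | (x : T) ∈ L} := by
      intro y
      have hy : y ∈ AddSubgroup.closure L := by
        rw [hL]
        exact AddSubgroup.mem_top y
      induction hy using AddSubgroup.closure_induction with
      | mem y hy =>
        by_cases hyl : addOrderOf y = (l : ℕ)
        · have e3 : (l : ℕ) • y = 0 := by
            rw [← hyl]
            exact addOrderOf_nsmul_eq_zero y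
          refine AddSubgroup.subset_closure ?_
          change ((π y : Vp T (l : ℕ)) : T) ∈ L
          rw [hπ, cl_one hm hl hlm y e3]
          exact hy
        · have e3 : π y = 0 := by
            apply Subtype.ext
            rw [hπ]
            exact cl_zero hm hl hlm (hLp y hy) (addOrderOf_dvd_of_nsmul_eq_zero (hmT y)) hyl y
              (addOrderOf_nsmul_eq_zero y)
          rw [e3]
          exact AddSubgroup.zero_mem _
      | zero =>
        rw [map_zero]
        exact AddSubgroup.zero_mem _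
      | add y z _ _ ihy ihz =>
        rw [map_add]
        exact AddSubgroup.add_mem _ ihy ihz
      | neg y _ ih =>
        rw [map_neg]
        exact AddSubgroup.neg_mem _ ih
    rw [← e1]
    exact e2 _
  refine non hl (hV l) (Nat.Coprime.coprime_dvd_left hlm hmQ) (b l) hs h H P R hR (ξ l) hl0
    {x : Vp T (l : ℕ) | (x : T) ∈ L} hgen ?_
  intro x hx U E hEn hE hU w'
  by_contra h4
  exact hno ⟨l, R, ξ l, x, U, E, hEn, hR, hξ l, h3, hx, hE, hU, w', h4⟩

end H12.KF
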