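import Pool.Agent.H1.LS4.Ics
import Pool.Agent.H1.LS4.Cva
import Pool.Agent.H1.LS4.Cmp
import Pool.Agent.H1.LS4.Cpf

/-!
# [H12 KF CS1] the character sum in one variable, 60-100 lines (model: H1/LS4/Li1.lean, case 2 of H1/LS4/Cor.lean)

For each degree `d ≤ q`, `d = [E : K]`: `E` is totally complex of degree `n d` (`tc_up`), `ics (n d)` for `ψ`, `cvs ∅ [ψ.χ] M = ∑_{I ∈ IN E M} ψ I` for `M ≥ 1` (`cvs`, `cnv`, `e1`), `cmp K 1 d G` with `L = [ψ.χ]`. Take the maximum of the constants, the sum of the exponents `A`, the minimum of the `δ` over `d ≤ q` (finite; induction or `Finset`).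
-/

set_option autoImplicit false

open scoped NumberField Classical
open NumberField H63.MA H36.QA H57.LI

noncomputable section

namespace H12.KF

private theorem cs1_norm {F : Type} [Field F] [NumberField F] {𝔣 : Ideal (𝓞 F)} (χ : RC F 𝔣) (I : Ideal (𝓞 F)) :
    ‖χ.χ I‖ ≤ 1 := by
  by_cases hI : I = ⊥
  · have h : χ.χ I = 0 := by
      rw [hI]
      exact map_zero χ.χ
    rw [h, norm_zero]
    exact zero_le_one
  by_cases h : IsCoprime I 𝔣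
  · rw [χ.norm_one I hI h]
  · rw [χ.zero_of I h, norm_zero]
    exact zero_le_one

private theorem cs1_mono {C C' D M δ δ' : ℝ} {A A' b : ℕ} (h0 : 0 ≤ C) (hC : C ≤ C') (hA : A ≤ A') (hδ : δ' ≤ δ)
    (hD : 1 ≤ D) (hM : 1 ≤ M) :
    C * C ^ b * D ^ A * M ^ (1 - δ) ≤ C' * C' ^ b * D ^ A' * M ^ (1 - δ') := by
  have h0' : 0 ≤ C' := h0.trans hC
  have hD0 : 0 ≤ D := by linarith
  have hM0 : 0 ≤ M := by linarith
  refine mul_le_mul ?_ (Real.rpow_le_rpow_of_exponent_le hM (by linarith)) (Real.rpow_nonneg hM0 _) (by positivity)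
  refine mul_le_mul ?_ (pow_le_pow_right₀ hD hA) (by positivity) (by positivity)
  exact mul_le_mul hC (pow_le_pow_left₀ h0 hC b) (by positivity) h0'

/-- one degree -/
private theorem cs1_deg (K : Type) [Field K] [NumberField K] {n : ℕ} (hn : 0 < n) (hK : TC K n) (d : ℕ) (hd : 0 < d)
    (G : ℝ) :
    ∃ C : ℝ, 1 ≤ C ∧ ∃ A : ℕ, ∃ δ : ℝ, 0 < δ ∧ δ ≤ 1 / 4 ∧
      ∀ (E : Type) [Field E] [NumberField E] [Algebra K E], Module.finrank K E = d →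
        ∀ 𝔣 : Ideal (𝓞 E), 𝔣 ≠ ⊥ → ∀ ψ : RC E 𝔣, ψ.Non → ∀ g : Pl K → ℂ, (∀ v, ‖g v‖ ≤ G) →
          ∀ B : Finset (Pl K),
            (∀ v, v ∉ B → g v = ∑ᶠ w ∈ {w : Pl E | Over w v ∧ nm w = nm v}, ψ.χ w.asIdeal) →
            ∀ M : ℝ, 1 ≤ M → ‖∑ s ∈ AF K M, ∏ v ∈ s, g v‖ ≤
              C * C ^ B.card * (dd E * Ideal.absNorm 𝔣) ^ A * M ^ (1 - δ) := by
  obtain ⟨C₁, A₁, δ, hC₁, hδ, hδ4, hcva⟩ := H1.LS4.cva (n * d) (Nat.mul_pos hn hd)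
    (H1.LS4.ics (n * d) (Nat.mul_pos hn hd)) 1 le_rfl
  obtain ⟨C₀, hC₀, hcmp⟩ := H1.LS4.cmp K 1 d G
  have hC0' : 0 ≤ C₀ := by linarith
  have hC1' : 0 ≤ C₁ := by linarith
  refine ⟨C₀ * C₁, one_le_mul_of_one_le_of_one_le hC₀ hC₁, A₁, δ, hδ, hδ4, ?_⟩
  intro E _ _ _ hE 𝔣 h𝔣 ψ hψ g hg B hid M hM
  have hdd := one_le_dd E
  have hdd0 : 0 ≤ dd E := by linarith
  have hNE : (0 : ℝ) ≤ Ideal.absNorm 𝔣 := Nat.cast_nonneg _
  have hD0 : 0 ≤ C₁ * (dd E * Ideal.absNorm 𝔣) ^ A₁ := by positivity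
  have h1 := hcmp E hE.le [ψ.χ] le_rfl
    (fun φ hφ I => by rw [List.mem_singleton.1 hφ]; exact cs1_norm ψ I) g hg B
    (fun l hl => by
      rw [List.map_singleton, List.sum_singleton]
      exact hid l hl)
    (C₁ * (dd E * Ideal.absNorm 𝔣) ^ A₁) δ hD0 hδ hδ4
    (fun M hM => hcva E (H1.LS4.tc_up hK hE) 𝔣 h𝔣 [ψ] rfl
      (fun φ hφ => by rw [List.mem_singleton.1 hφ]; exact hψ) M hM) M hM
  refine h1.trans (mul_le_mul_of_nonneg_right ?_ (Real.rpow_nonneg (by linarith) _))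
  have h2 : C₀ ^ B.card ≤ (C₀ * C₁) ^ B.card := by
    refine pow_le_pow_left₀ hC0' ?_ _
    nlinarith
  calc C₀ * C₀ ^ B.card * (C₁ * (dd E * Ideal.absNorm 𝔣) ^ A₁)
      = (C₀ * C₁) * C₀ ^ B.card * (dd E * Ideal.absNorm 𝔣) ^ A₁ := by ring
    _ ≤ (C₀ * C₁) * (C₀ * C₁) ^ B.card * (dd E * Ideal.absNorm 𝔣) ^ A₁ := by
        refine mul_le_mul_of_nonneg_right (mul_le_mul_of_nonneg_left h2 (by positivity)) (by positivity)

theorem cs1 (K : Type) [Field K] [NumberField K] {n : ℕ} (hK : TC K n) (q : ℕ) (G : ℝ) :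
    ∃ C : ℝ, 1 ≤ C ∧ ∃ A : ℕ, ∃ δ : ℝ, 0 < δ ∧ δ ≤ 1 / 4 ∧
      ∀ (E : Type) [Field E] [NumberField E] [Algebra K E], Module.finrank K E ≤ q →
        ∀ 𝔣 : Ideal (𝓞 E), 𝔣 ≠ ⊥ → ∀ ψ : RC E 𝔣, ψ.Non → ∀ g : Pl K → ℂ, (∀ v, ‖g v‖ ≤ G) →
          ∀ B : Finset (Pl K),
            (∀ v, v ∉ B → g v = ∑ᶠ w ∈ {w : Pl E | Over w v ∧ nm w = nm v}, ψ.χ w.asIdeal) →
            ∀ M : ℝ, 1 ≤ M → ‖∑ s ∈ AF K M, ∏ v ∈ s, g v‖ ≤
              C * C ^ B.card * (dd E * Ideal.absNorm 𝔣) ^ A * M ^ (1 - δ) := by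
  have hn : 0 < n := by
    rw [← hK.2]
    exact Module.finrank_pos
  induction q with
  | zero =>
    refine ⟨1, le_rfl, 0, 1 / 4, by norm_num, le_rfl, ?_⟩
    intro E _ _ _ hE
    have h1 : FiniteDimensional K E := Module.Finite.of_restrictScalars_finite ℚ K E
    have h2 : 0 < Module.finrank K E := Module.finrank_pos
    omega
  | succ q ih =>
    obtain ⟨C₁, hC₁, A₁, δ₁, hδ₁, hδ₁4, h₁⟩ := ih
    obtain ⟨C₂, hC₂, A₂, δ₂, hδ₂, hδ₂4, h₂⟩ := cs1_deg K hn hK (q + 1) (Nat.succ_pos q) G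
    refine ⟨max C₁ C₂, le_max_of_le_left hC₁, A₁ + A₂, min δ₁ δ₂, lt_min hδ₁ hδ₂, (min_le_left _ _).trans hδ₁4, ?_⟩
    intro E _ _ _ hE 𝔣 h𝔣 ψ hψ g hg B hid M hM
    have hN : (1 : ℝ) ≤ Ideal.absNorm 𝔣 := by
      have h : Ideal.absNorm 𝔣 ≠ 0 := fun h => h𝔣 (Ideal.absNorm_eq_zero_iff.1 h)
      exact_mod_cast Nat.one_le_iff_ne_zero.2 h
    have hD : 1 ≤ dd E * Ideal.absNorm 𝔣 := one_le_mul_of_one_le_of_one_le (one_le_dd E) hN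
    rcases Nat.lt_or_ge (Module.finrank K E) (q + 1) with h | h
    · exact (h₁ E (Nat.lt_succ_iff.1 h) 𝔣 h𝔣 ψ hψ g hg B hid M hM).trans
        (cs1_mono (by linarith) (le_max_left _ _) (by omega) (min_le_left _ _) hD hM)
    · exact (h₂ E (le_antisymm hE h) 𝔣 h𝔣 ψ hψ g hg B hid M hM).trans
        (cs1_mono (by linarith) (le_max_right _ _) (by omega) (min_le_right _ _) hD hM)

end H12.KF
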