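import Pool.Agent.H12.KF.Lam
import Pool.Agent.H51.SN.Plc

/-!
# [H12 KF DEG] the primes of degree one of the field of the stabiliser, 100-150 lines

`x : V`, `U` its stabiliser, `E` the field of `U`, `v` unramified, `w = wp F P v`, `D = φ (dec (P.P v))` (cyclic, generated by `φ (fr P v)`, `dec_fr`). The map `a • x ↦ un E (a⁻¹ w)` from the elements of the orbit `Q x` fixed by `D` to the primes of `E` over `v` of norm `nm v`:
well defined and injective: `un (a⁻¹ w) = un (a'⁻¹ w)` iff `a'⁻¹ w = c a⁻¹ w`, `c ∈ U` (`un_tr`, `un_act`), iff `a c⁻¹ a'⁻¹` in the stabiliser of `w`, `= D` (`wq_st`, `wq_dec`), iff `a' ∈ D a U` iff (`D` fixes `a x`: `D a ⊆ a U`) `a' ∈ a U` iff `a' x = a x`.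
Norm: `un (a⁻¹ w)` has the norm `nm v` iff `D ⊆ a U a⁻¹`, i.e. `D` fixes `a x`: the prime `w₁ = a⁻¹ w` of `F` over `w' = un w₁`; the decomposition group of `w₁` in `Q` is `a⁻¹ D a` (order `f(w₁|v)`: unramified), in `U` it is `a⁻¹ D a ∩ U` (order `f(w₁|w')`); `f(w'|v) = 1` iff the orders are equal. If the library has only Frobenius elements:
`Fr = a⁻¹ φ(fr) a` acts on the residue field of `w₁` as `z ↦ z^(nm v)`; `f(w'|v) = 1`: every `z ∈ 𝓞 E` has `z^(nm v) - z ∈ w'`; if `Fr ∈ U` it fixes `z`: so `nm w' = nm v` (`nm w'` is the number of the elements of `𝓞 E / w'`, all roots of `X^(nm v) - X`). Conversely if `nm w' = nm v`: `Fr` and the identity agree on the residue field of `w'`; the group generated by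
`U` and `Fr`: counting `∑ over the primes w' over v of f(w'|v) = [E : K] = #(Q/U)` and the orbits of `D` on `Q/U` (the primes over `v` ↔ the `D`-orbits, `f` = length of the orbit): see `H57.SL.Idn`/`H77.AQ` (`idn_mq`) for degree three; use `Ideal.sum_ramification_inertia` and `f(w'|v) ≤` length of the orbit (`Fr^k ∈ U` acts trivially on `𝓞 E / w'` for
`k` = length: so `#(𝓞 E/w') ≤ (nm v)^k`), the sum of the lengths is `#(Q/U)`: equality for every prime.
Surjective: every prime of `E` over `v` is `un` of some prime `a⁻¹ w` (`wq_tr`).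
-/

set_option autoImplicit false

open scoped NumberField
open IsDedekindDomain H38.ML
open scoped Classical

noncomputable section

namespace H12.KF

open H63.MA H51.SN H67.AQ

variable {K : IntermediateField ℚ QBar} [NumberField K] {Q : Type} [Group Q] [Fintype Q]
  {F : IntermediateField K QBar} [NumberField F] {V : Type} [AddCommGroup V] [DistribMulAction Q V]

private theorem pm_symm (act : Q →* (F ≃+* F)) (a : Q) (w : Pl F) (z : 𝓞 F) :
    z ∈ (pm (act a⁻¹) w).asIdeal ↔
      NumberField.RingOfIntegers.mapRingEquiv (act a) z ∈ w.asIdeal := by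
  have h : (NumberField.RingOfIntegers.mapRingEquiv (act a⁻¹)).symm z =
      NumberField.RingOfIntegers.mapRingEquiv (act a) z := by
    rw [RingEquiv.symm_apply_eq]
    apply NumberField.RingOfIntegers.coe_injective
    change (z : F) = act a⁻¹ (act a (z : F))
    rw [map_inv]
    exact ((act a).symm_apply_apply (z : F)).symm
  rw [← h]
  exact Iff.rfl

private theorem fr_F {φ : Gal(QBar/K) →* Q} {act : Q →* (F ≃+* F)} (H : Acts F φ act)
    (P : DP K QBar) (v : Pl K) (z : 𝓞 F) :
    NumberField.RingOfIntegers.mapRingEquiv (act (φ (H57.SL.fr P v))) z - z ^ nm v ∈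
      (wp F P v).asIdeal := by
  have h1 := H57.SL.fr_spec P v (algebraMap (𝓞 F) (𝓞 QBar) z)
  change algebraMap (𝓞 F) (𝓞 QBar)
    (NumberField.RingOfIntegers.mapRingEquiv (act (φ (H57.SL.fr P v))) z - z ^ nm v) ∈ P.P v
  have h2 : algebraMap (𝓞 F) (𝓞 QBar)
      (NumberField.RingOfIntegers.mapRingEquiv (act (φ (H57.SL.fr P v))) z) =
      H57.SL.fr P v • algebraMap (𝓞 F) (𝓞 QBar) z := by
    apply NumberField.RingOfIntegers.ext
    exact H.act (H57.SL.fr P v) (z : F)
  rw [map_sub, map_pow, h2]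
  exact h1

/-- the inertia group of an unramified place in `Q` is trivial -/
private theorem in_F {φ : Gal(QBar/K) →* Q} (hs : Function.Surjective φ)
    {act : Q →* (F ≃+* F)} (H : Acts F φ act) (P : DP K QBar) {v : Pl K}
    (hin : ∀ τ ∈ (P.P v).inertia Gal(QBar/K), φ τ = 1) (h : Q)
    (hh : ∀ z : 𝓞 F, NumberField.RingOfIntegers.mapRingEquiv (act h) z - z ∈
      (wp F P v).asIdeal) : h = 1 := by
  have hfd : FiniteDimensional K F := H.fin
  have hK := acts_ktriv hs H
  obtain ⟨δ, hδ⟩ : ∃ δ : Gal(F/K), ∀ x : F, δ x = act h x :=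
    ⟨AlgEquiv.ofRingEquiv (f := act h) (fun x => hK h x), fun x => rfl⟩
  obtain ⟨τ, hτ, hτM⟩ := CDa_lift F (P.P v) (P.prime v) δ (by
    intro x
    have h1 := hh x
    have h2 : δ • x = NumberField.RingOfIntegers.mapRingEquiv (act h) x := by
      apply NumberField.RingOfIntegers.coe_injective
      exact hδ x
    rw [h2]
    exact h1)
  obtain ⟨ρ, rfl⟩ := hs h
  have h1 : τ⁻¹ * ρ ∈ F.fixingSubgroup := by
    rw [IntermediateField.mem_fixingSubgroup_iff]
    intro x hx
    have h2 : ρ x = τ x := by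
      have h3 := hτM ⟨x, hx⟩
      rw [hδ, H.act] at h3
      exact h3.symm
    rw [AlgEquiv.mul_apply, h2]
    exact AlgEquiv.symm_apply_apply τ x
  rw [H.fix] at h1
  have h2 := MonoidHom.mem_ker.1 h1
  rw [map_mul, map_inv, hin τ hτ, inv_one, one_mul] at h2
  exact h2

/-- the action of `U` on the integers -/
@[reducible] private def usm (act : Q →* (F ≃+* F)) (U : Subgroup Q) :
    MulSemiringAction U (𝓞 F) where
  smul u z := NumberField.RingOfIntegers.mapRingEquiv (act u) z
  one_smul z := by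
    apply NumberField.RingOfIntegers.coe_injective
    change act ((1 : U) : Q) (z : F) = z
    rw [OneMemClass.coe_one, map_one]
    rfl
  mul_smul u u' z := by
    apply NumberField.RingOfIntegers.coe_injective
    change act ((u * u' : U) : Q) (z : F) = act u (act u' z)
    rw [Subgroup.coe_mul, map_mul]
    rfl
  smul_zero u := map_zero _
  smul_add u := map_add _
  smul_one u := map_one _
  smul_mul u := map_mul _

/-- a Frobenius element of `U` -/
private theorem fr_U {act : Q →* (F ≃+* F)} {U : Subgroup Q} {E : IntermediateField K F}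
    [NumberField E] (hE : SubF act U E) (w : Pl F) :
    ∃ u ∈ U, ∀ z : 𝓞 F, NumberField.RingOfIntegers.mapRingEquiv (act u) z - z ^ nm (un E w) ∈
      w.asIdeal := by
  letI := usm act U
  have hc : SMulCommClass U (𝓞 E) (𝓞 F) := by
    refine ⟨fun u r z => ?_⟩
    rw [Algebra.smul_def, Algebra.smul_def]
    change NumberField.RingOfIntegers.mapRingEquiv (act u) (algebraMap (𝓞 E) (𝓞 F) r * z) =
      algebraMap (𝓞 E) (𝓞 F) r * NumberField.RingOfIntegers.mapRingEquiv (act u) z
    rw [map_mul]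
    congr 1
    apply NumberField.RingOfIntegers.coe_injective
    exact (hE.mem _).1 (r : E).2 u u.2
  have hi : Algebra.IsInvariant (𝓞 E) (𝓞 F) U := by
    refine ⟨fun b hb => ?_⟩
    have h1 : (b : F) ∈ E := by
      rw [hE.mem]
      intro a ha
      exact congrArg (fun z : 𝓞 F => (z : F)) (hb ⟨a, ha⟩)
    have h2 : IsIntegral ℤ (⟨(b : F), h1⟩ : E) := by
      rw [← isIntegral_algebraMap_iff (B := F) (FaithfulSMul.algebraMap_injective E F)]
      exact b.2
    refine ⟨⟨⟨(b : F), h1⟩, h2⟩, ?_⟩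
    apply NumberField.RingOfIntegers.coe_injective
    rfl
  have hpr : w.asIdeal.IsPrime := w.isPrime
  have hfin : Finite (𝓞 F ⧸ w.asIdeal) := Ideal.finiteQuotientOfFreeOfNeBot _ w.ne_bot
  obtain ⟨u, hu⟩ := IsArithFrobAt.exists_of_isInvariant (𝓞 E) U w.asIdeal
  refine ⟨u, u.2, fun z => ?_⟩
  have h1 := hu z
  have h2 : Nat.card (𝓞 E ⧸ w.asIdeal.under (𝓞 E)) = nm (un E w) := by
    have h3 : w.asIdeal.under (𝓞 E) = (un E w).asIdeal := un_over E w
    rw [h3]
    rfl
  rw [h2] at h1
  exact h1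

theorem deg_inj {φ : Gal(QBar/K) →* Q} (hs : Function.Surjective φ) {act : Q →* (F ≃+* F)}
    (H : Acts F φ act) (P : DP K QBar) {x : V} {U : Subgroup Q} (hU : ∀ a, a ∈ U ↔ a • x = x)
    {E : IntermediateField K F} [NumberField E] (hE : SubF act U E) {v : Pl K} {a a' : Q}
    (ha : ∀ σ ∈ dec (K := K) (P.P v), φ σ • (a • x) = a • x) :
    un E (pm (act a⁻¹) (wp F P v)) = un E (pm (act a'⁻¹) (wp F P v)) ↔ a • x = a' • x := by
  constructor
  · intro h
    obtain ⟨c, hc, h1⟩ := un_tr E hs H hE h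
    have h2 : pm (act (a' * (c * a⁻¹))) (wp F P v) = wp F P v := by
      rw [pm_act_mul, pm_act_mul, h1, ← pm_act_mul, mul_inv_cancel, pm_act_one]
    obtain ⟨σ, hσ, h3⟩ := wq_st hs H P v h2
    have h4 := ha σ hσ
    rw [h3, smul_smul, mul_assoc, mul_assoc, inv_mul_cancel, mul_one, mul_smul,
      (hU c).1 hc] at h4
    exact h4.symm
  · intro h
    have h1 : a'⁻¹ * a ∈ U := by rw [hU, mul_smul, h, inv_smul_smul]
    have h2 : pm (act a'⁻¹) (wp F P v) = pm (act (a'⁻¹ * a)) (pm (act a⁻¹) (wp F P v)) := by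
      rw [← pm_act_mul, mul_assoc, mul_inv_cancel, mul_one]
    rw [h2, un_act E hE h1]

private theorem over_un {φ : Gal(QBar/K) →* Q} (hs : Function.Surjective φ)
    {act : Q →* (F ≃+* F)} (H : Acts F φ act) (P : DP K QBar) (E : IntermediateField K F)
    [NumberField E] (v : Pl K) (a : Q) : Over (un E (pm (act a) (wp F P v))) v := by
  have h1 := plc_und H hs P v a
  have h2 : (pm (act a) (wp F P v)).asIdeal.comap (algebraMap (𝓞 E) (𝓞 F)) =
    (un E (pm (act a) (wp F P v))).asIdeal := un_over E _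
  unfold Over
  rw [← h2, ← h1]
  exact Ideal.ext fun z => Iff.rfl

private theorem nm_ov {E : Type} [Field E] [NumberField E] [Algebra K E] {w : Pl E} {v : Pl K}
    (h : Over w v) : nm v ≤ nm w := by
  have hfin : Finite (𝓞 E ⧸ w.asIdeal) := Ideal.finiteQuotientOfFreeOfNeBot _ w.ne_bot
  have h1 : v.asIdeal = w.asIdeal.comap (algebraMap (𝓞 K) (𝓞 E)) := h.symm
  exact Nat.card_le_card_of_injective (α := 𝓞 K ⧸ v.asIdeal) (β := 𝓞 E ⧸ w.asIdeal)
    (Ideal.quotientMap w.asIdeal (algebraMap (𝓞 K) (𝓞 E)) h1.le)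
    (Ideal.quotientMap_injective' h1.ge)

private theorem nm_rt {E : Type} [Field E] [NumberField E] (w : Pl E) {q : ℕ} (hq : 1 < q)
    (h : ∀ z : 𝓞 E, z ^ q - z ∈ w.asIdeal) : nm w ≤ q := by
  have hfin : Finite (𝓞 E ⧸ w.asIdeal) := Ideal.finiteQuotientOfFreeOfNeBot _ w.ne_bot
  have hmax : w.asIdeal.IsMaximal := w.isMaximal
  letI := Ideal.Quotient.field w.asIdeal
  letI := Fintype.ofFinite (𝓞 E ⧸ w.asIdeal)
  have h0 : (Polynomial.X ^ q - Polynomial.X : Polynomial (𝓞 E ⧸ w.asIdeal)) ≠ 0 :=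
    FiniteField.X_pow_card_sub_X_ne_zero _ hq
  have h1 := Polynomial.card_le_degree_of_subset_roots
    (p := (Polynomial.X ^ q - Polynomial.X : Polynomial (𝓞 E ⧸ w.asIdeal)))
    (Z := Finset.univ) (by
      intro z _
      rw [Polynomial.mem_roots h0, Polynomial.IsRoot.def]
      obtain ⟨z, rfl⟩ := Ideal.Quotient.mk_surjective z
      rw [Polynomial.eval_sub, Polynomial.eval_pow, Polynomial.eval_X, ← map_pow, ← map_sub]
      exact Ideal.Quotient.eq_zero_iff_mem.2 (h z))
  rw [FiniteField.X_pow_card_sub_X_natDegree_eq _ hq, Finset.card_univ,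
    ← Nat.card_eq_fintype_card] at h1
  exact h1

theorem deg_nm {φ : Gal(QBar/K) →* Q} (hφ : FT φ) (hs : Function.Surjective φ)
    {act : Q →* (F ≃+* F)} (H : Acts F φ act) (P : DP K QBar) {x : V} {U : Subgroup Q}
    (hU : ∀ a, a ∈ U ↔ a • x = x) {E : IntermediateField K F} [NumberField E]
    (hE : SubF act U E) {v : Pl K} (hin : ∀ τ ∈ (P.P v).inertia Gal(QBar/K), φ τ = 1) (a : Q) :
    nm (un E (pm (act a⁻¹) (wp F P v))) = nm v ↔
      ∀ σ ∈ dec (K := K) (P.P v), φ σ • (a • x) = a • x := by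
  have hov := over_un hs H P E v a⁻¹
  have hq : 1 < nm v := one_lt_nm v
  constructor
  · intro hn
    obtain ⟨u, hu, hfr⟩ := fr_U hE (pm (act a⁻¹) (wp F P v))
    rw [hn] at hfr
    have hgz : ∀ b : Q, ∀ z : 𝓞 F, NumberField.RingOfIntegers.mapRingEquiv (act (a * b)) z =
        NumberField.RingOfIntegers.mapRingEquiv (act a)
          (NumberField.RingOfIntegers.mapRingEquiv (act b) z) := by
      intro b z
      apply NumberField.RingOfIntegers.coe_injective
      change act (a * b) (z : F) = act a (act b (z : F))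
      rw [map_mul]
      rfl
    have hkey : (φ (H57.SL.fr P v))⁻¹ * (a * u * a⁻¹) = 1 := by
      refine in_F hs H P hin _ fun z => ?_
      have h1 := hfr (NumberField.RingOfIntegers.mapRingEquiv (act a⁻¹) z)
      rw [pm_symm, map_sub, map_pow, ← hgz, ← hgz] at h1
      have h2 : NumberField.RingOfIntegers.mapRingEquiv (act (a * a⁻¹)) z = z := by
        apply NumberField.RingOfIntegers.coe_injective
        change act (a * a⁻¹) (z : F) = z
        rw [mul_inv_cancel, map_one]
        rfl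
      have h3 : NumberField.RingOfIntegers.mapRingEquiv (act (a * u))
          (NumberField.RingOfIntegers.mapRingEquiv (act a⁻¹) z) =
          NumberField.RingOfIntegers.mapRingEquiv (act (a * u * a⁻¹)) z := by
        apply NumberField.RingOfIntegers.coe_injective
        change act (a * u) (act a⁻¹ (z : F)) = act (a * u * a⁻¹) (z : F)
        rw [map_mul act (a * u)]
        rfl
      rw [h2, h3] at h1
      have h4 := (wp F P v).asIdeal.sub_mem h1 (fr_F H P v z)
      rw [sub_sub_sub_cancel_right] at h4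
      have h5 : pm (act ((φ (H57.SL.fr P v))⁻¹)⁻¹) (wp F P v) = wp F P v := by
        rw [inv_inv]
        exact wq_dec H P v (H77.AQ.fr_dec P v)
      rw [← h5, pm_symm, map_sub] at h4
      have h6 : NumberField.RingOfIntegers.mapRingEquiv (act (φ (H57.SL.fr P v))⁻¹)
          (NumberField.RingOfIntegers.mapRingEquiv (act (a * u * a⁻¹)) z) =
          NumberField.RingOfIntegers.mapRingEquiv
            (act ((φ (H57.SL.fr P v))⁻¹ * (a * u * a⁻¹))) z := by
        apply NumberField.RingOfIntegers.coe_injective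
        change act (φ (H57.SL.fr P v))⁻¹ (act (a * u * a⁻¹) (z : F)) =
          act ((φ (H57.SL.fr P v))⁻¹ * (a * u * a⁻¹)) (z : F)
        rw [map_mul act (φ (H57.SL.fr P v))⁻¹]
        rfl
      have h7 : NumberField.RingOfIntegers.mapRingEquiv (act (φ (H57.SL.fr P v))⁻¹)
          (NumberField.RingOfIntegers.mapRingEquiv (act (φ (H57.SL.fr P v))) z) = z := by
        apply NumberField.RingOfIntegers.coe_injective
        change act (φ (H57.SL.fr P v))⁻¹ (act (φ (H57.SL.fr P v)) (z : F)) = z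
        rw [map_inv]
        exact (act (φ (H57.SL.fr P v))).symm_apply_apply (z : F)
      rw [h6, h7] at h4
      exact h4
    have hfx : φ (H57.SL.fr P v) • (a • x) = a • x := by
      rw [inv_mul_eq_one] at hkey
      rw [hkey, smul_smul, inv_mul_cancel_right, mul_smul, (hU u).1 hu]
    intro σ hσ
    obtain ⟨k, hk⟩ := H77.AQ.dec_fr P v φ hφ hin σ hσ
    rw [hk]
    clear hk
    induction k with
    | zero => rw [pow_zero, one_smul]
    | succ k ih => rw [pow_succ, mul_smul, hfx, ih]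
  · intro hD
    have hfr := hD _ (H77.AQ.fr_dec P v)
    refine le_antisymm (nm_rt _ hq ?_) (nm_ov hov)
    intro z
    have h2 : (pm (act a⁻¹) (wp F P v)).asIdeal.comap (algebraMap (𝓞 E) (𝓞 F)) =
      (un E (pm (act a⁻¹) (wp F P v))).asIdeal := un_over E _
    rw [← h2, Ideal.mem_comap, pm_symm, map_sub, map_pow, map_sub, map_pow]
    have h3 := fr_F H P v (NumberField.RingOfIntegers.mapRingEquiv (act a)
      (algebraMap (𝓞 E) (𝓞 F) z))
    have h4 : NumberField.RingOfIntegers.mapRingEquiv (act (φ (H57.SL.fr P v)))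
        (NumberField.RingOfIntegers.mapRingEquiv (act a) (algebraMap (𝓞 E) (𝓞 F) z)) =
        NumberField.RingOfIntegers.mapRingEquiv (act a) (algebraMap (𝓞 E) (𝓞 F) z) := by
      apply NumberField.RingOfIntegers.coe_injective
      change act (φ (H57.SL.fr P v)) (act a ((z : E) : F)) = act a ((z : E) : F)
      have h5 : a⁻¹ * φ (H57.SL.fr P v) * a ∈ U := by
        rw [hU, mul_smul, mul_smul, hfr, inv_smul_smul]
      have h6 := (hE.mem _).1 (z : E).2 _ h5
      have h7 := congrArg (act a) h6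
      have h8 : act a (act (a⁻¹ * φ (H57.SL.fr P v) * a) ((z : E) : F)) =
          act (φ (H57.SL.fr P v)) (act a ((z : E) : F)) := by
        have h9 : φ (H57.SL.fr P v) * a = a * (a⁻¹ * φ (H57.SL.fr P v) * a) := by group
        have h10 := congrArg (fun b => act b ((z : E) : F)) h9
        simp only [map_mul] at h10
        simp only [map_mul]
        exact h10.symm
      rw [← h8]
      exact h7
    rw [h4] at h3
    have h5 := (wp F P v).asIdeal.neg_mem h3
    rw [neg_sub] at h5
    exact h5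

/-- the sum over the fixed elements of the orbit is the sum over the primes of degree one -/
theorem deg_sum {φ : Gal(QBar/K) →* Q} (hφ : FT φ) (hs : Function.Surjective φ)
    {act : Q →* (F ≃+* F)} (H : Acts F φ act) (P : DP K QBar) [Finite V] {x : V} {U : Subgroup Q}
    (hU : ∀ a, a ∈ U ↔ a • x = x) {E : IntermediateField K F} [NumberField E]
    (hE : SubF act U E) {v : Pl K} (hin : ∀ τ ∈ (P.P v).inertia Gal(QBar/K), φ τ = 1)
    (g : V → ℂ) (g' : Pl E → ℂ)
    (hg : ∀ a, (∀ σ ∈ dec (K := K) (P.P v), φ σ • (a • x) = a • x) →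
      g' (un E (pm (act a⁻¹) (wp F P v))) = g (a • x)) :
    ∑ᶠ s ∈ {s : V | (∃ a : Q, s = a • x) ∧ ∀ σ ∈ dec (K := K) (P.P v), φ σ • s = s}, g s =
      ∑ᶠ w ∈ {w : Pl E | Over w v ∧ nm w = nm v}, g' w := by
  obtain ⟨e, he⟩ : ∃ e : V → Pl E, ∀ s, (∃ a : Q, s = a • x) →
      ∃ a : Q, s = a • x ∧ e s = un E (pm (act a⁻¹) (wp F P v)) := by
    refine ⟨fun s => if h : ∃ a : Q, s = a • x then un E (pm (act h.choose⁻¹) (wp F P v))
      else un E (wp F P v), fun s h => ⟨h.choose, h.choose_spec, ?_⟩⟩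
    exact dif_pos h
  refine finsum_mem_eq_of_bijOn e ⟨?_, ?_, ?_⟩ ?_
  · rintro s ⟨hs1, hs2⟩
    obtain ⟨a, rfl, h1⟩ := he s hs1
    rw [h1]
    exact ⟨over_un hs H P E v a⁻¹, (deg_nm hφ hs H P hU hE hin a).2 hs2⟩
  · rintro s ⟨hs1, hs2⟩ s' ⟨hs1', hs2'⟩ hee
    obtain ⟨a, rfl, h1⟩ := he s hs1
    obtain ⟨a', rfl, h1'⟩ := he s' hs1'
    rw [h1, h1'] at hee
    exact (deg_inj hs H P hU hE hs2).1 hee
  · rintro w' ⟨hw1, hw2⟩
    obtain ⟨w, hw⟩ := exists_over (L := F) w'
    obtain ⟨v', b, hb1, rfl⟩ := wq_tr hs H P w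
    have hun : w' = un E (pm (act b) (wp F P v')) := below_unique hw (un_over E _)
    have hv : v' = v := below_unique (over_un hs H P E v' b) (hun ▸ hw1)
    subst hv
    have hb : b = (b⁻¹)⁻¹ := (inv_inv b).symm
    rw [hun, hb] at hw2
    have h2 := (deg_nm hφ hs H P hU hE hin b⁻¹).1 hw2
    refine ⟨b⁻¹ • x, ⟨⟨b⁻¹, rfl⟩, h2⟩, ?_⟩
    obtain ⟨c, hc, h1⟩ := he (b⁻¹ • x) ⟨b⁻¹, rfl⟩
    rw [h1, hun, hb]
    rw [hc] at h2
    exact (deg_inj hs H P hU hE h2).2 hc.symm
  · rintro s ⟨hs1, hs2⟩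
    obtain ⟨a, rfl, h1⟩ := he s hs1
    rw [h1]
    exact (hg a hs2).symm

end H12.KF
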