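import Pool.Agent.H12.KF.Lab
import Pool.Agent.H63.MA.KumB
import Pool.Agent.H63.MA.Ray
import Pool.Agent.H51.SN.Nft
import Pool.Agent.H51.SN.Plc
import Pool.Agent.H63.MC.CDa

/-!
# [H12 KF SUB] subfields of `F` (definitions, complete, and elementary facts, 60-100 lines)

`E : IntermediateField K F` the field of `U ≤ Q`: `SubF act U E`.
* `un w`: the prime of `E` under the prime `w` of `F`; `idx w`: the ramification index.
* `xd D`: the divisor `w ↦ idx w * D (un w)` of `F` outside `S0` of the divisor `D` of `E`.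
* `gl b x D`: the family `δ j = (co x j).val • xd D`.
* `rdv`: the divisor of an element of `E`.
-/

set_option autoImplicit false

open scoped NumberField
open IsDedekindDomain H38.ML
open scoped Classical

noncomputable section

namespace H12.KF

open H63.MA H51.SN H67.AQ

variable {K : IntermediateField ℚ QBar} [NumberField K] {Q : Type} [Group Q]
  {F : IntermediateField K QBar} [NumberField F]

/-- `E` is the field of `U` -/
structure SubF (act : Q →* (F ≃+* F)) (U : Subgroup Q) (E : IntermediateField K F) : Prop where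
  mem : ∀ x : F, x ∈ E ↔ ∀ a ∈ U, act a x = x

/-- the field of `U` exists -/
theorem exists_sub {act : Q →* (F ≃+* F)} (h : KTriv act) (U : Subgroup Q) :
    ∃ E : IntermediateField K F, SubF act U E ∧ NumberField E := by
  let E : IntermediateField K F :=
    { carrier := {x | ∀ a ∈ U, act a x = x}
      mul_mem' := by
        intro x y hx hy a ha
        rw [map_mul, hx a ha, hy a ha]
      one_mem' := fun a _ => map_one _
      add_mem' := by
        intro x y hx hy a ha
        rw [map_add, hx a ha, hy a ha]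
      zero_mem' := fun a _ => map_zero _
      algebraMap_mem' := fun x a _ => h a x
      inv_mem' := by
        intro x hx a ha
        rw [map_inv₀, hx a ha] }
  exact ⟨E, ⟨fun x => Iff.rfl⟩, inferInstance⟩

variable (E : IntermediateField K F) [NumberField E]

theorem exists_un (w : Pl F) : ∃ w' : Pl E, Over w w' := exists_below w

/-- the prime under `w` -/
def un (w : Pl F) : Pl E := (exists_un E w).choose

theorem un_over (w : Pl F) : Over w (un E w) := (exists_un E w).choose_spec

/-- the ramification index -/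
def idx (w : Pl F) : ℕ := (ord_inc (un_over E w)).choose

theorem idx_pos (w : Pl F) : 1 ≤ idx E w := (ord_inc (un_over E w)).choose_spec.1

theorem idx_ord (w : Pl F) (x : Eˣ) : ord w (inc E F x) = idx E w * ord (un E w) x :=
  (ord_inc (un_over E w)).choose_spec.2 x

/-- the divisor of `F` of a divisor of `E` -/
def xd (S0 : Finset (Pl K)) : (Pl E →₀ ℤ) →+ (Wp F S0 →₀ ℤ) where
  toFun D := Finsupp.ofSupportFinite (fun w => (idx E w.1 : ℤ) * D (un E w.1)) (by
    have h1 : (⋃ w' ∈ D.support, {w : Pl F | Over w w'}).Finite :=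
      D.support.finite_toSet.biUnion fun w' _ => over_finite w'
    refine (h1.preimage Subtype.val_injective.injOn).subset fun w hw => ?_
    rw [Set.mem_preimage, Set.mem_iUnion₂]
    refine ⟨un E w.1, ?_, un_over E w.1⟩
    rw [Finsupp.mem_support_iff]
    exact right_ne_zero_of_mul hw)
  map_zero' := by
    ext w
    exact mul_zero _
  map_add' D D' := by
    ext w
    exact mul_add _ _ _

/-- the divisor of an element of `E` -/
def rdv : Additive Eˣ →+ (Pl E →₀ ℤ) where
  toFun x := Finsupp.ofSupportFinite (fun w => ord w x.toMul) (finite_ord x.toMul)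
  map_zero' := by
    ext w
    exact ord_one w
  map_add' x y := by
    ext w
    exact ord_mul w x.toMul y.toMul

/-- `xd` of a principal divisor is the divisor of the element in `F` -/
theorem xd_rdv (S0 : Finset (Pl K)) (x : Additive Eˣ) :
    xd E S0 (rdv E x) = dv1 S0 (Additive.ofMul (inc E F x.toMul)) := by
  ext w
  exact (idx_ord E w.1 x.toMul).symm

/-- the family of a label and a divisor of `F` -/
def gl {l : ℕ} {V : Type} [AddCommGroup V] {ι : Type} [Fintype ι] (b : Bs l V ι)
    {S0 : Finset (Pl K)} (x : V) (D : Wp F S0 →₀ ℤ) : ι → (Wp F S0 →₀ ℤ) :=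
  fun j => ((b.co x j).val : ℤ) • D

/-- the prime of `E` under `a w` -/
private theorem over_pm {act : Q →* (F ≃+* F)} {U : Subgroup Q} (hE : SubF act U E) {a : Q} (ha : a ∈ U)
    (w : Pl F) : Over (pm (act a) w) (un E w) := by
  have h0 := un_over E w
  unfold Over at h0 ⊢
  rw [← h0]
  ext x
  rw [Ideal.mem_comap, Ideal.mem_comap]
  have h1 : (NumberField.RingOfIntegers.mapRingEquiv (act a)).symm (algebraMap (𝓞 E) (𝓞 F) x) =
      algebraMap (𝓞 E) (𝓞 F) x := by
    rw [RingEquiv.symm_apply_eq]
    apply NumberField.RingOfIntegers.coe_injective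
    exact ((hE.mem ((x : E) : F)).1 (x : E).2 a ha).symm
  change (NumberField.RingOfIntegers.mapRingEquiv (act a)).symm (algebraMap (𝓞 E) (𝓞 F) x) ∈ w.asIdeal ↔ _
  rw [h1]

/-- `idx` is one outside the ramified places; the primes `un (a w)`, `a ∈ U`, are equal -/
theorem un_act {act : Q →* (F ≃+* F)} {U : Subgroup Q} (hE : SubF act U E) {a : Q} (ha : a ∈ U)
    (w : Pl F) : un E (pm (act a) w) = un E w :=
  below_unique (un_over E _) (over_pm E hE ha w)

private theorem fin_q {φ : Gal(QBar/K) →* Q} (hs : Function.Surjective φ) {act : Q →* (F ≃+* F)}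
    (H : Acts F φ act) : Finite Q := by
  have hK : KTriv act := acts_ktriv hs H
  have hfin : FiniteDimensional K F := H.fin
  let g : Q → (F →ₐ[K] F) := fun a =>
    { (act a : F →+* F) with commutes' := fun x => hK a x }
  refine Finite.of_injective g ?_
  intro a b hab
  obtain ⟨γ, rfl⟩ := hs a
  obtain ⟨γ', rfl⟩ := hs b
  have h1 : ∀ x : F, γ (x : QBar) = γ' (x : QBar) := by
    intro x
    rw [← H.act γ x, ← H.act γ' x]
    exact congrArg (fun y : F => (y : QBar)) (DFunLike.congr_fun hab x)
  have h2 : γ'⁻¹ * γ ∈ φ.ker := by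
    rw [← H.fix, IntermediateField.mem_fixingSubgroup_iff]
    intro x hx
    have h3 := h1 ⟨x, hx⟩
    change γ'⁻¹ (γ x) = x
    change γ x = γ' x at h3
    rw [h3]
    exact γ'.symm_apply_apply x
  rw [MonoidHom.mem_ker, map_mul, map_inv, inv_mul_eq_one] at h2
  exact h2.symm

private def uhom (act : Q →* (F ≃+* F)) (U : Subgroup Q) : U →* RingAut (𝓞 F) where
  toFun a := NumberField.RingOfIntegers.mapRingEquiv (act a)
  map_one' := by
    refine RingEquiv.ext fun x => NumberField.RingOfIntegers.coe_injective ?_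
    change act (1 : Q) (x : F) = (x : F)
    rw [map_one]
    rfl
  map_mul' a b := by
    refine RingEquiv.ext fun x => NumberField.RingOfIntegers.coe_injective ?_
    change act ((a : Q) * (b : Q)) (x : F) = act (a : Q) (act (b : Q) (x : F))
    rw [map_mul]
    rfl

theorem un_tr {φ : Gal(QBar/K) →* Q} (hs : Function.Surjective φ) {act : Q →* (F ≃+* F)}
    (H : Acts F φ act) {U : Subgroup Q} (hE : SubF act U E) {w w' : Pl F}
    (hw : un E w = un E w') : ∃ a ∈ U, pm (act a) w = w' := by
  have hQ : Finite Q := fin_q hs H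
  let _ : MulSemiringAction U (𝓞 F) := MulSemiringAction.compHom (𝓞 F) (uhom act U)
  have hsm : ∀ (g : U) (x : 𝓞 F), ((g • x : 𝓞 F) : F) = act (g : Q) (x : F) := fun g x => rfl
  have hinv : Algebra.IsInvariant (𝓞 E) (𝓞 F) U := by
    refine ⟨fun b hb => ?_⟩
    have h1 : ((b : F)) ∈ E := by
      rw [hE.mem]
      intro a ha
      have h2 := congrArg (fun y : 𝓞 F => (y : F)) (hb ⟨a, ha⟩)
      exact h2
    have h2 : IsIntegral ℤ (⟨(b : F), h1⟩ : E) := by
      have h3 : IsIntegral ℤ (algebraMap E F ⟨(b : F), h1⟩) := b.isIntegral_coe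
      exact (isIntegral_algebraMap_iff (algebraMap E F).injective).1 h3
    exact ⟨⟨⟨(b : F), h1⟩, h2⟩, NumberField.RingOfIntegers.coe_injective rfl⟩
  have hcom : SMulCommClass U (𝓞 E) (𝓞 F) := by
    refine ⟨fun g a b => NumberField.RingOfIntegers.coe_injective ?_⟩
    change act (g : Q) (((a : E) : F) * (b : F)) = ((a : E) : F) * act (g : Q) (b : F)
    rw [map_mul, (hE.mem ((a : E) : F)).1 (a : E).2 (g : Q) g.2]
  have hwp := w.isPrime
  have hwp' := w'.isPrime
  have hund : w.asIdeal.under (𝓞 E) = w'.asIdeal.under (𝓞 E) := by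
    have h1 := un_over E w
    have h2 := un_over E w'
    rw [← hw] at h2
    exact h1.trans h2.symm
  obtain ⟨g, hg⟩ := Algebra.IsInvariant.exists_smul_of_under_eq (𝓞 E) (𝓞 F) U w.asIdeal
    w'.asIdeal hund
  refine ⟨g, g.2, HeightOneSpectrum.ext ?_⟩
  rw [hg]
  ext x
  rw [Ideal.mem_pointwise_smul_iff_inv_smul_mem]
  change (NumberField.RingOfIntegers.mapRingEquiv (act g)).symm x ∈ w.asIdeal ↔ _
  have h1 : (NumberField.RingOfIntegers.mapRingEquiv (act g)).symm x = g⁻¹ • x := by
    rw [RingEquiv.symm_apply_eq]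
    have h2 : (NumberField.RingOfIntegers.mapRingEquiv (act g)) (g⁻¹ • x) = g • (g⁻¹ • x) := rfl
    rw [h2, smul_inv_smul]
  rw [h1]

/-- the ramification index over `K` of the chosen prime is one if `φ` is trivial on the inertia -/
private theorem ord_wp {φ : Gal(QBar/K) →* Q} {act : Q →* (F ≃+* F)}
    (H : Acts F φ act) (P : DP K QBar) (v : Pl K)
    (hv : ∀ τ ∈ (P.P v).inertia Gal(QBar/K), φ τ = 1) (x : Kˣ) :
    ord (wp F P v) (inc K F x) = ord v x := by
  have hfd : FiniteDimensional K F := H.fin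
  have hcl : IsAlgClosure K QBar := ⟨inferInstance, inferInstance⟩
  have hgal0 : IsGalois K QBar := IsAlgClosure.isGalois K QBar
  have hgal : IsGalois K F := by
    rw [← InfiniteGalois.normal_iff_isGalois F, H.fix]
    exact MonoidHom.normal_ker φ
  have hund : (P.P v).under (𝓞 F) = (wp F P v).asIdeal := rfl
  have hover : Over (wp F P v) v := by
    unfold Over
    rw [← P.under v]
    exact Ideal.ext fun a => Iff.rfl
  have hlies : (wp F P v).asIdeal.LiesOver v.asIdeal := ⟨hover.symm⟩
  have hwm : (wp F P v).asIdeal.IsMaximal := (wp F P v).isMaximal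
  have hvm : v.asIdeal.IsMaximal := v.isMaximal
  have hin : Ideal.inertia (F ≃ₐ[K] F) (wp F P v).asIdeal = ⊥ := by
    rw [eq_bot_iff]
    intro δ hδ
    obtain ⟨τ, hτ, h1⟩ := CDa_lift (K := K) (Ω := QBar) F (P.P v) (P.prime v) δ (by
      intro y
      rw [hund]
      exact hδ y)
    have h2 : τ ∈ F.fixingSubgroup := by
      rw [H.fix]
      exact hv τ hτ
    rw [Subgroup.mem_bot]
    refine AlgEquiv.ext fun m => Subtype.ext ?_
    rw [← h1 m]
    exact (IntermediateField.mem_fixingSubgroup_iff F τ).1 h2 (m : QBar) m.2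
  have e1 : Nat.card (Ideal.inertia (F ≃ₐ[K] F) (wp F P v).asIdeal) =
      (wp F P v).asIdeal.ramificationIdx (𝓞 K) := by
    rw [← Ideal.ramificationIdxIn_eq_ramificationIdx v.asIdeal (wp F P v).asIdeal (F ≃ₐ[K] F),
      ← Ideal.card_inertia_eq_ramificationIdxIn (G := F ≃ₐ[K] F) v.asIdeal (wp F P v).asIdeal]
  rw [hin, Subgroup.card_bot] at e1
  have e2 : v.asIdeal.ramificationIdx' (wp F P v).asIdeal =
      (wp F P v).asIdeal.ramificationIdx (𝓞 K) :=
    Ideal.ramificationIdx'_eq_ramificationIdx v.asIdeal (wp F P v).asIdeal v.ne_bot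
  have h1 := HeightOneSpectrum.valuation_liesOver F v (wp F P v) (x : K)
  unfold ord inc
  rw [Units.coe_map, MonoidHom.coe_coe, ← h1, e2, ← e1, pow_one]

theorem idx_unr {φ : Gal(QBar/K) →* Q} (hs : Function.Surjective φ) {act : Q →* (F ≃+* F)}
    (H : Acts F φ act) (P : DP K QBar) (v : Pl K)
    (hv : ∀ τ ∈ (P.P v).inertia Gal(QBar/K), φ τ = 1) (b : Q) :
    idx E (pm (act b) (wp F P v)) = 1 := by
  have hK : KTriv act := acts_ktriv hs H
  obtain ⟨π, hπ⟩ := v.valuation_exists_uniformizer K
  have hπ0 : π ≠ 0 := by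
    intro h
    rw [h, map_zero] at hπ
    exact WithZero.exp_ne_zero hπ.symm
  obtain ⟨x, hx⟩ : ∃ x : Kˣ, (x : K) = π := ⟨Units.mk0 π hπ0, rfl⟩
  have h1 : ord v x = 1 := by
    unfold ord
    rw [hx, hπ, WithZero.log_exp, neg_neg]
  have h2 : ord (pm (act b) (wp F P v)) (inc K F x) = 1 := by
    have h3 := ord_pm (act b) (wp F P v) (inc K F x)
    rw [ord_wp H P v hv x, h1] at h3
    rw [← h3]
    congr 1
    apply Units.ext
    exact (hK b (x : K)).symm
  have h4 : inc K F x = inc E F (inc K E x) := by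
    apply Units.ext
    exact IsScalarTower.algebraMap_apply K E F (x : K)
  rw [h4, idx_ord] at h2
  have h5 : IsUnit ((idx E (pm (act b) (wp F P v)) : ℤ)) := IsUnit.of_mul_eq_one _ h2
  have h6 := Int.isUnit_iff.1 h5
  omega

end H12.KF
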