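import Pool.Agent.H38.ML.Disc
import Pool.Agent.H12.KF.Sub
import Pool.Agent.H63.MA.AFin
import Pool.Agent.H63.MA.GDisU
import Pool.Agent.H36.QA.ADefs

/-!
# [H12 KF DSC] the discriminant of `F` is polynomially bounded, 80-130 lines

`dsc`: `H38.ML.disc_bound QBar q S` (see its use in `H38/BG/DUp.lean`) with `S` = the ideals of the `v ∈ S0` and of the primes containing `q!` (`gdisu_fin`), `T` = the ideals of the `v ∈ D` outside `S`, `w = q` (the conditions on the numbers of orbits: at `v ∈ D` nothing is needed since the number of orbits is `≥ 0`; at `v ∉ S0 ∪ D` the inertia group is in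
`ker φ = F.fixingSubgroup`, so it acts trivially on the embeddings of `F`: all orbits are points). `[F : K] = #Q = q` (`Acts.fix`: `F` is Galois with group `Q`). Absolute discriminant: Mathlib `NumberField.natAbs_discr_eq_absNorm_differentIdeal_mul_natAbs_discr_pow` (with `relDisc` = norm of the different).
`dsc_sub`: the same Mathlib theorem for `F / E`: `|disc F| = N(different) |disc E| ^ [F : E] ≥ |disc E|`.
-/

set_option autoImplicit false

open scoped NumberField
open IsDedekindDomain H38.ML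
open scoped Classical

noncomputable section

namespace H12.KF

open H63.MA H51.SN H67.AQ H36.QA

private theorem dsc_orb {K : IntermediateField ℚ QBar} [NumberField K] {Q : Type} [Group Q]
    {φ : Gal(QBar/K) →* Q} {F : IntermediateField K QBar} [NumberField F]
    {act : Q →* (F ≃+* F)} (H : Acts F φ act)
    (J : Subgroup Gal(QBar/K)) (hJ : ∀ τ ∈ J, φ τ = 1) :
    H38.ML.embOrb F J = Module.finrank K F := by
  have hfd : FiniteDimensional K F := H.fin
  have hcl : IsAlgClosure K QBar := ⟨inferInstance, inferInstance⟩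
  have hnorm : Normal K QBar := IsAlgClosure.normal K QBar
  have halg : Algebra.IsAlgebraic K QBar := IsAlgClosure.isAlgebraic
  have key : ∀ τ ∈ J, ∀ ψ : F →ₐ[K] QBar, ((τ : Gal(QBar/K)) : QBar →ₐ[K] QBar).comp ψ = ψ := by
    intro τ hτ ψ
    let g : Gal(QBar/K) := AlgEquiv.ofBijective (ψ.liftNormal QBar)
      (Algebra.IsAlgebraic.algHom_bijective _)
    have hg : ∀ x : F, g (x : QBar) = ψ x := fun x => AlgHom.liftNormal_commutes ψ QBar x
    have h1 : g⁻¹ * τ * g ∈ F.fixingSubgroup := by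
      rw [H.fix, MonoidHom.mem_ker, map_mul, map_mul, hJ τ hτ, mul_one, ← map_mul,
        inv_mul_cancel, map_one]
    ext x
    have h2 := (IntermediateField.mem_fixingSubgroup_iff F _).1 h1 x.1 x.2
    have h3 : g ((g⁻¹ * τ * g) (x : QBar)) = g (x : QBar) := congrArg g h2
    have h4 : g ((g⁻¹ * τ * g) (x : QBar)) = τ (g (x : QBar)) := by
      rw [← AlgEquiv.mul_apply, ← mul_assoc, ← mul_assoc, mul_inv_cancel, one_mul,
        AlgEquiv.mul_apply]
    rw [h4, hg] at h3
    exact h3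
  unfold H38.ML.embOrb
  rw [← AlgHom.card K F QBar, ← Nat.card_eq_fintype_card]
  refine Nat.card_congr ?_
  refine ⟨Quot.lift id ?_, Quot.mk _, ?_, ?_⟩
  · rintro ψ ψ' ⟨τ, hτ, rfl⟩
    exact (key τ hτ ψ).symm
  · intro x
    induction x using Quot.ind with
    | mk ψ => rfl
  · intro ψ
    rfl

theorem dsc (K : IntermediateField ℚ QBar) [NumberField K] (q : ℕ) (P : DP K QBar)
    (S0 : Finset (Pl K)) : ∃ C : ℝ, 1 ≤ C ∧ ∀ (Q : Type) [Group Q] [Finite Q], Nat.card Q = q →
      ∀ φ : Gal(QBar/K) →* Q, FT φ → Function.Surjective φ →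
        ∀ (F : IntermediateField K QBar) [NumberField F] (act : Q →* (F ≃+* F)), Acts F φ act →
          ∀ D : Finset (Pl K), (∀ v, v ∉ S0 → v ∉ D →
            ∀ τ ∈ (P.P v).inertia Gal(QBar/K), φ τ = 1) → dd F ≤ C * nr D ^ q := by
  obtain ⟨S, hS⟩ : ∃ S : Set (Ideal (𝓞 K)), S = ((S0.image fun v : Pl K => v.asIdeal :
      Finset (Ideal (𝓞 K))) : Set (Ideal (𝓞 K))) ∪
    {v : Ideal (𝓞 K) | v.IsPrime ∧ v ≠ ⊥ ∧ ((q.factorial : ℕ) : 𝓞 K) ∈ v} := ⟨_, rfl⟩
  have hSf : S.Finite := by
    rw [hS]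
    exact (Finset.finite_toSet _).union (gdisu_fin q)
  obtain ⟨C, hC, hb⟩ := H38.ML.disc_bound QBar q S hSf (fun v hv hv0 hvS hmem =>
    hvS (by rw [hS]; exact Or.inr ⟨hv, hv0, hmem⟩))
  have hK1 : 1 ≤ (NumberField.discr K).natAbs :=
    Nat.one_le_iff_ne_zero.mpr (Int.natAbs_ne_zero.mpr (NumberField.discr_ne_zero K))
  refine ⟨((C * (NumberField.discr K).natAbs ^ q : ℕ) : ℝ), ?_, ?_⟩
  · exact_mod_cast Nat.mul_pos hC (Nat.pow_pos hK1)
  intro Q _ _ hq φ hφ hs F hnf act H D hD
  have hfd : FiniteDimensional K F := H.fin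
  have hcl : IsAlgClosure K QBar := ⟨inferInstance, inferInstance⟩
  have hgal0 : IsGalois K QBar := IsAlgClosure.isGalois K QBar
  have hdeg : Module.finrank K F = q := by
    rw [IntermediateField.finrank_eq_fixingSubgroup_index, H.fix, Subgroup.index_ker,
      MonoidHom.range_eq_top.2 hs, Subgroup.card_top, hq]
  obtain ⟨T₀, hT₀⟩ : ∃ T₀ : Finset (Pl K), T₀ = D.filter fun v => v.asIdeal ∉ S := ⟨_, rfl⟩
  have hmain := hb F hfd hnf hdeg (T₀.image fun v => v.asIdeal) q
    (by
      intro v hv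
      obtain ⟨w, -, rfl⟩ := Finset.mem_image.1 hv
      exact ⟨w.isPrime, w.ne_bot⟩)
    (by
      intro v hv
      obtain ⟨w, hw, rfl⟩ := Finset.mem_image.1 hv
      exact ⟨P.P w, P.prime w, P.under w, Nat.le_add_right _ _⟩)
    (by
      intro v hv hv0 hvS hvT
      have hw0 : (⟨v, hv, hv0⟩ : Pl K) ∉ S0 := by
        intro h
        apply hvS
        rw [hS]
        exact Or.inl (Finset.mem_coe.2 (Finset.mem_image.2 ⟨_, h, rfl⟩))
      have hwT : (⟨v, hv, hv0⟩ : Pl K) ∉ D := by
        intro h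
        refine hvT (Finset.mem_image.2 ⟨⟨v, hv, hv0⟩, ?_, rfl⟩)
        rw [hT₀, Finset.mem_filter]
        exact ⟨h, hvS⟩
      refine ⟨P.P ⟨v, hv, hv0⟩, P.prime _, P.under _, ?_⟩
      rw [dsc_orb H _ (hD _ hw0 hwT), hdeg])
  have hprod : ∏ v ∈ T₀.image (fun v : Pl K => v.asIdeal), Ideal.absNorm v ≤ ∏ v ∈ D, nm v := by
    rw [Finset.prod_image (fun a _ b _ h => HeightOneSpectrum.ext h), hT₀]
    refine Finset.prod_le_prod_of_subset_of_one_le' (Finset.filter_subset _ _) fun v _ _ => ?_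
    exact Nat.one_le_iff_ne_zero.2 fun h => v.ne_bot (Ideal.absNorm_eq_zero_iff.1 h)
  have h1 : Ideal.absNorm (differentIdeal (𝓞 K) (𝓞 F)) ≤ C * (∏ v ∈ D, nm v) ^ q :=
    le_trans hmain (Nat.mul_le_mul_left _ (Nat.pow_le_pow_left hprod _))
  have h2 := NumberField.natAbs_discr_eq_absNorm_differentIdeal_mul_natAbs_discr_pow
    K (𝓞 K) F (𝓞 F)
  have h4 : dd F = (((NumberField.discr F).natAbs : ℕ) : ℝ) := by
    unfold dd
    rw [Nat.cast_natAbs, Int.cast_abs]
  rw [h4, h2, hdeg]
  have h5 : Ideal.absNorm (differentIdeal (𝓞 K) (𝓞 F)) *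
      (NumberField.discr K).natAbs ^ q ≤
      (C * (∏ v ∈ D, nm v) ^ q) * (NumberField.discr K).natAbs ^ q :=
    Nat.mul_le_mul_right _ h1
  calc ((Ideal.absNorm (differentIdeal (𝓞 K) (𝓞 F)) *
        (NumberField.discr K).natAbs ^ q : ℕ) : ℝ)
      ≤ (((C * (∏ v ∈ D, nm v) ^ q) * (NumberField.discr K).natAbs ^ q : ℕ) : ℝ) := by
        exact_mod_cast h5
    _ = _ := by
        unfold nr
        push_cast
        ring

theorem dsc_sub (E F : Type) [Field E] [NumberField E] [Field F] [NumberField F] [Algebra E F] :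
    dd E ≤ dd F := by
  have hfd : FiniteDimensional E F := Module.Finite.of_restrictScalars_finite ℚ E F
  have h2 := NumberField.natAbs_discr_eq_absNorm_differentIdeal_mul_natAbs_discr_pow
    E (𝓞 E) F (𝓞 F)
  have hE : (NumberField.discr E).natAbs ≠ 0 :=
    Int.natAbs_ne_zero.mpr (NumberField.discr_ne_zero E)
  have hF : (NumberField.discr F).natAbs ≠ 0 :=
    Int.natAbs_ne_zero.mpr (NumberField.discr_ne_zero F)
  have h3 : 1 ≤ Ideal.absNorm (differentIdeal (𝓞 E) (𝓞 F)) := by
    rw [Nat.one_le_iff_ne_zero]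
    intro h
    rw [h2, h, zero_mul] at hF
    exact hF rfl
  have h4 : (NumberField.discr E).natAbs ≤ (NumberField.discr E).natAbs ^ Module.finrank E F :=
    Nat.le_self_pow (Module.finrank_pos (R := E) (M := F)).ne' _
  have h5 : (NumberField.discr E).natAbs ≤ (NumberField.discr F).natAbs := by
    rw [h2]
    calc (NumberField.discr E).natAbs ≤ 1 * (NumberField.discr E).natAbs ^ Module.finrank E F := by
          rw [one_mul]
          exact h4
      _ ≤ _ := Nat.mul_le_mul_right _ h3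
  have h6 : ∀ (L : Type) [Field L] [NumberField L], dd L = (((NumberField.discr L).natAbs : ℕ) : ℝ) := by
    intro L _ _
    unfold dd
    rw [Nat.cast_natAbs, Int.cast_abs]
  rw [h6, h6]
  exact_mod_cast h5

end H12.KF
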