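import Pool.Agent.H12.KF.Ch1
import Pool.Agent.H12.KF.Deg
import Pool.Agent.H12.KF.Cs1
import Pool.Agent.H12.KF.Dsc

/-!
# [H12 KF CH2] the sum of a nontrivial character over one variable, 120-180 lines

`ch1` gives `l, R, ξ, x, U, E`. Let `𝔣` be the product of the primes `w'` of `E` over places in `S'` (finitely many: `over_finite`), `𝔣 ≠ ⊥`, `absNorm 𝔣 ≤ (∏_{v ∈ S'} nm v) ^ [E : K]` (`∑ e f = [E : K]`; a cruder bound by a constant depending only on `K`, `S'`, `#Q` is enough: at most `[E : K]` primes over `v`, each of norm at most `(nm v) ^ [E : K]`).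
`lam_ray` with `𝔣` and `S'`: `h𝔣`: a prime dividing `𝔣` is one of the factors; `hξ`: for `z : Eˣ`, `z = a`, `a - 1 ∈ 𝔣`: `inc E F z ∈ Ry F S'` (for `w` over `v ∈ S'`: `w' = un E w` contains `𝔣`, so `a - 1 ∈ w`) and `gl b x (dv1 z)` is `dv S0 (fun j => (co x j).val • z)` (`ch1`, third clause; `Ry` is a subgroup).
`ray_rc` (H63/MA/RayC): a character `ψ : RC E 𝔣` with `ψ w = ep l (lam w)` for `w ∤ 𝔣`; `ψ.Non`: `lam w' ≠ 0` at some `w'` (then `w' ∤ 𝔣` by `IsRay.zero`; `ep_eq_one`).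
`cs1` with `q = #Q` (`[E : K] ≤ [F : K] = #Q`), `G = #Q`, `g = Cut B (gx χ x)`: `‖gx‖ ≤ #Q` (`#fo ≤ #orbit`, `‖χ t‖ = 1` since `m • t = 0`). For `v ∉ B` (so `v ∉ S0`, `v ∉ D`: `φ` trivial on inertia): `deg_sum` for `Vp T l`, `g s = χ (il (label s at v))`, `g' w = ψ w`: `hg`: `lam_val` (`a⁻¹ φ σ a ∈ U` iff `φ σ` fixes `a x`; `w ∤ 𝔣` since `v ∉ S'`)
and `ch1`, second clause. `fo φ P x v` is the image of the set in `deg_sum` under `Vp T l → T`.
Constants: `dd E ≤ dd F ≤ C nr D ^ #Q` (`dsc_sub`, `dsc`), `C ^ #B * const` is at most `C' * C' ^ #B`.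
-/

set_option autoImplicit false

open scoped NumberField
open IsDedekindDomain H38.ML
open scoped Classical

noncomputable section

namespace H12.KF

open H63.MA H51.SN H67.AQ H36.QA

/-- the modulus -/
private def mdl (K E : Type) [Field K] [NumberField K] [Field E] [NumberField E] [Algebra K E]
    (S' : Finset (Pl K)) : Ideal (𝓞 E) :=
  (∏ v ∈ S', v.asIdeal).map (algebraMap (𝓞 K) (𝓞 E))

private theorem mdl_ne (K E : Type) [Field K] [NumberField K] [Field E] [NumberField E] [Algebra K E]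
    (S' : Finset (Pl K)) : mdl K E S' ≠ ⊥ := by
  unfold mdl
  rw [Ne, Ideal.map_eq_bot_iff_of_injective (FaithfulSMul.algebraMap_injective (𝓞 K) (𝓞 E))]
  exact Finset.prod_ne_zero_iff.2 fun v _ => v.ne_bot

private theorem mdl_norm (K E : Type) [Field K] [NumberField K] [Field E] [NumberField E] [Algebra K E]
    (S' : Finset (Pl K)) :
    Ideal.absNorm (mdl K E S') = (∏ v ∈ S', nm v) ^ Module.finrank K E := by
  unfold mdl
  rw [Ideal.absNorm_algebraMap, map_prod, IsFractionRing.finrank_eq (𝓞 K) K (𝓞 E) E]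
  rfl

private theorem mdl_mem {K E : Type} [Field K] [NumberField K] [Field E] [NumberField E] [Algebra K E]
    {S' : Finset (Pl K)} {v : Pl K} (hv : v ∈ S') {w : Pl E} (h : Over w v) {a : 𝓞 E}
    (ha : a ∈ mdl K E S') : a ∈ w.asIdeal := by
  have h1 : (∏ v ∈ S', v.asIdeal) ≤ v.asIdeal := Ideal.le_of_dvd (Finset.dvd_prod_of_mem _ hv)
  have h2 : mdl K E S' ≤ w.asIdeal := by
    unfold mdl
    rw [Ideal.map_le_iff_le_comap]
    unfold Over at h
    rw [h]
    exact h1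
  exact h2 ha

private theorem mdl_dvd {K E : Type} [Field K] [NumberField K] [Field E] [NumberField E] [Algebra K E]
    {S' : Finset (Pl K)} {w : Pl E} (h : w.asIdeal ∣ mdl K E S') : ∃ v ∈ S', Over w v := by
  unfold mdl at h
  have h1 : ∏ v ∈ S', v.asIdeal ≤ w.asIdeal.comap (algebraMap (𝓞 K) (𝓞 E)) := by
    rw [← Ideal.map_le_iff_le_comap]
    exact Ideal.le_of_dvd h
  have hp : (w.asIdeal.comap (algebraMap (𝓞 K) (𝓞 E))).IsPrime := Ideal.IsPrime.comap _
  obtain ⟨v, hv, h2⟩ := (Ideal.IsPrime.prod_le hp).1 h1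
  refine ⟨v, hv, ?_⟩
  unfold Over
  exact (v.isMaximal.eq_of_le hp.ne_top h2).symm

private theorem one_inc {E F : Type} [Field E] [NumberField E] [Field F] [NumberField F] [Algebra E F]
    {w : Pl F} {w' : Pl E} (h : Over w w') {z : Eˣ} {a : 𝓞 E} (hz : (z : E) = algebraMap (𝓞 E) E a)
    (ha : a - 1 ∈ w'.asIdeal) : One1 w (inc E F z) := by
  unfold One1
  have h1 : ((inc E F z : Fˣ) : F) - 1 = algebraMap (𝓞 F) F (algebraMap (𝓞 E) (𝓞 F) (a - 1)) := by
    have h2 : ((inc E F z : Fˣ) : F) = algebraMap E F (z : E) := rfl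
    rw [h2, hz, map_sub, map_sub, map_one, map_one]
    rfl
  rw [h1]
  have h3 : algebraMap (𝓞 E) (𝓞 F) (a - 1) ∈ w.asIdeal := by
    unfold Over at h
    rw [← Ideal.mem_comap, h]
    exact ha
  exact (w.valuation_lt_one_iff_mem _).2 h3

private theorem real_fin {C1 C2 D N dE M δ : ℝ} {A q b : ℕ} (h1 : 1 ≤ C1) (h2 : 1 ≤ C2) (hN : 1 ≤ N)
    (hD : 1 ≤ D) (hdE : 0 ≤ dE) {n : ℝ} (hn : 0 ≤ n) (hd : dE ≤ C2 * D ^ q) (hnn : n ≤ N) (hM : 1 ≤ M) :
    C1 * C1 ^ b * (dE * n) ^ A * M ^ (1 - δ) ≤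
      (C1 * (C2 * N) ^ A) * (C1 * (C2 * N) ^ A) ^ b * D ^ (q * A) * M ^ (1 - δ) := by
  have h3 : 1 ≤ (C2 * N) ^ A := one_le_pow₀ (one_le_mul_of_one_le_of_one_le h2 hN)
  have h10 : 0 ≤ C1 := by linarith
  have hMp : 0 ≤ M ^ (1 - δ) := Real.rpow_nonneg (by linarith) _
  refine mul_le_mul_of_nonneg_right ?_ hMp
  have h4 : (dE * n) ^ A ≤ (C2 * N) ^ A * D ^ (q * A) := by
    rw [pow_mul, ← mul_pow]
    refine pow_le_pow_left₀ (mul_nonneg hdE hn) ?_ _
    calc dE * n ≤ (C2 * D ^ q) * N := mul_le_mul hd hnn hn (by positivity)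
      _ = C2 * N * D ^ q := by ring
  have h5 : C1 ^ b ≤ (C1 * (C2 * N) ^ A) ^ b :=
    pow_le_pow_left₀ h10 (le_mul_of_one_le_right h10 h3) _
  calc C1 * C1 ^ b * (dE * n) ^ A ≤ C1 * (C1 * (C2 * N) ^ A) ^ b * ((C2 * N) ^ A * D ^ (q * A)) :=
        mul_le_mul (mul_le_mul_of_nonneg_left h5 h10) h4 (by positivity) (by positivity)
    _ = _ := by ring

private theorem norm_char {A : Type} [AddCommGroup A] {m : ℕ} (hm : m ≠ 0) (χ : AddChar A ℂ)
    (h : ∀ t : A, m • t = 0) (t : A) : ‖χ t‖ = 1 := by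
  have h1 : χ t ^ m = 1 := by
    rw [← AddChar.map_nsmul_eq_pow, h, AddChar.map_zero_eq_one]
  exact Complex.norm_eq_one_of_pow_eq_one h1 hm


private theorem fo_card {K : IntermediateField ℚ QBar} [NumberField K] {Q : Type} [Group Q]
    [Fintype Q] {T : Type} [AddCommGroup T] [Finite T] [DistribMulAction Q T]
    (φ : Gal(QBar/K) →* Q) (P : DP K QBar) (x : T) (v : Pl K) :
    (fo φ P x v).card ≤ Nat.card Q := by
  have h1 : fo φ P x v ⊆ Finset.univ.image (fun a : Q => a • x) := by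
    intro s hs
    unfold fo at hs
    rw [Set.Finite.mem_toFinset] at hs
    obtain ⟨⟨a, ha⟩, -⟩ := hs
    rw [Finset.mem_image]
    exact ⟨a, Finset.mem_univ _, ha.symm⟩
  refine (Finset.card_le_card h1).trans (Finset.card_image_le.trans ?_)
  rw [Finset.card_univ, Nat.card_eq_fintype_card]

private theorem gx_norm {K : IntermediateField ℚ QBar} [NumberField K] {Q : Type} [Group Q]
    [Fintype Q] {T : Type} [AddCommGroup T] [Finite T] [DistribMulAction Q T] {m : ℕ}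
    (hm : m ≠ 0) (hmT : ∀ x : T, m • x = 0)
    {φ : Gal(QBar/K) →* Q} {P : DP K QBar} {S0 : Finset (Pl K)}
    (χ : AddChar (Lab φ P S0 T) ℂ) (x : T) (v : Pl K) : ‖gx χ x v‖ ≤ (Nat.card Q : ℝ) := by
  have hk : ∀ t : Lab φ P S0 T, m • t = 0 := by
    intro t
    refine Subtype.ext (Finsupp.ext fun v => ?_)
    exact hmT _
  unfold gx
  refine (norm_sum_le _ _).trans ?_
  rw [Finset.sum_congr rfl fun s _ => norm_char hm χ hk (sgl φ P S0 s v), Finset.sum_const,
    nsmul_eq_mul, mul_one]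
  exact_mod_cast fo_card φ P x v

private theorem gx_sum {K : IntermediateField ℚ QBar} [NumberField K] {Q : Type} [Group Q]
    [Fintype Q] {T : Type} [AddCommGroup T] [Finite T] [DistribMulAction Q T] {l : ℕ}
    {φ : Gal(QBar/K) →* Q} {P : DP K QBar} {S0 : Finset (Pl K)}
    (χ : AddChar (Lab φ P S0 T) ℂ) (x : Vp T l) (v : Pl K) :
    gx χ (x : T) v = ∑ᶠ s ∈ {s : Vp T l | (∃ a : Q, s = a • x) ∧
      ∀ σ ∈ dec (K := K) (P.P v), φ σ • s = s}, χ (sgl φ P S0 (s : T) v) := by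
  have h1 : ((fo φ P (x : T) v : Finset T) : Set T) = (fun s : Vp T l => (s : T)) ''
      {s : Vp T l | (∃ a : Q, s = a • x) ∧ ∀ σ ∈ dec (K := K) (P.P v), φ σ • s = s} := by
    ext s
    unfold fo
    rw [Set.Finite.coe_toFinset]
    constructor
    · rintro ⟨⟨a, ha⟩, h2⟩
      subst ha
      exact ⟨a • x, ⟨⟨a, rfl⟩, fun σ hσ => Subtype.ext (h2 σ hσ)⟩, rfl⟩
    · rintro ⟨s', ⟨⟨a, ha⟩, h2⟩, h3⟩
      subst h3
      refine ⟨⟨a, congrArg (fun y : Vp T l => (y : T)) ha⟩, fun σ hσ => ?_⟩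
      exact congrArg (fun y : Vp T l => (y : T)) (h2 σ hσ)
  unfold gx
  rw [← finsum_mem_coe_finset, h1,
    finsum_mem_image (f := fun s : T => χ (sgl φ P S0 s v)) Subtype.val_injective.injOn]

private theorem over_un' {K : IntermediateField ℚ QBar} [NumberField K] {Q : Type} [Group Q]
    {F : IntermediateField K QBar} [NumberField F] {act : Q →* (F ≃+* F)} (h : KTriv act)
    (P : DP K QBar) (E : IntermediateField K F) [NumberField E] (v : Pl K) (a : Q) :
    Over (un E (pm (act a) (wp F P v))) v := by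
  have h1 := un_over E (pm (act a) (wp F P v))
  have h2 := pm_under h a (wp F P v)
  have h3 : (wp F P v).asIdeal.under (𝓞 K) = v.asIdeal := by
    rw [← P.under v]
    exact Ideal.ext fun a => Iff.rfl
  unfold Over at h1 ⊢
  rw [← h1, Ideal.comap_comap]
  exact h2.trans h3

theorem ch2 {K : IntermediateField ℚ QBar} [NumberField K] {n : ℕ} (hK : TC K n) (Q : Type)
    [Group Q] [Fintype Q] (T : Type) [AddCommGroup T] [Finite T] [DistribMulAction Q T] {m : ℕ}
    (hm : Squarefree m) (hmT : ∀ x : T, m • x = 0) (hmQ : Nat.Coprime m (Nat.card Q))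
    (d : m.primeFactors → ℕ) (b : ∀ l : m.primeFactors, Bs (l : ℕ) (Vp T (l : ℕ)) (Fin (d l)))
    (P : DP K QBar) (S0 S' : Finset (Pl K)) (hS' : S' ⊆ S0) :
    ∃ C : ℝ, 1 ≤ C ∧ ∃ A : ℕ, ∃ δ : ℝ, 0 < δ ∧ δ ≤ 1 / 4 ∧
      ∀ (φ : Gal(QBar/K) →* Q), FT φ → Function.Surjective φ →
        ∀ (F : IntermediateField K QBar) [NumberField F] (act : Q →* (F ≃+* F)) (h : KTriv act),
          Acts F φ act → ∀ D : Finset (Pl K),
          (∀ v, v ∉ S0 → v ∉ D → ∀ τ ∈ (P.P v).inertia Gal(QBar/K), φ τ = 1) →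
          ∀ H₀ : AddSubgroup (Lab φ P S0 T),
          (∀ (l : m.primeFactors) (t : Lab φ P S0 T) (y : Fin (d l) → Additive Fˣ),
            (∀ j, y j ∈ Ry F S') →
            (∀ v, (t : Pl K →₀ T) v = ((lb (b l).m h P S0 (dv S0 y) v : Vp T (l : ℕ)) : T)) →
              t ∈ H₀) →
          ∀ χ : AddChar (Lab φ P S0 T) ℂ, χ ≠ 1 → (∀ t ∈ H₀, χ t = 1) →
            ∀ L : Set T, AddSubgroup.closure L = ⊤ → (∀ x ∈ L, (addOrderOf x).Prime) →
              ∃ x ∈ L, ∀ B : Finset (Pl K), S0 ⊆ B → D ⊆ B → ∀ M : ℝ, 1 ≤ M →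
                ‖∑ s ∈ AF K M, ∏ v ∈ s, Cut B (gx χ x) v‖ ≤
                  C * C ^ B.card * nr D ^ A * M ^ (1 - δ) := by
  obtain ⟨C1, hC1, A1, δ, hδ, hδ4, hcs⟩ := cs1 K hK (Nat.card Q) (Nat.card Q)
  obtain ⟨C2, hC2, hdsc⟩ := dsc K (Nat.card Q) P S0
  obtain ⟨N, hN⟩ : ∃ N : ℝ, N = (((∏ v ∈ S', nm v : ℕ) : ℝ)) ^ Nat.card Q := ⟨_, rfl⟩
  have hnm : ∀ v : Pl K, 1 ≤ nm v := by
    intro v
    rw [Nat.one_le_iff_ne_zero]
    intro h0
    exact v.ne_bot (Ideal.absNorm_eq_zero_iff.1 h0)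
  have hpr : 1 ≤ ∏ v ∈ S', nm v := Nat.one_le_iff_ne_zero.2
    (Finset.prod_ne_zero_iff.2 fun v _ => Nat.one_le_iff_ne_zero.1 (hnm v))
  have hprR : (1 : ℝ) ≤ ((∏ v ∈ S', nm v : ℕ) : ℝ) := by exact_mod_cast hpr
  have hN1 : 1 ≤ N := by
    rw [hN]
    exact one_le_pow₀ hprR
  refine ⟨C1 * (C2 * N) ^ A1, ?_, Nat.card Q * A1, δ, hδ, hδ4, ?_⟩
  · exact one_le_mul_of_one_le_of_one_le hC1 (one_le_pow₀ (one_le_mul_of_one_le_of_one_le hC2 hN1))
  intro φ hφ hs F _ act h H D hD H₀ hray χ hχ hχ0 L hL hLp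
  obtain ⟨l, R, ξ, x, U, E, hE, hR, hep, hξ, hxL, hSub, hU, w0, hw0⟩ :=
    ch1 hm hmT hmQ b hs h H P H₀ hray χ hχ hχ0 L hL hLp
  refine ⟨x, hxL, ?_⟩
  intro B hSB hDB M hM
  have hl : (l : ℕ).Prime := Nat.prime_of_mem_primeFactors l.2
  have hV : ∀ y : Vp T (l : ℕ), (l : ℕ) • y = 0 := fun y => Subtype.ext y.2
  have hQl : Nat.Coprime l (Nat.card Q) :=
    Nat.Coprime.coprime_dvd_left (Nat.dvd_of_mem_primeFactors l.2) hmQ
  have hfd : FiniteDimensional K F := H.fin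
  have hcl : IsAlgClosure K QBar := ⟨inferInstance, inferInstance⟩
  have hgal0 : IsGalois K QBar := IsAlgClosure.isGalois K QBar
  have hdeg : Module.finrank K F = Nat.card Q := by
    rw [IntermediateField.finrank_eq_fixingSubgroup_index, H.fix, Subgroup.index_ker,
      MonoidHom.range_eq_top.2 hs, Subgroup.card_top]
  have hdegE : Module.finrank K E ≤ Nat.card Q := by
    have h1 := Module.finrank_mul_finrank K E F
    have h2 : 0 < Module.finrank E F := Module.finrank_pos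
    rw [← hdeg, ← h1]
    exact Nat.le_mul_of_pos_right _ h2
  have hIs : IsRay l (mdl K E S') (lam (b l) R ξ U E x) := by
    refine lam_ray hl hV (b l) h P R hR ξ U E x _ ?_ ?_
    · intro w' hw'
      obtain ⟨v, hv, ho⟩ := mdl_dvd hw'
      exact ⟨v, hS' hv, ho⟩
    · intro z a hz ha
      have h1 := hξ (fun j => (((b l).co x j).val : ℤ) • Additive.ofMul (inc E F z)) (by
        intro j
        refine AddSubgroup.zsmul_mem _ ?_ _
        intro w hw
        obtain ⟨v, hv, ho⟩ := hw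
        have ho' : Over (un E w) v := by
          have h3 := un_over E w
          unfold Over at ho h3 ⊢
          rw [← ho, ← h3, Ideal.comap_comap]
          rfl
        exact one_inc (un_over E w) hz (mdl_mem hv ho' ha))
      have h2 : dv S0 (fun j => (((b l).co x j).val : ℤ) • Additive.ofMul (inc E F z)) =
          gl (b l) x (dv1 S0 (Additive.ofMul (inc E F z))) := by
        funext j
        exact map_zsmul (dv1 (F := F) S0) (((b l).co x j).val : ℤ) (Additive.ofMul (inc E F z))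
      rw [h2] at h1
      exact h1
  obtain ⟨ψ, hψ, hnon⟩ := ray_rc hl (mdl_ne K E S') hIs
  have hmain := hcs E hdegE (mdl K E S') (mdl_ne K E S') ψ (hnon ⟨w0, hw0⟩) (Cut B (gx χ (x : T)))
    (by
      intro v
      unfold Cut
      split_ifs with hvB
      · rw [norm_zero]
        exact Nat.cast_nonneg _
      · exact gx_norm hm.ne_zero hmT χ (x : T) v) B (by
      intro v hv
      have hvS : v ∉ S0 := fun h0 => hv (hSB h0)
      have hin := hD v hvS (fun h0 => hv (hDB h0))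
      have hcut : Cut B (gx χ (x : T)) v = gx χ (x : T) v := if_neg hv
      rw [hcut, gx_sum χ x v]
      refine deg_sum hφ hs H P hU hSub hin (fun s : Vp T (l : ℕ) => χ (sgl φ P S0 (s : T) v))
        (fun w => ψ.χ w.asIdeal) ?_
      intro a ha
      have hov := over_un' h P E v a⁻¹
      have hnd : ¬ (un E (pm (act a⁻¹) (wp F P v))).asIdeal ∣ mdl K E S' := by
        intro hd
        obtain ⟨v', hv', ho⟩ := mdl_dvd hd
        exact hvS (hS' ((below_unique hov ho) ▸ hv'))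
      have ht : ((sgl φ P S0 (a • x) v : Lab φ P S0 (Vp T (l : ℕ))) : Pl K →₀ Vp T (l : ℕ)) =
          Finsupp.single v (a • x) := by
        unfold sgl
        rw [dif_pos ⟨hvS, ha⟩]
      have hlam := lam_val hl hV hQl (b l) hs h H P R hR ξ hSub (fun c hc => (hU c).1 hc) hvS hin a
        (by
          intro σ hσ
          rw [hU, mul_smul, mul_smul, ha σ hσ, inv_smul_smul]) _ ht
      change ψ.χ (un E (pm (act a⁻¹) (wp F P v))).asIdeal = χ (sgl φ P S0 ((a • x : Vp T (l : ℕ)) : T) v)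
      rw [hψ _ hnd, hlam, hep]
      congr 1
      refine Subtype.ext ?_
      have ht2 : ((sgl φ P S0 ((a • x : Vp T (l : ℕ)) : T) v : Lab φ P S0 T) : Pl K →₀ T) =
          Finsupp.single v ((a • x : Vp T (l : ℕ)) : T) := by
        unfold sgl
        rw [dif_pos ⟨hvS, fun σ hσ => congrArg (fun y : Vp T (l : ℕ) => (y : T)) (ha σ hσ)⟩]
      rw [ht2]
      change Finsupp.mapRange (fun y : Vp T (l : ℕ) => (y : T)) rfl
        ((sgl φ P S0 (a • x) v : Lab φ P S0 (Vp T (l : ℕ))) : Pl K →₀ Vp T (l : ℕ)) = _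
      rw [ht, Finsupp.mapRange_single]) M hM
  refine hmain.trans ?_
  refine real_fin hC1 hC2 hN1 (one_le_nr D) (zero_le_one.trans (one_le_dd E)) (Nat.cast_nonneg _) ?_ ?_ hM
  · exact (dsc_sub E F).trans (hdsc Q rfl φ hφ hs F act H D hD)
  · rw [mdl_norm, hN]
    push_cast
    have h5 := pow_le_pow_right₀ hprR hdegE
    push_cast at h5
    exact h5

end H12.KF
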