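import Pool.Agent.H57.TLS.Har
import Pool.Agent.H36.QA.ADefs

/-!
# [H12 KF CLN] the class number is polynomially bounded, 50-90 lines

Every ideal class contains an integral ideal of norm at most `M = C √|disc F|` (Mathlib: `NumberField.exists_ideal_in_class_of_norm_le`, the constant `(4 / π) ^ r₂ * n! / n ^ n` is at most `2 ^ n n!`), so `#Cl ≤ #IN F M' ` (`M' = max M 2`) `≤ M' ∑_{I ∈ IN F M'} 1 / N I ≤ M' C' (log M') ^ n` (`H57.TLS.har`) and `log M' ≤ M'`.
-/

set_option autoImplicit false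

open scoped NumberField Classical
open NumberField H63.MA H36.QA

noncomputable section

namespace H12.KF

private theorem cln_M (n : ℕ) (F : Type) [Field F] [NumberField F] (hF : Module.finrank ℚ F = n) :
    (4 / Real.pi) ^ InfinitePlace.nrComplexPlaces F *
      (((Module.finrank ℚ F).factorial : ℝ) / ((Module.finrank ℚ F : ℕ) : ℝ) ^ (Module.finrank ℚ F) *
        Real.sqrt |(discr F : ℝ)|) ≤ 2 ^ n * (n.factorial : ℝ) * dd F := by
  have h1 : (4 / Real.pi) ^ InfinitePlace.nrComplexPlaces F ≤ 2 ^ n := by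
    have h2 : (4 / Real.pi) ≤ 2 := by
      rw [div_le_iff₀ Real.pi_pos]
      linarith [Real.pi_gt_three]
    have h3 : InfinitePlace.nrComplexPlaces F ≤ n := by
      have := InfinitePlace.card_add_two_mul_card_eq_rank F
      omega
    have h4 : 0 ≤ 4 / Real.pi := by positivity
    exact (pow_le_pow_left₀ h4 h2 _).trans (pow_le_pow_right₀ (by norm_num) h3)
  have h2 : (((Module.finrank ℚ F).factorial : ℝ) / ((Module.finrank ℚ F : ℕ) : ℝ) ^ (Module.finrank ℚ F)) ≤
      (n.factorial : ℝ) := by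
    rw [hF]
    apply div_le_self (by positivity)
    have hn : 0 < n := by
      rw [← hF]
      exact Module.finrank_pos
    apply one_le_pow₀
    exact_mod_cast hn
  have h3 : Real.sqrt |(discr F : ℝ)| ≤ dd F := by
    show Real.sqrt (dd F) ≤ dd F
    have h4 := one_le_dd F
    rw [Real.sqrt_le_left (by linarith)]
    nlinarith
  have h5 : 0 ≤ dd F := (dd_pos F).le
  calc _ ≤ (2 : ℝ) ^ n * ((n.factorial : ℝ) * dd F) := by
        apply mul_le_mul h1 _ (by positivity) (by positivity)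
        exact mul_le_mul h2 h3 (Real.sqrt_nonneg _) (by positivity)
    _ = _ := by ring

theorem cln (n : ℕ) : ∃ C : ℝ, 1 ≤ C ∧ ∃ A : ℕ, ∀ (F : Type) [Field F] [NumberField F],
    TC F n → (Nat.card (ClassGroup (𝓞 F)) : ℝ) ≤ C * dd F ^ A := by
  rcases Nat.eq_zero_or_pos n with h0 | hn
  · refine ⟨1, le_rfl, 0, fun F _ _ hF => ?_⟩
    have h1 : 0 < Module.finrank ℚ F := Module.finrank_pos
    have h2 := hF.2
    omega
  obtain ⟨C', hC', hh⟩ := H57.TLS.har n hn
  obtain ⟨c, hc⟩ : ∃ c : ℝ, c = 2 ^ n * (n.factorial : ℝ) := ⟨_, rfl⟩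
  have hc1 : 1 ≤ c := by
    rw [hc]
    have h1 : (1 : ℝ) ≤ 2 ^ n := one_le_pow₀ (by norm_num)
    have h2 : (1 : ℝ) ≤ (n.factorial : ℝ) := by exact_mod_cast Nat.factorial_pos n
    nlinarith
  refine ⟨C' * (2 * c) ^ (n + 1), ?_, n + 1, fun F _ _ hF => ?_⟩
  · have h1 : (1 : ℝ) ≤ (2 * c) ^ (n + 1) := one_le_pow₀ (by linarith)
    nlinarith
  have hd := one_le_dd F
  obtain ⟨Z, hZ⟩ : ∃ Z : ℝ, Z = 2 * c * dd F := ⟨_, rfl⟩
  have hZ2 : 2 ≤ Z := by
    rw [hZ]
    nlinarith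
  have hM := cln_M n F hF.2
  rw [← hc] at hM
  have hMZ : c * dd F ≤ Z := by
    rw [hZ]
    nlinarith [mul_nonneg (by linarith : (0:ℝ) ≤ c) (by linarith : (0:ℝ) ≤ dd F)]
  -- classes
  have hcls : ∀ x : ClassGroup (𝓞 F), ∃ I : Ideal (𝓞 F), I ∈ IN F Z ∧
      ∃ h : I ∈ nonZeroDivisors (Ideal (𝓞 F)), ClassGroup.mk0 ⟨I, h⟩ = x := by
    intro x
    obtain ⟨I, hI, hN⟩ := exists_ideal_in_class_of_norm_le x
    refine ⟨I, ?_, I.2, hI⟩
    rw [mem_IN (by linarith)]
    refine ⟨?_, mem_nonZeroDivisors_iff_ne_zero.1 I.2⟩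
    refine le_trans ?_ hMZ
    refine le_trans hN ?_
    exact hM
  choose g hg hg2 using hcls
  have hinj : Function.Injective (fun x => (⟨g x, hg x⟩ : IN F Z)) := by
    intro x y hxy
    have h1 : g x = g y := congrArg Subtype.val hxy
    obtain ⟨hx, hx2⟩ := hg2 x
    obtain ⟨hy, hy2⟩ := hg2 y
    rw [← hx2, ← hy2]
    congr 1
    exact Subtype.ext h1
  have hcard : Nat.card (ClassGroup (𝓞 F)) ≤ (IN F Z).card := by
    have h1 := Nat.card_le_card_of_injective _ hinj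
    rwa [Nat.card_eq_fintype_card, Nat.card_eq_fintype_card, Fintype.card_coe,
      ← Nat.card_eq_fintype_card] at h1
  have hsum : ((IN F Z).card : ℝ) ≤ Z * ∑ 𝔫 ∈ IN F Z, (1 : ℝ) / Ideal.absNorm 𝔫 := by
    rw [Finset.mul_sum, Finset.card_eq_sum_ones]
    push_cast
    apply Finset.sum_le_sum
    intro I hI
    rw [mem_IN (by linarith)] at hI
    have hpos : (0 : ℝ) < (Ideal.absNorm I : ℝ) := by
      have : Ideal.absNorm I ≠ 0 := fun h => hI.2 (Ideal.absNorm_eq_zero_iff.1 h)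
      exact_mod_cast Nat.pos_of_ne_zero this
    rw [mul_one_div, le_div_iff₀ hpos, one_mul]
    exact hI.1
  have hlog : Real.log Z ≤ Z := (Real.log_le_sub_one_of_pos (by linarith)).trans (by linarith)
  have hlog0 : 0 ≤ Real.log Z := Real.log_nonneg (by linarith)
  calc (Nat.card (ClassGroup (𝓞 F)) : ℝ) ≤ ((IN F Z).card : ℝ) := by exact_mod_cast hcard
    _ ≤ Z * ∑ 𝔫 ∈ IN F Z, (1 : ℝ) / Ideal.absNorm 𝔫 := hsum
    _ ≤ Z * (C' * Real.log Z ^ n) := by
        apply mul_le_mul_of_nonneg_left (hh F hF.2 Z hZ2) (by linarith)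
    _ ≤ Z * (C' * Z ^ n) := by
        apply mul_le_mul_of_nonneg_left _ (by linarith)
        apply mul_le_mul_of_nonneg_left _ (by linarith)
        exact pow_le_pow_left₀ hlog0 hlog n
    _ = C' * (2 * c) ^ (n + 1) * dd F ^ (n + 1) := by
        rw [hZ]
        ring

end H12.KF
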