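import Mathlib

/-!
# [H12 KF ORH] duality for a subgroup of finite index, 30-60 lines

Compose the characters of the finite group `A ⧸ H` with the projection (`AddChar.compAddMonoidHom`, `QuotientAddGroup.mk'`; injective since the projection is surjective). Their number is `Nat.card (A ⧸ H)` (`AddChar.card_eq` for `ℂ`), and `AddChar.sum_apply_eq_ite`.
-/

set_option autoImplicit false

open scoped Classical

noncomputable section

namespace H12.KF

theorem orh {A : Type} [AddCommGroup A] (H : AddSubgroup A) (hf : Finite (A ⧸ H)) :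
    ∃ Ξ : Finset (AddChar A ℂ), Ξ.card = Nat.card (A ⧸ H) ∧ 1 ∈ Ξ ∧
      (∀ χ ∈ Ξ, ∀ t ∈ H, χ t = 1) ∧ (∀ χ ∈ Ξ, ∀ t, ‖χ t‖ = 1) ∧
      ∀ t, ∑ χ ∈ Ξ, χ t = if t ∈ H then (Nat.card (A ⧸ H) : ℂ) else 0 := by
  haveI : Fintype (A ⧸ H) := Fintype.ofFinite _
  have hinj : Function.Injective
      (fun ψ : AddChar (A ⧸ H) ℂ => ψ.compAddMonoidHom (QuotientAddGroup.mk' H)) := by
    intro ψ1 ψ2 h
    ext x
    obtain ⟨a, rfl⟩ := QuotientAddGroup.mk_surjective x
    have h1 : (ψ1.compAddMonoidHom (QuotientAddGroup.mk' H)) a =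
        (ψ2.compAddMonoidHom (QuotientAddGroup.mk' H)) a := by rw [show
          ψ1.compAddMonoidHom (QuotientAddGroup.mk' H) = ψ2.compAddMonoidHom (QuotientAddGroup.mk' H) from h]
    exact h1
  refine ⟨(Finset.univ : Finset (AddChar (A ⧸ H) ℂ)).map ⟨_, hinj⟩, ?_, ?_, ?_, ?_, ?_⟩
  · rw [Finset.card_map, Finset.card_univ, AddChar.card_eq, Nat.card_eq_fintype_card]
  · rw [Finset.mem_map]
    refine ⟨1, Finset.mem_univ _, ?_⟩
    ext a
    rfl
  · intro χ hχ t ht
    rw [Finset.mem_map] at hχ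
    obtain ⟨ψ, _, rfl⟩ := hχ
    show ψ (QuotientAddGroup.mk' H t) = 1
    have h1 : QuotientAddGroup.mk' H t = 0 := by
      rw [QuotientAddGroup.mk'_apply, QuotientAddGroup.eq_zero_iff]
      exact ht
    rw [h1, AddChar.map_zero_eq_one]
  · intro χ hχ t
    rw [Finset.mem_map] at hχ
    obtain ⟨ψ, _, rfl⟩ := hχ
    exact AddChar.norm_apply ψ _
  · intro t
    rw [Finset.sum_map]
    have h1 : ∀ ψ : AddChar (A ⧸ H) ℂ,
        ((⟨_, hinj⟩ : AddChar (A ⧸ H) ℂ ↪ AddChar A ℂ) ψ) t = ψ (QuotientAddGroup.mk' H t) :=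
      fun ψ => rfl
    rw [Finset.sum_congr rfl fun ψ _ => h1 ψ, AddChar.sum_apply_eq_ite]
    have h2 : (QuotientAddGroup.mk' H t = 0) = (t ∈ H) := by
      rw [QuotientAddGroup.mk'_apply, QuotientAddGroup.eq_zero_iff]
    simp only [h2, Nat.card_eq_fintype_card]

end H12.KF
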