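import Pool.Agent.H12.KF.Defs
import Pool.Agent.H51.SN.Kum
import Pool.Agent.H63.MA.GLoc

/-!
# [H12 KF TAM] the Kummer symbol of a uniformiser is onto on the inertia group, 50-100 lines

`v` not above `l`, `ord v π = 1`. There may be a lemma in the library (`LD`, `ld_kk_t`, `GFrob`, `kk` in H63/MA and H38/BG: a generator `t` of tame inertia with `kk π t = ord v π`; `kk` is the symbol of H63/MA, compare with `kq`: both are given by `γ B = ζ ^ a B`). Direct proof: if `kq π τ = 0` for all `τ` in the inertia group of `P.P v` then every `τ` there fixes a root `B`, `B ^ l = π`,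
so `L = K(B)` is unramified at the prime `w` under `P.P v` (the inertia group of `P.P v` fixes `L`; see `unr` in `H51/SN/Unr.lean` and `H77/AQ`), but `l * ord w B = e * ord v π = e` gives `l ∣ e`. Hence some `τ₀` has `kq π τ₀ ≠ 0`; a power of `τ₀` has the value `1` (`kq` is additive on the powers of `τ₀`: `kq_mul`; `l` is prime).
-/

set_option autoImplicit false

open scoped NumberField
open IsDedekindDomain H38.ML
open scoped Classical

noncomputable section

namespace H12.KF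

open H63.MA H51.SN H67.AQ

/-- a generator of the tame inertia group at a given prime `P` over `v` -/
private theorem tam_at {K Ω : Type} [Field K] [NumberField K] [Field Ω] [Algebra K Ω]
    [IsAlgClosure K Ω] {l : ℕ} (hl : l.Prime) {ζ : K} (hζ : IsPrimitiveRoot ζ l) {v : Pl K}
    {π : Kˣ} (hπ : ord v π = 1) (P : Ideal (𝓞 Ω)) (hP : P.IsPrime)
    (hPv : P.under (𝓞 K) = v.asIdeal) :
    ∃ (w : Ω) (τ : Gal(Ω/K)), w ^ l = algebraMap K Ω (π : K) ∧ τ ∈ P.inertia Gal(Ω/K) ∧
      τ w = algebraMap K Ω ζ * w := by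
  obtain ⟨w, hw⟩ := gloc_root (p := l) Ω hl π
  have hinj := (algebraMap K Ω).injective
  have hw0 : w ≠ 0 := by
    intro h0
    rw [h0, zero_pow hl.ne_zero] at hw
    exact π.ne_zero (hinj (by rw [map_zero]; exact hw.symm))
  have hζΩ : IsPrimitiveRoot (algebraMap K Ω ζ) l := hζ.map_of_injective hinj
  obtain ⟨τ, hτ, hτw⟩ := H38.TD.ram_move l hl ζ hζ v P hP hPv π (by rw [← ord_eq_od]; exact hπ) w hw
  obtain ⟨k, hk⟩ := H38.TD.root_ratio (K := K) hl.pos hζ (x := τ w) hw0
    (by rw [← map_pow, hw, AlgEquiv.commutes])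
  have hpk : ¬ l ∣ k := by
    intro hd
    apply hτw
    rw [hk, (hζΩ.pow_eq_one_iff_dvd k).2 hd, one_mul]
  have hco : Nat.Coprime k l := ((Nat.Prime.coprime_iff_not_dvd hl).2 hpk).symm
  obtain ⟨j, hj⟩ : ∃ j : ℕ, k * j ≡ 1 [MOD l] := by
    obtain ⟨j, hj⟩ := Nat.exists_mul_mod_eq_one_of_coprime hco hl.one_lt
    exact ⟨j, by rw [Nat.ModEq, hj.2, Nat.mod_eq_of_lt hl.one_lt]⟩
  have hpow : ∀ j : ℕ, (τ ^ j) w = algebraMap K Ω ζ ^ (k * j) * w := by
    intro j
    induction j with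
    | zero => simp
    | succ j ih =>
      rw [pow_succ', AlgEquiv.mul_apply, ih, map_mul, map_pow, AlgEquiv.commutes, hk, Nat.mul_succ,
        pow_add]
      ring
  refine ⟨w, τ ^ j, hw, Subgroup.pow_mem _ hτ j, ?_⟩
  rw [hpow j]
  congr 1
  have h1 : algebraMap K Ω ζ ^ (k * j) = algebraMap K Ω ζ ^ 1 := by
    rw [pow_eq_pow_mod (k * j) hζΩ.pow_eq_one, show k * j % l = 1 % l from hj,
      ← pow_eq_pow_mod 1 hζΩ.pow_eq_one]
  rw [h1, pow_one]

theorem tam {K : IntermediateField ℚ QBar} [NumberField K] {l : ℕ} (hl : l.Prime) {ζ : K}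
    (hζ : IsPrimitiveRoot ζ l) (P : DP K QBar) (v : Pl K) (hv : ¬ Above l v) {π : Kˣ}
    (hπ : ord v π = 1) :
    ∃ τ ∈ (P.P v).inertia Gal(QBar/K), kq l ζ (algebraMap K QBar (π : K)) τ = 1 := by
  obtain ⟨w, τ, hw, hτ, hτw⟩ := tam_at hl hζ hπ (P.P v) (P.prime v) (P.under v)
  have hx : algebraMap K QBar (π : K) ≠ 0 :=
    fun h0 => π.ne_zero ((algebraMap K QBar).injective (by rw [h0, map_zero]))
  refine ⟨τ, hτ, ?_⟩
  rw [kq_eq_nat hl hζ hx (AlgEquiv.commutes τ (π : K)) 1 hw (by rw [pow_one]; exact hτw), Nat.cast_one]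

end H12.KF
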