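import Pool.Agent.H12.KF.TDf
import Pool.Agent.H12.KF.Orh
import Pool.Agent.H12.KF.Tam

/-!
# [H12 KF CNT] the number of typed homomorphisms in a box, 130-190 lines (finite sums)

For `f ∈ Bx` and points `s j v ∈ fo (x j) v`, `v ∈ f j` (`Fintype.piFinset`, `Finset.pi`): the label `t (f, s) = ∑ j, ∑ v ∈ f j, sgl (s j v) v`: at `v ∈ f j` it is `s j v` (the `f j` are pairwise disjoint and disjoint from `S0`; `s j v` is fixed by the decomposition group), `0` at the other places.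
(1) `χ (t (f, s)) = ∏ j, ∏ v ∈ f j, χ (sgl (s j v) v)`, so `∑_s χ (t (f, s)) = ∏ j, ∏ v ∈ f j, gx χ (x j) v` (`Finset.prod_univ_sum`, `Finset.prod_sum`).
(2) `N = Nat.card (Lab ⧸ H₀) = #Ξ` (`orh`): `N #{(f, s) | t (f, s) ∈ H₀} = ∑_{χ ∈ Ξ} ∑_f ∏ ∏ gx χ (x j) v`; the term `χ = 1` is `∑_f ∏ ∏ #fo`, each of the others is at most `Err` in absolute value: `N #{..} ≥ ∑_f ∏ ∏ #fo - N Err` (real parts).
(3) For `t (f, s) ∈ H₀` take `Ys (t)`; `Xs` = the union. The sets for different `(f, s)` are disjoint: if `κ` is typed for `t` and for `t'` then `t = t'`: at `v ∉ S0 ∪ D` (the labels vanish elsewhere) take `π` with `ord v π = 1` (`exists_unif`); if `t v ≠ 0` then it is in the orbit of some `x j`, of prime order `l ∣ m`;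
`tam` gives `τ` in the inertia group with `kq l (ζ l) π τ = 1`, so `κ τ = t v` (`tame`; `(1 : ZMod l).val = 1`); if `t' v = 0` then `κ τ = 0` (`zero`), contradiction; if `t' v ≠ 0`, of order `l'`: if `l' ≠ l`: `l' • κ τ = 0` and `l • κ τ = 0` give `κ τ = 0`, contradiction; so `l' = l` and `κ τ = t' v`. And `(f, s)` is determined by `t`: `v ∈ f j` iff `t v` is in the orbit of `x j` (`huni`: the orbits are different; `t v ≠ 0`).
So `M₀ #Xs = ∑ M₀ #Ys ≥ N #{..}`.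
-/

set_option autoImplicit false

open scoped NumberField
open IsDedekindDomain H38.ML
open scoped Classical

noncomputable section

namespace H12.KF

open H63.MA H51.SN H67.AQ

variable {K : IntermediateField ℚ QBar} [NumberField K] {Q : Type} [Group Q]
  {T : Type} [AddCommGroup T] [Finite T] [DistribMulAction Q T]

private theorem cnt_fo (φ : Gal(QBar/K) →* Q) (P : DP K QBar) (x : T) (v : Pl K) (s : T) :
    s ∈ fo φ P x v ↔ (∃ a : Q, s = a • x) ∧ ∀ σ ∈ dec (K := K) (P.P v), φ σ • s = s := by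
  unfold fo
  rw [Set.Finite.mem_toFinset]
  rfl

omit [Finite T] in
private theorem cnt_sgl (φ : Gal(QBar/K) →* Q) (P : DP K QBar) (S0 : Finset (Pl K)) {s : T}
    {v : Pl K} (hv : v ∉ S0) (h : ∀ σ ∈ dec (K := K) (P.P v), φ σ • s = s) :
    (sgl φ P S0 s v : Pl K →₀ T) = Finsupp.single v s := by
  unfold sgl
  rw [dif_pos ⟨hv, h⟩]

omit [Finite T] in
/-- two labels of the same typed function are equal -/
private theorem cnt_eq {m : ℕ} {ζ : ℕ → K}
    (hζ : ∀ l : ℕ, l.Prime → l ∣ m → IsPrimitiveRoot (ζ l) l)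
    {φ : Gal(QBar/K) →* Q} (P : DP K QBar) (S0 : Finset (Pl K))
    (hS0 : ∀ l : ℕ, l.Prime → l ∣ m → ∀ v, Above l v → v ∈ S0)
    {t t' : Pl K → T} {κ : Gal(QBar/K) → T} (ht : TypT m ζ φ P S0 t κ)
    (ht' : TypT m ζ φ P S0 t' κ) {v : Pl K} (hv : v ∉ S0)
    (hφ : ∀ τ ∈ (P.P v).inertia Gal(QBar/K), φ τ = 1) {l : ℕ} (hl : l.Prime) (hlm : l ∣ m)
    (hlt : l • t v = 0) (h0 : t v ≠ 0)
    (h1 : t' v = 0 ∨ ∃ l' : ℕ, l'.Prime ∧ l' ∣ m ∧ l' • t' v = 0) : t v = t' v := by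
  obtain ⟨π, hπ⟩ := exists_unif v
  obtain ⟨τ, hτ, hτ1⟩ := tam hl (hζ l hl hlm) P v (fun h => hv (hS0 l hl hlm v h)) hπ
  have h2 := ht.tame v hv hφ l hl hlm hlt π hπ τ hτ
  have hone : (1 : ZMod l).val = 1 := by
    have : Fact (1 < l) := ⟨hl.one_lt⟩
    exact ZMod.val_one l
  rw [hτ1, hone, one_smul] at h2
  rcases h1 with h1 | ⟨l', hl', hlm', hlt'⟩
  · exact absurd (h2.symm.trans (ht'.zero v hv h1 τ hτ (hφ τ hτ))) h0
  · have h3 := ht'.tame v hv hφ l' hl' hlm' hlt' π hπ τ hτ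
    have h4 : l' • t v = 0 := by
      rw [← h2, h3, smul_comm, hlt', smul_zero]
    have h5 : l = l' := by
      have h6 : addOrderOf (t v) = l := addOrderOf_eq_prime hlt h0 (hp := ⟨hl⟩)
      have h7 : l ∣ l' := by
        rw [← h6]
        exact addOrderOf_dvd_of_nsmul_eq_zero h4
      exact (Nat.prime_dvd_prime_iff_eq hl hl').1 h7
    subst h5
    rw [hτ1, hone, one_smul] at h3
    exact h2.symm.trans h3

section idx

variable {J : Type} [Fintype J]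

/-- the index set -/
private def Ax (f : J → Finset (Pl K)) : Finset (Σ _ : J, Pl K) := Finset.univ.sigma f

/-- the label of a choice -/
private def La (φ : Gal(QBar/K) →* Q) (P : DP K QBar) (S0 : Finset (Pl K))
    (g : Σ f : J → Finset (Pl K), ∀ a ∈ Ax f, T) : Lab φ P S0 T :=
  ∑ a ∈ (Ax g.1).attach, sgl φ P S0 (g.2 a.1 a.2) a.1.2

/-- the set of the choices -/
private def Gx (φ : Gal(QBar/K) →* Q) (P : DP K QBar) (x : J → T)
    (B : Finset (J → Finset (Pl K))) : Finset (Σ f : J → Finset (Pl K), ∀ a ∈ Ax f, T) :=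
  B.sigma fun f => (Ax f).pi fun a => fo φ P (x a.1) a.2

private theorem cnt_char {φ : Gal(QBar/K) →* Q} {P : DP K QBar} {S0 : Finset (Pl K)} (x : J → T)
    (B : Finset (J → Finset (Pl K))) (χ : AddChar (Lab φ P S0 T) ℂ) :
    ∑ g ∈ Gx φ P x B, χ (La φ P S0 g) = ∑ f ∈ B, ∏ j, ∏ v ∈ f j, gx χ (x j) v := by
  unfold Gx
  rw [Finset.sum_sigma]
  refine Finset.sum_congr rfl fun f _ => ?_
  have h1 : ∏ j, ∏ v ∈ f j, gx χ (x j) v = ∏ a ∈ Ax f, gx χ (x a.1) a.2 := by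
    unfold Ax
    rw [Finset.prod_sigma]
  rw [h1]
  unfold gx
  rw [Finset.prod_sum]
  refine Finset.sum_congr rfl fun p _ => ?_
  unfold La
  have h2 : ∀ (s : Finset {a // a ∈ Ax f}), χ (∑ a ∈ s, sgl φ P S0 (p a.1 a.2) a.1.2) =
      ∏ a ∈ s, χ (sgl φ P S0 (p a.1 a.2) a.1.2) := by
    intro s
    induction s using Finset.induction_on with
    | empty => rw [Finset.sum_empty, Finset.prod_empty, AddChar.map_zero_eq_one]
    | insert a s ha ih => rw [Finset.sum_insert ha, Finset.prod_insert ha, AddChar.map_add_eq_mul, ih]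
  exact h2 _

private theorem cnt_val {φ : Gal(QBar/K) →* Q} {P : DP K QBar} {S0 : Finset (Pl K)} (x : J → T)
    (B : Finset (J → Finset (Pl K))) (hB : ∀ f ∈ B, ∀ j, ∀ v ∈ f j, v ∉ S0)
    (hd : ∀ f ∈ B, ∀ i j, i ≠ j → Disjoint (f i) (f j))
    (g : Σ f : J → Finset (Pl K), ∀ a ∈ Ax f, T) (hg : g ∈ Gx φ P x B) :
    (∀ v, (∀ j, v ∉ g.1 j) → (La φ P S0 g : Pl K →₀ T) v = 0) ∧
      ∀ j v (hv : (⟨j, v⟩ : Σ _ : J, Pl K) ∈ Ax g.1),
        (La φ P S0 g : Pl K →₀ T) v = g.2 ⟨j, v⟩ hv := by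
  obtain ⟨f, p⟩ := g
  unfold Gx at hg
  rw [Finset.mem_sigma] at hg
  obtain ⟨hf, hp⟩ := hg
  have hf' : f ∈ B := hf
  have hp' : ∀ (a : Σ _ : J, Pl K) (h : a ∈ Ax f), p a h ∈ fo φ P (x a.1) a.2 :=
    fun a h => Finset.mem_pi.1 hp a h
  have hmem : ∀ (a : Σ _ : J, Pl K), a ∈ Ax f → a.2 ∈ f a.1 := fun a h =>
    (Finset.mem_sigma.1 h).2
  have h1 : (La φ P S0 ⟨f, p⟩ : Pl K →₀ T) =
      ∑ a ∈ (Ax f).attach, Finsupp.single a.1.2 (p a.1 a.2) := by
    unfold La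
    rw [AddSubgroup.val_finsetSum]
    refine Finset.sum_congr rfl fun a _ => ?_
    exact cnt_sgl φ P S0 (hB f hf' _ _ (hmem a.1 a.2))
      ((cnt_fo φ P _ _ _).1 (hp' a.1 a.2)).2
  constructor
  · intro v hv
    rw [h1, Finsupp.finsetSum_apply]
    refine Finset.sum_eq_zero fun a _ => ?_
    rw [Finsupp.single_apply, if_neg]
    intro h
    apply hv a.1.1
    change v ∈ f a.1.1
    rw [← h]
    exact hmem a.1 a.2
  · intro j v hv
    rw [h1, Finsupp.finsetSum_apply,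
      Finset.sum_eq_single (⟨⟨j, v⟩, hv⟩ : {a // a ∈ Ax f})]
    · rw [Finsupp.single_eq_same]
    · intro a _ ha
      rw [Finsupp.single_apply, if_neg]
      intro h
      apply ha
      have h2 : a.1.1 = j := by
        by_contra hne
        have h3 := Finset.disjoint_left.1 (hd f hf' a.1.1 j hne) (hmem a.1 a.2)
        rw [h] at h3
        exact h3 (hmem _ hv)
      obtain ⟨⟨i, u⟩, ha'⟩ := a
      change i = j at h2
      change u = v at h
      subst h2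
      subst h
      rfl
    · intro h
      exact absurd (Finset.mem_attach _ _) h

end idx

theorem cnt {m : ℕ} (hmT : ∀ x : T, m • x = 0) {ζ : ℕ → K}
    (hζ : ∀ l : ℕ, l.Prime → l ∣ m → IsPrimitiveRoot (ζ l) l) {J : Type} [Fintype J] (x : J → T)
    (hx : ∀ j, (addOrderOf (x j)).Prime) (huni : ∀ i j (a : Q), x i = a • x j → i = j)
    {φ : Gal(QBar/K) →* Q} (P : DP K QBar) (S0 S' D : Finset (Pl K))
    (hS0 : ∀ l : ℕ, l.Prime → l ∣ m → ∀ v, Above l v → v ∈ S0)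
    (hD : ∀ v, v ∉ S0 → v ∉ D → ∀ τ ∈ (P.P v).inertia Gal(QBar/K), φ τ = 1)
    (H₀ : AddSubgroup (Lab φ P S0 T)) (hfin : Finite (Lab φ P S0 T ⧸ H₀)) (M₀ : ℕ)
    (hX : ∀ t ∈ H₀, ∃ Ys : Finset (Gal(QBar/K) → T),
      Nat.card (Lab φ P S0 T ⧸ H₀) ≤ M₀ * Ys.card ∧
      ∀ κ ∈ Ys, TypT m ζ φ P S0 (t : Pl K →₀ T) κ ∧
        ∀ v ∈ S', ∀ τ ∈ dec (K := K) (P.P v), φ τ = 1 → κ τ = 0)
    (X : J → ℝ) (lam Err : ℝ) (hE : 0 ≤ Err)
    (hErr : ∀ χ : AddChar (Lab φ P S0 T) ℂ, χ ≠ 1 → (∀ t ∈ H₀, χ t = 1) →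
      ‖∑ f ∈ Bx (S0 ∪ D) X lam, ∏ j, ∏ v ∈ f j, gx χ (x j) v‖ ≤ Err) :
    ∃ Xs : Finset (Gal(QBar/K) → T),
      ∑ f ∈ Bx (S0 ∪ D) X lam, ∏ j, ∏ v ∈ f j, ((fo φ P (x j) v).card : ℝ) -
        Nat.card (Lab φ P S0 T ⧸ H₀) * Err ≤ M₀ * Xs.card ∧
      ∀ κ ∈ Xs, (∀ v ∈ S', ∀ τ ∈ dec (K := K) (P.P v), φ τ = 1 → κ τ = 0) ∧
        ∃ f ∈ Bx (S0 ∪ D) X lam, ∃ t : Lab φ P S0 T, TypT m ζ φ P S0 (t : Pl K →₀ T) κ ∧
          (∀ v, (∀ j, v ∉ f j) → (t : Pl K →₀ T) v = 0) ∧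
          ∀ j, ∀ v ∈ f j, ∃ a : Q, (t : Pl K →₀ T) v = a • x j := by
  obtain ⟨B, hBdef⟩ : ∃ B, B = Bx (S0 ∪ D) X lam := ⟨_, rfl⟩
  rw [← hBdef]
  have hBm : ∀ f ∈ B, (∀ j, ∀ v ∈ f j, v ∉ S0 ∧ v ∉ D) ∧
      ∀ i j, i ≠ j → Disjoint (f i) (f j) := by
    intro f hf
    rw [hBdef] at hf
    unfold Bx at hf
    rw [Finset.mem_filter, Fintype.mem_piFinset] at hf
    refine ⟨fun j v hv => ?_, hf.2⟩
    have h5 := hf.1 j
    unfold Win at h5
    have h6 := Finset.disjoint_left.1 (Finset.mem_filter.1 h5).2.2 hv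
    rw [Finset.mem_union, not_or] at h6
    exact h6
  rw [← hBdef] at hErr
  have hxm : ∀ j, addOrderOf (x j) ∣ m := fun j => addOrderOf_dvd_of_nsmul_eq_zero (hmT (x j))
  have hx0 : ∀ j, x j ≠ 0 := by
    intro j h0
    have h1 := hx j
    rw [h0, addOrderOf_zero] at h1
    exact Nat.not_prime_one h1
  have hord : ∀ j (a : Q), addOrderOf (x j) • (a • x j) = 0 := by
    intro j a
    have h6 := map_nsmul (DistribSMul.toAddMonoidHom T a) (addOrderOf (x j)) (x j)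
    rw [addOrderOf_nsmul_eq_zero, map_zero] at h6
    exact h6.symm
  have hax : ∀ j (a : Q), a • x j ≠ 0 := by
    intro j a h
    exact hx0 j ((smul_eq_zero_iff_eq a).1 h)
  -- values of the labels
  obtain ⟨L, hL⟩ : ∃ L : (Σ f : J → Finset (Pl K), ∀ a ∈ Ax f, T) → Lab φ P S0 T,
    L = La φ P S0 := ⟨_, rfl⟩
  obtain ⟨G, hG⟩ : ∃ G, G = Gx φ P x B := ⟨_, rfl⟩
  have hval := fun g (hg : g ∈ G) => cnt_val (φ := φ) (P := P) (S0 := S0) x B
    (fun f hf j v hv => ((hBm f hf).1 j v hv).1) (fun f hf => (hBm f hf).2) g (hG ▸ hg)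
  rw [← hL] at hval
  have hmemG : ∀ g ∈ G, g.1 ∈ B ∧ ∀ (a : Σ _ : J, Pl K) (h : a ∈ Ax g.1),
      g.2 a h ∈ fo φ P (x a.1) a.2 := by
    intro g hg
    rw [hG] at hg
    unfold Gx at hg
    rw [Finset.mem_sigma] at hg
    exact ⟨hg.1, fun a h => Finset.mem_pi.1 hg.2 a h⟩
  have hin : ∀ (f : J → Finset (Pl K)) j v, v ∈ f j → (⟨j, v⟩ : Σ _ : J, Pl K) ∈ Ax f :=
    fun f j v hv => Finset.mem_sigma.2 ⟨Finset.mem_univ _, hv⟩
  have horb : ∀ g ∈ G, ∀ j, ∀ v ∈ g.1 j, ∃ a : Q, (L g : Pl K →₀ T) v = a • x j := by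
    intro g hg j v hv
    rw [(hval g hg).2 j v (hin g.1 j v hv)]
    exact ((cnt_fo φ P _ _ _).1 ((hmemG g hg).2 _ (hin g.1 j v hv))).1
  -- the label determines the choice
  have hinj : ∀ g ∈ G, ∀ g' ∈ G, L g = L g' → g = g' := by
    intro g hg g' hg' hLL
    have hsub : ∀ g ∈ G, ∀ g' ∈ G, L g = L g' → ∀ j, ∀ v ∈ g.1 j, v ∈ g'.1 j := by
      intro g hg g' hg' hLL j v hv
      obtain ⟨a, ha⟩ := horb g hg j v hv
      by_contra hv'
      by_cases hall : ∀ i, v ∉ g'.1 i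
      · have h1 := (hval g' hg').1 v hall
        rw [← hLL, ha] at h1
        exact hax j a h1
      · push Not at hall
        obtain ⟨i, hi⟩ := hall
        obtain ⟨a', ha'⟩ := horb g' hg' i v hi
        rw [← hLL, ha] at ha'
        have h2 : x j = (a⁻¹ * a') • x i := by
          rw [mul_smul, ← ha', inv_smul_smul]
        have h3 := huni j i _ h2
        subst h3
        exact hv' hi
    obtain ⟨f, p⟩ := g
    obtain ⟨f', p'⟩ := g'
    have hff : f = f' := by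
      funext j
      exact Finset.Subset.antisymm (fun v hv => hsub _ hg _ hg' hLL j v hv)
        (fun v hv => hsub _ hg' _ hg hLL.symm j v hv)
    subst hff
    congr 1
    funext a ha
    obtain ⟨j, v⟩ := a
    have h1 := (hval _ hg).2 j v ha
    have h2 := (hval _ hg').2 j v ha
    rw [hLL] at h1
    exact h1.symm.trans h2
  -- typed functions determine the label
  have hty : ∀ g ∈ G, ∀ g' ∈ G, ∀ κ, TypT m ζ φ P S0 (L g : Pl K →₀ T) κ →
      TypT m ζ φ P S0 (L g' : Pl K →₀ T) κ → g = g' := by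
    have hkey : ∀ g ∈ G, ∀ g' ∈ G, ∀ κ, TypT m ζ φ P S0 (L g : Pl K →₀ T) κ →
        TypT m ζ φ P S0 (L g' : Pl K →₀ T) κ → ∀ v, (L g : Pl K →₀ T) v ≠ 0 →
          (L g : Pl K →₀ T) v = (L g' : Pl K →₀ T) v := by
      intro g hg g' hg' κ h1 h2 v hv
      have h3 : ∃ j, v ∈ g.1 j := by
        by_contra hno
        push Not at hno
        exact hv ((hval g hg).1 v hno)
      obtain ⟨j, hj⟩ := h3
      obtain ⟨hvS, hvD⟩ := (hBm _ (hmemG g hg).1).1 j v hj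
      obtain ⟨a, ha⟩ := horb g hg j v hj
      refine cnt_eq hζ P S0 hS0 h1 h2 hvS (hD v hvS hvD) (hx j) (hxm j) ?_ hv ?_
      · rw [ha]
        exact hord j a
      · by_cases hall : ∀ i, v ∉ g'.1 i
        · exact Or.inl ((hval g' hg').1 v hall)
        · push Not at hall
          obtain ⟨i, hi⟩ := hall
          obtain ⟨a', ha'⟩ := horb g' hg' i v hi
          refine Or.inr ⟨addOrderOf (x i), hx i, hxm i, ?_⟩
          rw [ha']
          exact hord i a'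
    intro g hg g' hg' κ h1 h2
    apply hinj g hg g' hg'
    apply Subtype.ext
    ext v
    by_cases hv : (L g : Pl K →₀ T) v = 0
    · by_cases hv' : (L g' : Pl K →₀ T) v = 0
      · rw [hv, hv']
      · exact (hkey g' hg' g hg κ h2 h1 v hv').symm
    · exact hkey g hg g' hg' κ h1 h2 v hv
  -- the count by duality
  obtain ⟨Ξ, hΞc, hΞ1, hΞt, hΞn, hΞs⟩ := orh H₀ hfin
  obtain ⟨N, hN⟩ : ∃ N : ℕ, N = Nat.card (Lab φ P S0 T ⧸ H₀) := ⟨_, rfl⟩
  rw [← hN] at hΞc hX ⊢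
  obtain ⟨W, hW⟩ : ∃ W : ℝ, W = ∑ f ∈ B, ∏ j, ∏ v ∈ f j, ((fo φ P (x j) v).card : ℝ) := ⟨_, rfl⟩
  rw [← hW]
  have hcount : W - N * Err ≤ N * ((G.filter fun g => L g ∈ H₀).card : ℝ) := by
    have h1 : ∑ g ∈ G, ∑ χ ∈ Ξ, χ (L g) = ((N : ℝ) * ((G.filter fun g => L g ∈ H₀).card : ℝ) : ℝ) := by
      rw [Finset.sum_congr rfl fun g _ => hΞs (L g), ← Finset.sum_filter, Finset.sum_const, ← hN,
        nsmul_eq_mul]
      push_cast
      ring
    rw [Finset.sum_comm, ← Finset.add_sum_erase _ _ hΞ1] at h1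
    have h2 : ∑ g ∈ G, (1 : AddChar (Lab φ P S0 T) ℂ) (L g) = (W : ℂ) := by
      rw [hG, hL, cnt_char x B, hW]
      push_cast
      refine Finset.sum_congr rfl fun f _ => Finset.prod_congr rfl fun j _ =>
        Finset.prod_congr rfl fun v _ => ?_
      unfold gx
      rw [Finset.sum_congr rfl fun s _ => AddChar.one_apply _, Finset.sum_const, nsmul_eq_mul,
        mul_one]
    rw [h2] at h1
    have h3 : ‖∑ χ ∈ Ξ.erase 1, ∑ g ∈ G, χ (L g)‖ ≤ N * Err := by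
      refine (norm_sum_le _ _).trans ?_
      have h4 : ∀ χ ∈ Ξ.erase 1, ‖∑ g ∈ G, χ (L g)‖ ≤ Err := by
        intro χ hχ
        rw [Finset.mem_erase] at hχ
        rw [hG, hL, cnt_char x B]
        exact hErr χ hχ.1 (hΞt χ hχ.2)
      refine (Finset.sum_le_sum h4).trans ?_
      rw [Finset.sum_const, nsmul_eq_mul]
      refine mul_le_mul_of_nonneg_right ?_ hE
      have h5 : (Ξ.erase 1).card ≤ N := by
        rw [← hΞc]
        exact Finset.card_erase_le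
      exact_mod_cast h5
    have h4 := congrArg Complex.re h1
    rw [Complex.add_re, Complex.ofReal_re, Complex.ofReal_re] at h4
    have h5 := (Complex.abs_re_le_norm (∑ χ ∈ Ξ.erase 1, ∑ g ∈ G, χ (L g))).trans h3
    have h6 := (abs_le.1 h5).1
    linarith
  -- the set
  choose! Yf hYf using hX
  refine ⟨(G.filter fun g => L g ∈ H₀).biUnion fun g => Yf (L g), ?_, ?_⟩
  · have hdis : ∀ g ∈ G.filter fun g => L g ∈ H₀, ∀ g' ∈ G.filter fun g => L g ∈ H₀, g ≠ g' →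
        Disjoint (Yf (L g)) (Yf (L g')) := by
      intro g hg g' hg' hne
      rw [Finset.mem_filter] at hg hg'
      rw [Finset.disjoint_left]
      intro κ h1 h2
      exact hne (hty g hg.1 g' hg'.1 κ ((hYf (L g) hg.2).2 κ h1).1 ((hYf (L g') hg'.2).2 κ h2).1)
    rw [Finset.card_biUnion hdis]
    refine hcount.trans ?_
    push_cast
    rw [Finset.mul_sum, mul_comm, ← nsmul_eq_mul, ← Finset.sum_const]
    refine Finset.sum_le_sum fun g hg => ?_
    have h1 := (hYf (L g) (Finset.mem_filter.1 hg).2).1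
    exact_mod_cast h1
  · intro κ hκ
    rw [Finset.mem_biUnion] at hκ
    obtain ⟨g, hg, hκg⟩ := hκ
    rw [Finset.mem_filter] at hg
    have h1 := (hYf (L g) hg.2).2 κ hκg
    exact ⟨h1.2, g.1, (hmemG g hg.1).1, L g, h1.1, (hval g hg.1).1, fun j v hv =>
      horb g hg.1 j v hv⟩

end H12.KF
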