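import Pool.Agent.H12.KF.TDf
import Pool.Agent.H51.SN.Coc

/-!
# [H12 KF CYC] the cocycle of a typed homomorphism, 60-100 lines

`coc` (H51/SN/Coc) with `θM x = u • x`, `u #Q = 1` modulo `m`: `∑ a, a • (u • a⁻¹ • x) = (u #Q) • x = x`. Locally constant: for `σ` in `F'.fixingSubgroup`, `F' = E ⊔` (the field of `ker φ`, finite by `hφ`: `FT`): `φ σ = 1` and `κ' σ = κ σ = 0`. Inertia at `v ∉ S0`, `t v = 0`: `κ' τ = κ τ = 0` for `τ` in the inertia group with `φ τ = 1`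
(`zero`), so `κ'` on the inertia group depends only on `φ τ`; `J` = the image of the inertia group, `c : J → T`, `c (i j) = c i + i • c j`; `S = ∑ j, c j`, `S = #J • c i + i • S` and `#J` is invertible modulo `m` (`#J ∣ #Q`): `x = - u' • S`, `u' #J = 1` modulo `m`: `c i = i • x - x`.
-/

set_option autoImplicit false

open scoped NumberField
open IsDedekindDomain H38.ML
open scoped Classical

noncomputable section

namespace H12.KF

open H63.MA H51.SN H67.AQ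

variable {K : IntermediateField ℚ QBar} [NumberField K] {Q : Type} [Group Q] [Fintype Q]
  {T : Type} [AddCommGroup T] [DistribMulAction Q T]

private lemma cyc_bez {m n : ℕ} (h : Nat.Coprime m n) (hmT : ∀ x : T, m • x = 0) :
    ∃ u : ℤ, ∀ x : T, u • (n • x) = x := by
  have h1 := Nat.gcd_eq_gcd_ab m n
  rw [h.gcd_eq_one] at h1
  refine ⟨Nat.gcdB m n, fun x => ?_⟩
  have h2 : (((m : ℤ) * Nat.gcdA m n + (n : ℤ) * Nat.gcdB m n : ℤ)) • x = x := by
    rw [← h1]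
    simp
  have h3 : ((m : ℤ) * Nat.gcdA m n) • x = 0 := by
    rw [mul_comm, mul_smul, natCast_zsmul, hmT, smul_zero]
  rw [add_smul, h3, zero_add, mul_comm, mul_smul, natCast_zsmul] at h2
  exact h2

private lemma cyc_inert {m : ℕ} (hmT : ∀ x : T, m • x = 0) (hmQ : Nat.Coprime m (Nat.card Q))
    {Γ : Type} [Group Γ] (φ : Γ →* Q) (I : Subgroup Γ) (κ : Γ → T)
    (hc : ∀ σ τ, κ (σ * τ) = κ σ + φ σ • κ τ) (h0 : ∀ τ ∈ I, φ τ = 1 → κ τ = 0) :
    ∃ x : T, ∀ τ ∈ I, κ τ = φ τ • x - x := by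
  classical
  obtain ⟨J, hJ⟩ : ∃ J : Subgroup Q, J = I.map φ := ⟨_, rfl⟩
  have hcard : Nat.Coprime m (Nat.card J) := hmQ.coprime_dvd_right (Subgroup.card_subgroup_dvd_card J)
  obtain ⟨u, hu⟩ := cyc_bez hcard hmT
  have hpre : ∀ j : J, ∃ τ ∈ I, φ τ = j := by
    intro j
    have h7 : (j : Q) ∈ I.map φ := by
      rw [← hJ]
      exact j.2
    obtain ⟨τ, hτ, h⟩ := Subgroup.mem_map.mp h7
    exact ⟨τ, hτ, h⟩
  choose r hr1 hr2 using hpre
  have hdep : ∀ τ ∈ I, ∀ τ' ∈ I, φ τ = φ τ' → κ τ = κ τ' := by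
    intro τ hτ τ' hτ' h
    have h1 : τ' = τ * (τ⁻¹ * τ') := by group
    have h2 : κ (τ⁻¹ * τ') = 0 := by
      refine h0 _ (I.mul_mem (I.inv_mem hτ) hτ') ?_
      rw [map_mul, map_inv, h, inv_mul_cancel]
    rw [h1, hc, h2, smul_zero, add_zero]
  obtain ⟨S, hS⟩ : ∃ S : T, S = ∑ j : J, κ (r j) := ⟨_, rfl⟩
  refine ⟨-(u • S), fun τ hτ => ?_⟩
  have hi : φ τ ∈ J := by
    rw [hJ]
    exact Subgroup.mem_map_of_mem φ hτ
  have h1 : ∀ j : J, κ (r (⟨φ τ, hi⟩ * j)) = κ τ + φ τ • κ (r j) := by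
    intro j
    rw [← hc]
    refine hdep _ (hr1 _) _ (I.mul_mem hτ (hr1 _)) ?_
    rw [hr2, map_mul, hr2]
    rfl
  have h2 : S = Nat.card J • κ τ + φ τ • S := by
    have h3 : S = ∑ j : J, κ (r (⟨φ τ, hi⟩ * j)) := by
      rw [hS]
      exact (Fintype.sum_equiv (Equiv.mulLeft (⟨φ τ, hi⟩ : J)) (fun j => κ (r (⟨φ τ, hi⟩ * j)))
        (fun j => κ (r j)) (fun j => rfl)).symm
    refine h3.trans ?_
    simp only [h1]
    rw [Finset.sum_add_distrib, Finset.sum_const, ← Finset.smul_sum, ← hS, Finset.card_univ,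
      ← Nat.card_eq_fintype_card]
  have h4 : κ τ = u • (S - φ τ • S) := by
    have h5 : S - φ τ • S = Nat.card J • κ τ := by
      rw [sub_eq_iff_eq_add]
      exact h2
    rw [h5, hu]
  have h6 : φ τ • (u • S) = u • (φ τ • S) := map_zsmul (DistribMulAction.toAddMonoidHom T (φ τ)) u S
  rw [h4, smul_neg, h6, smul_sub]
  abel

theorem cyc {m : ℕ} (hmT : ∀ x : T, m • x = 0) (hmQ : Nat.Coprime m (Nat.card Q)) {ζ : ℕ → K}
    {φ : Gal(QBar/K) →* Q} (hφ : FT φ) (hs : Function.Surjective φ) (P : DP K QBar)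
    (S0 : Finset (Pl K)) {t : Pl K → T} {κ : Gal(QBar/K) → T} (hκ : TypT m ζ φ P S0 t κ) :
    ∃ κ' : Gal(QBar/K) → T, (∀ σ τ, κ' (σ * τ) = κ' σ + φ σ • κ' τ) ∧
      (∀ γ, φ γ = 1 → κ' γ = κ γ) ∧
      (∃ E : IntermediateField K QBar, FiniteDimensional K E ∧
        ∀ σ ∈ E.fixingSubgroup, φ σ = 1 ∧ κ' σ = 0) ∧
      ∀ v, v ∉ S0 → t v = 0 → ∃ x : T, ∀ τ ∈ (P.P v).inertia Gal(QBar/K), κ' τ = φ τ • x - x := by
  classical
  obtain ⟨u, hu⟩ := cyc_bez hmQ hmT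
  have hθM : ∀ x : T, ∑ a : Q, a • (zsmulAddGroupHom u : T →+ T) (a⁻¹ • x) = x := by
    intro x
    have h1 : ∀ a : Q, a • (zsmulAddGroupHom u : T →+ T) (a⁻¹ • x) = u • x := by
      intro a
      have h2 : a • (u • (a⁻¹ • x)) = u • (a • (a⁻¹ • x)) :=
        map_zsmul (DistribMulAction.toAddMonoidHom T a) u (a⁻¹ • x)
      rw [smul_inv_smul] at h2
      exact h2
    simp only [h1]
    rw [Finset.sum_const, Finset.card_univ, ← Nat.card_eq_fintype_card, smul_comm]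
    exact hu x
  obtain ⟨κ', hc, hker⟩ := coc (zsmulAddGroupHom u) hθM φ hs κ hκ.isA
  refine ⟨κ', hc, hker, ?_, ?_⟩
  · obtain ⟨E1, hE1, h1⟩ := hφ
    obtain ⟨E2, hE2, h2⟩ := hκ.ft
    haveI := hE1
    haveI := hE2
    refine ⟨E1 ⊔ E2, inferInstance, fun σ hσ => ?_⟩
    have h3 : σ ∈ E1.fixingSubgroup := IntermediateField.fixingSubgroup_antitone le_sup_left hσ
    have h4 : σ ∈ E2.fixingSubgroup := IntermediateField.fixingSubgroup_antitone le_sup_right hσ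
    have h5 : φ σ = 1 := h1 h3
    exact ⟨h5, by rw [hker σ h5]; exact h2 σ h4⟩
  · intro v hv htv
    refine cyc_inert hmT hmQ φ _ κ' hc fun τ hτ hφτ => ?_
    rw [hker τ hφτ]
    exact hκ.zero v hv htv τ hτ hφτ

end H12.KF
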