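import Pool.Agent.H51.SN.Defs
import Pool.Agent.H88.LH.Defs
import Pool.Agent.H63.MA.SymA

/-!
# H12-KF-DEFS: the fibre counts of K1 (MP_b39724_nt, abelian normal Hall subgroup with abelian quotient), definitions

`K` a number field in `QBar` with a primitive `l`-th root of unity `ζ`; `Q` a finite group of order prime to `l`, `V` a finite module over `𝔽_l[Q]` (`l • x = 0`);
`φ : Γ → Q` surjective of finite type with field `F` (`Acts F φ act`); `P : DP K QBar`; `S0` a finite set of places of `K` containing those above `l`.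

* `Bs l V ι`: a basis `m i` with coordinates `co`.
* `IdT n c`: `c i j a` (integers) is an idempotent matrix over `(ℤ / n)[Q]`; `CpT b c`: `#Q c i j a` is the matrix of `a` on `V` modulo `l`.
* `cact A c`: the operator `(c y) i = ∑ j a, c i j a • a (y j)` on `ι → M`.
* `Wp F S0`: the places of `F` not over `S0`; `ex act a`: the action on `Additive Fˣ`; `wx act a`: the action on `Wp F S0 →₀ ℤ`, `(a δ) w = δ (a⁻¹ w)`; `dv`: the divisors outside `S0`.
* `Lab φ P S0 V`: the labels: `t : Pl K →₀ V`, zero on `S0`, `t v` fixed by `φ (dec (P.P v))`.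
* `lb`: the value at `v` of the label of `δ : ι → Wp F S0 →₀ ℤ`: `lb δ v = ∑ a j, δ j (a⁻¹ w_v) • (a • m j)`, `w_v = wp F P v`.
* `kap y`: the function on `Γ` given by `y : ι → Fˣ`: `kap y γ = ∑ a j, (kq (a y_j) γ).val • (a • m j)` on `ker φ`, `0` outside.
* `Typ t κ`: `κ` is equivariant on `ker φ` (`IsA`), of finite level, and for `v ∉ S0`, `τ` in the inertia group at `v`, `φ τ = 1`: `κ τ = 0` if `t v = 0`, and `κ τ = (kq π τ).val • t v` if `φ` is trivial on
  the inertia group and `π : Kˣ` has order one at `v`.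
* `Kfd F act U`: the field of `U ≤ Q` as a subfield of `F`; `cor`: for `x : V` fixed by `U` the label of an ideal of this field: `δ_j = co x j` times the divisor of the extended ideal.
-/

set_option autoImplicit false

open scoped NumberField
open IsDedekindDomain H38.ML
open scoped Classical

noncomputable section

namespace H12.KF

open H63.MA H51.SN H67.AQ

section alg

/-- a basis with coordinates -/
structure Bs (l : ℕ) (V : Type) [AddCommGroup V] (ι : Type) [Fintype ι] where
  m : ι → V
  co : V →+ (ι → ZMod l)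
  co_m : ∀ (n : ι → ℤ) (i : ι), co (∑ j, n j • m j) i = (n i : ZMod l)
  inj : ∀ x, co x = 0 → x = 0

variable {Q : Type} [Group Q] [Fintype Q] {ι : Type} [Fintype ι]

/-- `c` is an idempotent matrix over `(ℤ / n)[Q]` -/
def IdT (n : ℕ) (c : ι → ι → Q → ℤ) : Prop :=
  ∀ i j a, (n : ℤ) ∣ (∑ k, ∑ b, c i k b * c k j (b⁻¹ * a)) - c i j a

/-- `#Q c i j a` is the matrix of `a` on `V` modulo `l` -/
def CpT {l : ℕ} {V : Type} [AddCommGroup V] [DistribMulAction Q V] (b : Bs l V ι)
    (c : ι → ι → Q → ℤ) : Prop :=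
  ∀ i j a, ((Nat.card Q * c i j a : ℤ) : ZMod l) = b.co (a • b.m j) i

/-- the operator of `c` on `ι → M` -/
def cact {M : Type} [AddCommGroup M] (A : Q →* AddMonoid.End M) (c : ι → ι → Q → ℤ) :
    (ι → M) →+ (ι → M) where
  toFun y i := ∑ j, ∑ a, c i j a • A a (y j)
  map_zero' := by
    funext i
    simp
  map_add' y z := by
    funext i
    simp only [Pi.add_apply, map_add, smul_add, Finset.sum_add_distrib]

end alg

section fld

variable {K : IntermediateField ℚ QBar} [NumberField K] {Q : Type} [Group Q]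
  (F : IntermediateField K QBar) [NumberField F]

/-- the places of `F` which are not over `S0` -/
abbrev Wp (S0 : Finset (Pl K)) : Type := {w : Pl F // ∀ v ∈ S0, w.asIdeal.under (𝓞 K) ≠ v.asIdeal}

variable {F}

/-- the action on the multiplicative group -/
def ex (act : Q →* (F ≃+* F)) : Q →* AddMonoid.End (Additive Fˣ) where
  toFun a := MonoidHom.toAdditive (ax act a)
  map_one' := by
    refine AddMonoidHom.ext fun x => Additive.toMul.injective (Units.ext ?_)
    change (act 1) _ = _
    rw [map_one]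
    rfl
  map_mul' a b := by
    refine AddMonoidHom.ext fun x => Additive.toMul.injective (Units.ext ?_)
    change (act (a * b)) _ = act a (act b _)
    rw [map_mul]
    rfl

/-- the divisor outside `S0` -/
def dv1 (S0 : Finset (Pl K)) : Additive Fˣ →+ (Wp F S0 →₀ ℤ) where
  toFun x := Finsupp.ofSupportFinite (fun w => ord w.1 x.toMul)
    (((finite_ord x.toMul).preimage Subtype.val_injective.injOn).subset fun _ h => h)
  map_zero' := by
    ext w
    exact ord_one w.1
  map_add' x y := by
    ext w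
    exact ord_mul w.1 x.toMul y.toMul

/-- the divisors outside `S0` of a family -/
def dv {ι : Type} (S0 : Finset (Pl K)) : (ι → Additive Fˣ) →+ (ι → (Wp F S0 →₀ ℤ)) where
  toFun y i := dv1 S0 (y i)
  map_zero' := by
    funext i
    exact map_zero _
  map_add' y z := by
    funext i
    exact map_add _ _ _

/-- the automorphisms `act a` are trivial on `K` -/
def KTriv (act : Q →* (F ≃+* F)) : Prop := ∀ (a : Q) (x : K), act a (algebraMap K F x) = algebraMap K F x

theorem pm_under {act : Q →* (F ≃+* F)} (h : KTriv act) (a : Q) (w : Pl F) :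
    (pm (act a) w).asIdeal.under (𝓞 K) = w.asIdeal.under (𝓞 K) := by
  ext x
  rw [Ideal.mem_comap, Ideal.mem_comap]
  have h1 : (NumberField.RingOfIntegers.mapRingEquiv (act a)).symm (algebraMap (𝓞 K) (𝓞 F) x) =
      algebraMap (𝓞 K) (𝓞 F) x := by
    rw [RingEquiv.symm_apply_eq]
    apply NumberField.RingOfIntegers.coe_injective
    exact (h a (x : K)).symm
  change (NumberField.RingOfIntegers.mapRingEquiv (act a)).symm (algebraMap (𝓞 K) (𝓞 F) x) ∈ w.asIdeal ↔ _
  rw [h1]

theorem pm_act_mul (act : Q →* (F ≃+* F)) (a b : Q) (w : Pl F) :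
    pm (act (a * b)) w = pm (act a) (pm (act b) w) := by
  apply HeightOneSpectrum.ext
  ext x
  change (NumberField.RingOfIntegers.mapRingEquiv (act (a * b))).symm x ∈ w.asIdeal ↔
    (NumberField.RingOfIntegers.mapRingEquiv (act b)).symm
      ((NumberField.RingOfIntegers.mapRingEquiv (act a)).symm x) ∈ w.asIdeal
  have h1 : (NumberField.RingOfIntegers.mapRingEquiv (act (a * b))).symm x =
      (NumberField.RingOfIntegers.mapRingEquiv (act b)).symm
      ((NumberField.RingOfIntegers.mapRingEquiv (act a)).symm x) := by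
    rw [RingEquiv.symm_apply_eq]
    apply NumberField.RingOfIntegers.coe_injective
    change (x : F) = act (a * b) (((NumberField.RingOfIntegers.mapRingEquiv (act b)).symm
      ((NumberField.RingOfIntegers.mapRingEquiv (act a)).symm x) : 𝓞 F) : F)
    rw [map_mul]
    change (x : F) = act a (act b (((NumberField.RingOfIntegers.mapRingEquiv (act b)).symm
      ((NumberField.RingOfIntegers.mapRingEquiv (act a)).symm x) : 𝓞 F) : F))
    have h2 : ∀ (e : F ≃+* F) (z : 𝓞 F),
        e (((NumberField.RingOfIntegers.mapRingEquiv e).symm z : 𝓞 F) : F) = (z : F) := by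
      intro e z
      have h3 := (NumberField.RingOfIntegers.mapRingEquiv e).apply_symm_apply z
      have h4 := congrArg (fun u : 𝓞 F => (u : F)) h3
      exact h4
    rw [h2, h2]
  rw [h1]

theorem pm_act_one (act : Q →* (F ≃+* F)) (w : Pl F) : pm (act 1) w = w := by
  have h := pm_act_mul act 1 1 w
  rw [mul_one] at h
  exact ((pm (act 1)).injective h).symm

/-- the permutation of `Wp F S0` -/
def wq {act : Q →* (F ≃+* F)} (h : KTriv act) (S0 : Finset (Pl K)) (a : Q) : Wp F S0 ≃ Wp F S0 :=
  (pm (act a)).subtypeEquiv fun w => by rw [pm_under h]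

/-- the action on the divisors -/
def wx {act : Q →* (F ≃+* F)} (h : KTriv act) (S0 : Finset (Pl K)) :
    Q →* AddMonoid.End (Wp F S0 →₀ ℤ) where
  toFun a := (Finsupp.domCongr (wq h S0 a)).toAddMonoidHom
  map_one' := by
    refine AddMonoidHom.ext fun δ => Finsupp.ext fun w => ?_
    change δ ((wq h S0 1).symm w) = δ w
    congr 1
    rw [Equiv.symm_apply_eq]
    exact Subtype.ext (pm_act_one act w.1).symm
  map_mul' a b := by
    refine AddMonoidHom.ext fun δ => Finsupp.ext fun w => ?_
    change δ ((wq h S0 (a * b)).symm w) = δ ((wq h S0 b).symm ((wq h S0 a).symm w))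
    congr 1
    rw [Equiv.symm_apply_eq]
    refine Subtype.ext ?_
    change w.1 = pm (act (a * b)) ((pm (act b)).symm ((pm (act a)).symm w.1))
    rw [pm_act_mul, Equiv.apply_symm_apply, Equiv.apply_symm_apply]

end fld

section lab

variable {K : IntermediateField ℚ QBar} [NumberField K] {Q : Type} [Group Q]

/-- the labels -/
def Lab (φ : Gal(QBar/K) →* Q) (P : DP K QBar) (S0 : Finset (Pl K)) (V : Type) [AddCommGroup V]
    [DistribMulAction Q V] : AddSubgroup (Pl K →₀ V) where
  carrier := {t | (∀ v ∈ S0, t v = 0) ∧ ∀ v, ∀ σ ∈ dec (K := K) (P.P v), φ σ • t v = t v}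
  zero_mem' := ⟨fun _ _ => rfl, fun _ _ _ => smul_zero _⟩
  add_mem' := by
    intro t t' ht ht'
    refine ⟨fun v hv => ?_, fun v σ hσ => ?_⟩
    · rw [Finsupp.add_apply, ht.1 v hv, ht'.1 v hv, add_zero]
    · rw [Finsupp.add_apply, smul_add, ht.2 v σ hσ, ht'.2 v σ hσ]
  neg_mem' := by
    intro t ht
    refine ⟨fun v hv => ?_, fun v σ hσ => ?_⟩
    · rw [Finsupp.neg_apply, ht.1 v hv, neg_zero]
    · rw [Finsupp.neg_apply, smul_neg, ht.2 v σ hσ]

variable {F : IntermediateField K QBar} [NumberField F]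

theorem wp_wp (P : DP K QBar) {S0 : Finset (Pl K)} {v : Pl K} (hv : v ∉ S0) :
    ∀ v' ∈ S0, (wp F P v).asIdeal.under (𝓞 K) ≠ v'.asIdeal := by
  intro v' hv' h
  apply hv
  have h1 : v = v' := by
    apply HeightOneSpectrum.ext
    rw [← h, ← P.under v]
    exact Ideal.ext fun a => Iff.rfl
  rwa [h1]

/-- the value at `v` of the label of `δ` -/
def lb [Fintype Q] {V : Type} [AddCommGroup V] [DistribMulAction Q V] {ι : Type} [Fintype ι]
    (m : ι → V) {act : Q →* (F ≃+* F)} (h : KTriv act) (P : DP K QBar) (S0 : Finset (Pl K))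
    (δ : ι → (Wp F S0 →₀ ℤ)) (v : Pl K) : V :=
  if hv : v ∉ S0 then ∑ a : Q, ∑ j, δ j (wq h S0 a⁻¹ ⟨wp F P v, wp_wp P hv⟩) • (a • m j) else 0

/-- the equivariant homomorphism on `ker φ` -/
def kap [Fintype Q] {V : Type} [AddCommGroup V] [DistribMulAction Q V] {ι : Type} [Fintype ι]
    (l : ℕ) (ζ : K) (m : ι → V) (φ : Gal(QBar/K) →* Q) (act : Q →* (F ≃+* F))
    (y : ι → Additive Fˣ) (γ : Gal(QBar/K)) : V :=
  if φ γ = 1 then
    ∑ a : Q, ∑ j, (kq l ζ (((ex act a (y j)).toMul : F) : QBar) γ).val • (a • m j) else 0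

/-- typed equivariant homomorphisms -/
structure Typ {V : Type} [AddCommGroup V] [DistribMulAction Q V] (l : ℕ) (ζ : K)
    (φ : Gal(QBar/K) →* Q) (P : DP K QBar) (S0 : Finset (Pl K)) (t : Pl K → V)
    (κ : Gal(QBar/K) → V) : Prop where
  isA : IsA φ κ
  ft : ∃ E : IntermediateField K QBar, FiniteDimensional K E ∧ ∀ σ ∈ E.fixingSubgroup, κ σ = 0
  out : ∀ γ, φ γ ≠ 1 → κ γ = 0
  zero : ∀ v, v ∉ S0 → t v = 0 → ∀ τ ∈ (P.P v).inertia Gal(QBar/K), φ τ = 1 → κ τ = 0
  tame : ∀ v, v ∉ S0 → (∀ τ ∈ (P.P v).inertia Gal(QBar/K), φ τ = 1) → ∀ π : Kˣ, ord v π = 1 →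
    ∀ τ ∈ (P.P v).inertia Gal(QBar/K),
      κ τ = (kq l ζ (algebraMap K QBar (π : K)) τ).val • t v

end lab

end H12.KF
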