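import Pool.Agent.H12.KF.Abs
import Pool.Agent.H51.SN.Nft
import Pool.Agent.H51.SN.Plc

/-!
# [H12 KF DVF] divisors of the field `F`, 80-130 lines

* `dv1_ex`: `ord w (a x) = ord (a⁻¹ w) x` (`ord_pm` in `H51/SN/Nft.lean`).
* `dv_fin`: the quotient of `ι → (Wp F S0 →₀ ℤ)` by the divisors is finite and `m` kills it for some `m ≠ 0`: every divisor is the class of an ideal (`Ideal` of norm prime ..; `single w 1` is the divisor of `w.asIdeal`); `m = #ClassGroup (𝓞 F)`;
  better: the homomorphism from the free group on `Wp F S0` to the class group, `single w 1 ↦ ClassGroup.mk0 w.asIdeal`; an element of its kernel is the divisor of an element of `Fˣ` (a quotient of integral elements: `δ = δ⁺ - δ⁻`, the ideals `∏ w^δ⁺`, `∏ w^δ⁻` have the same class: `ClassGroup.mk0_eq_mk0_iff`: `α I = β J`, `x = β / α`,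
  the orders of `x`: `ord` of an element as a multiplicity: grep `ord_eq_count` or similar in `H63/MA`, `H51/SN/Nft.lean` (private lemmas there)). So the index of `dv1.range` is at most `#ClassGroup (𝓞 F)` and `m • δ` is in it (`pow_card_eq_one`). Then products over `ι`: index `≤ #ClassGroup ^ #ι`.
* `wq_tr`: every `w : Wp F S0` over `v` is `wq h S0 b ⟨wp F P v, _⟩` for some `b` (transitivity: `plc_..` in `H51/SN/Plc.lean`, `Acts`, `hs`); `v ∉ S0`.
* `wq_dec`: for `σ ∈ dec (P.P v)`: `pm (act (φ σ)) (wp F P v) = wp F P v` (`plc_pm`). Conversely `wq_st`: if `pm (act b) (wp F P v) = wp F P v` then `b = φ σ` for some `σ ∈ dec (P.P v)` (see the proof of `plc_inj`).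
-/

set_option autoImplicit false

open scoped NumberField
open IsDedekindDomain H38.ML
open scoped Classical

noncomputable section

namespace H12.KF

open H63.MA H51.SN H67.AQ

variable {K : IntermediateField ℚ QBar} [NumberField K] {Q : Type} [Group Q]
  {F : IntermediateField K QBar} [NumberField F]

theorem acts_ktriv {φ : Gal(QBar/K) →* Q} (hs : Function.Surjective φ) {act : Q →* (F ≃+* F)}
    (H : Acts F φ act) : KTriv act := by
  intro a x
  obtain ⟨γ, rfl⟩ := hs a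
  apply Subtype.ext
  rw [H.act γ]
  exact γ.commutes x

theorem dv1_ex {act : Q →* (F ≃+* F)} (h : KTriv act) (S0 : Finset (Pl K)) (a : Q)
    (x : Additive Fˣ) : dv1 S0 (ex act a x) = wx h S0 a (dv1 S0 x) := by
  refine Finsupp.ext fun w => ?_
  obtain ⟨w', rfl⟩ := (wq h S0 a).surjective w
  change ord (pm (act a) w'.1) (ax act a x.toMul) = ord ((wq h S0 a).symm (wq h S0 a w')).1 x.toMul
  rw [Equiv.symm_apply_apply]
  exact ord_pm (act a) w'.1 x.toMul

section ideals

variable {F' : Type} [Field F'] [NumberField F']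

/-- the order of an integral element is the multiplicity of the prime -/
private theorem ord_em (v : Pl F') (x : F'ˣ) (a : 𝓞 F') (h : (x : F') = algebraMap (𝓞 F') F' a) :
    ∃ k : ℕ, ord v x = k ∧ emultiplicity v.asIdeal (Ideal.span {a}) = k := by
  have hle : ∀ n : ℕ, (n : ℤ) ≤ ord v x ↔ v.asIdeal ^ n ∣ Ideal.span {a} := by
    intro n
    have h2 : v.valuation F' (x : F') = v.intValuation a := by
      rw [h]
      exact v.valuation_of_algebraMap a
    rw [Ideal.dvd_span_singleton, ← HeightOneSpectrum.intValuation_le_pow_iff_mem, ← h2, val_eq,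
      WithZero.exp_le_exp, neg_le_neg_iff]
  have h0 : 0 ≤ ord v x := by
    have h1 := (hle 0).2 (by rw [pow_zero]; exact one_dvd _)
    simpa using h1
  obtain ⟨k, hk⟩ := Int.eq_ofNat_of_zero_le h0
  refine ⟨k, hk, emultiplicity_eq_coe.2 ⟨(hle k).1 hk.ge, fun h1 => ?_⟩⟩
  have h2 := (hle (k + 1)).2 h1
  push_cast at h2
  omega

private theorem em_ne {u v : Pl F'} (h : u ≠ v) : emultiplicity v.asIdeal u.asIdeal = 0 := by
  refine emultiplicity_eq_zero.2 fun h1 => h ?_
  have h2 : u.asIdeal ≤ v.asIdeal := Ideal.dvd_iff_le.1 h1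
  exact HeightOneSpectrum.ext (u.isMaximal.eq_of_le v.isPrime.ne_top h2)

private theorem em_self (v : Pl F') : emultiplicity v.asIdeal v.asIdeal = 1 := by
  have h0 : v.asIdeal ≠ 0 := v.ne_bot
  have h1 : emultiplicity v.asIdeal v.asIdeal = ((1 : ℕ) : ℕ∞) := by
    refine emultiplicity_eq_coe.2 ⟨by rw [pow_one], fun h => ?_⟩
    have h2 : v.asIdeal ^ (1 + 1) ∣ v.asIdeal ^ 1 := by
      rw [pow_one]
      exact h
    have h3 := (pow_dvd_pow_iff h0 v.prime.not_isUnit).1 h2
    omega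
  rw [h1, Nat.cast_one]

private theorem em_prod {W : Type} (f : W → Pl F') (hf : Function.Injective f) (s : Finset W)
    (e : W → ℕ) (w : W) :
    emultiplicity (f w).asIdeal (∏ u ∈ s, (f u).asIdeal ^ e u) =
      ((if w ∈ s then e w else 0 : ℕ) : ℕ∞) := by
  rw [Finset.emultiplicity_prod (f w).prime]
  have h1 : ∀ u ∈ s, emultiplicity (f w).asIdeal ((f u).asIdeal ^ e u) =
      if u = w then ((e w : ℕ) : ℕ∞) else 0 := by
    intro u _
    rw [emultiplicity_pow (f w).prime]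
    by_cases h : u = w
    · rw [if_pos h, h, em_self, mul_one]
    · rw [if_neg h, em_ne (fun h2 => h (hf h2)), mul_zero]
  rw [Finset.sum_congr rfl h1, Finset.sum_ite_eq']
  by_cases h : w ∈ s
  · rw [if_pos h, if_pos h]
  · rw [if_neg h, if_neg h, Nat.cast_zero]

/-- the class of a prime -/
private def cp (v : Pl F') : Additive (ClassGroup (𝓞 F')) :=
  Additive.ofMul (ClassGroup.mk0 ⟨v.asIdeal, mem_nonZeroDivisors_of_ne_zero v.ne_bot⟩)

private theorem cp_ker {W : Type} (f : W → Pl F') (hf : Function.Injective f) (δ : W →₀ ℤ)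
    (h : δ.sum (fun w n => n • cp (f w)) = 0) : ∃ x : F'ˣ, ∀ w, ord (f w) x = δ w := by
  let g : W → nonZeroDivisors (Ideal (𝓞 F')) := fun w =>
    ⟨(f w).asIdeal, mem_nonZeroDivisors_of_ne_zero (f w).ne_bot⟩
  let I : nonZeroDivisors (Ideal (𝓞 F')) := ∏ w ∈ δ.support, g w ^ (δ w).toNat
  let J : nonZeroDivisors (Ideal (𝓞 F')) := ∏ w ∈ δ.support, g w ^ (-δ w).toNat
  have hI : (I : Ideal (𝓞 F')) = ∏ w ∈ δ.support, (f w).asIdeal ^ (δ w).toNat := by
    rw [Submonoid.coe_finsetProd]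
    rfl
  have hJ : (J : Ideal (𝓞 F')) = ∏ w ∈ δ.support, (f w).asIdeal ^ (-δ w).toNat := by
    rw [Submonoid.coe_finsetProd]
    rfl
  have hIJ : ClassGroup.mk0 I = ClassGroup.mk0 J := by
    have h1 : Additive.ofMul (ClassGroup.mk0 I) - Additive.ofMul (ClassGroup.mk0 J) =
        δ.sum (fun w n => n • cp (f w)) := by
      have hI1 : ClassGroup.mk0 I = ∏ w ∈ δ.support, ClassGroup.mk0 (g w) ^ (δ w).toNat := by
        rw [map_prod (ClassGroup.mk0 (R := 𝓞 F'))]
        exact Finset.prod_congr rfl fun w _ => map_pow _ _ _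
      have hJ1 : ClassGroup.mk0 J = ∏ w ∈ δ.support, ClassGroup.mk0 (g w) ^ (-δ w).toNat := by
        rw [map_prod (ClassGroup.mk0 (R := 𝓞 F'))]
        exact Finset.prod_congr rfl fun w _ => map_pow _ _ _
      rw [hI1, hJ1, ofMul_prod, ofMul_prod, ← Finset.sum_sub_distrib, Finsupp.sum]
      refine Finset.sum_congr rfl fun w _ => ?_
      rw [ofMul_pow, ofMul_pow]
      have h2 : δ w = ((δ w).toNat : ℤ) - ((-δ w).toNat : ℤ) := by omega
      have h3 : δ w • cp (f w) = (((δ w).toNat : ℤ) - ((-δ w).toNat : ℤ)) • cp (f w) := by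
        rw [← h2]
      rw [h3, sub_smul, natCast_zsmul, natCast_zsmul]
      rfl
    rw [h, sub_eq_zero] at h1
    exact Additive.ofMul.injective h1
  obtain ⟨x, y, hx, hy, hxy⟩ := ClassGroup.mk0_eq_mk0_iff.1 hIJ
  have hx' : algebraMap (𝓞 F') F' x ≠ 0 := by
    rw [Ne, FaithfulSMul.algebraMap_eq_zero_iff]
    exact hx
  have hy' : algebraMap (𝓞 F') F' y ≠ 0 := by
    rw [Ne, FaithfulSMul.algebraMap_eq_zero_iff]
    exact hy
  refine ⟨Units.mk0 _ hy' * (Units.mk0 _ hx')⁻¹, fun w => ?_⟩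
  obtain ⟨k, hk, hk'⟩ := ord_em (f w) (Units.mk0 _ hx') x rfl
  obtain ⟨m, hm, hm'⟩ := ord_em (f w) (Units.mk0 _ hy') y rfl
  rw [ord_mul, ord_inv, hk, hm]
  have h1 := congrArg (emultiplicity (f w).asIdeal) hxy
  rw [emultiplicity_mul (f w).prime, emultiplicity_mul (f w).prime, hk', hm', hI, hJ,
    em_prod f hf, em_prod f hf] at h1
  have h2 : k + (if w ∈ δ.support then (δ w).toNat else 0) =
      m + (if w ∈ δ.support then (-δ w).toNat else 0) := by exact_mod_cast h1
  by_cases hw : w ∈ δ.support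
  · rw [if_pos hw, if_pos hw] at h2
    omega
  · rw [if_neg hw, if_neg hw] at h2
    rw [Finsupp.notMem_support_iff] at hw
    omega

end ideals

/-- the classes of the divisors -/
private def clD (F : IntermediateField K QBar) [NumberField F] (S0 : Finset (Pl K)) (ι : Type) :
    (ι → (Wp F S0 →₀ ℤ)) →+ (ι → Additive (ClassGroup (𝓞 F))) where
  toFun y i := (y i).sum fun w n => n • cp w.1
  map_zero' := by
    funext i
    exact Finsupp.sum_zero_index
  map_add' y z := by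
    funext i
    exact Finsupp.sum_add_index' (fun _ => zero_smul _ _) (fun _ _ _ => add_smul _ _ _)

private theorem clD_ker (S0 : Finset (Pl K)) (ι : Type) (y : ι → (Wp F S0 →₀ ℤ))
    (h : clD F S0 ι y = 0) : y ∈ (dv (F := F) (ι := ι) S0).range := by
  have h1 : ∀ i, ∃ x : Fˣ, ∀ w : Wp F S0, ord w.1 x = y i w := fun i =>
    cp_ker (fun w : Wp F S0 => w.1) Subtype.val_injective (y i) (congrFun h i)
  choose x hx using h1
  refine ⟨fun i => Additive.ofMul (x i), ?_⟩
  funext i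
  exact Finsupp.ext fun w => hx i w

theorem dv_fin (F : IntermediateField K QBar) [NumberField F] (S0 : Finset (Pl K)) (ι : Type)
    [Fintype ι] :
    Finite ((ι → (Wp F S0 →₀ ℤ)) ⧸ (dv (F := F) (ι := ι) S0).range) ∧
      Nat.card ((ι → (Wp F S0 →₀ ℤ)) ⧸ (dv (F := F) (ι := ι) S0).range) ≤
        Nat.card (ClassGroup (𝓞 F)) ^ Fintype.card ι ∧
      ∃ m : ℕ, m ≠ 0 ∧ ∀ y : ι → (Wp F S0 →₀ ℤ), ∃ u, m • y = dv S0 u := by
  have hinj : Function.Injective
      (fun q : (ι → (Wp F S0 →₀ ℤ)) ⧸ (dv (F := F) (ι := ι) S0).range =>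
        clD F S0 ι q.out) := by
    intro q q' hqq
    have h1 : clD F S0 ι (-q.out + q'.out) = 0 := by
      have h2 : clD F S0 ι q.out = clD F S0 ι q'.out := hqq
      rw [map_add, map_neg, h2, neg_add_cancel]
    have h3 := QuotientAddGroup.eq.2 (clD_ker S0 ι _ h1)
    rw [← QuotientAddGroup.out_eq' q, ← QuotientAddGroup.out_eq' q']
    exact h3
  have hfin : Finite (Additive (ClassGroup (𝓞 F))) := inferInstanceAs (Finite (ClassGroup (𝓞 F)))
  refine ⟨Finite.of_injective _ hinj, ?_, Nat.card (ClassGroup (𝓞 F)), Nat.card_pos.ne', ?_⟩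
  · have h1 := Nat.card_le_card_of_injective _ hinj
    rw [Nat.card_fun, Nat.card_eq_fintype_card (α := ι)] at h1
    exact h1
  · intro y
    have h1 : clD F S0 ι (Nat.card (ClassGroup (𝓞 F)) • y) = 0 := by
      rw [map_nsmul]
      funext i
      rw [Pi.smul_apply]
      apply Additive.toMul.injective
      rw [toMul_nsmul]
      exact pow_card_eq_one'
    obtain ⟨u, hu⟩ := clD_ker S0 ι _ h1
    exact ⟨u, hu.symm⟩

private theorem cjI_fix (P : Ideal (𝓞 QBar)) {σ : Gal(QBar/K)} (hσ : σ ∈ dec (K := K) P) :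
    H88.LH.cjI σ P = P := by
  ext x
  rw [H88.LH.mem_cjI]
  exact (inv_mem hσ) x

theorem wq_dec {φ : Gal(QBar/K) →* Q} {act : Q →* (F ≃+* F)} (H : Acts F φ act) (P : DP K QBar)
    (v : Pl K) {σ : Gal(QBar/K)} (hσ : σ ∈ dec (K := K) (P.P v)) :
    pm (act (φ σ)) (wp F P v) = wp F P v := by
  apply HeightOneSpectrum.ext
  rw [plc_pm H, cjI_fix _ hσ]
  rfl

theorem wq_st {φ : Gal(QBar/K) →* Q} (hs : Function.Surjective φ) {act : Q →* (F ≃+* F)}
    (H : Acts F φ act) (P : DP K QBar) (v : Pl K) {b : Q}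
    (hb : pm (act b) (wp F P v) = wp F P v) : ∃ σ ∈ dec (K := K) (P.P v), φ σ = b := by
  obtain ⟨γ, rfl⟩ := hs b
  have h1 : (H88.LH.cjI γ (P.P v)).under (𝓞 F) = (wp F P v).asIdeal := by
    rw [← plc_pm H, hb]
  have halg : Algebra.IsAlgebraic F QBar := Algebra.IsAlgebraic.tower_top (K := K) F
  have hcl : IsAlgClosure F QBar := ⟨inferInstance, halg⟩
  obtain ⟨δ, hδ⟩ := H88.LH.cjI_ex (K := F) (v := wp F P v)
    (H88.LH.cjI_prime γ (P.prime v)) (P.prime v) h1 rfl
  have hker : φ (δ.restrictScalars K) = 1 := by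
    have h2 : δ.restrictScalars K ∈ φ.ker := by
      rw [← H.fix, IntermediateField.mem_fixingSubgroup_iff]
      intro x hx
      exact δ.commutes (⟨x, hx⟩ : F)
    exact h2
  have hsm : ∀ x : 𝓞 QBar, δ⁻¹ • x = (δ.restrictScalars K)⁻¹ • x := fun x => rfl
  refine ⟨δ.restrictScalars K * γ, fun x => ?_, by rw [map_mul, hker, one_mul]⟩
  have h3 : (δ.restrictScalars K * γ) • x ∈ P.P v ↔
      (δ.restrictScalars K * γ) • x ∈ H88.LH.cjI δ (H88.LH.cjI γ (P.P v)) := by
    rw [← hδ]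
  rw [h3, H88.LH.mem_cjI, hsm, H88.LH.mem_cjI, smul_smul, smul_smul]
  have h4 : γ⁻¹ * (δ.restrictScalars K)⁻¹ * (δ.restrictScalars K * γ) = 1 := by group
  rw [h4, one_smul]

theorem wq_tr {φ : Gal(QBar/K) →* Q} (hs : Function.Surjective φ) {act : Q →* (F ≃+* F)}
    (H : Acts F φ act) (P : DP K QBar) (w : Pl F) :
    ∃ (v : Pl K) (b : Q), w.asIdeal.under (𝓞 K) = v.asIdeal ∧ w = pm (act b) (wp F P v) := by
  have hfd : FiniteDimensional K F := H.fin
  have halg : Algebra.IsAlgebraic F QBar := Algebra.IsAlgebraic.tower_top (K := K) F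
  obtain ⟨P', hP', hc⟩ := Ideal.exists_ideal_over_prime_of_isIntegral_of_isDomain
    (R := 𝓞 F) (S := 𝓞 QBar) w.asIdeal (by
      rw [(RingHom.injective_iff_ker_eq_bot _).1
        (NumberField.RingOfIntegers.algebraMap.injective F QBar)]
      exact bot_le)
  have hne : w.asIdeal.under (𝓞 K) ≠ ⊥ := by
    intro h
    exact w.ne_bot (Ideal.eq_bot_of_comap_eq_bot h)
  refine ⟨⟨w.asIdeal.under (𝓞 K), w.isPrime.comap _, hne⟩, ?_⟩
  obtain ⟨v, hv⟩ : ∃ v : Pl K, v = ⟨w.asIdeal.under (𝓞 K), w.isPrime.comap _, hne⟩ := ⟨_, rfl⟩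
  rw [← hv]
  have hv' : w.asIdeal.under (𝓞 K) = v.asIdeal := by rw [hv]
  have hu : P'.under (𝓞 K) = v.asIdeal := by
    rw [← hv', ← hc]
    exact Ideal.ext fun a => Iff.rfl
  obtain ⟨γ, hγ⟩ := H88.LH.cjI_ex (K := K) (v := v) (P.prime v) hP' (P.under v) hu
  refine ⟨φ γ, hv', ?_⟩
  apply HeightOneSpectrum.ext
  rw [plc_pm H, ← hγ, ← hc]

end H12.KF
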