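import Pool.Agent.H12.KF.Fib
import Pool.Agent.H12.KF.TDf

/-!
# [H12 KF FBT] the fibre theorem for all primes at once, 120-180 lines

For `l ∈ m.primeFactors`: `fib` for `Vp T l` with the basis `b l` gives `H l`, quotient bound, `Xs`. `pl l : Lab T → Lab (Vp T l)`, `t ↦ (cl m l) • t v` (`cl`: exists by the Chinese remainder theorem, `l` and `m / l` are coprime since `m` is squarefree; `l (cl m l) x = 0` since `m ∣ l (cl m l)`). `∑ l, cl m l = 1` modulo `m`, so `t = ∑ l, il (pl l t)`,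
and `pl l (il t) = t`, `pl l' (il t) = 0` for `l' ≠ l`. `H₀ = {t | ∀ l, pl l t ∈ H l}`; `Lab T ⧸ H₀` embeds into `∏ Lab ⧸ H l` (bijective): the number of elements is the product. Third clause: `t = il t'` with `t' = R (dv y)` of `fib` (third clause there), `pl l' t = 0` for `l' ≠ l`.
Last clause: for `t ∈ H₀` let `Xs` be the set of the sums `κ = ∑ l, (κ l : T)` for the families `κ l ∈ Xs l (pl l t)`: injective (`cl m l • κ γ = κ l γ`), so `#Xs = ∏ #Xs l`. `TypT`: `tame`: if `l • t v = 0` then `cl m l' • t v = 0` for `l' ≠ l` and `cl m l • t v = t v`.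
The constants: `l ≤ m`, `∏ l, c ^ d l = c ^ ∑ d l`.
-/

set_option autoImplicit false

open scoped NumberField
open IsDedekindDomain H38.ML
open scoped Classical

noncomputable section

namespace H12.KF

open H63.MA H51.SN H67.AQ

variable {K : IntermediateField ℚ QBar} [NumberField K] {Q : Type} [Group Q] [Fintype Q]
  {T : Type} [AddCommGroup T] [DistribMulAction Q T] {F : IntermediateField K QBar} [NumberField F]

/-- the properties of `cl` -/
private theorem cl_spec {m l : ℕ} (hm : Squarefree m) (hlm : l ∣ m) :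
    (l : ℤ) ∣ cl m l - 1 ∧ ((m / l : ℕ) : ℤ) ∣ cl m l := by
  have h0 : ∃ c : ℤ, (l : ℤ) ∣ c - 1 ∧ ((m / l : ℕ) : ℤ) ∣ c := by
    have h1 : Nat.Coprime l (m / l) := by
      have h2 : Squarefree (l * (m / l)) := by
        rw [Nat.mul_div_cancel' hlm]
        exact hm
      exact (Nat.squarefree_mul_iff.1 h2).1
    have h2 : IsCoprime (l : ℤ) ((m / l : ℕ) : ℤ) := Nat.isCoprime_iff_coprime.2 h1
    obtain ⟨a, b, hab⟩ := h2
    refine ⟨b * ((m / l : ℕ) : ℤ), ⟨-a, ?_⟩, ⟨b, mul_comm _ _⟩⟩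
    rw [← hab]
    ring
  unfold cl
  rw [dif_pos h0]
  exact h0.choose_spec

private theorem dvd_zsmul {T : Type} [AddCommGroup T] {m : ℤ} {x : T} (h : m • x = 0) {c : ℤ}
    (hc : m ∣ c) : c • x = 0 := by
  obtain ⟨k, rfl⟩ := hc
  rw [mul_comm, mul_zsmul, h, zsmul_zero]

private theorem cl_self {m l : ℕ} (hm : Squarefree m) (hlm : l ∣ m) {T : Type} [AddCommGroup T]
    {x : T} (h : l • x = 0) : cl m l • x = x := by
  have h1 := dvd_zsmul (m := (l : ℤ)) (x := x) (by rw [natCast_zsmul]; exact h) (cl_spec hm hlm).1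
  rw [sub_zsmul, one_zsmul, ← sub_eq_add_neg, sub_eq_zero] at h1
  exact h1

private theorem cl_ne {m l l' : ℕ} (hm : Squarefree m) (hl : l.Prime) (hl' : l'.Prime)
    (hlm : l ∣ m) (hlm' : l' ∣ m) (hne : l ≠ l') {T : Type} [AddCommGroup T]
    {x : T} (h : l • x = 0) : cl m l' • x = 0 := by
  refine dvd_zsmul (m := (l : ℤ)) (x := x) (by rw [natCast_zsmul]; exact h) ?_
  refine dvd_trans ?_ (cl_spec hm hlm').2
  rw [Int.natCast_dvd_natCast]
  have h1 : l * l' ∣ m := Nat.Coprime.mul_dvd_of_dvd_of_dvd ((Nat.coprime_primes hl hl').2 hne) hlm hlm'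
  exact Nat.dvd_div_of_mul_dvd (by rwa [mul_comm])

private theorem cl_mem {m l : ℕ} (hm : Squarefree m) (hlm : l ∣ m) {T : Type} [AddCommGroup T]
    (hmT : ∀ x : T, m • x = 0) (x : T) : l • (cl m l • x) = 0 := by
  rw [← natCast_zsmul, ← mul_zsmul]
  refine dvd_zsmul (m := (m : ℤ)) (x := x) (by rw [natCast_zsmul]; exact hmT x) ?_
  obtain ⟨k, hk⟩ := (cl_spec hm hlm).2
  refine ⟨k, ?_⟩
  rw [hk, ← mul_assoc, ← Nat.cast_mul, Nat.mul_div_cancel' hlm]

private theorem cl_sum {m : ℕ} (hm : Squarefree m) {T : Type} [AddCommGroup T]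
    (hmT : ∀ x : T, m • x = 0) (x : T) : ∑ l : m.primeFactors, cl m (l : ℕ) • x = x := by
  rw [← Finset.sum_smul]
  have h1 : (m : ℤ) ∣ (∑ l : m.primeFactors, cl m (l : ℕ)) - 1 := by
    rw [Int.natCast_dvd]
    have h2 : ∏ p ∈ m.primeFactors, p = m := Nat.prod_primeFactors_of_squarefree hm
    rw [← h2]
    refine Finset.prod_primes_dvd _ (fun p hp => (Nat.prime_of_mem_primeFactors hp).prime) ?_
    intro p hp
    rw [← Int.natCast_dvd]
    rw [h2]
    have hpp := Nat.prime_of_mem_primeFactors hp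
    have hpm := Nat.dvd_of_mem_primeFactors hp
    have h3 : (∑ l : m.primeFactors, cl m (l : ℕ)) - 1 =
        (cl m p - 1) + ∑ l ∈ Finset.univ.erase (⟨p, hp⟩ : m.primeFactors), cl m (l : ℕ) := by
      rw [← Finset.add_sum_erase _ _ (Finset.mem_univ (⟨p, hp⟩ : m.primeFactors))]
      ring
    rw [h3]
    refine dvd_add (cl_spec hm hpm).1 (Finset.dvd_sum fun l hl => ?_)
    have hne : (l : ℕ) ≠ p := fun h => Finset.ne_of_mem_erase hl (Subtype.ext h)
    have hlp := Nat.prime_of_mem_primeFactors l.2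
    have hlm := Nat.dvd_of_mem_primeFactors l.2
    refine dvd_trans ?_ (cl_spec hm hlm).2
    rw [Int.natCast_dvd_natCast]
    have h4 : p * l ∣ m :=
      Nat.Coprime.mul_dvd_of_dvd_of_dvd ((Nat.coprime_primes hpp hlp).2 (Ne.symm hne)) hpm hlm
    exact Nat.dvd_div_of_mul_dvd (by rwa [mul_comm])
  have h2 := dvd_zsmul (m := (m : ℤ)) (x := x) (by rw [natCast_zsmul]; exact hmT x) h1
  rw [sub_zsmul, one_zsmul, ← sub_eq_add_neg, sub_eq_zero] at h2
  exact h2

/-- the component of a label -/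
private def pl (φ : Gal(QBar/K) →* Q) (P : DP K QBar) (S0 : Finset (Pl K)) {m : ℕ}
    (hm : Squarefree m) (hmT : ∀ x : T, m • x = 0) (l : ℕ) (hlm : l ∣ m) :
    Lab φ P S0 T →+ Lab φ P S0 (Vp T l) where
  toFun t := ⟨Finsupp.mapRange (fun x : T => (⟨cl m l • x, cl_mem hm hlm hmT x⟩ : Vp T l))
      (Subtype.ext (zsmul_zero _)) t.1, by
    refine ⟨fun v hv => ?_, fun v σ hσ => ?_⟩
    · rw [Finsupp.mapRange_apply, t.2.1 v hv]
      exact Subtype.ext (zsmul_zero _)
    · rw [Finsupp.mapRange_apply]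
      refine Subtype.ext ?_
      change φ σ • (cl m l • t.1 v) = cl m l • t.1 v
      have h1 := map_zsmul (DistribSMul.toAddMonoidHom T (φ σ)) (cl m l) (t.1 v)
      refine h1.trans ?_
      exact congrArg (fun x => cl m l • x) (t.2.2 v σ hσ)⟩
  map_zero' := by
    apply Subtype.ext
    ext v
    exact zsmul_zero _
  map_add' t t' := by
    apply Subtype.ext
    ext v
    exact zsmul_add _ _ _

/-- injectivity of the sum -/
private theorem sum_comp {m : ℕ} (hm : Squarefree m) (κ : ∀ l : m.primeFactors, Vp T (l : ℕ))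
    (l : m.primeFactors) : cl m (l : ℕ) • ∑ l' : m.primeFactors, ((κ l' : Vp T (l' : ℕ)) : T) =
      (κ l : T) := by
  rw [Finset.smul_sum, Finset.sum_eq_single l]
  · exact cl_self hm (Nat.dvd_of_mem_primeFactors l.2) (κ l).2
  · intro l' _ hne
    exact cl_ne hm (Nat.prime_of_mem_primeFactors l'.2) (Nat.prime_of_mem_primeFactors l.2)
      (Nat.dvd_of_mem_primeFactors l'.2) (Nat.dvd_of_mem_primeFactors l.2)
      (fun h => hne (Subtype.ext h)) (κ l').2
  · intro h
    exact absurd (Finset.mem_univ _) h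

theorem fibT {m : ℕ} (hm : Squarefree m) (hmT : ∀ x : T, m • x = 0)
    (hmQ : Nat.Coprime m (Nat.card Q)) {ζ : ℕ → K}
    (hζ : ∀ l : ℕ, l.Prime → l ∣ m → IsPrimitiveRoot (ζ l) l) {d : m.primeFactors → ℕ}
    (b : ∀ l : m.primeFactors, Bs (l : ℕ) (Vp T (l : ℕ)) (Fin (d l)))
    {φ : Gal(QBar/K) →* Q} (hφ : FT φ) (hs : Function.Surjective φ) {act : Q →* (F ≃+* F)}
    (h : KTriv act) (H : Acts F φ act) (P : DP K QBar) (S0 S' : Finset (Pl K))
    (hS0 : ∀ l : ℕ, l.Prime → l ∣ m → ∀ v, Above l v → v ∈ S0) (hS' : S' ⊆ S0)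
    (hl' : ∀ l : ℕ, l.Prime → l ∣ m → ∀ v ∈ S', ¬ Above l v) :
    ∃ H₀ : AddSubgroup (Lab φ P S0 T), Finite (Lab φ P S0 T ⧸ H₀) ∧
      Nat.card (Lab φ P S0 T ⧸ H₀) ≤
        (Nat.card (ClassGroup (𝓞 F)) * (∏ v ∈ S', nm v) ^ Module.finrank K F) ^ (∑ l, d l) ∧
      (∀ (l : m.primeFactors) (t : Lab φ P S0 T) (y : Fin (d l) → Additive Fˣ),
        (∀ j, y j ∈ Ry F S') →
        (∀ v, (t : Pl K →₀ T) v = ((lb (b l).m h P S0 (dv S0 y) v : Vp T (l : ℕ)) : T)) →
          t ∈ H₀) ∧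
      ∀ t ∈ H₀, ∃ Xs : Finset (Gal(QBar/K) → T),
        Nat.card (Lab φ P S0 T ⧸ H₀) ≤
          (m ^ (S'.card * Module.finrank K F)) ^ (∑ l, d l) * Xs.card ∧
        ∀ κ ∈ Xs, TypT m ζ φ P S0 (t : Pl K →₀ T) κ ∧
          ∀ v ∈ S', ∀ τ ∈ dec (K := K) (P.P v), φ τ = 1 → κ τ = 0 := by
  have hpr : ∀ l : m.primeFactors, (l : ℕ).Prime := fun l => Nat.prime_of_mem_primeFactors l.2
  have hdm : ∀ l : m.primeFactors, (l : ℕ) ∣ m := fun l => Nat.dvd_of_mem_primeFactors l.2
  have hm0 : m ≠ 0 := hm.ne_zero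
  have h1 := fun l : m.primeFactors =>
    fib (hpr l) (hζ l (hpr l) (hdm l)) (fun x : Vp T (l : ℕ) => Subtype.ext x.2)
      (Nat.Coprime.coprime_dvd_left (hdm l) hmQ) (b l) hφ hs h H P S0 S'
      (hS0 l (hpr l) (hdm l)) hS' (hl' l (hpr l) (hdm l))
  choose Hl hfin hcard hcl hX using h1
  let pr := fun l : m.primeFactors => pl φ P S0 hm hmT (l : ℕ) (hdm l)
  let H₀ : AddSubgroup (Lab φ P S0 T) := ⨅ l, (Hl l).comap (pr l)
  have hmem : ∀ t, t ∈ H₀ ↔ ∀ l, pr l t ∈ Hl l := by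
    intro t
    change t ∈ ⨅ l, (Hl l).comap (pr l) ↔ _
    rw [AddSubgroup.mem_iInf]
    exact Iff.rfl
  let g : (Lab φ P S0 T ⧸ H₀) → (∀ l : m.primeFactors, Lab φ P S0 (Vp T (l : ℕ)) ⧸ Hl l) :=
    fun q l => QuotientAddGroup.map H₀ (Hl l) (pr l) (fun t ht => (hmem t).1 ht l) q
  have hg : Function.Injective g := by
    intro q q' hqq
    obtain ⟨t, rfl⟩ := QuotientAddGroup.mk_surjective q
    obtain ⟨t', rfl⟩ := QuotientAddGroup.mk_surjective q'
    rw [QuotientAddGroup.eq_iff_sub_mem, hmem]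
    intro l
    have h2 := congrFun hqq l
    have h3 : (QuotientAddGroup.mk (pr l t) : Lab φ P S0 (Vp T (l : ℕ)) ⧸ Hl l) =
        QuotientAddGroup.mk (pr l t') := h2
    rw [QuotientAddGroup.eq_iff_sub_mem] at h3
    rw [map_sub]
    exact h3
  have hfin' : ∀ l : m.primeFactors, Finite (Lab φ P S0 (Vp T (l : ℕ)) ⧸ Hl l) := hfin
  have hF : Finite (Lab φ P S0 T ⧸ H₀) := Finite.of_injective g hg
  have hC : Nat.card (Lab φ P S0 T ⧸ H₀) ≤ ∏ l : m.primeFactors, Nat.card (Lab φ P S0 (Vp T (l : ℕ)) ⧸ Hl l) := by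
    rw [← Nat.card_pi]
    exact Nat.card_le_card_of_injective g hg
  refine ⟨H₀, hF, ?_, ?_, ?_⟩
  · refine hC.trans ?_
    rw [← Finset.prod_pow_eq_pow_sum]
    refine Finset.prod_le_prod' fun l _ => ?_
    refine (hcard l).trans_eq ?_
    rw [Fintype.card_fin]
  · intro l t y hy hty
    rw [hmem]
    intro l'
    by_cases hll : l' = l
    · subst hll
      refine hcl l' _ y hy fun v => Subtype.ext ?_
      change cl m (l' : ℕ) • (t : Pl K →₀ T) v = _
      rw [hty v]
      exact cl_self hm (hdm l') (lb (b l').m h P S0 (dv S0 y) v).2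
    · have h2 : pr l' t = 0 := by
        refine Subtype.ext (Finsupp.ext fun v => Subtype.ext ?_)
        change cl m (l' : ℕ) • (t : Pl K →₀ T) v = 0
        rw [hty v]
        exact cl_ne hm (hpr l) (hpr l') (hdm l) (hdm l') (fun h3 => hll (Subtype.ext h3.symm))
          (lb (b l).m h P S0 (dv S0 y) v).2
      rw [h2]
      exact zero_mem _
  · intro t ht
    have h2 := fun l : m.primeFactors => hX l (pr l t) ((hmem t).1 ht l)
    choose Xs hXs hXs' using h2
    let f : (∀ l : m.primeFactors, Gal(QBar/K) → Vp T (l : ℕ)) → (Gal(QBar/K) → T) :=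
      fun κ γ => ∑ l : m.primeFactors, ((κ l γ : Vp T (l : ℕ)) : T)
    have hf : Function.Injective f := by
      intro κ κ' hκ
      funext l γ
      refine Subtype.ext ?_
      rw [← sum_comp hm (fun l => κ l γ) l, ← sum_comp hm (fun l => κ' l γ) l]
      exact congrArg (fun x => cl m (l : ℕ) • x) (congrFun hκ γ)
    refine ⟨(Fintype.piFinset Xs).image f, ?_, ?_⟩
    · rw [Finset.card_image_of_injective _ hf, Fintype.card_piFinset, ← Finset.prod_pow_eq_pow_sum,
        ← Finset.prod_mul_distrib]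
      refine hC.trans (Finset.prod_le_prod' fun l _ => ?_)
      refine (hXs l).trans ?_
      rw [Fintype.card_fin]
      refine Nat.mul_le_mul_right _ (Nat.pow_le_pow_left (Nat.pow_le_pow_left ?_ _) _)
      exact Nat.le_of_dvd (Nat.pos_of_ne_zero hm0) (hdm l)
    · intro κ hκ
      obtain ⟨μ, hμ, rfl⟩ := Finset.mem_image.1 hκ
      rw [Fintype.mem_piFinset] at hμ
      have h3 := fun l : m.primeFactors => (hXs' l (μ l) (hμ l)).1
      have h4 := fun l : m.primeFactors => (hXs' l (μ l) (hμ l)).2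
      refine ⟨⟨⟨?_, ?_⟩, ?_, ?_, ?_, ?_⟩, ?_⟩
      · intro γ δ hγ hδ
        change ∑ l : m.primeFactors, ((μ l (γ * δ) : Vp T (l : ℕ)) : T) = _
        rw [← Finset.sum_add_distrib]
        refine Finset.sum_congr rfl fun l _ => ?_
        rw [(h3 l).isA.add γ δ hγ hδ]
        rfl
      · intro a γ hγ
        change ∑ l : m.primeFactors, ((μ l (a * γ * a⁻¹) : Vp T (l : ℕ)) : T) = φ a • ∑ l : m.primeFactors, ((μ l γ : Vp T (l : ℕ)) : T)
        rw [Finset.smul_sum]
        refine Finset.sum_congr rfl fun l _ => ?_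
        rw [(h3 l).isA.eqv a γ hγ]
        rfl
      · have h5 := fun l : m.primeFactors => (h3 l).ft
        choose E hE hE' using h5
        refine ⟨⨆ l, E l, IntermediateField.finiteDimensional_iSup_of_finite, ?_⟩
        intro σ hσ
        refine Finset.sum_eq_zero fun l _ => ?_
        have h6 : σ ∈ (E l).fixingSubgroup := IntermediateField.fixingSubgroup_antitone (le_iSup E l) hσ
        rw [hE' l σ h6]
        rfl
      · intro γ hγ
        refine Finset.sum_eq_zero fun l _ => ?_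
        rw [(h3 l).out γ hγ]
        rfl
      · intro v hv htv τ hτ hφτ
        refine Finset.sum_eq_zero fun l _ => ?_
        have h5 : ((pr l t : Lab φ P S0 (Vp T (l : ℕ))) : Pl K →₀ Vp T (l : ℕ)) v = 0 := by
          refine Subtype.ext ?_
          change cl m (l : ℕ) • (t : Pl K →₀ T) v = 0
          rw [htv, smul_zero]
        rw [(h3 l).zero v hv h5 τ hτ hφτ]
        rfl
      · intro v hv hin l hl hlm htv π hπ τ hτ
        have hlf : l ∈ m.primeFactors := Nat.mem_primeFactors.2 ⟨hl, hlm, hm0⟩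
        change ∑ l : m.primeFactors, ((μ l τ : Vp T (l : ℕ)) : T) = _
        rw [Finset.sum_eq_single (⟨l, hlf⟩ : m.primeFactors)]
        · rw [(h3 ⟨l, hlf⟩).tame v hv hin π hπ τ hτ]
          change (kq l (ζ l) (algebraMap K QBar (π : K)) τ).val • (cl m l • (t : Pl K →₀ T) v) = _
          rw [cl_self hm hlm htv]
        · intro l' _ hne
          rw [(h3 l').tame v hv hin π hπ τ hτ]
          change (kq (l' : ℕ) (ζ l') (algebraMap K QBar (π : K)) τ).val •
            (cl m (l' : ℕ) • (t : Pl K →₀ T) v) = 0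
          rw [cl_ne hm hl (hpr l') hlm (hdm l') (fun h5 => hne (Subtype.ext h5.symm)) htv, smul_zero]
        · intro h5
          exact absurd (Finset.mem_univ _) h5
      · intro v hv τ hτ hφτ
        refine Finset.sum_eq_zero fun l _ => ?_
        rw [h4 l v hv τ hτ hφτ]
        rfl

end H12.KF
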