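import Pool.Agent.H12.KF.Ry
import Pool.Agent.H51.SN.Unr

/-!
# [H12 KF KDC] `kap y` is trivial on the decomposition groups at `S'` if `y` is in the ray group, 70-120 lines

* `kap_dec`: `v ∈ S'`, `l ∉ v`, `τ ∈ dec (P.P v)`, `φ τ = 1`, `x = a y_j ∈ Ry S'`: `kq x τ = 0`: let `B ^ l = x` (`B` in `QBar`), `𝔓 = P.P v`. `x` is congruent to `1` at `𝔓` (`One1 (wp F P v) x`): `x = α / β` with `α, β : 𝓞 F`, `β ∉ w`, `α - β ∈ w`. Put `B' = β B`: `B' ^ l = β ^ (l-1) α` is integral, so `B' : 𝓞 QBar`, and `B' ^ l ≡ β ^ l` modulo `𝔓`, so `∏_j (B' - ζ^j β) ∈ 𝔓`: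
  some `B' - ζ^j β ∈ 𝔓`; replace `B` by `ζ^-j B` (also a root): `B' ≡ β`. `τ β = β` (`φ τ = 1`: `Acts.fix`), `τ B' = ζ^k B'` and `τ 𝔓 = 𝔓`: `ζ^k B' - β ∈ 𝔓`, `B' - β ∈ 𝔓`: `(ζ^k - 1) B' ∈ 𝔓`, `B' ∉ 𝔓`: `ζ^k - 1 ∈ 𝔓`, so `k = 0` since `l ∉ v` (`∏_{0<k<l} (1 - ζ^k) = l`). (Similar: `H51/SN/Unr.lean`.)
-/

set_option autoImplicit false

open scoped NumberField
open IsDedekindDomain H38.ML
open scoped Classical

noncomputable section

namespace H12.KF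

open H63.MA H51.SN H67.AQ

variable {K : IntermediateField ℚ QBar} [NumberField K] {Q : Type} [Group Q]
  {F : IntermediateField K QBar} [NumberField F]

private theorem kdc_dvd {𝔓 : Ideal (𝓞 QBar)} {q : ℕ} (hq : 0 < q)
    (hq𝔓 : ((q : ℕ) : 𝓞 QBar) ∉ 𝔓) {z : 𝓞 QBar} (hzp : IsPrimitiveRoot z q) (k : ℕ) (h3 : z ^ k - 1 ∈ 𝔓) : q ∣ k := by
  by_contra hnd
  obtain ⟨n, rfl⟩ : ∃ n, q = n + 1 := ⟨q - 1, by omega⟩
  have hprod := hzp.prod_one_sub_pow_eq_order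
  have hmod : k % (n + 1) ≠ 0 := fun h0 => hnd (Nat.dvd_of_mod_eq_zero h0)
  have hlt : k % (n + 1) < n + 1 := Nat.mod_lt _ hq
  have hzk : z ^ k = z ^ (k % (n + 1)) := by
    rw [← pow_mod_orderOf, ← hzp.eq_orderOf]
  have hmem : k % (n + 1) - 1 ∈ Finset.range n := Finset.mem_range.2 (by omega)
  have hdvd : (1 - z ^ (k % (n + 1) - 1 + 1)) ∣ ∏ k ∈ Finset.range n, (1 - z ^ (k + 1)) :=
    Finset.dvd_prod_of_mem (fun k => 1 - z ^ (k + 1)) hmem
  rw [Nat.sub_add_cancel (by omega), hprod, ← hzk] at hdvd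
  apply hq𝔓
  obtain ⟨c, hc⟩ := hdvd
  have : ((n + 1 : ℕ) : 𝓞 QBar) = (z ^ k - 1) * (-c) := by
    push_cast
    rw [hc]
    ring
  rw [this]
  exact 𝔓.mul_mem_right _ h3

omit [NumberField K] in
private theorem kdc_val {w : Pl F} {x : Fˣ} (hx : One1 w x) : ord w x = 0 := by
  unfold One1 at hx
  have h1 : w.valuation F (x : F) = 1 := by
    have h2 : (x : F) = ((x : F) - 1) + 1 := by ring
    rw [h2, Valuation.map_add_eq_of_lt_right _ (by rw [map_one]; exact hx), map_one]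
  unfold ord
  rw [h1, WithZero.log_one, neg_zero]

private theorem kdc_one {l : ℕ} (hl : l.Prime) {ζ : K} (hζ : IsPrimitiveRoot ζ l) (P : Ideal (𝓞 QBar)) (hP : P.IsPrime)
    (w : Pl F) (hw : P.under (𝓞 F) = w.asIdeal) (hlP : ((l : ℕ) : 𝓞 QBar) ∉ P) (x : Fˣ) (hx : One1 w x)
    (τ : Gal(QBar/K)) (hτ : τ ∈ dec (K := K) P) (hτF : τ ∈ F.fixingSubgroup) : kq l ζ (((x : F)) : QBar) τ = 0 := by
  have := hP
  have : NeZero l := ⟨hl.ne_zero⟩
  have hx0 : (((x : F)) : QBar) ≠ 0 := by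
    intro h
    exact x.ne_zero (Subtype.ext h)
  have hfix : ∀ y : F, τ (y : QBar) = (y : QBar) := fun y => hτF y
  have hod : H38.TD.od w x = 0 := by
    rw [← ord_eq_od]
    exact kdc_val hx
  obtain ⟨a, c, ha, hc, hac⟩ := H38.TD.exists_int_div w x hod
  have hmem : a - c ∈ w.asIdeal := by
    have h1 : w.valuation F (((a - c : 𝓞 F) : F)) < 1 := by
      have h2 : (((a - c : 𝓞 F) : F)) = ((x : F) - 1) * (c : F) := by
        have h3 : ((a - c : 𝓞 F) : F) = (a : F) - (c : F) := rfl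
        have h4 : (x : F) * (c : F) = (a : F) := hac
        rw [h3, ← h4]
        ring
      rw [h2, map_mul]
      have h5 : w.valuation F (c : F) ≤ 1 := w.valuation_le_one c
      exact lt_of_le_of_lt (mul_le_mul_right h5 _) (by rw [mul_one]; exact hx)
    exact (w.valuation_lt_one_iff_mem _).1 h1
  obtain ⟨B, hB⟩ := IsAlgClosed.exists_pow_nat_eq (((x : F)) : QBar) hl.pos
  have hk := kq_is hl hζ hx0 (hfix x) B hB
  obtain ⟨k, hkd⟩ : ∃ k, k = (kq l ζ (((x : F)) : QBar) τ).val := ⟨_, rfl⟩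
  rw [← hkd] at hk
  have hacQ : (((x : F)) : QBar) * (((c : F)) : QBar) = (((a : F)) : QBar) := by
    have h1 := congrArg (fun y : F => (y : QBar)) hac
    simpa using h1
  obtain ⟨C, hC⟩ : ∃ C : QBar, C = (((c : F)) : QBar) * B := ⟨_, rfl⟩
  have hCp : C ^ l = ((((c ^ (l - 1) * a : 𝓞 F) : F)) : QBar) := by
    have e1 : (((c ^ (l - 1) * a : 𝓞 F) : F)) = (c : F) ^ (l - 1) * (a : F) := by
      push_cast
      rfl
    have e2 : ((((c : F) ^ (l - 1) * (a : F) : F)) : QBar) =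
        (((c : F)) : QBar) ^ (l - 1) * (((a : F)) : QBar) := by
      push_cast
      rfl
    rw [hC, mul_pow, hB, e1, e2, ← hacQ]
    obtain ⟨r, hr⟩ : ∃ r, l = r + 1 := ⟨l - 1, by have := hl.pos; omega⟩
    rw [hr, Nat.add_sub_cancel, pow_succ]
    ring
  have hint : IsIntegral ℤ C := by
    refine IsIntegral.of_pow hl.pos ?_
    rw [hCp]
    exact (NumberField.RingOfIntegers.isIntegral_coe (c ^ (l - 1) * a)).algebraMap
  obtain ⟨C', hC'⟩ : ∃ C' : 𝓞 QBar, (C' : QBar) = C := ⟨⟨C, hint⟩, rfl⟩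
  have hCl : C' ^ l = algebraMap (𝓞 F) (𝓞 QBar) (c ^ (l - 1) * a) := by
    apply NumberField.RingOfIntegers.ext
    have h3 : ((C' ^ l : 𝓞 QBar) : QBar) = (C' : QBar) ^ l := by
      push_cast
      rfl
    rw [h3, hC', hCp]
    rfl
  have hC'n : C' ∉ P := by
    intro hmem
    have h1 : C' ^ l ∈ P := Ideal.pow_mem_of_mem P hmem l hl.pos
    rw [hCl, ← Ideal.mem_under, hw] at h1
    rcases w.isPrime.mem_or_mem h1 with h3 | h3
    · exact hc (w.isPrime.mem_of_pow_mem _ h3)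
    · exact ha h3
  -- the root of unity
  have hζ' : IsPrimitiveRoot (algebraMap K QBar ζ) l := hζ.map_of_injective (algebraMap K QBar).injective
  obtain ⟨z, hz⟩ : ∃ z : 𝓞 QBar, z = hζ'.toInteger := ⟨_, rfl⟩
  have hzc : (z : QBar) = algebraMap K QBar ζ := by
    rw [hz]
    rfl
  have hzp : IsPrimitiveRoot z l := by
    rw [hz]
    exact hζ'.toInteger_isPrimitiveRoot
  obtain ⟨c', hc'⟩ : ∃ c' : 𝓞 QBar, c' = algebraMap (𝓞 F) (𝓞 QBar) c := ⟨_, rfl⟩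
  have hc'Q : (c' : QBar) = (((c : F)) : QBar) := by
    rw [hc']
    rfl
  have hprodP : C' ^ l - c' ^ l ∈ P := by
    have h1 : C' ^ l - c' ^ l = algebraMap (𝓞 F) (𝓞 QBar) (c ^ (l - 1) * (a - c)) := by
      rw [hCl, hc', ← map_pow, ← map_sub]
      congr 1
      obtain ⟨r, hr⟩ : ∃ r, l = r + 1 := ⟨l - 1, by have := hl.pos; omega⟩
      rw [hr, Nat.add_sub_cancel, pow_succ]
      ring
    rw [h1, ← Ideal.mem_under, hw]
    exact w.asIdeal.mul_mem_left _ hmem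
  rw [hzp.pow_sub_pow_eq_prod_sub_mul C' c' hl.pos] at hprodP
  obtain ⟨ξ, hξ, hξP⟩ := (hP.prod_mem_iff).1 hprodP
  have hξl : ξ ^ l = 1 := (Polynomial.mem_nthRootsFinset hl.pos (1 : 𝓞 QBar)).1 hξ
  obtain ⟨i, -, hi⟩ := hzp.eq_pow_of_pow_eq_one hξl
  have hτz : τ (z : QBar) = (z : QBar) := by
    rw [hzc]
    exact τ.commutes ζ
  have hτC : τ • (C' - ξ * c') = z ^ k * C' - ξ * c' := by
    apply NumberField.RingOfIntegers.ext
    change τ ((C' - ξ * c' : 𝓞 QBar) : QBar) = ((z ^ k * C' - ξ * c' : 𝓞 QBar) : QBar)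
    have e1 : ((C' - ξ * c' : 𝓞 QBar) : QBar) = (C' : QBar) - (ξ : QBar) * (c' : QBar) := rfl
    have e2 : ((z ^ k * C' - ξ * c' : 𝓞 QBar) : QBar) = (z : QBar) ^ k * (C' : QBar) - (ξ : QBar) * (c' : QBar) := rfl
    have e3 : (ξ : QBar) = (z : QBar) ^ i := by
      rw [← hi]
      rfl
    have e4 : τ (C' : QBar) = (z : QBar) ^ k * (C' : QBar) := by
      rw [hC', hC, map_mul, hfix, hk, hzc]
      ring
    rw [e1, e2, e3, map_sub, map_mul, map_pow, hτz, e4, hc'Q, hfix]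
  have h4 : z ^ k * C' - ξ * c' ∈ P := by
    rw [← hτC]
    exact (hτ _).2 hξP
  have h5 : (z ^ k - 1) * C' ∈ P := by
    have h6 : (z ^ k - 1) * C' = (z ^ k * C' - ξ * c') - (C' - ξ * c') := by ring
    rw [h6]
    exact P.sub_mem h4 hξP
  have h7 : z ^ k - 1 ∈ P := (hP.mem_or_mem h5).resolve_right hC'n
  have hd : l ∣ k := kdc_dvd hl.pos hlP hzp k h7
  have hlt : k < l := by
    rw [hkd]
    exact ZMod.val_lt _
  have hk0 : k = 0 := Nat.eq_zero_of_dvd_of_lt hd hlt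
  rw [hk0] at hkd
  exact (ZMod.val_eq_zero _).1 hkd.symm

theorem kap_dec [Fintype Q] {V : Type} [AddCommGroup V] [DistribMulAction Q V] {ι : Type}
    [Fintype ι] {l : ℕ} (hl : l.Prime) {ζ : K} (hζ : IsPrimitiveRoot ζ l)
    (m : ι → V) {φ : Gal(QBar/K) →* Q} {act : Q →* (F ≃+* F)} (h : KTriv act) (H : Acts F φ act)
    (P : DP K QBar) (S' : Finset (Pl K)) (hS' : ∀ v ∈ S', ¬ Above l v) (y : ι → Additive Fˣ)
    (hy : ∀ j, y j ∈ Ry F S') :
    ∀ v ∈ S', ∀ τ ∈ dec (K := K) (P.P v), φ τ = 1 → kap l ζ m φ act y τ = 0 := by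
  intro v hv τ hτ hφ
  have hlP : ((l : ℕ) : 𝓞 QBar) ∉ P.P v := by
    intro h1
    apply hS' v hv
    unfold Above
    rw [← P.under v, Ideal.mem_under, map_natCast]
    exact h1
  have hτF : τ ∈ F.fixingSubgroup := by
    rw [H.fix]
    exact hφ
  have hover : Over (wp F P v) v := by
    unfold Over
    change ((P.P v).under (𝓞 F)).comap (algebraMap (𝓞 K) (𝓞 F)) = v.asIdeal
    rw [← P.under v]
    exact Ideal.ext fun a => Iff.rfl
  unfold kap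
  rw [if_pos hφ]
  refine Finset.sum_eq_zero fun a _ => Finset.sum_eq_zero fun j _ => ?_
  have h1 : One1 (wp F P v) (ex act a (y j)).toMul := ry_ex h S' a (hy j) (wp F P v) ⟨v, hv, hover⟩
  rw [kdc_one hl hζ (P.P v) (P.prime v) (wp F P v) rfl hlP _ h1 τ hτ hτF]
  have : NeZero l := ⟨hl.ne_zero⟩
  rw [ZMod.val_zero, zero_smul]

end H12.KF
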