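import Pool.Agent.H12.KF.Lab
import Pool.Agent.H51.SN.Kum

/-!
# [H12 KF KRN] when is `kap y = kap y'`, 60-100 lines

Put `x = y - y'`. `kap x γ = ∑ a j, kq (a x_j) γ • (a m j)`, and `kap x = kap y - kap y'` on `ker φ` (`kq_arg`, `kq` of an inverse). Its `i`-th coordinate is `∑ a j, kq (a x_j) γ * co (a m j) i = #Q * ∑ a j c i j a kq (a x_j) γ = #Q * kq (u_i) γ` in `ZMod l`, where `u_i = (cact (ex act) c x i)` (`CpT`; `kq_prod`, `kq_zpow`-type lemmas for the
integer powers; `kq_arg`, `kq_npow`, `kq_pow`). So `kq (u_i) γ = 0` for all `γ` with `φ γ = 1`, i.e. all `γ ∈ F.fixingSubgroup` (`Acts.fix`): `u_i` is an `l`-th power in `F` (`kq_zero_pow`).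
-/

set_option autoImplicit false

open scoped NumberField
open IsDedekindDomain H38.ML
open scoped Classical

noncomputable section

namespace H12.KF

open H63.MA H51.SN H67.AQ

variable {K : IntermediateField ℚ QBar} [NumberField K] {Q : Type} [Group Q] [Fintype Q]
  {F : IntermediateField K QBar} [NumberField F] {V : Type} [AddCommGroup V] [DistribMulAction Q V]
  {ι : Type} [Fintype ι]

/-- the Kummer symbol as a homomorphism -/
private def kh {l : ℕ} (hl : l.Prime) {ζ : K} (hζ : IsPrimitiveRoot ζ l) (γ : Gal(QBar/K))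
    (hγ : ∀ x : F, γ (x : QBar) = x) : Additive Fˣ →+ ZMod l where
  toFun x := kq l ζ ((x.toMul : F) : QBar) γ
  map_zero' := by
    have h1 : ∀ x : Additive Fˣ, ((x.toMul : F) : QBar) ≠ 0 := fun x h => x.toMul.ne_zero (Subtype.ext h)
    have h2 := kq_arg (x := (((0 : Additive Fˣ).toMul : F) : QBar)) (y := (((0 : Additive Fˣ).toMul : F) : QBar)) hl hζ
      (h1 0) (h1 0) (γ := γ) (hγ _) (hγ _)
    have h3 : (((0 : Additive Fˣ).toMul : F) : QBar) * (((0 : Additive Fˣ).toMul : F) : QBar) =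
        (((0 : Additive Fˣ).toMul : F) : QBar) := by
      change (1 : QBar) * 1 = 1
      rw [mul_one]
    rw [h3] at h2
    exact left_eq_add.1 h2
  map_add' x y := by
    have h1 : ∀ x : Additive Fˣ, ((x.toMul : F) : QBar) ≠ 0 := fun x h => x.toMul.ne_zero (Subtype.ext h)
    exact kq_arg hl hζ (h1 x) (h1 y) (hγ _) (hγ _)

private theorem co_kap {l : ℕ} (hl : l.Prime) {ζ : K} (hζ : IsPrimitiveRoot ζ l) (b : Bs l V ι)
    {φ : Gal(QBar/K) →* Q} {act : Q →* (F ≃+* F)} {c : ι → ι → Q → ℤ} (hc : CpT b c) (y : ι → Additive Fˣ)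
    {γ : Gal(QBar/K)} (h1 : φ γ = 1) (hγ : ∀ x : F, γ (x : QBar) = x) (i : ι) :
    b.co (kap l ζ b.m φ act y γ) i = (Nat.card Q : ZMod l) * kh hl hζ γ hγ (cact (ex act) c y i) := by
  haveI : NeZero l := ⟨hl.ne_zero⟩
  unfold kap
  rw [if_pos h1, map_sum, Finset.sum_apply]
  have e1 : ∀ a ∈ (Finset.univ : Finset Q), b.co (∑ j, (kq l ζ (((ex act a (y j)).toMul : F) : QBar) γ).val • (a • b.m j)) i =
      ∑ j, (Nat.card Q : ZMod l) * ((c i j a : ZMod l) * kh hl hζ γ hγ (ex act a (y j))) := by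
    intro a _
    rw [map_sum, Finset.sum_apply]
    refine Finset.sum_congr rfl fun j _ => ?_
    rw [map_nsmul, Pi.smul_apply, nsmul_eq_mul, ZMod.natCast_zmod_val, ← hc i j a]
    change kq l ζ (((ex act a (y j)).toMul : F) : QBar) γ * _ = _ * (_ * kq l ζ (((ex act a (y j)).toMul : F) : QBar) γ)
    push_cast
    ring
  rw [Finset.sum_congr rfl e1, Finset.sum_comm]
  change _ = (Nat.card Q : ZMod l) * kh hl hζ γ hγ (∑ j, ∑ a, c i j a • ex act a (y j))
  rw [map_sum, Finset.mul_sum]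
  refine Finset.sum_congr rfl fun j _ => ?_
  rw [map_sum, Finset.mul_sum]
  refine Finset.sum_congr rfl fun a _ => ?_
  rw [map_zsmul, zsmul_eq_mul]

theorem krn {l : ℕ} (hl : l.Prime) {ζ : K} (hζ : IsPrimitiveRoot ζ l) (hV : ∀ x : V, l • x = 0)
    (hQ : Nat.Coprime l (Nat.card Q)) (b : Bs l V ι) {φ : Gal(QBar/K) →* Q}
    {act : Q →* (F ≃+* F)} (H : Acts F φ act) {c : ι → ι → Q → ℤ} (hc : CpT b c)
    (y y' : ι → Additive Fˣ) (he : kap l ζ b.m φ act y = kap l ζ b.m φ act y') :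
    ∃ u, cact (ex act) c (y - y') = l • u := by
  have hfix : ∀ γ ∈ F.fixingSubgroup, φ γ = 1 ∧ ∀ x : F, γ (x : QBar) = x := by
    intro γ hγ
    refine ⟨?_, fun x => (IntermediateField.mem_fixingSubgroup_iff F γ).1 hγ x x.2⟩
    rw [H.fix] at hγ
    exact hγ
  have h1 : ∀ i, ∀ γ ∈ F.fixingSubgroup, kq l ζ (((cact (ex act) c (y - y') i).toMul : F) : QBar) γ = 0 := by
    intro i γ hγ
    obtain ⟨h2, h3⟩ := hfix γ hγ
    have e1 := co_kap (act := act) hl hζ b hc y h2 h3 i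
    have e2 := co_kap (act := act) hl hζ b hc y' h2 h3 i
    rw [he, e2] at e1
    have hu : IsUnit (Nat.card Q : ZMod l) := (ZMod.isUnit_iff_coprime _ _).2 hQ.symm
    have e3 := hu.mul_left_cancel e1
    have e4 : kh hl hζ γ h3 (cact (ex act) c (y - y') i) = 0 := by
      rw [map_sub, Pi.sub_apply, map_sub, e3, sub_self]
    exact e4
  have h2 : ∀ i, ∃ z : Fˣ, z ^ l = (cact (ex act) c (y - y') i).toMul := by
    intro i
    obtain ⟨z, hz⟩ := kq_zero_pow hl hζ F ((cact (ex act) c (y - y') i).toMul : F)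
      (cact (ex act) c (y - y') i).toMul.ne_zero (h1 i)
    have hz0 : z ≠ 0 := by
      rintro rfl
      rw [zero_pow hl.ne_zero] at hz
      exact (cact (ex act) c (y - y') i).toMul.ne_zero hz.symm
    exact ⟨Units.mk0 z hz0, Units.ext hz⟩
  choose z hz using h2
  refine ⟨fun i => Additive.ofMul (z i), ?_⟩
  funext i
  apply Additive.toMul.injective
  rw [← hz i]
  rfl

end H12.KF
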