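import Pool.Agent.H12.KF.Bas
import Pool.Agent.H51.SN.Lft

/-!
# [H12 KF LFT] the averaging idempotent lifted to an integral matrix which is idempotent modulo `n`, 120-180 lines

In the ring `R = Matrix ι ι (MonoidAlgebra ℤ Q)` let `e₀ i j = ∑ a, z i j a • a`, `z i j a : ℤ` with `#Q z i j a = co (a m j) i` modulo `l` (`#Q` is invertible modulo `l`).
`e₀² - e₀ ∈ l R`: modulo `l` the coefficient of `e₀²` at `a` is `(#Q)⁻² ∑ k b, ρ b i k ρ (b⁻¹ a) k j = (#Q)⁻² ∑ b, ρ a i j` with `ρ a i j = co (a m j) i`, `ρ (b c) i j = ∑ k ρ b i k ρ c k j` (`bs_act`).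
The lifting is generic (see `H51/SN/Lft.lean`, `lft`, where `R` is `MonoidAlgebra ℤ A`): `n = l ^ k n'`, `n'` prime to `l`, `1 ≤ k`; if `e² - e ∈ l ^ j R`, `1 ≤ j` then `e' = 3 e² - 2 e³` has `e'² - e' = (4 e² - 4 e - 3)(e² - e)² ∈ l ^ (2 j) R` and
`e' - e ∈ l ^ j R`; so there is `e`, `e² - e ∈ l ^ k R`, `e - e₀ ∈ l R`. `t : ℤ`, `t = 1` modulo `l ^ k`, `t = 0` modulo `n'`: `c = t e` is idempotent modulo `n`, `c = e₀` modulo `l`. First prove `lft_ring` for an arbitrary ring `R`.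
Coefficients: `(e e) i j` at `a` is `∑ k b, e i k b * e k j (b⁻¹ a)` (`Matrix.mul_apply`, `MonoidAlgebra.mul_apply_antidiagonal`-type lemma as in `H51/SN/Lft.lean`).
-/

set_option autoImplicit false

open scoped Classical

noncomputable section

namespace H12.KF

private theorem lf_id {R : Type} [Ring R] (e : R) :
    (3 * e ^ 2 - 2 * e ^ 3) * (3 * e ^ 2 - 2 * e ^ 3) - (3 * e ^ 2 - 2 * e ^ 3)
      = (4 * e ^ 2 - 4 * e - 3) * ((e * e - e) * (e * e - e)) := by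
  noncomm_ring

private theorem lf_id2 {R : Type} [Ring R] (e : R) :
    (3 * e ^ 2 - 2 * e ^ 3) - e = (1 - 2 * e) * (e * e - e) := by
  noncomm_ring

private theorem lf_pow {R : Type} [Ring R] (l : ℤ) (e0 : R) (h0 : ∃ r : R, e0 * e0 - e0 = l • r)
    (m : ℕ) : ∃ e r s : R, e * e - e = (l ^ (m + 1)) • r ∧ e - e0 = l • s := by
  induction m with
  | zero =>
    obtain ⟨r, hr⟩ := h0
    exact ⟨e0, r, 0, by simpa using hr, by simp⟩
  | succ m ih =>
    obtain ⟨e, r, s, h1, h2⟩ := ih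
    refine ⟨3 * e ^ 2 - 2 * e ^ 3, (4 * e ^ 2 - 4 * e - 3) * (l ^ m • (r * r)),
      (1 - 2 * e) * (l ^ m • r) + s, ?_, ?_⟩
    · rw [lf_id, h1, smul_mul_smul_comm, mul_smul_comm, mul_smul_comm, ← mul_smul]
      have : l ^ (m + 1) * l ^ (m + 1) = l ^ (m + 1 + 1) * l ^ m := by ring
      rw [this]
    · have h3 : (3 * e ^ 2 - 2 * e ^ 3) - e0 = ((3 * e ^ 2 - 2 * e ^ 3) - e) + (e - e0) := by
        abel
      rw [h3, lf_id2, h1, h2, smul_add, mul_smul_comm, mul_smul_comm, ← mul_smul]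
      have : l ^ (m + 1) = l * l ^ m := by ring
      rw [this]

theorem lft_ring {R : Type} [Ring R] {l : ℕ} (hl : l.Prime) (e₀ : R) (h : ∃ r : R, e₀ * e₀ - e₀ = (l : ℤ) • r)
    (n : ℕ) (hn : n ≠ 0) : ∃ e : R, (∃ r, e * e - e = (n : ℤ) • r) ∧ ∃ r, e - e₀ = (l : ℤ) • r := by
  obtain ⟨k0, n', hn', hnn⟩ := Nat.exists_eq_pow_mul_and_not_dvd hn l hl.ne_one
  obtain ⟨e, r, s, h1, h2⟩ := lf_pow (l : ℤ) e₀ h k0
  have hcop : Nat.Coprime (l ^ (k0 + 1)) n' := ((hl.coprime_iff_not_dvd).mpr hn').pow_left _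
  obtain ⟨t, ht1, ht2⟩ := Nat.chineseRemainder hcop 1 0
  have ht3 : (n' : ℤ) ∣ (t : ℤ) := by
    have := (Nat.modEq_zero_iff_dvd).mp ht2
    exact_mod_cast this
  have ht4 : ((l : ℤ) ^ (k0 + 1)) ∣ (t : ℤ) - 1 := by
    have := (Nat.modEq_iff_dvd).mp ht1.symm
    push_cast at this
    exact this
  obtain ⟨u, hu⟩ := ht3
  obtain ⟨w, hw⟩ := ht4
  have hnc : (n : ℤ) = (l : ℤ) ^ k0 * n' := by
    rw [hnn]
    push_cast
    rfl
  refine ⟨(t : ℤ) • e, ⟨(u * t * l) • r + (u * l * w) • e, ?_⟩, s + ((l : ℤ) ^ k0 * w) • e, ?_⟩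
  · have e1 : ((t : ℤ) • e) * ((t : ℤ) • e) - (t : ℤ) • e = ((t : ℤ) * t) • (e * e - e) + ((t : ℤ) * (t - 1)) • e := by
      rw [smul_mul_smul_comm, smul_sub, mul_sub, mul_one, sub_smul]
      abel
    rw [e1, h1, smul_add, ← mul_smul, ← mul_smul, ← mul_smul]
    congr 1
    · congr 1
      rw [hnc]
      nth_rewrite 1 [hu]
      ring
    · congr 1
      rw [hw, hnc, hu]
      ring
  · have e1 : (t : ℤ) • e - e₀ = (e - e₀) + ((t : ℤ) - 1) • e := by
      rw [sub_smul, one_smul]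
      abel
    rw [e1, h2, hw, smul_add, ← mul_smul]
    congr 2
    ring

private theorem lf_mul {A : Type} [Group A] [Fintype A] (x y : MonoidAlgebra ℤ A) (b : A) :
    (x * y).coeff b = ∑ a, x.coeff a * y.coeff (a⁻¹ * b) := by
  rw [MonoidAlgebra.coeff_mul_apply_left, Finsupp.sum_fintype _ _ (fun i => by simp)]

private theorem lf_mat {A : Type} [Group A] [Fintype A] {ι : Type} [Fintype ι]
    (x y : Matrix ι ι (MonoidAlgebra ℤ A)) (i j : ι) (a : A) :
    ((x * y) i j).coeff a = ∑ k, ∑ b, (x i k).coeff b * (y k j).coeff (b⁻¹ * a) := by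
  rw [Matrix.mul_apply, MonoidAlgebra.coeff_sum, Finsupp.finset_sum_apply]
  exact Finset.sum_congr rfl fun k _ => lf_mul _ _ _

theorem lftT {l : ℕ} (hl : l.Prime) {Q : Type} [Group Q] [Fintype Q] (hQ : Nat.Coprime l (Nat.card Q))
    {V : Type} [AddCommGroup V] [DistribMulAction Q V] {ι : Type} [Fintype ι] (b : Bs l V ι) (n : ℕ)
    (hn : n ≠ 0) : ∃ c : ι → ι → Q → ℤ, IdT n c ∧ CpT b c := by
  have : Fact l.Prime := ⟨hl⟩
  have hq : ((Nat.card Q : ℕ) : ZMod l) ≠ 0 := by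
    intro h
    rw [ZMod.natCast_eq_zero_iff] at h
    exact hl.one_lt.ne' (Nat.dvd_one.1 (hQ ▸ Nat.dvd_gcd dvd_rfl h))
  choose g hg using fun (i j : ι) (a : Q) =>
    ZMod.intCast_surjective (((Nat.card Q : ℕ) : ZMod l)⁻¹ * b.co (a • b.m j) i)
  set e₀ : Matrix ι ι (MonoidAlgebra ℤ Q) := fun i j => MonoidAlgebra.ofCoeff (Finsupp.equivFunOnFinite.symm (g i j)) with he₀
  have hcoe : ∀ i j a, (e₀ i j).coeff a = g i j a := fun i j a => by simp [he₀]
  have h0 : ∃ r : Matrix ι ι (MonoidAlgebra ℤ Q), e₀ * e₀ - e₀ = (l : ℤ) • r := by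
    have hd : ∀ i j a, ∃ z : ℤ, ((e₀ * e₀ - e₀) i j).coeff a = (l : ℤ) * z := by
      intro i j a
      have h1 : (l : ℤ) ∣ ((e₀ * e₀ - e₀) i j).coeff a := by
        rw [← ZMod.intCast_zmod_eq_zero_iff_dvd _ l, Matrix.sub_apply, MonoidAlgebra.coeff_sub, Finsupp.sub_apply,
          lf_mat]
        push_cast
        simp only [hcoe, hg]
        have h2 : ∀ c : Q, ∑ k, b.co (c • b.m k) i * b.co ((c⁻¹ * a) • b.m j) k = b.co (a • b.m j) i := by
          intro c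
          have h3 := bs_act hl b c ((c⁻¹ * a) • b.m j) i
          rw [← mul_smul, mul_inv_cancel_left] at h3
          rw [h3]
          exact Finset.sum_congr rfl fun k _ => mul_comm _ _
        rw [Finset.sum_comm]
        have h4 : ∀ c : Q, ∑ k, (((Nat.card Q : ℕ) : ZMod l)⁻¹ * b.co (c • b.m k) i) *
            (((Nat.card Q : ℕ) : ZMod l)⁻¹ * b.co ((c⁻¹ * a) • b.m j) k) =
            ((Nat.card Q : ℕ) : ZMod l)⁻¹ * (((Nat.card Q : ℕ) : ZMod l)⁻¹ * b.co (a • b.m j) i) := by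
          intro c
          rw [← h2 c, Finset.mul_sum, Finset.mul_sum]
          exact Finset.sum_congr rfl fun k _ => by ring
        rw [Finset.sum_congr rfl fun c _ => h4 c, Finset.sum_const, Finset.card_univ, nsmul_eq_mul,
          ← Nat.card_eq_fintype_card]
        rw [← mul_assoc, mul_inv_cancel₀ hq, one_mul, sub_self]
      exact h1
    choose z hz using hd
    refine ⟨fun i j => MonoidAlgebra.ofCoeff (Finsupp.equivFunOnFinite.symm (z i j)), ?_⟩
    funext i j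
    apply MonoidAlgebra.coeff_injective
    ext a
    rw [hz, Matrix.smul_apply, MonoidAlgebra.coeff_smul, Finsupp.smul_apply]
    simp
  obtain ⟨e, ⟨r, hr⟩, s, hs⟩ := lft_ring hl e₀ h0 n hn
  refine ⟨fun i j a => (e i j).coeff a, ?_, ?_⟩
  · intro i j a
    have h1 := congrArg (fun x : Matrix ι ι (MonoidAlgebra ℤ Q) => (x i j).coeff a) hr
    simp only [Matrix.sub_apply, MonoidAlgebra.coeff_sub, Finsupp.sub_apply, Matrix.smul_apply,
      MonoidAlgebra.coeff_smul, Finsupp.smul_apply, smul_eq_mul] at h1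
    rw [lf_mat] at h1
    exact ⟨_, h1⟩
  · intro i j a
    have h1 := congrArg (fun x : Matrix ι ι (MonoidAlgebra ℤ Q) => (x i j).coeff a) hs
    simp only [Matrix.sub_apply, MonoidAlgebra.coeff_sub, Finsupp.sub_apply, Matrix.smul_apply,
      MonoidAlgebra.coeff_smul, Finsupp.smul_apply, smul_eq_mul, hcoe] at h1
    have h2 : (e i j).coeff a = g i j a + (l : ℤ) * (s i j).coeff a := by linarith
    show ((Nat.card Q * (e i j).coeff a : ℤ) : ZMod l) = _
    rw [h2]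
    push_cast
    rw [hg, ZMod.natCast_self, zero_mul, add_zero, ← mul_assoc, mul_inv_cancel₀ hq, one_mul]

end H12.KF
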