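import Pool.Agent.H12.KF.Kap
import Pool.Agent.H12.KF.Krn
import Pool.Agent.H12.KF.Lft
import Pool.Agent.H12.KF.Abs
import Pool.Agent.H12.KF.Ab2
import Pool.Agent.H12.KF.Kdc

/-!
# [H12 KF FIB] the fibre theorem for one prime `l`, 80-130 lines

`abs_card2` with `X₁ = ι → Additive Fˣ`, `X` = the subgroup of the `y` with `y j ∈ Ry F S'` for all `j` (stable under `cact (ex act) c`: `ry_ex`, integer multiples and sums), `Y = ι → (Wp F S0 →₀ ℤ)`, `L = Lab φ P S0 V`, `E = cact (ex act) c`, `e = cact (wx h S0) c`, `R` from `lab_ex`, `dv = dv S0`; `m` from `ry_fin` (`D = X.map dv`),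
`c` from `lftT` with `n = l * m`: `cact_idem` gives `e (e y) - e y = (l m) • z = l • (m • z) = l • dv u`, `u ∈ X`; `cact_nat` with `dv1_ex` gives `hde`; `hker` from `lab_ker`; `hM` from `ry_tor`.
`H₀ := X.map (R.comp dv)`. `l • t = 0` since `l • V = 0`. For `t ∈ H₀`: `t = R (dv x)`, `x ∈ X`; the functions `kap (x + f q)`, `q ∈ Lab ⧸ H₀`, are typed with label `lb (dv (x + f q)) = t` (`kap_typ`, `R` additive, `R (dv (f q)) = 0`), trivial at `S'` (`kap_dec`), and `kap (x + f q) = kap (x + f q')` implies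
`E (f q - f q') = l u` (`krn`): the fibres of `q ↦ kap (x + f q)` have at most `M₀` elements (`Finset.card_le_mul_card_image`): `Xs` = the image.
-/

set_option autoImplicit false

open scoped NumberField
open IsDedekindDomain H38.ML
open scoped Classical

noncomputable section

namespace H12.KF

open H63.MA H51.SN H67.AQ

variable {K : IntermediateField ℚ QBar} [NumberField K] {Q : Type} [Group Q] [Fintype Q]
  {F : IntermediateField K QBar} [NumberField F] {V : Type} [AddCommGroup V] [DistribMulAction Q V]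

theorem fib {l : ℕ} (hl : l.Prime) {ζ : K} (hζ : IsPrimitiveRoot ζ l) (hV : ∀ x : V, l • x = 0)
    (hQ : Nat.Coprime l (Nat.card Q)) {ι : Type} [Fintype ι] (b : Bs l V ι)
    {φ : Gal(QBar/K) →* Q} (hφ : FT φ) (hs : Function.Surjective φ) {act : Q →* (F ≃+* F)}
    (h : KTriv act) (H : Acts F φ act) (P : DP K QBar) (S0 S' : Finset (Pl K))
    (hS0 : ∀ v, Above l v → v ∈ S0) (hS' : S' ⊆ S0) (hl' : ∀ v ∈ S', ¬ Above l v) :
    ∃ H₀ : AddSubgroup (Lab φ P S0 V), Finite (Lab φ P S0 V ⧸ H₀) ∧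
      Nat.card (Lab φ P S0 V ⧸ H₀) ≤
        (Nat.card (ClassGroup (𝓞 F)) * (∏ v ∈ S', nm v) ^ Module.finrank K F) ^ Fintype.card ι ∧
      (∀ (t : Lab φ P S0 V) (y : ι → Additive Fˣ), (∀ j, y j ∈ Ry F S') →
        (∀ v, (t : Pl K →₀ V) v = lb b.m h P S0 (dv S0 y) v) → t ∈ H₀) ∧
      ∀ t ∈ H₀, ∃ Xs : Finset (Gal(QBar/K) → V),
        Nat.card (Lab φ P S0 V ⧸ H₀) ≤
          (l ^ (S'.card * Module.finrank K F)) ^ Fintype.card ι * Xs.card ∧
        ∀ κ ∈ Xs, Typ l ζ φ P S0 (t : Pl K →₀ V) κ ∧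
          ∀ v ∈ S', ∀ τ ∈ dec (K := K) (P.P v), φ τ = 1 → κ τ = 0 := by
  let X : AddSubgroup (ι → Additive Fˣ) :=
    { carrier := {y | ∀ j, y j ∈ Ry F S'}
      zero_mem' := fun j => (Ry F S').zero_mem
      add_mem' := fun ha hb j => (Ry F S').add_mem (ha j) (hb j)
      neg_mem' := fun ha j => (Ry F S').neg_mem (ha j) }
  have hX : ∀ y : ι → Additive Fˣ, y ∈ X ↔ ∀ j, y j ∈ Ry F S' := fun y => Iff.rfl
  obtain ⟨hfin, hcard, m, hm, hmu⟩ := ry_fin F S0 S' hS' ι (X.map (dv (F := F) (ι := ι) S0))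
    (fun y hy => ⟨y, hy, rfl⟩)
  obtain ⟨c, hc1, hc2⟩ := lftT hl hQ b (l * m) (mul_ne_zero hl.ne_zero hm)
  obtain ⟨R, hR⟩ := lab_ex hl b h H P S0
  have htf : ∀ y : ι → (Wp F S0 →₀ ℤ), l • y = 0 → y = 0 := by
    intro y hy
    funext i
    refine Finsupp.ext fun w => ?_
    have h1 : (l • y) i w = 0 := by
      rw [hy]
      rfl
    have h2 : (l • y) i w = (l : ℤ) * y i w := by
      rw [Pi.smul_apply, Finsupp.smul_apply, nsmul_eq_mul]
    rw [h2] at h1
    rcases mul_eq_zero.1 h1 with h3 | h3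
    · exact absurd (by exact_mod_cast h3) hl.ne_zero
    · exact h3
  have hlt : ∀ t : Lab φ P S0 V, l • t = 0 := by
    intro t
    refine Subtype.ext (Finsupp.ext fun v => ?_)
    exact hV _
  have hde : ∀ x : ι → Additive Fˣ,
      dv (F := F) S0 (cact (ex act) c x) = cact (wx h S0) c (dv S0 x) := by
    intro x
    funext i
    exact cact_nat (ex act) (wx h S0) (dv1 S0) (dv1_ex h S0) c x i
  have hEX : ∀ x ∈ X, cact (ex act) c x ∈ X := by
    intro x hx i
    show cact (ex act) c x i ∈ Ry F S'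
    unfold cact
    refine (Ry F S').sum_mem fun j _ => (Ry F S').sum_mem fun a _ => (Ry F S').zsmul_mem (ry_ex h S' a (hx j)) _
  have he : ∀ y : ι → (Wp F S0 →₀ ℤ), ∃ u ∈ X,
      cact (wx h S0) c (cact (wx h S0) c y) - cact (wx h S0) c y = l • dv (F := F) S0 u := by
    intro y
    obtain ⟨z, hz⟩ := cact_idem (wx h S0) c hc1 y
    obtain ⟨u, hu1, hu⟩ := hmu z
    refine ⟨u, hu1, ?_⟩
    rw [hz, ← hu, mul_nsmul']
  have hM : ∃ T : Finset (ι → Additive Fˣ), T.card ≤ (l ^ (S'.card * Module.finrank K F)) ^ Fintype.card ι ∧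
      ∀ u, l • u ∈ X → ∃ t ∈ T, u - t ∈ X := by
    obtain ⟨T, hT1, hT2⟩ := ry_tor F hl S' ι
    exact ⟨T, hT1, fun u hu => hT2 u hu⟩
  have hsur : Function.Surjective R := by
    intro t
    obtain ⟨δ, hδ⟩ := lab_sur hl hQ b hs h H P S0 t
    refine ⟨δ, Subtype.ext (Finsupp.ext fun v => ?_)⟩
    rw [hR, hδ]
  have hker : ∀ y, R y = 0 ↔ ∃ z, cact (wx h S0) c y = l • z := by
    intro y
    rw [← lab_ker hl hQ b hs h H P S0 hc2 y]
    constructor
    · intro h1 v
      rw [← hR, h1]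
      rfl
    · intro h1
      refine Subtype.ext (Finsupp.ext fun v => ?_)
      rw [hR, h1]
      rfl
  obtain ⟨hf, hle, f, hf1, hf2⟩ := abs_card2 htf hlt (dv (F := F) (ι := ι) S0) (cact (ex act) c)
    (cact (wx h S0) c) hde X hEX he hfin hM R hsur hker
  refine ⟨X.map (R.comp (dv (F := F) (ι := ι) S0)), hf, hle.trans hcard, ?_, ?_⟩
  · intro t y hy hty
    refine ⟨y, hy, Subtype.ext (Finsupp.ext fun v => ?_)⟩
    rw [hty]
    exact hR _ v
  · rintro t ⟨x, hxX, hx⟩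
    have hx' : R (dv S0 x) = t := hx
    have := Fintype.ofFinite (Lab φ P S0 V ⧸ X.map (R.comp (dv (F := F) (ι := ι) S0)))
    refine ⟨Finset.univ.image fun q => kap l ζ b.m φ act (x + f q), ?_, ?_⟩
    · rw [Nat.card_eq_fintype_card, ← Finset.card_univ, mul_comm]
      rw [← mul_comm]
      refine Finset.card_le_mul_card_image _ _ ?_
      intro κ hκ
      obtain ⟨q, -, rfl⟩ := Finset.mem_image.1 hκ
      refine le_trans ?_ (hf2 q)
      rw [Nat.card_eq_fintype_card, Fintype.card_subtype]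
      refine Finset.card_le_card ?_
      intro q' hq'
      rw [Finset.mem_filter] at hq' ⊢
      refine ⟨Finset.mem_univ _, ?_⟩
      obtain ⟨u, hu⟩ := krn hl hζ hV hQ b H hc2 (x + f q) (x + f q') hq'.2.symm
      exact ⟨u, by rw [← hu, add_sub_add_left_eq_sub]⟩
    · intro κ hκ
      obtain ⟨q, -, rfl⟩ := Finset.mem_image.1 hκ
      have h1 := kap_typ hl hζ hV b.m hφ hs h H P S0 hS0 (x + f q)
      have h2 : lb b.m h P S0 (dv S0 (x + f q)) = ((t : Pl K →₀ V) : Pl K → V) := by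
        funext v
        rw [← hR, map_add, map_add, (hf1 q).2, add_zero, hx']
      rw [h2] at h1
      exact ⟨h1, kap_dec hl hζ b.m h H P S' hl' (x + f q) fun j => X.add_mem hxX (hf1 q).1 j⟩

end H12.KF
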