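import Pool.Agent.H63.MA.AFin

/-!
# [H12 KF HSB] a divisor bound, 40-70 lines

`H ^ #s ≤ C' (nr s) ^ ε` with `C' = ∏_{nm v ≤ H ^ (1/ε)} H` (finitely many places of bounded norm; the other factors `H / (nm v) ^ ε` are at most `1`; `H ≥ 1`), and `#AF K M ≤ C'' M` (`af_card`).
-/

set_option autoImplicit false

open scoped NumberField Classical
open H63.MA

noncomputable section

namespace H12.KF

theorem hsb (K : Type) [Field K] [NumberField K] (H ε : ℝ) (hH : 1 ≤ H) (hε : 0 < ε) :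
    ∃ C : ℝ, 1 ≤ C ∧ (∀ s : Finset (Pl K), H ^ s.card ≤ C * nr s ^ ε) ∧
      ∀ M : ℝ, 1 ≤ M → ∑ s ∈ AF K M, H ^ s.card ≤ C * M ^ (1 + ε) := by
  have hH0 : 0 < H := by linarith
  have hfin : {v : Pl K | (nm v : ℝ) ≤ H ^ (1 / ε)}.Finite := by
    refine Set.Finite.of_injOn (f := fun v : Pl K => ({v} : Finset (Pl K)))
      (t := {n : Finset (Pl K) | nr n ≤ H ^ (1 / ε)}) ?_ ?_ (finite_nr K _)
    · intro v hv
      have hv' : (nm v : ℝ) ≤ H ^ (1 / ε) := hv
      change nr ({v} : Finset (Pl K)) ≤ H ^ (1 / ε)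
      unfold nr
      rwa [Finset.prod_singleton]
    · intro v _ w _ h
      exact Finset.singleton_injective h
  obtain ⟨C₂, hC₂, hc⟩ := af_card K
  set T : Finset (Pl K) := hfin.toFinset with hT
  have hC1 : 1 ≤ H ^ T.card := one_le_pow₀ hH
  have key : ∀ s : Finset (Pl K), H ^ s.card ≤ H ^ T.card * nr s ^ ε := by
    intro s
    have e1 : s.card = (s ∩ T).card + (s \ T).card := (Finset.card_inter_add_card_sdiff s T).symm
    have h1 : H ^ (s ∩ T).card ≤ H ^ T.card :=
      pow_le_pow_right₀ hH (Finset.card_le_card Finset.inter_subset_right)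
    have h2 : H ^ (s \ T).card ≤ nr (s \ T) ^ ε := by
      unfold nr
      rw [← Finset.prod_const, ← Real.finsetProd_rpow _ _ (fun v _ => Nat.cast_nonneg _)]
      refine Finset.prod_le_prod (fun v _ => hH0.le) fun v hv => ?_
      have hv1 : v ∉ T := (Finset.mem_sdiff.1 hv).2
      have hv2 : H ^ (1 / ε) < (nm v : ℝ) := by
        by_contra h
        apply hv1
        rw [hT, Set.Finite.mem_toFinset]
        exact not_lt.1 h
      have h3 : (H ^ (1 / ε)) ^ ε ≤ (nm v : ℝ) ^ ε :=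
        Real.rpow_le_rpow (Real.rpow_nonneg hH0.le _) hv2.le hε.le
      rwa [← Real.rpow_mul hH0.le, one_div_mul_cancel hε.ne', Real.rpow_one] at h3
    have h4 : nr (s \ T) ^ ε ≤ nr s ^ ε :=
      Real.rpow_le_rpow (by linarith [one_le_nr (s \ T)]) (nr_mono Finset.sdiff_subset) hε.le
    rw [e1, pow_add]
    exact mul_le_mul h1 (h2.trans h4) (pow_nonneg hH0.le _) (pow_nonneg hH0.le _)
  refine ⟨H ^ T.card * (1 + C₂), ?_, fun s => ?_, fun M hM => ?_⟩
  · exact one_le_mul_of_one_le_of_one_le hC1 (by linarith)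
  · refine (key s).trans ?_
    have h1 : 0 ≤ nr s ^ ε := Real.rpow_nonneg (by linarith [one_le_nr s]) _
    refine mul_le_mul_of_nonneg_right ?_ h1
    nlinarith
  · have hM0 : 0 < M := by linarith
    have h1 : ∑ s ∈ AF K M, H ^ s.card ≤ ∑ _s ∈ AF K M, H ^ T.card * M ^ ε := by
      refine Finset.sum_le_sum fun s hs => (key s).trans ?_
      refine mul_le_mul_of_nonneg_left ?_ (pow_nonneg hH0.le _)
      exact Real.rpow_le_rpow (by linarith [one_le_nr s]) (mem_AF.1 hs) hε.le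
    rw [Finset.sum_const, nsmul_eq_mul] at h1
    refine h1.trans ?_
    rw [Real.rpow_add hM0, Real.rpow_one]
    have h2 : 0 ≤ H ^ T.card * M ^ ε := by positivity
    have h3 := mul_le_mul_of_nonneg_right (hc M hM) h2
    have h4 : 0 ≤ M * (H ^ T.card * M ^ ε) := by positivity
    calc ((AF K M).card : ℝ) * (H ^ T.card * M ^ ε) ≤ C₂ * M * (H ^ T.card * M ^ ε) := h3
      _ ≤ H ^ T.card * (1 + C₂) * (M * M ^ ε) := by linarith

end H12.KF
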