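import Pool.Agent.H12.KF.TDf
import Pool.Agent.H12.KF.Hsb

/-!
# [H12 KF REG] a character sum over a box of pairwise disjoint families, 120-180 lines (finite sums)

Fix the `f i`, `i ≠ j0` (pairwise disjoint, in `Win B (X i) lam`): the sum over `f j0` runs over the `q ∈ AF K (lam X j0)`, `X j0 < nr q`, disjoint from `B' = B ∪ ⋃_{i ≠ j0} f i`; it is the difference of the sums over `AF K (lam X j0)` and `AF K (X j0)` of `∏_{v ∈ q} Cut B' (g j0) v` (a product with a factor in `B'` is `0`):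
at most `2 D' C₀ ^ #B' (lam X j0) ^ (1 - δ)`, `#B' ≤ #B + ∑ #f i`. The other factors are at most `G ^ #f i`. So the whole sum is at most `2 D' C₀ ^ #B (lam X j0) ^ (1 - δ) ∏_{i ≠ j0} ∑_{s ∈ AF K (lam X i)} ((max G 1) C₀) ^ #s` (drop the disjointness of the `f i` after taking absolute values; `Finset.prod_univ_sum`),
and `hsb`. To split off the variable `j0`: `Equiv.funSplitAt` or write `f = Function.update f' j0 q`, `Finset.sum_fiberwise`/`Finset.sum_image` over the restrictions.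
-/

set_option autoImplicit false

open scoped NumberField Classical
open H63.MA

noncomputable section

namespace H12.KF

private theorem reg_mem {K : Type} [Field K] [NumberField K] {J : Type} [Fintype J] {B : Finset (Pl K)} {X : J → ℝ}
    {lam : ℝ} {f : J → Finset (Pl K)} :
    f ∈ Bx B X lam ↔ (∀ j, f j ∈ Win B (X j) lam) ∧ ∀ i j, i ≠ j → Disjoint (f i) (f j) := by
  unfold Bx
  rw [Finset.mem_filter, Fintype.mem_piFinset]

private theorem reg_memR {K : Type} [Field K] [NumberField K] {J : Type} [Fintype J] {B : Finset (Pl K)} {X : J → ℝ}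
    {lam : ℝ} {j0 : J} {f : J → Finset (Pl K)} :
    f ∈ (Fintype.piFinset fun j => if j = j0 then ({∅} : Finset (Finset (Pl K))) else Win B (X j) lam).filter
      (fun f => ∀ i j, i ≠ j → Disjoint (f i) (f j)) ↔
      (f j0 = ∅ ∧ ∀ j, j ≠ j0 → f j ∈ Win B (X j) lam) ∧ ∀ i j, i ≠ j → Disjoint (f i) (f j) := by
  rw [Finset.mem_filter, Fintype.mem_piFinset]
  refine and_congr ?_ Iff.rfl
  constructor
  · intro h
    refine ⟨?_, fun j hj => ?_⟩
    · have h1 := h j0
      rw [if_pos rfl, Finset.mem_singleton] at h1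
      exact h1
    · have h1 := h j
      rwa [if_neg hj] at h1
  · rintro ⟨h1, h2⟩ j
    by_cases hj : j = j0
    · rw [if_pos hj, Finset.mem_singleton, hj]
      exact h1
    · rw [if_neg hj]
      exact h2 j hj

private theorem reg_split {K : Type} [Field K] [NumberField K] {J : Type} [Fintype J] (B : Finset (Pl K)) (X : J → ℝ)
    (lam : ℝ) (j0 : J) (F : (J → Finset (Pl K)) → ℂ) :
    ∑ f ∈ Bx B X lam, F f =
      ∑ f' ∈ (Fintype.piFinset fun j => if j = j0 then ({∅} : Finset (Finset (Pl K))) else Win B (X j) lam).filter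
        (fun f => ∀ i j, i ≠ j → Disjoint (f i) (f j)),
        ∑ q ∈ (Win B (X j0) lam).filter (fun q => ∀ i, Disjoint q (f' i)), F (Function.update f' j0 q) := by
  have hmaps : ∀ f ∈ Bx B X lam, Function.update f j0 ∅ ∈
      (Fintype.piFinset fun j => if j = j0 then ({∅} : Finset (Finset (Pl K))) else Win B (X j) lam).filter
        (fun f => ∀ i j, i ≠ j → Disjoint (f i) (f j)) := by
    intro f hf
    rw [reg_mem] at hf
    rw [reg_memR]
    refine ⟨⟨Function.update_self _ _ _, fun j hj => ?_⟩, fun a b hab => ?_⟩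
    · rw [Function.update_of_ne hj]
      exact hf.1 j
    · by_cases ha : a = j0
      · rw [ha, Function.update_self]
        exact Finset.disjoint_empty_left _
      · by_cases hb : b = j0
        · rw [hb, Function.update_self]
          exact Finset.disjoint_empty_right _
        · rw [Function.update_of_ne ha, Function.update_of_ne hb]
          exact hf.2 a b hab
  rw [← Finset.sum_fiberwise_of_maps_to hmaps]
  refine Finset.sum_congr rfl fun f' hf' => ?_
  rw [reg_memR] at hf'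
  obtain ⟨⟨h0, hW⟩, hd⟩ := hf'
  refine Finset.sum_bij' (fun f _ => f j0) (fun q _ => Function.update f' j0 q) ?_ ?_ ?_ ?_ ?_
  · intro f hf
    rw [Finset.mem_filter, reg_mem] at hf
    obtain ⟨⟨h1, h2⟩, h3⟩ := hf
    rw [Finset.mem_filter]
    refine ⟨h1 j0, fun i => ?_⟩
    rw [← h3]
    by_cases hi : i = j0
    · rw [hi, Function.update_self]
      exact Finset.disjoint_empty_right _
    · rw [Function.update_of_ne hi]
      exact h2 j0 i (Ne.symm hi)
  · intro q hq
    rw [Finset.mem_filter] at hq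
    obtain ⟨h1, h2⟩ := hq
    rw [Finset.mem_filter, reg_mem]
    refine ⟨⟨fun j => ?_, fun a b hab => ?_⟩, ?_⟩
    · by_cases hj : j = j0
      · rw [hj, Function.update_self]
        exact h1
      · rw [Function.update_of_ne hj]
        exact hW j hj
    · by_cases ha : a = j0
      · subst ha
        rw [Function.update_self, Function.update_of_ne (Ne.symm hab)]
        exact h2 b
      · by_cases hb : b = j0
        · subst hb
          rw [Function.update_self, Function.update_of_ne ha]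
          exact (h2 a).symm
        · rw [Function.update_of_ne ha, Function.update_of_ne hb]
          exact hd a b hab
    · rw [Function.update_idem, ← h0, Function.update_eq_self]
  · intro f hf
    rw [Finset.mem_filter] at hf
    rw [← hf.2, Function.update_idem, Function.update_eq_self]
  · intro q _
    rw [Function.update_self]
  · intro f hf
    rw [Finset.mem_filter] at hf
    rw [← hf.2, Function.update_idem, Function.update_eq_self]

private theorem reg_inner {K : Type} [Field K] [NumberField K] (B' : Finset (Pl K)) (X lam : ℝ) (hX : 1 ≤ X)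
    (hlam : 1 ≤ lam) (g : Pl K → ℂ) (E δ : ℝ) (hE : 0 ≤ E) (hδ : 0 < δ)
    (H : ∀ M : ℝ, 1 ≤ M → ‖∑ s ∈ AF K M, ∏ v ∈ s, Cut B' g v‖ ≤ E * M ^ (1 - δ)) :
    ‖∑ q ∈ (AF K (lam * X)).filter (fun q => X < nr q ∧ Disjoint q B'), ∏ v ∈ q, g v‖ ≤
      2 * lam * E * X ^ (1 - δ) := by
  have hX0 : 0 < X := by linarith
  have hlam0 : 0 < lam := by linarith
  have hlX : X ≤ lam * X := le_mul_of_one_le_left hX0.le hlam
  have h1 : ∑ q ∈ (AF K (lam * X)).filter (fun q => X < nr q ∧ Disjoint q B'), ∏ v ∈ q, g v =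
      ∑ q ∈ (AF K (lam * X)).filter (fun q => X < nr q), ∏ v ∈ q, Cut B' g v := by
    rw [← Finset.filter_filter, Finset.sum_filter]
    refine Finset.sum_congr rfl fun q _ => ?_
    by_cases hq : Disjoint q B'
    · rw [if_pos hq]
      refine Finset.prod_congr rfl fun v hv => ?_
      unfold Cut
      rw [if_neg (Finset.disjoint_left.1 hq hv)]
    · rw [if_neg hq]
      rw [Finset.not_disjoint_iff] at hq
      obtain ⟨v, hv1, hv2⟩ := hq
      refine (Finset.prod_eq_zero hv1 ?_).symm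
      unfold Cut
      rw [if_pos hv2]
  have h2 := Finset.sum_filter_add_sum_filter_not (AF K (lam * X)) (fun q => X < nr q)
    (fun q => ∏ v ∈ q, Cut B' g v)
  have h3 : (AF K (lam * X)).filter (fun q => ¬ X < nr q) = AF K X := by
    ext q
    rw [Finset.mem_filter, mem_AF, mem_AF, not_lt]
    exact ⟨fun h => h.2, fun h => ⟨h.trans hlX, h⟩⟩
  rw [h3] at h2
  have h4 : ∑ q ∈ (AF K (lam * X)).filter (fun q => X < nr q), ∏ v ∈ q, Cut B' g v =
      ∑ q ∈ AF K (lam * X), ∏ v ∈ q, Cut B' g v - ∑ q ∈ AF K X, ∏ v ∈ q, Cut B' g v := by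
    rw [← h2]; ring
  rw [h1, h4]
  have h5 := H (lam * X) (hX.trans hlX)
  have h6 := H X hX
  have hp : 0 ≤ X ^ (1 - δ) := Real.rpow_nonneg hX0.le _
  have h7 : (lam * X) ^ (1 - δ) ≤ lam * X ^ (1 - δ) := by
    rw [Real.mul_rpow hlam0.le hX0.le]
    refine mul_le_mul_of_nonneg_right ?_ hp
    have := Real.rpow_le_rpow_of_exponent_le hlam (show 1 - δ ≤ 1 by linarith)
    rwa [Real.rpow_one] at this
  have h8 : X ^ (1 - δ) ≤ lam * X ^ (1 - δ) := le_mul_of_one_le_left hp hlam
  refine (norm_sub_le _ _).trans ?_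
  have h9 := mul_le_mul_of_nonneg_left h7 hE
  have h10 := mul_le_mul_of_nonneg_left h8 hE
  linarith

theorem reg (K : Type) [Field K] [NumberField K] (J : Type) [Fintype J] (G C₀ lam ε : ℝ)
    (hC₀ : 1 ≤ C₀) (hlam : 1 ≤ lam) (hε : 0 < ε) : ∃ C : ℝ, 1 ≤ C ∧
      ∀ g : J → Pl K → ℂ, (∀ j v, ‖g j v‖ ≤ G) → ∀ (B : Finset (Pl K)) (D' δ : ℝ) (j0 : J),
        0 ≤ D' → 0 < δ → δ ≤ 1 / 4 →
        (∀ B' : Finset (Pl K), B ⊆ B' → ∀ M : ℝ, 1 ≤ M →
          ‖∑ s ∈ AF K M, ∏ v ∈ s, Cut B' (g j0) v‖ ≤ D' * C₀ ^ B'.card * M ^ (1 - δ)) →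
        ∀ X : J → ℝ, (∀ j, 1 ≤ X j) →
          ‖∑ f ∈ Bx B X lam, ∏ j, ∏ v ∈ f j, g j v‖ ≤
            C * D' * C₀ ^ B.card * (∏ j, X j) ^ (1 + ε) * X j0 ^ (-δ) := by
  obtain ⟨H, hHd⟩ : ∃ H : ℝ, H = max G 1 * C₀ := ⟨_, rfl⟩
  have hG1 : 1 ≤ max G 1 := le_max_right _ _
  have hH : 1 ≤ H := by rw [hHd]; exact one_le_mul_of_one_le_of_one_le hG1 hC₀
  obtain ⟨C1, hC1, -, hC1s⟩ := hsb K H ε hH hε
  obtain ⟨E, hEd⟩ : ∃ E : ℝ, E = C1 * lam ^ (1 + ε) := ⟨_, rfl⟩
  have hlam0 : 0 < lam := by linarith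
  have hE1 : 1 ≤ E := by
    rw [hEd]
    exact one_le_mul_of_one_le_of_one_le hC1 (Real.one_le_rpow hlam (by linarith))
  refine ⟨2 * lam * E ^ Fintype.card J, ?_, ?_⟩
  · have h1 : 1 ≤ E ^ Fintype.card J := one_le_pow₀ hE1
    have h2 : 1 ≤ 2 * lam := by linarith
    exact one_le_mul_of_one_le_of_one_le h2 h1
  intro g hg B D' δ j0 hD' hδ hδ1 hyp X hX
  have hX0 : ∀ j, 0 < X j := fun j => by linarith [hX j]
  rw [reg_split B X lam j0]
  obtain ⟨R, hRd⟩ : ∃ R, R = (Fintype.piFinset fun j => if j = j0 then ({∅} : Finset (Finset (Pl K))) else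
    Win B (X j) lam).filter (fun f => ∀ i j, i ≠ j → Disjoint (f i) (f j)) := ⟨_, rfl⟩
  rw [← hRd]
  obtain ⟨A, hAd⟩ : ∃ A : J → Finset (Finset (Pl K)), A = fun j => if j = j0 then {∅} else AF K (lam * X j) := ⟨_, rfl⟩
  have hRA : R ⊆ Fintype.piFinset A := by
    intro f hf
    rw [hRd, reg_memR] at hf
    rw [Fintype.mem_piFinset]
    intro j
    rw [hAd]
    by_cases hj : j = j0
    · simp only [if_pos hj, Finset.mem_singleton]
      rw [hj]
      exact hf.1.1
    · simp only [if_neg hj]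
      have h1 := hf.1.2 j hj
      unfold Win at h1
      exact (Finset.mem_filter.1 h1).1
  have hone : ∀ f' ∈ R, ‖∑ q ∈ (Win B (X j0) lam).filter (fun q => ∀ i, Disjoint q (f' i)),
      ∏ j, ∏ v ∈ Function.update f' j0 q j, g j v‖ ≤
        2 * lam * (D' * C₀ ^ B.card) * X j0 ^ (1 - δ) * ∏ j, H ^ (f' j).card := by
    intro f' hf'
    rw [hRd, reg_memR] at hf'
    obtain ⟨⟨h0, hW⟩, hd⟩ := hf'
    obtain ⟨B', hB'd⟩ : ∃ B' : Finset (Pl K), B' = B ∪ Finset.univ.biUnion f' := ⟨_, rfl⟩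
    have hBB : B ⊆ B' := by rw [hB'd]; exact Finset.subset_union_left
    have hset : (Win B (X j0) lam).filter (fun q => ∀ i, Disjoint q (f' i)) =
        (AF K (lam * X j0)).filter (fun q => X j0 < nr q ∧ Disjoint q B') := by
      unfold Win
      rw [Finset.filter_filter]
      refine Finset.filter_congr fun q _ => ?_
      rw [hB'd, Finset.disjoint_union_right, Finset.disjoint_biUnion_right]
      constructor
      · rintro ⟨⟨h1, h2⟩, h3⟩
        exact ⟨h1, h2, fun i _ => h3 i⟩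
      · rintro ⟨h1, h2, h3⟩
        exact ⟨⟨h1, h2⟩, fun i => h3 i (Finset.mem_univ _)⟩
    obtain ⟨P, hPd⟩ : ∃ P : ℂ, P = ∏ j ∈ Finset.univ.erase j0, ∏ v ∈ f' j, g j v := ⟨_, rfl⟩
    have hval : ∀ q, ∏ j, ∏ v ∈ Function.update f' j0 q j, g j v = (∏ v ∈ q, g j0 v) * P := by
      intro q
      rw [← Finset.mul_prod_erase Finset.univ _ (Finset.mem_univ j0), Function.update_self, hPd]
      congr 1
      refine Finset.prod_congr rfl fun j hj => ?_
      rw [Function.update_of_ne (Finset.ne_of_mem_erase hj)]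
    simp only [hval]
    rw [← Finset.sum_mul, norm_mul, hset]
    have hin := reg_inner B' (X j0) lam (hX j0) hlam (g j0) (D' * C₀ ^ B'.card) δ (by positivity) hδ
      (hyp B' hBB)
    have hP : ‖P‖ ≤ ∏ j, (max G 1) ^ (f' j).card := by
      rw [hPd, norm_prod]
      have h1 : ∏ j ∈ Finset.univ.erase j0, ‖∏ v ∈ f' j, g j v‖ ≤
          ∏ j ∈ Finset.univ.erase j0, (max G 1) ^ (f' j).card := by
        refine Finset.prod_le_prod (fun j _ => norm_nonneg _) fun j _ => ?_
        rw [norm_prod, ← Finset.prod_const]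
        exact Finset.prod_le_prod (fun v _ => norm_nonneg _) fun v _ => (hg j v).trans (le_max_left _ _)
      refine h1.trans ?_
      rw [← Finset.mul_prod_erase Finset.univ (fun j => (max G 1) ^ (f' j).card) (Finset.mem_univ j0)]
      exact le_mul_of_one_le_left (Finset.prod_nonneg fun j _ => by positivity) (one_le_pow₀ hG1)
    have hcard : C₀ ^ B'.card ≤ C₀ ^ B.card * ∏ j, C₀ ^ (f' j).card := by
      rw [Finset.prod_pow_eq_pow_sum, ← pow_add]
      refine pow_le_pow_right₀ hC₀ ?_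
      rw [hB'd]
      exact (Finset.card_union_le _ _).trans (Nat.add_le_add_left Finset.card_biUnion_le _)
    have hXp : 0 ≤ X j0 ^ (1 - δ) := Real.rpow_nonneg (hX0 j0).le _
    have hG0 : 0 ≤ ∏ j, (max G 1) ^ (f' j).card := Finset.prod_nonneg fun j _ => by positivity
    calc _ ≤ 2 * lam * (D' * C₀ ^ B'.card) * X j0 ^ (1 - δ) * ∏ j, (max G 1) ^ (f' j).card :=
          mul_le_mul hin hP (norm_nonneg _) (by positivity)
      _ ≤ 2 * lam * (D' * (C₀ ^ B.card * ∏ j, C₀ ^ (f' j).card)) * X j0 ^ (1 - δ) *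
            ∏ j, (max G 1) ^ (f' j).card := by
          refine mul_le_mul_of_nonneg_right (mul_le_mul_of_nonneg_right ?_ hXp) hG0
          exact mul_le_mul_of_nonneg_left (mul_le_mul_of_nonneg_left hcard hD') (by linarith)
      _ = _ := by
          have h2 : ∏ j, H ^ (f' j).card = (∏ j, (max G 1) ^ (f' j).card) * ∏ j, C₀ ^ (f' j).card := by
            rw [← Finset.prod_mul_distrib]
            refine Finset.prod_congr rfl fun j _ => ?_
            rw [hHd, mul_pow]
          rw [h2]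
          ring
  obtain ⟨b, hbd⟩ : ∃ b : J → ℝ, b = fun j => if j = j0 then 1 else X j ^ (1 + ε) := ⟨_, rfl⟩
  have hAj : ∀ j, ∑ s ∈ A j, H ^ s.card ≤ E * b j := by
    intro j
    rw [hAd, hbd]
    by_cases hj : j = j0
    · simp only [if_pos hj, Finset.sum_singleton, Finset.card_empty, pow_zero, mul_one]
      exact hE1
    · simp only [if_neg hj]
      refine (hC1s (lam * X j) ((hX j).trans (le_mul_of_one_le_left (hX0 j).le hlam))).trans (le_of_eq ?_)
      rw [Real.mul_rpow hlam0.le (hX0 j).le, hEd]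
      ring
  have hsumR : ∑ f' ∈ R, ∏ j, H ^ (f' j).card ≤ E ^ Fintype.card J * ∏ j, b j := by
    calc ∑ f' ∈ R, ∏ j, H ^ (f' j).card ≤ ∑ f' ∈ Fintype.piFinset A, ∏ j, H ^ (f' j).card :=
          Finset.sum_le_sum_of_subset_of_nonneg hRA fun f _ _ => Finset.prod_nonneg fun j _ => by positivity
      _ = ∏ j, ∑ s ∈ A j, H ^ s.card := (Finset.prod_univ_sum A fun _ s => H ^ s.card).symm
      _ ≤ ∏ j, E * b j :=
          Finset.prod_le_prod (fun j _ => Finset.sum_nonneg fun s _ => by positivity) fun j _ => hAj j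
      _ = _ := by rw [Finset.prod_mul_distrib, Finset.prod_const, Finset.card_univ]
  have hfinal : X j0 ^ (1 - δ) * ∏ j, b j ≤ (∏ j, X j) ^ (1 + ε) * X j0 ^ (-δ) := by
    rw [← Real.finsetProd_rpow Finset.univ X (fun j _ => (hX0 j).le) (1 + ε),
      ← Finset.mul_prod_erase Finset.univ b (Finset.mem_univ j0),
      ← Finset.mul_prod_erase Finset.univ (fun j => X j ^ (1 + ε)) (Finset.mem_univ j0)]
    have h1 : ∏ j ∈ Finset.univ.erase j0, b j = ∏ j ∈ Finset.univ.erase j0, X j ^ (1 + ε) := by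
      refine Finset.prod_congr rfl fun j hj => ?_
      rw [hbd]
      simp only [if_neg (Finset.ne_of_mem_erase hj)]
    have h2 : b j0 = 1 := by rw [hbd]; simp
    rw [h1, h2, one_mul]
    have h3 : X j0 ^ (1 - δ) ≤ X j0 ^ (1 + ε) * X j0 ^ (-δ) := by
      rw [← Real.rpow_add (hX0 j0)]
      exact Real.rpow_le_rpow_of_exponent_le (hX j0) (by linarith)
    have h4 : 0 ≤ ∏ j ∈ Finset.univ.erase j0, X j ^ (1 + ε) :=
      Finset.prod_nonneg fun j _ => Real.rpow_nonneg (hX0 j).le _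
    calc X j0 ^ (1 - δ) * ∏ j ∈ Finset.univ.erase j0, X j ^ (1 + ε)
        ≤ X j0 ^ (1 + ε) * X j0 ^ (-δ) * ∏ j ∈ Finset.univ.erase j0, X j ^ (1 + ε) :=
          mul_le_mul_of_nonneg_right h3 h4
      _ = _ := by ring
  have hXp : 0 ≤ X j0 ^ (1 - δ) := Real.rpow_nonneg (hX0 j0).le _
  calc _ ≤ ∑ f' ∈ R, 2 * lam * (D' * C₀ ^ B.card) * X j0 ^ (1 - δ) * ∏ j, H ^ (f' j).card :=
        norm_sum_le_of_le _ hone
    _ = 2 * lam * (D' * C₀ ^ B.card) * X j0 ^ (1 - δ) * ∑ f' ∈ R, ∏ j, H ^ (f' j).card := by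
        rw [Finset.mul_sum]
    _ ≤ 2 * lam * (D' * C₀ ^ B.card) * X j0 ^ (1 - δ) * (E ^ Fintype.card J * ∏ j, b j) :=
        mul_le_mul_of_nonneg_left hsumR (by positivity)
    _ = 2 * lam * (D' * C₀ ^ B.card) * E ^ Fintype.card J * (X j0 ^ (1 - δ) * ∏ j, b j) := by ring
    _ ≤ 2 * lam * (D' * C₀ ^ B.card) * E ^ Fintype.card J * ((∏ j, X j) ^ (1 + ε) * X j0 ^ (-δ)) :=
        mul_le_mul_of_nonneg_left hfinal (by positivity)
    _ = _ := by ring

end H12.KF
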