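import Pool.Agent.H12.KF.FbT
import Pool.Agent.H12.KF.Ch2
import Pool.Agent.H12.KF.Cnt
import Pool.Agent.H12.KF.Cyc
import Pool.Agent.H12.KF.Cln
import Pool.Agent.H12.KF.Reg

/-!
# [H12 KF FIN] THE FIBRE COUNT IN A BOX (assembly), 130-190 lines

Bases `b l` from `exists_bs`; `F`, `act` from `exists_act` (`H51/SN/Plc.lean`), `acts_ktriv`; `NumberField F`. `fibT`: `H₀`, `N = Nat.card (Lab ⧸ H₀) ≤ (#Cl (∏_{S'} nm v) ^ #Q) ^ ∑ d l ≤ C (nr D) ^ A` (`cln` with `TC F (n #Q)`: `tc_up`, `dsc`; `[F : K] = #Q`), `M₀ = (m ^ (#S' #Q)) ^ ∑ d l` a constant.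
`Err`: for a nontrivial `χ` `ch2` with `L = {s | ∃ a j, s = a • x j}` gives `a • x j0 ∈ L`; `gx χ (a • x j0) = gx χ (x j0)` (the same orbit: `fo` is equal); `reg` with `B = S0 ∪ D`, `D' = C nr D ^ A`, `C₀ = C`, `G = #Q` (`‖gx‖ ≤ #Q`), `ε` small: `C' C nr D ^ A C ^ #(S0 ∪ D) (∏ X) ^ (1 + ε) X j0 ^ (-δ)`;
`C ^ #D ≤ (nr D) ^ A'` (`2 ≤ nm v`), `(∏ X) ^ ε ≤ Z ^ (#J b ε)`, `X j0 ^ (-δ) ≤ Z ^ (-a δ)`: choose `ε` with `#J b ε ≤ a δ / 2`: `Err ≤ C'' (nr D) ^ A'' (∏ X) Z ^ (-a δ / 2)`. `cnt`, then `cyc` for each `κ` (injective: `κ` is determined by its cocycle: equal on `ker φ`, `0` outside: `out`). If `J` is empty then `T = 0` (`closure ∅ = ⊤`) and all characters are trivial.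
Last clauses: `v ∉ S0, D, f`: `t v = 0`, the inertia group is in `ker φ`: `κ' τ = κ τ = 0`; `v ∈ f j`: `v ∉ S0 ∪ D`, `TypT.tame` with `l = addOrderOf (x j)`; `v ∈ D`, `v ∉ S0`: `v` is in no `f j`, `t v = 0`, `cyc`. At `S'`: `φ` is trivial on the decomposition group.
-/

set_option autoImplicit false

open scoped NumberField
open IsDedekindDomain H38.ML
open scoped Classical

noncomputable section

namespace H12.KF

open H63.MA H51.SN H67.AQ H36.QA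

private theorem fin_fo {K : IntermediateField ℚ QBar} [NumberField K] {Q : Type} [Group Q]
    {T : Type} [AddCommGroup T] [Finite T] [DistribMulAction Q T] (φ : Gal(QBar/K) →* Q)
    (P : DP K QBar) (x : T) (a : Q) (v : Pl K) : fo φ P (a • x) v = fo φ P x v := by
  unfold fo
  ext s
  rw [Set.Finite.mem_toFinset, Set.Finite.mem_toFinset, Set.mem_ofPred_eq, Set.mem_ofPred_eq]
  refine and_congr ?_ Iff.rfl
  constructor
  · rintro ⟨c, rfl⟩
    exact ⟨c * a, (mul_smul c a x).symm⟩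
  · rintro ⟨c, rfl⟩
    refine ⟨c * a⁻¹, ?_⟩
    rw [← mul_smul, inv_mul_cancel_right]

private theorem fin_gx {K : IntermediateField ℚ QBar} [NumberField K] {Q : Type} [Group Q]
    {T : Type} [AddCommGroup T] [Finite T] [DistribMulAction Q T] {φ : Gal(QBar/K) →* Q}
    {P : DP K QBar} {S0 : Finset (Pl K)} (χ : AddChar (Lab φ P S0 T) ℂ) (x : T) (a : Q) :
    gx χ (a • x) = gx χ x := by
  funext v
  unfold gx
  rw [fin_fo]

private theorem fin_gx_le {K : IntermediateField ℚ QBar} [NumberField K] {Q : Type} [Group Q]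
    [Fintype Q] {T : Type} [AddCommGroup T] [Finite T] [DistribMulAction Q T] {m : ℕ} (hm : m ≠ 0)
    (hmT : ∀ x : T, m • x = 0) {φ : Gal(QBar/K) →* Q}
    {P : DP K QBar} {S0 : Finset (Pl K)} (χ : AddChar (Lab φ P S0 T) ℂ) (x : T) (v : Pl K) :
    ‖gx χ x v‖ ≤ (Nat.card Q : ℝ) := by
  have h1 : ∀ t : Lab φ P S0 T, ‖χ t‖ = 1 := by
    intro t
    have h2 : m • t = 0 := by
      apply Subtype.ext
      ext v
      exact hmT _
    have h3 := AddChar.map_nsmul_eq_pow χ m t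
    rw [h2, AddChar.map_zero_eq_one] at h3
    exact Complex.norm_eq_one_of_pow_eq_one h3.symm hm
  have h2 : (fo φ P x v).card ≤ Nat.card Q := by
    have h3 : fo φ P x v ⊆ (Finset.univ : Finset Q).image fun a => a • x := by
      intro s hs
      unfold fo at hs
      rw [Set.Finite.mem_toFinset] at hs
      obtain ⟨⟨a, rfl⟩, -⟩ := hs
      exact Finset.mem_image_of_mem _ (Finset.mem_univ a)
    refine (Finset.card_le_card h3).trans (Finset.card_image_le.trans ?_)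
    rw [Finset.card_univ, Nat.card_eq_fintype_card]
  unfold gx
  calc ‖∑ s ∈ fo φ P x v, χ (sgl φ P S0 s v)‖ ≤ ∑ s ∈ fo φ P x v, (1 : ℝ) :=
        norm_sum_le_of_le _ fun s _ => (h1 _).le
    _ = ((fo φ P x v).card : ℝ) := by rw [Finset.sum_const, nsmul_eq_mul, mul_one]
    _ ≤ (Nat.card Q : ℝ) := by exact_mod_cast h2

private theorem fin_pow {K : Type} [Field K] [NumberField K] (C : ℝ) (hC : 1 ≤ C) :
    ∃ A : ℕ, ∀ D : Finset (Pl K), C ^ D.card ≤ nr D ^ A := by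
  obtain ⟨A, hA⟩ := pow_unbounded_of_one_lt C (one_lt_two : (1 : ℝ) < 2)
  refine ⟨A, fun D => ?_⟩
  calc C ^ D.card ≤ ((2 : ℝ) ^ A) ^ D.card := pow_le_pow_left₀ (by linarith) hA.le _
    _ = ((2 : ℝ) ^ D.card) ^ A := by rw [← pow_mul, ← pow_mul, mul_comm]
    _ ≤ nr D ^ A := pow_le_pow_left₀ (by positivity) (two_pow_le_nr D) _

private theorem fin_num {J : Type} [Fintype J] (a b δ Z : ℝ) (X : J → ℝ) (ha : 0 < a)
    (hab : a ≤ b) (hδ : 0 < δ) (hZ : 1 ≤ Z) (hX : ∀ j, Z ^ a ≤ X j ∧ X j ≤ Z ^ b) (j0 : J) :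
    (∏ j, X j) ^ (1 + a * δ / (2 * ((Fintype.card J : ℝ) * b + 1))) * X j0 ^ (-δ) ≤
      (∏ j, X j) * Z ^ (-(a * δ / 2)) := by
  have hZ0 : 0 < Z := by linarith
  have hb : 0 < b := by linarith
  have hX0 : ∀ j, 0 < X j := fun j => (Real.rpow_pos_of_pos hZ0 a).trans_le (hX j).1
  have hP0 : 0 < ∏ j, X j := Finset.prod_pos fun j _ => hX0 j
  obtain ⟨ε, hε⟩ : ∃ ε : ℝ, ε = a * δ / (2 * ((Fintype.card J : ℝ) * b + 1)) := ⟨_, rfl⟩
  have hk : (0 : ℝ) < (Fintype.card J : ℝ) * b + 1 := by positivity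
  have hε0 : 0 < ε := by
    rw [hε]
    positivity
  rw [← hε]
  have h1 : (∏ j, X j) ≤ Z ^ (b * (Fintype.card J : ℝ)) := by
    calc (∏ j, X j) ≤ ∏ _j : J, Z ^ b := Finset.prod_le_prod (fun j _ => (hX0 j).le) fun j _ => (hX j).2
      _ = (Z ^ b) ^ Fintype.card J := by rw [Finset.prod_const, Finset.card_univ]
      _ = Z ^ (b * (Fintype.card J : ℝ)) := by rw [Real.rpow_mul hZ0.le, Real.rpow_natCast]
  have h2 : (∏ j, X j) ^ ε ≤ Z ^ (b * (Fintype.card J : ℝ) * ε) := by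
    rw [Real.rpow_mul hZ0.le]
    exact Real.rpow_le_rpow hP0.le h1 hε0.le
  have h3 : X j0 ^ (-δ) ≤ Z ^ (a * (-δ)) := by
    rw [Real.rpow_mul hZ0.le]
    exact Real.rpow_le_rpow_of_nonpos (Real.rpow_pos_of_pos hZ0 a) (hX j0).1 (by linarith)
  have h4 : b * (Fintype.card J : ℝ) * ε + a * (-δ) ≤ -(a * δ / 2) := by
    have h5 : b * (Fintype.card J : ℝ) * ε ≤ a * δ / 2 := by
      rw [hε, ← mul_div_assoc, div_le_iff₀ (by positivity)]
      have h6 : 0 < a * δ := by positivity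
      nlinarith
    linarith
  rw [Real.rpow_add hP0, Real.rpow_one, mul_assoc]
  refine mul_le_mul_of_nonneg_left ?_ hP0.le
  calc (∏ j, X j) ^ ε * X j0 ^ (-δ) ≤ Z ^ (b * (Fintype.card J : ℝ) * ε) * Z ^ (a * (-δ)) :=
        mul_le_mul h2 h3 (Real.rpow_nonneg (hX0 j0).le _) (Real.rpow_nonneg hZ0.le _)
    _ = Z ^ (b * (Fintype.card J : ℝ) * ε + a * (-δ)) := (Real.rpow_add hZ0 _ _).symm
    _ ≤ Z ^ (-(a * δ / 2)) := Real.rpow_le_rpow_of_exponent_le hZ h4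

theorem fibre_box {K : IntermediateField ℚ QBar} [NumberField K] {n : ℕ} (hK : TC K n) (Q : Type)
    [Group Q] [Fintype Q] (T : Type) [AddCommGroup T] [Finite T] [DistribMulAction Q T] {m : ℕ}
    (hm : Squarefree m) (hmT : ∀ x : T, m • x = 0) (hmQ : Nat.Coprime m (Nat.card Q)) (ζ : ℕ → K)
    (hζ : ∀ l : ℕ, l.Prime → l ∣ m → IsPrimitiveRoot (ζ l) l) (J : Type) [Fintype J] (x : J → T)
    (hx : ∀ j, (addOrderOf (x j)).Prime) (huni : ∀ i j (a : Q), x i = a • x j → i = j)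
    (hgen : AddSubgroup.closure {s : T | ∃ (j : J) (a : Q), s = a • x j} = ⊤)
    (P : DP K QBar) (S0 S' : Finset (Pl K)) (hS' : S' ⊆ S0)
    (hS0 : ∀ l : ℕ, l.Prime → l ∣ m → ∀ v, Above l v → v ∈ S0)
    (hl' : ∀ l : ℕ, l.Prime → l ∣ m → ∀ v ∈ S', ¬ Above l v) (lam a b : ℝ) (hlam : 1 ≤ lam)
    (ha : 0 < a) (hab : a ≤ b) :
    ∃ c C δ : ℝ, 0 < c ∧ 1 ≤ C ∧ 0 < δ ∧ ∃ A : ℕ,
      ∀ φ : Gal(QBar/K) →* Q, FT φ → Function.Surjective φ →
        (∀ v ∈ S', ∀ σ ∈ dec (K := K) (P.P v), φ σ = 1) → ∀ D : Finset (Pl K),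
        (∀ v, v ∉ S0 → v ∉ D → ∀ τ ∈ (P.P v).inertia Gal(QBar/K), φ τ = 1) →
        ∀ (Z : ℝ) (X : J → ℝ), 1 ≤ Z → (∀ j, Z ^ a ≤ X j ∧ X j ≤ Z ^ b) →
          ∃ Xs : Finset (Gal(QBar/K) → T),
            c * (∑ f ∈ Bx (S0 ∪ D) X lam, ∏ j, ∏ v ∈ f j, ((fo φ P (x j) v).card : ℝ) -
              C * nr D ^ A * (∏ j, X j) * Z ^ (-δ)) ≤ Xs.card ∧
            ∀ κ ∈ Xs, (∀ σ τ, κ (σ * τ) = κ σ + φ σ • κ τ) ∧
              (∃ E : IntermediateField K QBar, FiniteDimensional K E ∧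
                ∀ σ ∈ E.fixingSubgroup, φ σ = 1 ∧ κ σ = 0) ∧
              (∀ v ∈ S', ∀ σ ∈ dec (K := K) (P.P v), κ σ = 0) ∧
              ∃ f ∈ Bx (S0 ∪ D) X lam,
                (∀ v, v ∉ S0 → v ∉ D → (∀ j, v ∉ f j) →
                  ∀ τ ∈ (P.P v).inertia Gal(QBar/K), κ τ = 0) ∧
                (∀ v, v ∉ S0 → v ∈ D → ∃ t : T,
                  ∀ τ ∈ (P.P v).inertia Gal(QBar/K), κ τ = φ τ • t - t) ∧
                ∀ j, ∀ v ∈ f j, ∃ g : Q, ∀ π : Kˣ, ord v π = 1 →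
                  ∀ τ ∈ (P.P v).inertia Gal(QBar/K),
                    κ τ = (kq (addOrderOf (x j)) (ζ (addOrderOf (x j)))
                      (algebraMap K QBar (π : K)) τ).val • (g • x j) := by
  have hm0 : m ≠ 0 := hm.ne_zero
  have hbs : ∀ l : m.primeFactors, ∃ d : ℕ, Nonempty (Bs (l : ℕ) (Vp T (l : ℕ)) (Fin d)) :=
    fun l => exists_bs (Nat.prime_of_mem_primeFactors l.2) (Vp T (l : ℕ)) fun x => Subtype.ext x.2
  choose d hd using hbs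
  have bb : ∀ l : m.primeFactors, Bs (l : ℕ) (Vp T (l : ℕ)) (Fin (d l)) := fun l => (hd l).some
  obtain ⟨C, hC, A, δ, hδ, hδ4, hch⟩ := ch2 hK Q T hm hmT hmQ d bb P S0 S' hS'
  obtain ⟨Cd, hCd, hdsc⟩ := dsc K (Nat.card Q) P S0
  obtain ⟨Cc, hCc, Ac, hcln⟩ := cln (n * Nat.card Q)
  obtain ⟨A', hA'⟩ := fin_pow (K := K) C hC
  have hb : 0 < b := by linarith
  obtain ⟨ε, hε⟩ : ∃ ε : ℝ, ε = a * δ / (2 * ((Fintype.card J : ℝ) * b + 1)) := ⟨_, rfl⟩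
  have hε0 : 0 < ε := by
    rw [hε]
    positivity
  obtain ⟨Cr, hCr, hreg⟩ := reg K J (Nat.card Q) C lam ε hC hlam hε0
  obtain ⟨w, hw⟩ : ∃ w : ℝ, w = ∏ v ∈ S', (nm v : ℝ) := ⟨_, rfl⟩
  have hw1 : 1 ≤ w := by
    rw [hw]
    exact one_le_nr S'
  obtain ⟨s, hsd⟩ : ∃ s : ℕ, s = ∑ l, d l := ⟨_, rfl⟩
  obtain ⟨W, hW⟩ : ∃ W : ℝ, W = (Cc * Cd ^ Ac * w ^ Nat.card Q) ^ s := ⟨_, rfl⟩
  have hCd0 : 0 < Cd := by linarith
  have hCc0 : 0 < Cc := by linarith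
  have hC0 : 0 < C := by linarith
  have hCr0 : 0 < Cr := by linarith
  have hw0 : 0 < w := by linarith
  have hW1 : 1 ≤ W := by
    rw [hW]
    exact one_le_pow₀ (one_le_mul_of_one_le_of_one_le
      (one_le_mul_of_one_le_of_one_le hCc (one_le_pow₀ hCd)) (one_le_pow₀ hw1))
  obtain ⟨M₀, hM₀⟩ : ∃ M₀ : ℕ, M₀ = (m ^ (S'.card * Nat.card Q)) ^ s := ⟨_, rfl⟩
  have hM0 : 0 < M₀ := by
    rw [hM₀]
    positivity
  have hM0R : (0 : ℝ) < (M₀ : ℝ) := by exact_mod_cast hM0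
  refine ⟨1 / (M₀ : ℝ), W * (Cr * C * C ^ S0.card), a * δ / 2, by positivity, ?_, by positivity,
    Nat.card Q * Ac * s + A + A', ?_⟩
  · exact one_le_mul_of_one_le_of_one_le hW1 (one_le_mul_of_one_le_of_one_le
      (one_le_mul_of_one_le_of_one_le hCr hC) (one_le_pow₀ hC))
  intro φ hφ hs hφS' D hD Z X hZ hX
  obtain ⟨F, act, H⟩ := exists_act φ hφ hs
  have hfd : FiniteDimensional K F := H.fin
  have hNF : NumberField F := NumberField.of_module_finite K F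
  have h : KTriv act := acts_ktriv hs H
  have hcl : IsAlgClosure K QBar := ⟨inferInstance, inferInstance⟩
  have hgal0 : IsGalois K QBar := IsAlgClosure.isGalois K QBar
  have hdeg : Module.finrank K F = Nat.card Q := by
    rw [IntermediateField.finrank_eq_fixingSubgroup_index, H.fix, Subgroup.index_ker,
      MonoidHom.range_eq_top.2 hs, Subgroup.card_top]
  have hTF : TC F (n * Nat.card Q) := H1.LS4.tc_up hK hdeg
  obtain ⟨H₀, hfin, hN, hray, hXs⟩ := fibT hm hmT hmQ hζ bb hφ hs h H P S0 S' hS0 hS' hl'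
  rw [hdeg, ← hsd] at hN
  -- the index
  have hZ0 : 0 < Z := by linarith
  have hX0 : ∀ j, 0 < X j := fun j => (Real.rpow_pos_of_pos hZ0 a).trans_le (hX j).1
  have hX1 : ∀ j, 1 ≤ X j := fun j => (Real.one_le_rpow hZ ha.le).trans (hX j).1
  have hP0 : 0 < ∏ j, X j := Finset.prod_pos fun j _ => hX0 j
  have hnD : 1 ≤ nr D := one_le_nr D
  have hnD0 : 0 < nr D := by linarith
  have hNR : (Nat.card (Lab φ P S0 T ⧸ H₀) : ℝ) ≤ W * nr D ^ (Nat.card Q * Ac * s) := by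
    have h1 : (Nat.card (Lab φ P S0 T ⧸ H₀) : ℝ) ≤
        ((Nat.card (ClassGroup (𝓞 F)) : ℝ) * w ^ Nat.card Q) ^ s := by
      rw [hw]
      exact_mod_cast hN
    have h2 : (Nat.card (ClassGroup (𝓞 F)) : ℝ) ≤ Cc * Cd ^ Ac * nr D ^ (Nat.card Q * Ac) := by
      calc (Nat.card (ClassGroup (𝓞 F)) : ℝ) ≤ Cc * dd F ^ Ac := hcln F hTF
        _ ≤ Cc * (Cd * nr D ^ Nat.card Q) ^ Ac := by
            refine mul_le_mul_of_nonneg_left (pow_le_pow_left₀ (dd_pos F).le ?_ _) hCc0.le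
            exact hdsc Q rfl φ hφ hs F act H D hD
        _ = Cc * Cd ^ Ac * nr D ^ (Nat.card Q * Ac) := by
            rw [mul_pow, ← pow_mul]
            ring
    calc (Nat.card (Lab φ P S0 T ⧸ H₀) : ℝ)
        ≤ ((Nat.card (ClassGroup (𝓞 F)) : ℝ) * w ^ Nat.card Q) ^ s := h1
      _ ≤ ((Cc * Cd ^ Ac * nr D ^ (Nat.card Q * Ac)) * w ^ Nat.card Q) ^ s := by
          refine pow_le_pow_left₀ (by positivity) ?_ _
          exact mul_le_mul_of_nonneg_right h2 (by positivity)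
      _ = W * nr D ^ (Nat.card Q * Ac * s) := by
          rw [hW, pow_mul (nr D) (Nat.card Q * Ac) s, ← mul_pow]
          congr 1
          ring
  -- the error
  obtain ⟨Err, hEd⟩ : ∃ Err : ℝ, Err = Cr * (C * nr D ^ A) * (C ^ S0.card * nr D ^ A') *
      ((∏ j, X j) * Z ^ (-(a * δ / 2))) := ⟨_, rfl⟩
  have hZp : 0 ≤ Z ^ (-(a * δ / 2)) := Real.rpow_nonneg hZ0.le _
  have hE0 : 0 ≤ Err := by
    rw [hEd]
    positivity
  have hErr : ∀ χ : AddChar (Lab φ P S0 T) ℂ, χ ≠ 1 → (∀ t ∈ H₀, χ t = 1) →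
      ‖∑ f ∈ Bx (S0 ∪ D) X lam, ∏ j, ∏ v ∈ f j, gx χ (x j) v‖ ≤ Err := by
    intro χ hχ hχ0
    obtain ⟨y, ⟨j0, q, rfl⟩, hy⟩ := hch φ hφ hs F act h H D hD H₀ hray χ hχ hχ0
      {s : T | ∃ (j : J) (a : Q), s = a • x j} hgen (by
        rintro _ ⟨j, q, rfl⟩
        have h1 : addOrderOf (q • x j) = addOrderOf (x j) :=
          addOrderOf_injective (DistribSMul.toAddMonoidHom T q) (MulAction.injective q) (x j)
        rw [h1]
        exact hx j)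
    have h1 := hreg (fun j => gx χ (x j)) (fun j v => fin_gx_le hm0 hmT χ (x j) v) (S0 ∪ D)
      (C * nr D ^ A) δ j0 (by positivity) hδ hδ4 (by
        intro B' hB' M hM
        have h2 := hy B' (Finset.union_subset_left hB') (Finset.union_subset_right hB') M hM
        rw [fin_gx] at h2
        refine h2.trans (le_of_eq ?_)
        ring) X hX1
    refine h1.trans ?_
    have h3 : C ^ (S0 ∪ D).card ≤ C ^ S0.card * nr D ^ A' := by
      calc C ^ (S0 ∪ D).card ≤ C ^ (S0.card + D.card) :=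
            pow_le_pow_right₀ hC (Finset.card_union_le _ _)
        _ = C ^ S0.card * C ^ D.card := pow_add _ _ _
        _ ≤ C ^ S0.card * nr D ^ A' := mul_le_mul_of_nonneg_left (hA' D) (by positivity)
    have h4 := fin_num a b δ Z X ha hab hδ hZ hX j0
    rw [← hε] at h4
    have h5 : 0 ≤ (∏ j, X j) ^ (1 + ε) * X j0 ^ (-δ) :=
      mul_nonneg (Real.rpow_nonneg hP0.le _) (Real.rpow_nonneg (hX0 j0).le _)
    rw [hEd, mul_assoc _ ((∏ j, X j) ^ (1 + ε))]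
    exact mul_le_mul (mul_le_mul_of_nonneg_left h3 (by positivity)) h4 h5 (by positivity)
  obtain ⟨Ys, hYs, hYk⟩ := cnt hmT hζ x hx huni P S0 S' D hS0 hD H₀ hfin M₀ (by
      intro t ht
      obtain ⟨Xs, h1, h2⟩ := hXs t ht
      rw [hdeg, ← hsd, ← hM₀] at h1
      exact ⟨Xs, h1, h2⟩) X lam Err hE0 hErr
  -- the cocycles
  have hcyc : ∀ κ : Gal(QBar/K) → T, ∃ κ' : Gal(QBar/K) → T, κ ∈ Ys →
      ((∀ σ τ, κ' (σ * τ) = κ' σ + φ σ • κ' τ) ∧ (∀ γ, φ γ = 1 → κ' γ = κ γ) ∧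
        (∃ E : IntermediateField K QBar, FiniteDimensional K E ∧
          ∀ σ ∈ E.fixingSubgroup, φ σ = 1 ∧ κ' σ = 0) ∧
        (∀ v ∈ S', ∀ σ ∈ dec (K := K) (P.P v), κ' σ = 0) ∧
        ∃ f ∈ Bx (S0 ∪ D) X lam,
          (∀ v, v ∉ S0 → v ∉ D → (∀ j, v ∉ f j) →
            ∀ τ ∈ (P.P v).inertia Gal(QBar/K), κ' τ = 0) ∧
          (∀ v, v ∉ S0 → v ∈ D → ∃ t : T,
            ∀ τ ∈ (P.P v).inertia Gal(QBar/K), κ' τ = φ τ • t - t) ∧
          ∀ j, ∀ v ∈ f j, ∃ g : Q, ∀ π : Kˣ, ord v π = 1 →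
            ∀ τ ∈ (P.P v).inertia Gal(QBar/K),
              κ' τ = (kq (addOrderOf (x j)) (ζ (addOrderOf (x j)))
                (algebraMap K QBar (π : K)) τ).val • (g • x j)) := by
    intro κ
    by_cases hκ : κ ∈ Ys
    swap
    · exact ⟨κ, fun h1 => absurd h1 hκ⟩
    obtain ⟨hκS, f, hf, t, hT, ht0, ht1⟩ := hYk κ hκ
    obtain ⟨κ', h1, h2, h3, h4⟩ := cyc hmT hmQ hφ hs P S0 hT
    have hfd : ∀ j, ∀ v ∈ f j, v ∉ S0 ∧ v ∉ D := by
      intro j v hv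
      unfold Bx at hf
      rw [Finset.mem_filter, Fintype.mem_piFinset] at hf
      have h5 := hf.1 j
      unfold Win at h5
      have h6 := Finset.disjoint_left.1 (Finset.mem_filter.1 h5).2.2 hv
      rw [Finset.mem_union, not_or] at h6
      exact h6
    refine ⟨κ', fun _ => ⟨h1, h2, h3, ?_, f, hf, ?_, ?_, ?_⟩⟩
    · intro v hv σ hσ
      have h5 := hφS' v hv σ hσ
      rw [h2 σ h5]
      exact hκS v hv σ hσ h5
    · intro v hv hvD hvf τ hτ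
      have h5 := hD v hv hvD τ hτ
      rw [h2 τ h5]
      exact hT.zero v hv (ht0 v hvf) τ hτ h5
    · intro v hv hvD
      exact h4 v hv (ht0 v fun j hj => (hfd j v hj).2 hvD)
    · intro j v hv
      obtain ⟨hv0, hvD⟩ := hfd j v hv
      obtain ⟨g, hg⟩ := ht1 j v hv
      refine ⟨g, fun π hπ τ hτ => ?_⟩
      have h5 := hD v hv0 hvD
      rw [h2 τ (h5 τ hτ), ← hg]
      refine hT.tame v hv0 h5 (addOrderOf (x j)) (hx j)
        (addOrderOf_dvd_of_nsmul_eq_zero (hmT (x j))) ?_ π hπ τ hτ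
      rw [hg]
      have h6 := map_nsmul (DistribSMul.toAddMonoidHom T g) (addOrderOf (x j)) (x j)
      rw [addOrderOf_nsmul_eq_zero, map_zero] at h6
      exact h6.symm
  choose kc hkc using hcyc
  refine ⟨Ys.image kc, ?_, ?_⟩
  · have hinj : Set.InjOn kc (Ys : Set (Gal(QBar/K) → T)) := by
      intro κ hκ κ₁ hκ₁ hk
      have hκ' : κ ∈ Ys := hκ
      have hκ₁' : κ₁ ∈ Ys := hκ₁
      funext γ
      obtain ⟨-, f, hf, t, hT, -, -⟩ := hYk κ hκ'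
      obtain ⟨-, f₁, hf₁, t₁, hT₁, -, -⟩ := hYk κ₁ hκ₁'
      by_cases hγ : φ γ = 1
      · rw [← (hkc κ hκ').2.1 γ hγ, ← (hkc κ₁ hκ₁').2.1 γ hγ, hk]
      · rw [hT.out γ hγ, hT₁.out γ hγ]
    rw [Finset.card_image_of_injOn hinj]
    rw [one_div, inv_mul_le_iff₀ hM0R]
    refine le_trans ?_ hYs
    refine sub_le_sub_left ?_ _
    have h1 : (Nat.card (Lab φ P S0 T ⧸ H₀) : ℝ) * Err ≤ W * nr D ^ (Nat.card Q * Ac * s) * Err :=
      mul_le_mul_of_nonneg_right hNR hE0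
    refine h1.trans (le_of_eq ?_)
    rw [hEd, pow_add, pow_add]
    ring
  · intro κ' hκ'
    rw [Finset.mem_image] at hκ'
    obtain ⟨κ, hκ, rfl⟩ := hκ'
    obtain ⟨h1, -, h3, h4, h5⟩ := hkc κ hκ
    exact ⟨h1, h3, h4, h5⟩

end H12.KF
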