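import Pool.Agent.H12.KF.Lab
import Pool.Agent.H51.SN.Unr
import Pool.Agent.H51.SN.Kum
import Pool.Agent.H51.SN.Nft
import Pool.Agent.H38.ML.EmbOrb
import Pool.Agent.H38.BG.DEmb

/-!
# [H12 KF KAP] the homomorphism `kap y` is typed with label `lb (dv y)`, 130-190 lines

As in `H51/SN/Kap.lean` (read it): there `kap` has one `y`. `γ` with `φ γ = 1` fixes `F` (`Acts.fix`), so `kq_mul`, `kq_conj`, `kq_ft` apply to the elements `a y_j` of `F`.
* `IsA`: `add`: `kq_mul`, `l • x = 0`; `eqv`: `kq (a y) (h γ h⁻¹) = kq ((φ h)⁻¹ a y) γ` (`kq_conj`, `Acts.act`), reindex `a`.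
* finite level: `kq_ft` for the finitely many `a y_j`, and `F`. `out`: definition.
* inertia, `v ∉ S0` (so `l ∉ v`), `w = wp F P v`, `τ ∈ inertia`, `φ τ = 1`: choose `π' ∈ Fˣ` with `ord w π' = 1`; `kq x τ = ord w x * kq π' τ` for `x ∈ Fˣ` (`unr` for `x π'^(-ord w x)`, `kq_arg`). So `kap y τ = (kq π' τ) • ∑ a j, ord w (a y_j) • (a • m j) = kq π' τ • lb (dv y) v`
  (`ord w (a x) = ord (a⁻¹ w) x`: `dv1_ex` or `ord_pm`). So it is `0` if `lb (dv y) v = 0`. If `φ` is trivial on the inertia group then `F/K` is unramified at `w`: `ord w (π : F) = 1` for `π : Kˣ` with `ord v π = 1`: one needs `kq` only: `π' = π` is allowed if `ord w π = 1`. (Unramified: grep in H51/SN, H57, H77 `ord_map`, `ram`, e = 1 from inertia trivial; if there is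
  no such lemma: the inertia group of `P.P v` maps onto the inertia group of `w` in `Q` which has order `e`, `Ideal.card_inertia_eq_ramificationIdxIn`.)
-/

set_option autoImplicit false

open scoped NumberField
open IsDedekindDomain H38.ML
open scoped Classical

noncomputable section

namespace H12.KF

open H63.MA H51.SN H67.AQ

variable {K : IntermediateField ℚ QBar} [NumberField K] {Q : Type} [Group Q] [Fintype Q]
  {F : IntermediateField K QBar} [NumberField F] {V : Type} [AddCommGroup V] [DistribMulAction Q V]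
  {ι : Type} [Fintype ι]

omit [NumberField K] in
private theorem unr_ac (E : IntermediateField K QBar) (g : E →ₐ[K] QBar) :
    ∃ σ : Gal(QBar/K), ∀ x : E, g x = σ (x : QBar) := by
  have hcl : IsAlgClosed QBar := inferInstance
  have halg : Algebra.IsAlgebraic K QBar := IsAlgClosure.isAlgebraic
  have hnorm : Normal K QBar := IsAlgClosure.normal K QBar
  refine ⟨AlgEquiv.ofBijective (g.liftNormal QBar) (Algebra.IsAlgebraic.algHom_bijective _), ?_⟩
  intro x
  exact (AlgHom.liftNormal_commutes g QBar x).symm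

omit [NumberField K] in
private theorem unr_orb (L : IntermediateField K QBar) [FiniteDimensional K L] (J : Subgroup Gal(QBar/K))
    (h : ∀ τ ∈ J, ∀ g : L →ₐ[K] QBar, ((τ : Gal(QBar/K)) : QBar →ₐ[K] QBar).comp g = g) :
    embOrb L J = Module.finrank K L := by
  have hcl : IsAlgClosed QBar := inferInstance
  have e1 : Nat.card (L →ₐ[K] QBar) = Module.finrank K L := by
    rw [Nat.card_eq_fintype_card, AlgHom.card K L QBar]
  unfold H38.ML.embOrb
  rw [← e1]
  refine Nat.card_congr ?_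
  refine ⟨Quot.lift id ?_, Quot.mk _, ?_, ?_⟩
  · rintro φ ψ ⟨τ, hτ, rfl⟩
    exact (h τ hτ φ).symm
  · intro x
    induction x using Quot.ind with
    | mk φ => rfl
  · intro φ
    rfl

/-- `F/K` is unramified at `v` if `φ` is trivial on the inertia group -/
theorem ord_unr {φ : Gal(QBar/K) →* Q} (hs : Function.Surjective φ) {act : Q →* (F ≃+* F)}
    (H : Acts F φ act) (P : DP K QBar) (v : Pl K)
    (hv : ∀ τ ∈ (P.P v).inertia Gal(QBar/K), φ τ = 1) (π : Kˣ) :
    ord (wp F P v) (Units.map (algebraMap K F : K →* F) π) = ord v π := by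
  have hfd : FiniteDimensional K F := H.fin
  have hm : v.asIdeal.IsMaximal := v.isMaximal
  have hp : v.asIdeal.IsPrime := v.isPrime
  have hfin : (v.asIdeal.primesOver (𝓞 F)).Finite := IsDedekindDomain.primesOver_finite v.asIdeal (𝓞 F)
  let _ : Fintype (v.asIdeal.primesOver (𝓞 F)) := hfin.fintype
  have h2 : Module.finrank (𝓞 K) (𝓞 F) = Module.finrank K F :=
    (IsFractionRing.finrank_eq (𝓞 K) K (𝓞 F) F).symm
  have h3 : ∑ R : v.asIdeal.primesOver (𝓞 F), R.1.ramificationIdx (𝓞 K) * R.1.inertiaDeg (𝓞 K) =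
      Module.finrank K F := by
    rw [← h2]
    exact Ideal.sum_ramification_inertia_eq_finrank v.asIdeal (𝓞 F)
  have he : ∀ R : v.asIdeal.primesOver (𝓞 F), 0 < R.1.ramificationIdx (𝓞 K) := by
    intro R
    have := R.2.1
    have := R.2.2
    exact Ideal.ramificationIdx_pos R.1 (𝓞 K)
  have hf : ∀ R : v.asIdeal.primesOver (𝓞 F), 0 < R.1.inertiaDeg (𝓞 K) := by
    intro R
    have := R.2.1
    have := R.2.2
    exact Ideal.inertiaDeg_pos R.1 (𝓞 K)
  have hs4 : embOrb F ((P.P v).inertia Gal(QBar/K)) = ∑ R : v.asIdeal.primesOver (𝓞 F), R.1.inertiaDeg (𝓞 K) :=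
    le_antisymm (H38.ML.embOrb_le F v.asIdeal v.isPrime v.ne_bot (P.P v) (P.prime v) (P.under v))
      (H38.BG.embOrb_ge F v.asIdeal v.isPrime v.ne_bot (P.P v) (P.prime v) (P.under v))
  have h4 : embOrb F ((P.P v).inertia Gal(QBar/K)) = Module.finrank K F := by
    refine unr_orb F _ ?_
    intro τ hτ g
    obtain ⟨σ, hσ⟩ := unr_ac F g
    ext x
    show τ (g x) = g x
    rw [hσ x]
    have h5 : φ (σ⁻¹ * τ * σ) = 1 := by
      rw [map_mul, map_mul, hv τ hτ, mul_one, ← map_mul, inv_mul_cancel, map_one]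
    have h6 : σ⁻¹ * τ * σ ∈ F.fixingSubgroup := by
      rw [H.fix]
      exact h5
    have h7 := (IntermediateField.mem_fixingSubgroup_iff F _).1 h6 (x : QBar) x.2
    have h8 : σ ((σ⁻¹ * τ * σ) (x : QBar)) = σ (x : QBar) := congrArg σ h7
    have h9 : σ ((σ⁻¹ * τ * σ) (x : QBar)) = τ (σ (x : QBar)) := by
      rw [← AlgEquiv.mul_apply, ← mul_assoc, ← mul_assoc, mul_inv_cancel, one_mul, AlgEquiv.mul_apply]
    rw [h9] at h8
    exact h8
  have hover : Over (wp F P v) v := by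
    unfold Over
    rw [← P.under v]
    exact Ideal.ext fun a => Iff.rfl
  have hlo : (wp F P v).asIdeal.LiesOver v.asIdeal := ⟨hover.symm⟩
  obtain ⟨R, hR⟩ : ∃ R : v.asIdeal.primesOver (𝓞 F), R.1 = (wp F P v).asIdeal :=
    ⟨⟨(wp F P v).asIdeal, (wp F P v).isPrime, hlo⟩, rfl⟩
  have h10 : R.1.ramificationIdx (𝓞 K) = 1 := by
    by_contra hne
    rw [hs4, ← h3] at h4
    have h5 : ∑ P : v.asIdeal.primesOver (𝓞 F), P.1.inertiaDeg (𝓞 K) <
        ∑ Q : v.asIdeal.primesOver (𝓞 F), Q.1.ramificationIdx (𝓞 K) * Q.1.inertiaDeg (𝓞 K) := by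
      refine Finset.sum_lt_sum (fun P _ => ?_) ⟨R, Finset.mem_univ _, ?_⟩
      · exact Nat.le_mul_of_pos_left _ (he P)
      · have h6 : 1 < R.1.ramificationIdx (𝓞 K) := by
          have := he R
          omega
        exact (Nat.lt_mul_iff_one_lt_left (hf R)).2 h6
    exact absurd h4 h5.ne
  have hb : v.asIdeal.map (algebraMap (𝓞 K) (𝓞 F)) ≠ ⊥ := Ideal.map_ne_bot_of_ne_bot v.ne_bot
  have hmu : R.1.ramificationIdx (𝓞 K) =
      multiplicity R.1 (v.asIdeal.map (algebraMap (𝓞 K) (𝓞 F))) := by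
    have := R.2.1
    have := R.2.2
    exact Ideal.IsDedekindDomain.ramificationIdx_eq_multiplicity v.asIdeal R.1 hb
  have hord : ord (wp F P v) (Units.map (algebraMap K F : K →* F) π) =
      (v.asIdeal.ramificationIdx' (wp F P v).asIdeal : ℤ) * ord v π := by
    have h1 := HeightOneSpectrum.valuation_liesOver F v (wp F P v) (π : K)
    unfold ord
    rw [Units.coe_map, MonoidHom.coe_coe, ← h1, WithZero.log_pow]
    simp
  have h11 : v.asIdeal.ramificationIdx' (wp F P v).asIdeal = 1 := by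
    have h12 : v.asIdeal.ramificationIdx' (wp F P v).asIdeal ≠ 0 :=
      Ideal.IsDedekindDomain.ramificationIdx'_ne_zero_of_liesOver (wp F P v).asIdeal v.ne_bot
    by_contra hne
    have h13 : 2 ≤ v.asIdeal.ramificationIdx' (wp F P v).asIdeal := by omega
    have h14 : v.asIdeal.map (algebraMap (𝓞 K) (𝓞 F)) ≤ (wp F P v).asIdeal ^ 2 :=
      Ideal.le_pow_of_le_ramificationIdx' h13
    have h15 : R.1 ^ 2 ∣ v.asIdeal.map (algebraMap (𝓞 K) (𝓞 F)) := by
      rw [hR]
      exact Ideal.dvd_iff_le.2 h14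
    have hR1 : R.1 ≠ ⊤ := by
      have := R.2.1
      exact this.ne_top
    have hfm : FiniteMultiplicity R.1 (v.asIdeal.map (algebraMap (𝓞 K) (𝓞 F))) :=
      FiniteMultiplicity.of_not_isUnit (fun h0 => hR1 (Ideal.isUnit_iff.1 h0)) hb
    have h16 := hfm.le_multiplicity_of_pow_dvd (k := 2) h15
    rw [← hmu, h10] at h16
    omega
  rw [hord, h11, Nat.cast_one, one_mul]

private theorem vs {l : ℕ} (hV : ∀ x : V, l • x = 0) (n : ℕ) (x : V) : (n % l) • x = n • x := by
  conv_rhs => rw [← Nat.mod_add_div n l, add_nsmul, mul_comm l, mul_nsmul, hV, add_zero]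

private theorem vadd {l : ℕ} [NeZero l] (hV : ∀ x : V, l • x = 0) (u v : ZMod l) (x : V) :
    (u + v).val • x = u.val • x + v.val • x := by
  rw [ZMod.val_add, vs hV, add_nsmul]

private theorem vz {l : ℕ} [NeZero l] (hV : ∀ x : V, l • x = 0) (n : ℤ) (u : ZMod l) (x : V) :
    ((n : ZMod l) * u).val • x = u.val • (n • x) := by
  have h1 : ∀ (a : ℤ) (w : ZMod l), (a : ZMod l) = w → (w.val : ℤ) • x = a • x := by
    intro a w haw
    have h2 : (l : ℤ) ∣ w.val - a := by
      rw [← ZMod.intCast_zmod_eq_zero_iff_dvd (w.val - a) l]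
      push_cast
      rw [ZMod.natCast_zmod_val, haw, sub_self]
    obtain ⟨c, hc⟩ := h2
    have h3 : (w.val : ℤ) = a + c * l := by linarith
    rw [h3, add_smul, mul_smul]
    have h4 : ((l : ℕ) : ℤ) • x = 0 := by
      rw [natCast_zsmul]
      exact hV x
    rw [h4, smul_zero, add_zero]
  have h5 := h1 (n * (u.val : ℤ)) ((n : ZMod l) * u) (by
    push_cast
    rw [ZMod.natCast_zmod_val])
  rw [natCast_zsmul] at h5
  rw [h5, mul_comm, mul_smul, natCast_zsmul]

private theorem kq_ord {l : ℕ} (hl : l.Prime) {ζ : K} (hζ : IsPrimitiveRoot ζ l)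
    (P : DP K QBar) (v : Pl K) (hv : ¬ Above l v) (τ : Gal(QBar/K))
    (hτ : τ ∈ (P.P v).inertia Gal(QBar/K)) (hτF : τ ∈ F.fixingSubgroup) (π x : Fˣ)
    (hπ : ord (wp F P v) π = 1) :
    kq l ζ ((x : F) : QBar) τ = ((ord (wp F P v) x : ℤ) : ZMod l) * kq l ζ ((π : F) : QBar) τ := by
  have : Fact l.Prime := ⟨hl⟩
  have : NeZero l := ⟨hl.ne_zero⟩
  have hne : ∀ x : Fˣ, ((x : F) : QBar) ≠ 0 := by
    intro x h0
    exact x.ne_zero (Subtype.ext h0)
  have hfx : ∀ x : F, τ (x : QBar) = (x : QBar) := fun x =>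
    (IntermediateField.mem_fixingSubgroup_iff F τ).1 hτF _ x.2
  obtain ⟨f, hf⟩ : ∃ f : Fˣ →* Multiplicative (ZMod l), ∀ x, f x = Multiplicative.ofAdd (kq l ζ ((x : F) : QBar) τ) := by
    refine ⟨MonoidHom.mk' (fun x => Multiplicative.ofAdd (kq l ζ ((x : F) : QBar) τ)) ?_, fun x => rfl⟩
    intro x y
    rw [← ofAdd_add]
    exact congrArg _ (kq_arg hl hζ (hne x) (hne y) (hfx _) (hfx _))
  have h0 : f (x * π ^ (-(ord (wp F P v) x))) = 1 := by
    rw [hf]
    have h1 : ord (wp F P v) (x * π ^ (-(ord (wp F P v) x))) = 0 := by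
      rw [ord_mul, ord_zpow, hπ]
      ring
    rw [unr hl hζ F (P.P v) (P.prime v) (wp F P v) rfl ?_ _ h1 τ hτ hτF]
    · rfl
    · intro h2
      apply hv
      unfold Above
      rw [← P.under v, Ideal.under_def, Ideal.mem_comap, map_natCast]
      exact h2
  rw [map_mul, map_zpow, zpow_neg, mul_inv_eq_one, hf, hf, ← ofAdd_zsmul] at h0
  have h3 := Multiplicative.ofAdd.injective h0
  rw [h3, zsmul_eq_mul]

theorem kap_typ {l : ℕ} (hl : l.Prime) {ζ : K} (hζ : IsPrimitiveRoot ζ l) (hV : ∀ x : V, l • x = 0)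
    (m : ι → V) {φ : Gal(QBar/K) →* Q} (hφ : FT φ) (hs : Function.Surjective φ)
    {act : Q →* (F ≃+* F)} (h : KTriv act) (H : Acts F φ act) (P : DP K QBar)
    (S0 : Finset (Pl K)) (hS0 : ∀ v, Above l v → v ∈ S0) (y : ι → Additive Fˣ) :
    Typ l ζ φ P S0 (lb m h P S0 (dv S0 y)) (kap l ζ m φ act y) := by
  have : Fact l.Prime := ⟨hl⟩
  have : NeZero l := ⟨hl.ne_zero⟩
  have hfd : FiniteDimensional K F := H.fin
  have hfix : ∀ γ : Gal(QBar/K), φ γ = 1 → γ ∈ F.fixingSubgroup := by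
    intro γ hγ
    rw [H.fix]
    exact hγ
  have hfx : ∀ γ : Gal(QBar/K), φ γ = 1 → ∀ x : F, γ (x : QBar) = (x : QBar) := by
    intro γ hγ x
    exact (IntermediateField.mem_fixingSubgroup_iff F γ).1 (hfix γ hγ) _ x.2
  have hne : ∀ x : Fˣ, ((x : F) : QBar) ≠ 0 := by
    intro x h0
    exact x.ne_zero (Subtype.ext h0)
  have hin : ∀ γ, φ γ = 1 → kap l ζ m φ act y γ =
      ∑ a : Q, ∑ j, (kq l ζ (((ex act a (y j)).toMul : F) : QBar) γ).val • (a • m j) := by
    intro γ hγ
    unfold kap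
    rw [if_pos hγ]
  have hout : ∀ γ, φ γ ≠ 1 → kap l ζ m φ act y γ = 0 := by
    intro γ hγ
    unfold kap
    rw [if_neg hγ]
  -- the inertia formula
  have hmain : ∀ v, v ∉ S0 → ∀ τ ∈ (P.P v).inertia Gal(QBar/K), φ τ = 1 → ∀ π : Fˣ, ord (wp F P v) π = 1 →
      kap l ζ m φ act y τ = (kq l ζ ((π : F) : QBar) τ).val • lb m h P S0 (dv S0 y) v := by
    intro v hv τ hτ hφτ π hπ
    rw [hin τ hφτ]
    unfold lb
    rw [dif_pos hv, Finset.smul_sum]
    refine Finset.sum_congr rfl fun a _ => ?_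
    rw [Finset.smul_sum]
    refine Finset.sum_congr rfl fun j _ => ?_
    rw [kq_ord hl hζ P v (fun h0 => hv (hS0 v h0)) τ hτ (hfix τ hφτ) π ((ex act a (y j)).toMul) hπ, vz hV]
    congr 2
    change ord (wp F P v) (ax act a (y j).toMul) = ord (pm (act a⁻¹) (wp F P v)) (y j).toMul
    have h1 := ord_pm (act a) (pm (act a⁻¹) (wp F P v)) (y j).toMul
    have h2 : pm (act a) (pm (act a⁻¹) (wp F P v)) = wp F P v := by
      rw [← pm_act_mul, mul_inv_cancel, pm_act_one]
    rw [h2] at h1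
    exact h1
  refine ⟨⟨?_, ?_⟩, ?_, hout, ?_, ?_⟩
  · -- additivity
    intro γ δ hγ hδ
    rw [hin γ hγ, hin δ hδ, hin (γ * δ) (by rw [map_mul, hγ, hδ, mul_one]), ← Finset.sum_add_distrib]
    refine Finset.sum_congr rfl fun a _ => ?_
    rw [← Finset.sum_add_distrib]
    refine Finset.sum_congr rfl fun j _ => ?_
    rw [kq_mul hl hζ (hne _) (hfx γ hγ _) (hfx δ hδ _), vadd hV]
  · -- equivariance
    intro g γ hγ
    have hγ' : φ (g * γ * g⁻¹) = 1 := by
      rw [map_mul, map_mul, hγ, mul_one, ← map_mul, mul_inv_cancel, map_one]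
    rw [hin γ hγ, hin _ hγ', Finset.smul_sum, ← Equiv.sum_comp (Equiv.mulLeft (φ g))]
    refine Finset.sum_congr rfl fun b _ => ?_
    rw [Finset.smul_sum]
    refine Finset.sum_congr rfl fun j _ => ?_
    have e1 : (((ex act (φ g * b) (y j)).toMul : F) : QBar) = g (((ex act b (y j)).toMul : F) : QBar) := by
      show ((act (φ g * b) ((y j).toMul : F) : F) : QBar) = g ((act b ((y j).toMul : F) : F) : QBar)
      rw [map_mul]
      exact H.act g (act b ((y j).toMul : F))
    show (kq l ζ (((ex act (φ g * b) (y j)).toMul : F) : QBar) (g * γ * g⁻¹)).val • ((φ g * b) • m j) =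
      φ g • ((kq l ζ (((ex act b (y j)).toMul : F) : QBar) γ).val • (b • m j))
    rw [e1, kq_conj hl hζ (hne _) (hfx γ hγ _) g, mul_smul]
    exact (map_nsmul (DistribSMul.toAddMonoidHom V (φ g)) _ _).symm
  · -- finite type
    have h1 : ∀ q : Q × ι, ∃ E : IntermediateField K QBar, FiniteDimensional K E ∧ ∀ γ ∈ E.fixingSubgroup,
        kq l ζ (((ex act q.1 (y q.2)).toMul : F) : QBar) γ = 0 := by
      intro q
      obtain ⟨E, hE, hE2⟩ := kq_ft (K := K) (Ω := QBar) hl hζ (hne ((ex act q.1 (y q.2)).toMul))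
      exact ⟨E, hE, fun γ hγ => (hE2 γ hγ).2⟩
    choose E hE hE2 using h1
    have : ∀ q, FiniteDimensional K (E q) := hE
    have : FiniteDimensional K (⨆ q, E q : IntermediateField K QBar) := IntermediateField.finiteDimensional_iSup_of_finite
    refine ⟨⨆ q, E q, inferInstance, fun γ hγ => ?_⟩
    by_cases hφγ : φ γ = 1
    · rw [hin γ hφγ]
      refine Finset.sum_eq_zero fun a _ => Finset.sum_eq_zero fun j _ => ?_
      rw [hE2 (a, j) γ (IntermediateField.fixingSubgroup_antitone (le_iSup E (a, j)) hγ), ZMod.val_zero, zero_nsmul]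
    · exact hout γ hφγ
  · -- label zero
    intro v hv ht τ hτ hφτ
    obtain ⟨π, hπ⟩ := exists_unif (wp F P v)
    rw [hmain v hv τ hτ hφτ π hπ, ht, nsmul_zero]
  · -- tame
    intro v hv hφv π hπ τ hτ
    have h1 : ord (wp F P v) (Units.map (algebraMap K F : K →* F) π) = 1 := by
      rw [ord_unr hs H P v hφv π, hπ]
    exact hmain v hv τ hτ (hφv τ hτ) _ h1

end H12.KF
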