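import Pool.Agent.H12.KF.Dvf
import Pool.Agent.H12.KF.Bas

/-!
# [H12 KF LAB] the label homomorphism, 130-190 lines

`R δ v = lb b.m h P S0 δ v`. For `v ∉ S0`, `w = wp F P v`: `lb δ v = ∑ a j, δ j (a⁻¹ w) • (a • m j)`.
* additive in `δ`; finite support: `lb δ v ≠ 0` only if some prime over `v` is in the support of some `δ j` (`pm_under`: the places `a⁻¹ w` are over `v`; map the finite set of the primes in the supports to the places under them).
* fixed by `φ σ =: s`, `σ ∈ dec (P.P v)`: `s • lb δ v = ∑ a j, δ j (a⁻¹ w) • (s a m j)`, reindex `a = s⁻¹ a'`: `a⁻¹ w = a'⁻¹ s w = a'⁻¹ w` (`wq_dec`).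
* `lab_sur`: given the label `t` let `q` be an integer with `q * #dec = 1` modulo `l`.. (`#dec_v` = number of `b ∈ Q` with `b w = w`, a divisor of `#Q`, prime to `l`, depends on `v`): `δ j w' = q_v (co (t v) j).val` if `w' = wp F P v`, `v ∉ S0`, and `0` if `w'` is no `wp F P v`. Then `lb δ v = ∑ over b with b w = w of
  q_v • (b • t v) = q_v #dec_v • t v = t v` (`wq_st`: `b = φ σ` fixes `t v`; `a⁻¹ w = wp F P v'` implies `v' = v` (under), `a w = w`).
* `lab_ker`: `lb δ v = ∑ i (∑ a j, δ j (a⁻¹ w) co (a m j) i) m i`, so `co (lb δ v) i = #Q * (cact (wx ..) c δ i) w` in `ZMod l` (`CpT`). If `cact c δ = l z` all are `0` (`b.inj`). Conversely if `lb δ = 0` then `(cact c δ i) w = 0` modulo `l` at the `w = wp F P v` (`#Q` invertible); at `b w`: `(cact c δ i)(b w) = ∑ j a, c i j a δ j (a⁻¹ b w)`, times `#Q` this is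
  `∑ j a', co (b a' m j) i δ j (a'⁻¹ w) = ∑ k, co (b m k) i * (∑ j a', co (a' m j) k δ j (a'⁻¹ w)) = 0` (`bs_act`, `a = b a'`). So all values are divisible by `l` (`wq_tr`): `z` by division (finite support).
-/

set_option autoImplicit false

open scoped NumberField
open IsDedekindDomain H38.ML
open scoped Classical

noncomputable section

namespace H12.KF

open H63.MA H51.SN H67.AQ

variable {K : IntermediateField ℚ QBar} [NumberField K] {Q : Type} [Group Q] [Fintype Q]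
  {F : IntermediateField K QBar} [NumberField F] {V : Type} [AddCommGroup V] [DistribMulAction Q V]
  {ι : Type} [Fintype ι]

private theorem wq_mul {act : Q →* (F ≃+* F)} (h : KTriv act) (S0 : Finset (Pl K)) (a b : Q)
    (w : Wp F S0) : wq h S0 (a * b) w = wq h S0 a (wq h S0 b w) :=
  Subtype.ext (pm_act_mul act a b w.1)

private theorem wq_one {act : Q →* (F ≃+* F)} (h : KTriv act) (S0 : Finset (Pl K))
    (w : Wp F S0) : wq h S0 1 w = w :=
  Subtype.ext (pm_act_one act w.1)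

private theorem wq_symm {act : Q →* (F ≃+* F)} (h : KTriv act) (S0 : Finset (Pl K)) (a : Q)
    (w : Wp F S0) : (wq h S0 a).symm w = wq h S0 a⁻¹ w := by
  rw [Equiv.symm_apply_eq, ← wq_mul, mul_inv_cancel, wq_one]

private theorem wp_under (P : DP K QBar) (v : Pl K) :
    (wp F P v).asIdeal.under (𝓞 K) = v.asIdeal := by
  rw [← P.under v]
  exact Ideal.ext fun a => Iff.rfl

private theorem wp_inj (P : DP K QBar) {v v' : Pl K}
    (h : (wp F P v).asIdeal.under (𝓞 K) = v'.asIdeal) : v = v' := by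
  apply HeightOneSpectrum.ext
  rw [← h, wp_under]

private theorem lb_pos (m : ι → V) {act : Q →* (F ≃+* F)} (h : KTriv act) (P : DP K QBar)
    (S0 : Finset (Pl K)) (δ : ι → (Wp F S0 →₀ ℤ)) {v : Pl K} (hv : v ∉ S0) :
    lb m h P S0 δ v =
      ∑ a : Q, ∑ j, δ j (wq h S0 a⁻¹ ⟨wp F P v, wp_wp P hv⟩) • (a • m j) := by
  unfold lb
  rw [dif_pos hv]

private theorem lb_neg (m : ι → V) {act : Q →* (F ≃+* F)} (h : KTriv act) (P : DP K QBar)
    (S0 : Finset (Pl K)) (δ : ι → (Wp F S0 →₀ ℤ)) {v : Pl K} (hv : v ∈ S0) :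
    lb m h P S0 δ v = 0 := by
  unfold lb
  rw [dif_neg (not_not.2 hv)]

private theorem lb_zero (m : ι → V) {act : Q →* (F ≃+* F)} (h : KTriv act) (P : DP K QBar)
    (S0 : Finset (Pl K)) (v : Pl K) : lb m h P S0 (0 : ι → (Wp F S0 →₀ ℤ)) v = 0 := by
  by_cases hv : v ∈ S0
  · exact lb_neg m h P S0 _ hv
  · rw [lb_pos m h P S0 _ hv]
    refine Finset.sum_eq_zero fun a _ => Finset.sum_eq_zero fun j _ => ?_
    rw [Pi.zero_apply, Finsupp.zero_apply, zero_smul]

private theorem lb_add (m : ι → V) {act : Q →* (F ≃+* F)} (h : KTriv act) (P : DP K QBar)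
    (S0 : Finset (Pl K)) (δ δ' : ι → (Wp F S0 →₀ ℤ)) (v : Pl K) :
    lb m h P S0 (δ + δ') v = lb m h P S0 δ v + lb m h P S0 δ' v := by
  by_cases hv : v ∈ S0
  · rw [lb_neg m h P S0 _ hv, lb_neg m h P S0 _ hv, lb_neg m h P S0 _ hv, add_zero]
  · rw [lb_pos m h P S0 _ hv, lb_pos m h P S0 _ hv, lb_pos m h P S0 _ hv,
      ← Finset.sum_add_distrib]
    refine Finset.sum_congr rfl fun a _ => ?_
    rw [← Finset.sum_add_distrib]
    refine Finset.sum_congr rfl fun j _ => ?_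
    rw [Pi.add_apply, Finsupp.add_apply, add_smul]

private theorem lb_fin (m : ι → V) {act : Q →* (F ≃+* F)} (h : KTriv act) (P : DP K QBar)
    (S0 : Finset (Pl K)) (δ : ι → (Wp F S0 →₀ ℤ)) :
    (Function.support fun v => lb m h P S0 δ v).Finite := by
  have hA : (⋃ j, ((δ j).support : Set (Wp F S0))).Finite :=
    Set.finite_iUnion fun j => (δ j).support.finite_toSet
  have hB : ((fun w : Wp F S0 => w.1.asIdeal.under (𝓞 K)) ''
      ⋃ j, ((δ j).support : Set (Wp F S0))).Finite := hA.image _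
  have hinj : Function.Injective (fun v : Pl K => v.asIdeal) := fun v v' hh =>
    HeightOneSpectrum.ext hh
  refine (hB.preimage hinj.injOn).subset ?_
  intro v hv
  rw [Function.mem_support] at hv
  by_cases hS : v ∈ S0
  · exact (hv (lb_neg m h P S0 δ hS)).elim
  rw [lb_pos m h P S0 δ hS] at hv
  obtain ⟨a, -, ha⟩ := Finset.exists_ne_zero_of_sum_ne_zero hv
  obtain ⟨j, -, hj⟩ := Finset.exists_ne_zero_of_sum_ne_zero ha
  have hne : δ j (wq h S0 a⁻¹ ⟨wp F P v, wp_wp P hS⟩) ≠ 0 := by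
    intro h0
    apply hj
    rw [h0, zero_smul]
  refine ⟨wq h S0 a⁻¹ ⟨wp F P v, wp_wp P hS⟩, ?_, ?_⟩
  · rw [Set.mem_iUnion]
    exact ⟨j, Finsupp.mem_support_iff.2 hne⟩
  · change (pm (act a⁻¹) (wp F P v)).asIdeal.under (𝓞 K) = v.asIdeal
    rw [pm_under h, wp_under]

private theorem smul_z (a : Q) (n : ℤ) (x : V) : a • (n • x) = n • (a • x) :=
  map_zsmul (DistribMulAction.toAddMonoidHom V a) n x

theorem lab_ex {l : ℕ} (hl : l.Prime) (b : Bs l V ι) {φ : Gal(QBar/K) →* Q}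
    {act : Q →* (F ≃+* F)} (h : KTriv act) (H : Acts F φ act) (P : DP K QBar) (S0 : Finset (Pl K)) :
    ∃ R : (ι → (Wp F S0 →₀ ℤ)) →+ Lab φ P S0 V, ∀ δ v, (R δ : Pl K →₀ V) v = lb b.m h P S0 δ v := by
  have hmem : ∀ δ : ι → (Wp F S0 →₀ ℤ),
      Finsupp.ofSupportFinite (fun v => lb b.m h P S0 δ v) (lb_fin b.m h P S0 δ) ∈
        Lab φ P S0 V := by
    intro δ
    refine ⟨fun v hv => lb_neg b.m h P S0 δ hv, fun v σ hσ => ?_⟩
    change φ σ • lb b.m h P S0 δ v = lb b.m h P S0 δ v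
    by_cases hS : v ∈ S0
    · rw [lb_neg b.m h P S0 δ hS, smul_zero]
    rw [lb_pos b.m h P S0 δ hS, Finset.smul_sum]
    have hw : wq h S0 (φ σ) ⟨wp F P v, wp_wp P hS⟩ = ⟨wp F P v, wp_wp P hS⟩ :=
      Subtype.ext (wq_dec H P v hσ)
    rw [← Equiv.sum_comp (Equiv.mulLeft (φ σ)) (fun a : Q =>
      ∑ j, δ j (wq h S0 a⁻¹ ⟨wp F P v, wp_wp P hS⟩) • (a • b.m j))]
    refine Finset.sum_congr rfl fun a _ => ?_
    rw [Finset.smul_sum]
    refine Finset.sum_congr rfl fun j _ => ?_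
    rw [smul_z, Equiv.coe_mulLeft, smul_smul]
    congr 2
    have e1 : wq h S0 (φ σ * a)⁻¹ ⟨wp F P v, wp_wp P hS⟩ =
        wq h S0 a⁻¹ ⟨wp F P v, wp_wp P hS⟩ := by
      rw [mul_inv_rev, wq_mul]
      congr 1
      have e2 := congrArg (wq h S0 (φ σ)⁻¹) hw
      rw [← wq_mul, inv_mul_cancel, wq_one] at e2
      exact e2.symm
    rw [e1]
  refine ⟨⟨⟨fun δ => ⟨Finsupp.ofSupportFinite (fun v => lb b.m h P S0 δ v)
    (lb_fin b.m h P S0 δ), hmem δ⟩, ?_⟩, ?_⟩, fun δ v => rfl⟩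
  · refine Subtype.ext (Finsupp.ext fun v => ?_)
    exact lb_zero b.m h P S0 v
  · intro δ δ'
    refine Subtype.ext (Finsupp.ext fun v => ?_)
    exact lb_add b.m h P S0 δ δ' v

/-- the stabiliser -/
private def st (act : Q →* (F ≃+* F)) (P : DP K QBar) (v : Pl K) : Subgroup Q where
  carrier := {a | pm (act a) (wp F P v) = wp F P v}
  one_mem' := pm_act_one act _
  mul_mem' := by
    intro a b ha hb
    change pm (act (a * b)) (wp F P v) = wp F P v
    rw [pm_act_mul, hb, ha]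
  inv_mem' := by
    intro a ha
    change pm (act a⁻¹) (wp F P v) = wp F P v
    have ha' : pm (act a) (wp F P v) = wp F P v := ha
    have e := congrArg (pm (act a⁻¹)) ha'
    rw [← pm_act_mul, inv_mul_cancel, pm_act_one] at e
    exact e.symm

theorem lab_sur {l : ℕ} (hl : l.Prime) (hQ : Nat.Coprime l (Nat.card Q)) (b : Bs l V ι)
    {φ : Gal(QBar/K) →* Q} (hs : Function.Surjective φ) {act : Q →* (F ≃+* F)} (h : KTriv act)
    (H : Acts F φ act) (P : DP K QBar) (S0 : Finset (Pl K)) (t : Lab φ P S0 V) :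
    ∃ δ : ι → (Wp F S0 →₀ ℤ), ∀ v, lb b.m h P S0 δ v = (t : Pl K →₀ V) v := by
  have hq : ∀ v : Pl K, ∃ q : ℤ, ((q * (Nat.card (st act P v) : ℤ) : ℤ) : ZMod l) = ((1 : ℤ) : ZMod l) := by
    intro v
    have hc : Nat.Coprime (Nat.card (st act P v)) l :=
      (Nat.Coprime.coprime_dvd_right (Subgroup.card_subgroup_dvd_card _) hQ).symm
    obtain ⟨q, hq⟩ := Int.mod_coprime hc
    refine ⟨q, ?_⟩
    rw [ZMod.intCast_eq_intCast_iff, mul_comm]
    exact hq
  choose q hq using hq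
  obtain ⟨t, ht0, ht1⟩ := t
  change ∃ δ : ι → (Wp F S0 →₀ ℤ), ∀ v, lb b.m h P S0 δ v = t v
  have huniq : ∀ v v' : Pl K, wp F P v = wp F P v' → v = v' := fun v v' hh =>
    wp_inj (F := F) P (by rw [hh, wp_under])
  let f : ι → Wp F S0 → ℤ := fun j w =>
    if hx : ∃ v, v ∉ S0 ∧ w.1 = wp F P v then q hx.choose * ((b.co (t hx.choose) j).val : ℤ) else 0
  have hf : ∀ j v (hv : v ∉ S0), f j ⟨wp F P v, wp_wp P hv⟩ = q v * ((b.co (t v) j).val : ℤ) := by
    intro j v hv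
    have hx : ∃ v', v' ∉ S0 ∧ wp F P v = wp F P v' := ⟨v, hv, rfl⟩
    have e1 : f j ⟨wp F P v, wp_wp P hv⟩ = q hx.choose * ((b.co (t hx.choose) j).val : ℤ) := dif_pos hx
    rw [e1, ← huniq v hx.choose hx.choose_spec.2]
  have hf0 : ∀ j (w : Wp F S0), (¬ ∃ v, v ∉ S0 ∧ w.1 = wp F P v) → f j w = 0 := by
    intro j w hw
    exact dif_neg hw
  have hfin : ∀ j, (Function.support (f j)).Finite := by
    intro j
    have h1 : ((fun v => wp F P v) '' (t.support : Set (Pl K))).Finite :=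
      t.support.finite_toSet.image _
    refine (h1.preimage (f := fun w : Wp F S0 => w.1) Subtype.val_injective.injOn).subset ?_
    intro w hw
    rw [Function.mem_support] at hw
    by_cases hx : ∃ v, v ∉ S0 ∧ w.1 = wp F P v
    · obtain ⟨v, hv, hwv⟩ := hx
      refine ⟨v, ?_, hwv.symm⟩
      rw [Finset.mem_coe, Finsupp.mem_support_iff]
      intro h0
      apply hw
      have e1 : w = ⟨wp F P v, wp_wp P hv⟩ := Subtype.ext hwv
      rw [e1, hf j v hv, h0, map_zero, Pi.zero_apply, ZMod.val_zero, Nat.cast_zero, mul_zero]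
    · exact (hw (hf0 j w hx)).elim
  refine ⟨fun j => Finsupp.ofSupportFinite (f j) (hfin j), fun v => ?_⟩
  by_cases hv : v ∈ S0
  · rw [lb_neg b.m h P S0 _ hv, ht0 v hv]
  rw [lb_pos b.m h P S0 _ hv]
  change ∑ a : Q, ∑ j, f j (wq h S0 a⁻¹ ⟨wp F P v, wp_wp P hv⟩) • (a • b.m j) = t v
  have hterm : ∀ a : Q, ∑ j, f j (wq h S0 a⁻¹ ⟨wp F P v, wp_wp P hv⟩) • (a • b.m j) =
      if a ∈ st act P v then q v • t v else 0 := by
    intro a
    split_ifs with ha
    · have ha' : pm (act a⁻¹) (wp F P v) = wp F P v := (st act P v).inv_mem ha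
      have e1 : wq h S0 a⁻¹ ⟨wp F P v, wp_wp P hv⟩ = ⟨wp F P v, wp_wp P hv⟩ := Subtype.ext ha'
      obtain ⟨σ, hσ, hσa⟩ := wq_st hs H P v (b := a) ha
      have e2 : a • t v = t v := by
        rw [← hσa]
        exact ht1 v σ hσ
      have e3 : ∀ j, f j (wq h S0 a⁻¹ ⟨wp F P v, wp_wp P hv⟩) • (a • b.m j) =
          q v • (a • ((b.co (t v) j).val • b.m j)) := by
        intro j
        rw [e1, hf j v hv, mul_smul, ← natCast_zsmul (b.m j) ((b.co (t v) j).val), smul_z]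
      rw [Finset.sum_congr rfl fun j _ => e3 j, ← Finset.smul_sum, ← Finset.smul_sum, bs_sum hl, e2]
    · refine Finset.sum_eq_zero fun j _ => ?_
      rw [hf0, zero_smul]
      rintro ⟨v', hv', hh⟩
      have hh' : pm (act a⁻¹) (wp F P v) = wp F P v' := hh
      have e1 : v = v' := by
        apply wp_inj (F := F) P
        rw [← pm_under h a⁻¹, hh', wp_under]
      apply ha
      have e2 : a⁻¹ ∈ st act P v := by
        change pm (act a⁻¹) (wp F P v) = wp F P v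
        rw [hh', e1]
      have e3 := (st act P v).inv_mem e2
      rwa [inv_inv] at e3
  rw [Finset.sum_congr rfl fun a _ => hterm a, ← Finset.sum_filter, Finset.sum_const]
  have hcard : (Finset.univ.filter fun a => a ∈ st act P v).card = Nat.card (st act P v) := by
    rw [← Fintype.card_subtype, ← Nat.card_eq_fintype_card]
  rw [hcard, ← natCast_zsmul, smul_smul, mul_comm, bs_zsmul hl b (hq v), one_smul]

private theorem co_lb {l : ℕ} (b : Bs l V ι) {act : Q →* (F ≃+* F)} (h : KTriv act)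
    (S0 : Finset (Pl K)) (δ : ι → (Wp F S0 →₀ ℤ)) (w : Wp F S0) (i : ι) :
    b.co (∑ a : Q, ∑ j, δ j (wq h S0 a⁻¹ w) • (a • b.m j)) i =
      ∑ a : Q, ∑ j, ((δ j (wq h S0 a⁻¹ w) : ℤ) : ZMod l) * b.co (a • b.m j) i := by
  rw [map_sum, Finset.sum_apply]
  refine Finset.sum_congr rfl fun a _ => ?_
  rw [map_sum, Finset.sum_apply]
  refine Finset.sum_congr rfl fun j _ => ?_
  rw [map_zsmul, Pi.smul_apply, zsmul_eq_mul]

private theorem cact_lb {l : ℕ} (b : Bs l V ι) {act : Q →* (F ≃+* F)} (h : KTriv act)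
    (S0 : Finset (Pl K)) {c : ι → ι → Q → ℤ} (hc : CpT b c)
    (δ : ι → (Wp F S0 →₀ ℤ)) (w : Wp F S0) (i : ι) :
    (Nat.card Q : ZMod l) * ((cact (wx h S0) c δ i w : ℤ) : ZMod l) =
      ∑ a : Q, ∑ j, ((δ j (wq h S0 a⁻¹ w) : ℤ) : ZMod l) * b.co (a • b.m j) i := by
  have e1 : cact (wx h S0) c δ i w = ∑ j, ∑ a : Q, c i j a * δ j (wq h S0 a⁻¹ w) := by
    change (∑ j, ∑ a : Q, c i j a • (wx h S0 a (δ j)) : Wp F S0 →₀ ℤ) w = _
    rw [Finsupp.finsetSum_apply]
    refine Finset.sum_congr rfl fun j _ => ?_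
    rw [Finsupp.finsetSum_apply]
    refine Finset.sum_congr rfl fun a _ => ?_
    rw [Finsupp.smul_apply, smul_eq_mul]
    congr 1
    change δ j ((wq h S0 a).symm w) = _
    rw [wq_symm]
  rw [e1, Int.cast_sum, Finset.mul_sum, Finset.sum_comm]
  refine Finset.sum_congr rfl fun j _ => ?_
  rw [Int.cast_sum, Finset.mul_sum]
  refine Finset.sum_congr rfl fun a _ => ?_
  rw [← hc i j a]
  push_cast
  ring

theorem lab_ker {l : ℕ} (hl : l.Prime) (hQ : Nat.Coprime l (Nat.card Q)) (b : Bs l V ι)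
    {φ : Gal(QBar/K) →* Q} (hs : Function.Surjective φ) {act : Q →* (F ≃+* F)} (h : KTriv act)
    (H : Acts F φ act) (P : DP K QBar) (S0 : Finset (Pl K)) {c : ι → ι → Q → ℤ} (hc : CpT b c)
    (δ : ι → (Wp F S0 →₀ ℤ)) :
    (∀ v, lb b.m h P S0 δ v = 0) ↔ ∃ z, cact (wx h S0) c δ = l • z := by
  haveI : Fact l.Prime := ⟨hl⟩
  have hQ0 : (Nat.card Q : ZMod l) ≠ 0 := by
    intro h0
    rw [ZMod.natCast_eq_zero_iff] at h0
    have h1 := Nat.dvd_gcd dvd_rfl h0
    rw [hQ] at h1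
    exact hl.one_lt.ne' (Nat.dvd_one.1 h1)
  constructor
  · intro h0
    have hS : ∀ v (hv : v ∉ S0) (i : ι),
        ∑ a : Q, ∑ j, ((δ j (wq h S0 a⁻¹ ⟨wp F P v, wp_wp P hv⟩) : ℤ) : ZMod l) *
          b.co (a • b.m j) i = 0 := by
      intro v hv i
      rw [← co_lb b h S0 δ, ← lb_pos b.m h P S0 δ hv, h0 v, map_zero, Pi.zero_apply]
    have hall : ∀ (w : Wp F S0) (i : ι),
        ∑ a : Q, ∑ j, ((δ j (wq h S0 a⁻¹ w) : ℤ) : ZMod l) * b.co (a • b.m j) i = 0 := by
      intro w i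
      obtain ⟨v, b', hw1, hw2⟩ := wq_tr hs H P w.1
      have hv : v ∉ S0 := fun hv => w.2 v hv hw1
      have hw : w = wq h S0 b' ⟨wp F P v, wp_wp P hv⟩ := Subtype.ext hw2
      rw [← Equiv.sum_comp (Equiv.mulLeft b')]
      have e1 : ∀ a : Q, ∑ j, ((δ j (wq h S0 (Equiv.mulLeft b' a)⁻¹ w) : ℤ) : ZMod l) *
          b.co (Equiv.mulLeft b' a • b.m j) i =
          ∑ k, (∑ j, ((δ j (wq h S0 a⁻¹ ⟨wp F P v, wp_wp P hv⟩) : ℤ) : ZMod l) *
            b.co (a • b.m j) k) * b.co (b' • b.m k) i := by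
        intro a
        have e2 : wq h S0 (b' * a)⁻¹ w = wq h S0 a⁻¹ ⟨wp F P v, wp_wp P hv⟩ := by
          rw [hw, mul_inv_rev, wq_mul, ← wq_mul h S0 b'⁻¹ b', inv_mul_cancel, wq_one]
        rw [Equiv.coe_mulLeft, e2]
        have e3 : ∀ k, (∑ j, ((δ j (wq h S0 a⁻¹ ⟨wp F P v, wp_wp P hv⟩) : ℤ) : ZMod l) *
            b.co (a • b.m j) k) * b.co (b' • b.m k) i =
            ∑ j, ((δ j (wq h S0 a⁻¹ ⟨wp F P v, wp_wp P hv⟩) : ℤ) : ZMod l) *
            (b.co (a • b.m j) k * b.co (b' • b.m k) i) := by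
          intro k
          rw [Finset.sum_mul]
          exact Finset.sum_congr rfl fun j _ => mul_assoc _ _ _
        rw [Finset.sum_congr rfl fun k _ => e3 k, Finset.sum_comm]
        refine Finset.sum_congr rfl fun j _ => ?_
        rw [← Finset.mul_sum, ← bs_act hl b b' (a • b.m j) i, smul_smul]
      rw [Finset.sum_congr rfl fun a _ => e1 a, Finset.sum_comm]
      refine Finset.sum_eq_zero fun k _ => ?_
      rw [← Finset.sum_mul, hS v hv k, zero_mul]
    have hdvd : ∀ (i : ι) (w : Wp F S0), (l : ℤ) ∣ cact (wx h S0) c δ i w := by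
      intro i w
      have e1 := cact_lb b h S0 hc δ w i
      rw [hall w i, mul_eq_zero] at e1
      rcases e1 with e1 | e1
      · exact (hQ0 e1).elim
      · exact (ZMod.intCast_zmod_eq_zero_iff_dvd _ _).1 e1
    refine ⟨fun i => (cact (wx h S0) c δ i).mapRange (fun n : ℤ => n / (l : ℤ))
      (Int.zero_ediv _), ?_⟩
    funext i
    ext w
    rw [Pi.smul_apply, Finsupp.smul_apply, Finsupp.mapRange_apply, nsmul_eq_mul]
    exact (Int.mul_ediv_cancel' (hdvd i w)).symm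
  · rintro ⟨z, hz⟩ v
    by_cases hv : v ∈ S0
    · exact lb_neg b.m h P S0 δ hv
    apply b.inj
    funext i
    rw [lb_pos b.m h P S0 δ hv, co_lb b h S0 δ, ← cact_lb b h S0 hc δ, hz, Pi.smul_apply,
      Finsupp.smul_apply, nsmul_eq_mul, Int.cast_mul, Int.cast_natCast, ZMod.natCast_self,
      zero_mul, mul_zero, Pi.zero_apply]

end H12.KF
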