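import Pool.Agent.H12.KF.Sub

/-!
# [H12 KF LAM] the class group characters of the subfields, 120-170 lines

`R : (ι → (Wp F S0 →₀ ℤ)) →+ Lab` with values `lb` (`lab_ex`), `ξ : Lab →+ ZMod l` zero on the labels of principal divisors (`hξ`), `x : V` fixed by `U`, `E` the field of `U`. `f w' := u * ξ (R (gl b x (xd E S0 (single w' 1))))`, `u = (#U)⁻¹` in `ZMod l` (`#U ∣ #Q`).
* `lam_gen` (first): `lb (gl b x D) v = ∑ a, D (a⁻¹ w_v) • (a • x)` for `v ∉ S0` (`bs_sum`); additive in `D`; additive in `x` as well.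
* `lam_ray` (`IsRay l 𝔣 f` for a modulus `𝔣` whose primes are over `S0`; for the class group characters `𝔣 = ⊤`): `zero`: for `w'` over `v ∈ S0` the divisor `xd E S0 (single w' 1)` is `0` (the primes of `Wp F S0` are not over `v`: `un_over`, comap of comap). `ray`: for `z : Eˣ`: `∑ᶠ f v * ord v z = u ξ (R (gl b x (xd E S0 (rdv E z))))`
  (`rdv = ∑ ord • single`, additivity: `Finsupp.sum_single`) and `xd (rdv z) = dv1 (z)` (`xd_rdv`): `hξ`.
* (ii) `v ∉ S0`, `φ` trivial on the inertia group at `v`, `b₀ ∈ Q` with `(b₀⁻¹ φ σ b₀) ∈ U` for `σ ∈ dec (P.P v)`; `w = pm (act b₀⁻¹) (wp F P v)`, `w' = un E w`: the label of `xd (single w' 1)`: `∑ a, idx * [un (a⁻¹ w_v) = w'] • (a • x)`; `un (a⁻¹ w_v) = un (b₀⁻¹ w_v)` iff `a⁻¹ w_v = c b₀⁻¹ w_v` for some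
  `c ∈ U` (`un_tr`, `un_act`) iff `c⁻¹ a⁻¹ b₀` hmm: `b₀ c⁻¹ a⁻¹` fixes `w_v`, i.e. is `φ σ`, `σ ∈ dec` (`wq_st`, `wq_dec`), so `a ∈ φ σ' b₀ U = b₀ U`. So the label at `v` is `∑_{c ∈ U} b₀ c x = #U • (b₀ • x)` (`idx_unr`), and it is `0` at the places `≠ v` (`pm_under`). So `f w' = u #U ξ(single v (b₀ x)) = ξ (..)`.
* `lam_non`: if `f = 0` then `ξ (R (gl b x D)) = 0` for all divisors `D` of `F`: enough for `D = single w 1`; the sum over `c ∈ U` of the `D_c = single (c w) 1`: `∑ over c = (number) • xd (single w' 1)` / `idx`: more directly: `R (gl b x (xd (norm of w)))`: let `N w := ∑_{c ∈ U} single (c w) 1`; each prime over `w' = un w` occurs in `N w` with multiplicity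
  `#{c ∈ U | c w = w}` and `xd (single w' 1) = idx • ∑ primes over w'` (all `idx` over `w'` are equal: `idx_ord` for a uniformiser, orbits of `U`), so `idx w • N w = m_w • xd (single w' 1)`, hence `idx w • ξ (R (gl b x (N w))) = 0`; and `idx w` is prime to `l`: it divides `m_w` (a divisor of `#Q`): take `π ∈ F` with `ord w π = 1` and `ord w'' π = 0` for the other
  primes `w''` of the orbit `U w` (Chinese remainder theorem); `N π = ∏_{c ∈ U} c π` is in `E` (`SubF`) and `idx w * ord w' (N π) = ord w (N π) = ∑_c ord (c⁻¹ w) π = m_w`. And `R (gl b x (single (c w) 1)) = R (gl b x (single w 1))` for `c ∈ U` (reindex `a`, `c x = x`), so `#U • ξ(..) = 0`.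
-/

set_option autoImplicit false

open scoped NumberField
open IsDedekindDomain H38.ML
open scoped Classical

noncomputable section

namespace H12.KF

open H63.MA H51.SN H67.AQ

variable {K : IntermediateField ℚ QBar} [NumberField K] {Q : Type} [Group Q] [Fintype Q]
  {F : IntermediateField K QBar} [NumberField F] {V : Type} [AddCommGroup V] [DistribMulAction Q V]
  {ι : Type} [Fintype ι]

private theorem lam_bs_sum {l : ℕ} (hl : l.Prime) (b : Bs l V ι) (x : V) :
    ∑ j, (b.co x j).val • b.m j = x := by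
  have hne : NeZero l := ⟨hl.ne_zero⟩
  rw [← sub_eq_zero]
  apply b.inj
  rw [map_sub, sub_eq_zero]
  funext i
  have h1 := b.co_m (fun j => ((b.co x j).val : ℤ)) i
  have h2 : ∑ j, ((b.co x j).val : ℤ) • b.m j = ∑ j, (b.co x j).val • b.m j :=
    Finset.sum_congr rfl fun j _ => natCast_zsmul _ _
  rw [h2] at h1
  rw [h1, Int.cast_natCast, ZMod.natCast_zmod_val]

theorem lb_gl {l : ℕ} (hl : l.Prime) (hV : ∀ x : V, l • x = 0) (b : Bs l V ι) {act : Q →* (F ≃+* F)}
    (h : KTriv act) (P : DP K QBar) (S0 : Finset (Pl K)) (x : V) (D : Wp F S0 →₀ ℤ) {v : Pl K}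
    (hv : v ∉ S0) :
    lb b.m h P S0 (gl b x D) v =
      ∑ a : Q, D (wq h S0 a⁻¹ ⟨wp F P v, wp_wp P hv⟩) • (a • x) := by
  unfold lb
  rw [dif_pos hv]
  refine Finset.sum_congr rfl fun a _ => ?_
  have h1 : ∀ j, gl b x D j (wq h S0 a⁻¹ ⟨wp F P v, wp_wp P hv⟩) • (a • b.m j) =
      D (wq h S0 a⁻¹ ⟨wp F P v, wp_wp P hv⟩) • (a • ((b.co x j).val • b.m j)) := by
    intro j
    have h2 : a • ((b.co x j).val • b.m j) = (b.co x j).val • (a • b.m j) :=
      (DistribSMul.toAddMonoidHom V a).map_nsmul _ _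
    have h3 : gl b x D j (wq h S0 a⁻¹ ⟨wp F P v, wp_wp P hv⟩) =
        D (wq h S0 a⁻¹ ⟨wp F P v, wp_wp P hv⟩) * ((b.co x j).val : ℤ) := mul_comm _ _
    rw [h2, h3, mul_smul, natCast_zsmul]
  rw [Finset.sum_congr rfl fun j _ => h1 j, ← Finset.smul_sum, ← Finset.smul_sum,
    lam_bs_sum hl b x]

/-- the character of the subfield -/
def lam {l : ℕ} (b : Bs l V ι) {φ : Gal(QBar/K) →* Q} {P : DP K QBar} {S0 : Finset (Pl K)}
    (R : (ι → (Wp F S0 →₀ ℤ)) →+ Lab φ P S0 V) (ξ : Lab φ P S0 V →+ ZMod l) (U : Subgroup Q)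
    (E : IntermediateField K F) [NumberField E] (x : V) (w' : Pl E) : ZMod l :=
  ((Nat.card U : ℕ) : ZMod l)⁻¹ * ξ (R (gl b x (xd E S0 (Finsupp.single w' 1))))

private def Phi {l : ℕ} (b : Bs l V ι) {φ : Gal(QBar/K) →* Q} {P : DP K QBar} {S0 : Finset (Pl K)}
    (R : (ι → (Wp F S0 →₀ ℤ)) →+ Lab φ P S0 V) (ξ : Lab φ P S0 V →+ ZMod l) (x : V) :
    (Wp F S0 →₀ ℤ) →+ ZMod l where
  toFun D := ξ (R (gl b x D))
  map_zero' := by
    have h1 : gl b x (0 : Wp F S0 →₀ ℤ) = 0 := by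
      funext j
      exact smul_zero _
    rw [h1, map_zero, map_zero]
  map_add' D D' := by
    have h1 : gl b x (D + D') = gl b x D + gl b x D' := by
      funext j
      exact smul_add _ _ _
    rw [h1, map_add, map_add]

private theorem lam_phi {l : ℕ} (b : Bs l V ι) {φ : Gal(QBar/K) →* Q} {P : DP K QBar}
    {S0 : Finset (Pl K)} (R : (ι → (Wp F S0 →₀ ℤ)) →+ Lab φ P S0 V) (ξ : Lab φ P S0 V →+ ZMod l)
    (U : Subgroup Q) (E : IntermediateField K F) [NumberField E] (x : V) (w' : Pl E) :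
    lam b R ξ U E x w' =
      ((Nat.card U : ℕ) : ZMod l)⁻¹ * Phi b R ξ x (xd E S0 (Finsupp.single w' 1)) := rfl

omit [Fintype Q] in
private theorem lam_over (E : IntermediateField K F) [NumberField E] (w : Pl F) {v : Pl K}
    (h : Over (un E w) v) : w.asIdeal.under (𝓞 K) = v.asIdeal := by
  have h1 := un_over E w
  unfold Over at h h1
  rw [← h, ← h1, Ideal.comap_comap]
  rfl

theorem lam_ray {l : ℕ} (hl : l.Prime) (hV : ∀ x : V, l • x = 0) (b : Bs l V ι)
    {φ : Gal(QBar/K) →* Q} {act : Q →* (F ≃+* F)} (h : KTriv act) (P : DP K QBar)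
    {S0 : Finset (Pl K)} (R : (ι → (Wp F S0 →₀ ℤ)) →+ Lab φ P S0 V)
    (hR : ∀ δ v, (R δ : Pl K →₀ V) v = lb b.m h P S0 δ v) (ξ : Lab φ P S0 V →+ ZMod l)
    (U : Subgroup Q) (E : IntermediateField K F) [NumberField E] (x : V) (𝔣 : Ideal (𝓞 E))
    (h𝔣 : ∀ w' : Pl E, w'.asIdeal ∣ 𝔣 → ∃ v ∈ S0, Over w' v)
    (hξ : ∀ (z : Eˣ) (a : 𝓞 E), (z : E) = algebraMap (𝓞 E) E a → a - 1 ∈ 𝔣 →
      ξ (R (gl b x (dv1 S0 (Additive.ofMul (inc E F z))))) = 0) :
    IsRay l 𝔣 (lam b R ξ U E x) := by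
  constructor
  · intro w' hw'
    obtain ⟨v, hv, hov⟩ := h𝔣 w' hw'
    have h1 : xd E S0 (Finsupp.single w' 1) = 0 := by
      ext w
      change (idx E w.1 : ℤ) * (Finsupp.single w' (1 : ℤ)) (un E w.1) = 0
      rw [Finsupp.single_apply, if_neg, mul_zero]
      intro h2
      apply w.2 v hv
      apply lam_over E w.1
      rw [← h2]
      exact hov
    rw [lam_phi, h1, map_zero, mul_zero]
  · intro z a hz ha
    have h1 := hξ z a hz ha
    have h2 : ∀ (w' : Pl E) (n : ℤ),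
        ((Nat.card U : ℕ) : ZMod l)⁻¹ * Phi b R ξ x (xd E S0 (Finsupp.single w' n)) =
          lam b R ξ U E x w' * n := by
      intro w' n
      have h3 : (Finsupp.single w' n : Pl E →₀ ℤ) = n • Finsupp.single w' 1 := by
        rw [Finsupp.smul_single, smul_eq_mul, mul_one]
      rw [lam_phi, h3, map_zsmul, map_zsmul, zsmul_eq_mul]
      ring
    have h3 : ∑ᶠ w' : Pl E, lam b R ξ U E x w' * (ord w' z : ZMod l) =
        ∑ w' ∈ (rdv E (Additive.ofMul z)).support, lam b R ξ U E x w' * (ord w' z : ZMod l) := by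
      apply finsum_eq_sum_of_support_subset
      intro w' hw'
      rw [Function.mem_support] at hw'
      rw [Finset.mem_coe, Finsupp.mem_support_iff]
      intro h4
      apply hw'
      have h5 : ord w' z = 0 := h4
      rw [h5, Int.cast_zero, mul_zero]
    rw [h3]
    have h4 : ∑ w' ∈ (rdv E (Additive.ofMul z)).support, lam b R ξ U E x w' * (ord w' z : ZMod l) =
        ((Nat.card U : ℕ) : ZMod l)⁻¹ * Phi b R ξ x (xd E S0 (rdv E (Additive.ofMul z))) := by
      have h5 : rdv E (Additive.ofMul z) =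
          ∑ w' ∈ (rdv E (Additive.ofMul z)).support, Finsupp.single w' (ord w' z) :=
        (Finsupp.sum_single _).symm
      conv_rhs => rw [h5]
      rw [map_sum, map_sum, Finset.mul_sum]
      exact Finset.sum_congr rfl fun w' _ => (h2 w' _).symm
    rw [h4, xd_rdv]
    change _ * ξ (R (gl b x (dv1 S0 (Additive.ofMul (inc E F z))))) = 0
    rw [h1, mul_zero]

private theorem lam_vgl {l : ℕ} (hl : l.Prime) (hV : ∀ x : V, l • x = 0) (b : Bs l V ι)
    {φ : Gal(QBar/K) →* Q} {act : Q →* (F ≃+* F)} (h : KTriv act) (P : DP K QBar)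
    {S0 : Finset (Pl K)} (R : (ι → (Wp F S0 →₀ ℤ)) →+ Lab φ P S0 V)
    (hR : ∀ δ v, (R δ : Pl K →₀ V) v = lb b.m h P S0 δ v) (x : V) (D : Wp F S0 →₀ ℤ) (v : Pl K) :
    (R (gl b x D) : Pl K →₀ V) v =
      if hv : v ∉ S0 then ∑ a : Q, D (wq h S0 a⁻¹ ⟨wp F P v, wp_wp P hv⟩) • (a • x) else 0 := by
  rw [hR]
  by_cases hv : v ∉ S0
  · rw [dif_pos hv]
    exact lb_gl hl hV b h P S0 x D hv
  · rw [dif_neg hv]
    unfold lb
    rw [dif_neg hv]

private theorem lam_ne {l : ℕ} (hl : l.Prime) (hQ : Nat.Coprime l (Nat.card Q)) {n : ℕ}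
    (hn : n ∣ Nat.card Q) : ((n : ℕ) : ZMod l) ≠ 0 := by
  intro h
  rw [ZMod.natCast_eq_zero_iff] at h
  exact hl.one_lt.ne' (hQ.eq_one_of_dvd (h.trans hn))

private theorem lam_cnt (U : Subgroup Q) (a : Q) :
    (Finset.univ.filter fun c : Q => a⁻¹ * c ∈ U).card = Nat.card U := by
  have h1 : Nat.card U = (Finset.univ.filter fun c : Q => c ∈ U).card :=
    Nat.subtype_card _ fun c => by rw [Finset.mem_filter, and_iff_right (Finset.mem_univ c)]
  rw [h1]
  refine Finset.card_bij' (fun c _ => a⁻¹ * c) (fun c _ => a * c) ?_ ?_ ?_ ?_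
  · intro c hc
    rw [Finset.mem_filter] at hc ⊢
    exact ⟨Finset.mem_univ _, hc.2⟩
  · intro c hc
    rw [Finset.mem_filter] at hc ⊢
    refine ⟨Finset.mem_univ _, ?_⟩
    rw [inv_mul_cancel_left]
    exact hc.2
  · intro c _
    exact mul_inv_cancel_left a c
  · intro c _
    exact inv_mul_cancel_left a c

omit [Fintype Q] in
private theorem lam_un (E : IntermediateField K F) [NumberField E] (w : Pl F) :
    w.asIdeal.under (𝓞 K) = (un E w).asIdeal.under (𝓞 K) := by
  have h1 := un_over E w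
  unfold Over at h1
  rw [← h1]
  ext x
  rfl

omit [Fintype Q] in
private theorem lam_wp (P : DP K QBar) (v : Pl K) :
    (wp F P v).asIdeal.under (𝓞 K) = v.asIdeal := by
  rw [← P.under v]
  exact Ideal.ext fun a => Iff.rfl

omit [Fintype Q] in
private theorem lam_iff {φ : Gal(QBar/K) →* Q} (hs : Function.Surjective φ)
    {act : Q →* (F ≃+* F)} (H : Acts F φ act) (P : DP K QBar) {U : Subgroup Q}
    {E : IntermediateField K F} [NumberField E] (hE : SubF act U E) {v : Pl K} (a : Q)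
    (ha : ∀ σ ∈ dec (K := K) (P.P v), a⁻¹ * φ σ * a ∈ U) (c : Q) :
    un E (pm (act c⁻¹) (wp F P v)) = un E (pm (act a⁻¹) (wp F P v)) ↔ a⁻¹ * c ∈ U := by
  constructor
  · intro hw
    obtain ⟨d, hd, hdw⟩ := un_tr E hs H hE hw
    have h1 : pm (act (a * (d * c⁻¹))) (wp F P v) = wp F P v := by
      rw [pm_act_mul, pm_act_mul, hdw, ← pm_act_mul, mul_inv_cancel, pm_act_one]
    obtain ⟨σ, hσ, hσa⟩ := wq_st hs H P v h1
    have h2 := ha σ hσ
    rw [hσa] at h2
    have h3 : a⁻¹ * (a * (d * c⁻¹)) * a = d * (c⁻¹ * a) := by group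
    rw [h3] at h2
    have h4 := U.inv_mem ((U.mul_mem_cancel_left hd).1 h2)
    rwa [mul_inv_rev, inv_inv] at h4
  · intro hc
    have h1 : c⁻¹ = (a⁻¹ * c)⁻¹ * a⁻¹ := by group
    rw [h1, pm_act_mul]
    exact un_act E hE (U.inv_mem hc) _

theorem lam_val {l : ℕ} (hl : l.Prime) (hV : ∀ x : V, l • x = 0)
    (hQ : Nat.Coprime l (Nat.card Q)) (b : Bs l V ι)
    {φ : Gal(QBar/K) →* Q} (hs : Function.Surjective φ) {act : Q →* (F ≃+* F)} (h : KTriv act)
    (H : Acts F φ act) (P : DP K QBar)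
    {S0 : Finset (Pl K)} (R : (ι → (Wp F S0 →₀ ℤ)) →+ Lab φ P S0 V)
    (hR : ∀ δ v, (R δ : Pl K →₀ V) v = lb b.m h P S0 δ v) (ξ : Lab φ P S0 V →+ ZMod l)
    {U : Subgroup Q} {E : IntermediateField K F} [NumberField E] (hE : SubF act U E) {x : V}
    (hx : ∀ a ∈ U, a • x = x) {v : Pl K} (hv : v ∉ S0)
    (hin : ∀ τ ∈ (P.P v).inertia Gal(QBar/K), φ τ = 1) (a : Q)
    (ha : ∀ σ ∈ dec (K := K) (P.P v), a⁻¹ * φ σ * a ∈ U) (t : Lab φ P S0 V)
    (ht : (t : Pl K →₀ V) = Finsupp.single v (a • x)) :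
    lam b R ξ U E x (un E (pm (act a⁻¹) (wp F P v))) = ξ t := by
  have hkey : R (gl b x (xd E S0 (Finsupp.single (un E (pm (act a⁻¹) (wp F P v))) 1))) =
      Nat.card U • t := by
    refine Subtype.ext (Finsupp.ext fun v' => ?_)
    have hr : ((Nat.card U • t : Lab φ P S0 V) : Pl K →₀ V) v' =
        Nat.card U • (Finsupp.single v (a • x) v') := by
      rw [AddSubgroup.coe_nsmul, ht]
      rfl
    rw [hr, lam_vgl hl hV b h P R hR]
    by_cases hv' : v' ∉ S0
    · rw [dif_pos hv']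
      have hxd : ∀ c : Q, (xd E S0 (Finsupp.single (un E (pm (act a⁻¹) (wp F P v))) 1))
          (wq h S0 c⁻¹ ⟨wp F P v', wp_wp P hv'⟩) = (idx E (pm (act c⁻¹) (wp F P v')) : ℤ) *
            (Finsupp.single (un E (pm (act a⁻¹) (wp F P v))) (1 : ℤ))
              (un E (pm (act c⁻¹) (wp F P v'))) := fun c => rfl
      by_cases hvv : v = v'
      · subst hvv
        rw [Finsupp.single_eq_same]
        have h1 : ∀ c : Q, (xd E S0 (Finsupp.single (un E (pm (act a⁻¹) (wp F P v))) 1))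
            (wq h S0 c⁻¹ ⟨wp F P v, wp_wp P hv'⟩) • (c • x) =
            if a⁻¹ * c ∈ U then a • x else 0 := by
          intro c
          rw [hxd, idx_unr E hs H P v hin, Nat.cast_one, one_mul, Finsupp.single_apply]
          by_cases hc : a⁻¹ * c ∈ U
          · rw [if_pos ((lam_iff hs H P hE a ha c).2 hc).symm, if_pos hc, one_smul]
            have h2 : c • x = a • ((a⁻¹ * c) • x) := by
              rw [← mul_smul, mul_inv_cancel_left]
            rw [h2, hx _ hc]
          · rw [if_neg fun h3 => hc ((lam_iff hs H P hE a ha c).1 h3.symm), if_neg hc, zero_smul]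
        rw [Finset.sum_congr rfl fun c _ => h1 c, ← Finset.sum_filter, Finset.sum_const, lam_cnt]
      · rw [Finsupp.single_eq_of_ne (Ne.symm hvv), smul_zero]
        refine Finset.sum_eq_zero fun c _ => ?_
        rw [hxd, Finsupp.single_eq_of_ne, mul_zero, zero_smul]
        intro h1
        apply hvv
        apply HeightOneSpectrum.ext
        rw [← lam_wp (F := F) P v, ← lam_wp (F := F) P v', ← pm_under h a⁻¹ (wp F P v),
          ← pm_under h c⁻¹ (wp F P v'), lam_un E, lam_un E (pm (act c⁻¹) (wp F P v')), h1]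
    · rw [dif_neg hv', Finsupp.single_eq_of_ne, smul_zero]
      rintro rfl
      exact hv' hv
  have hp : Fact l.Prime := ⟨hl⟩
  have hU : ((Nat.card U : ℕ) : ZMod l) ≠ 0 := lam_ne hl hQ U.card_subgroup_dvd_card
  unfold lam
  rw [hkey, map_nsmul, nsmul_eq_mul, ← mul_assoc, inv_mul_cancel₀ hU, one_mul]

private theorem lam_phi_wx {l : ℕ} (hl : l.Prime) (hV : ∀ x : V, l • x = 0) (b : Bs l V ι)
    {φ : Gal(QBar/K) →* Q} {act : Q →* (F ≃+* F)} (h : KTriv act) (P : DP K QBar)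
    {S0 : Finset (Pl K)} (R : (ι → (Wp F S0 →₀ ℤ)) →+ Lab φ P S0 V)
    (hR : ∀ δ v, (R δ : Pl K →₀ V) v = lb b.m h P S0 δ v) (ξ : Lab φ P S0 V →+ ZMod l) {x : V}
    {c : Q} (hc : c • x = x) (D : Wp F S0 →₀ ℤ) :
    Phi b R ξ x (wx h S0 c D) = Phi b R ξ x D := by
  change ξ (R (gl b x (wx h S0 c D))) = ξ (R (gl b x D))
  have h1 : R (gl b x (wx h S0 c D)) = R (gl b x D) := by
    refine Subtype.ext (Finsupp.ext fun v => ?_)
    rw [lam_vgl hl hV b h P R hR, lam_vgl hl hV b h P R hR]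
    by_cases hv : v ∉ S0
    · rw [dif_pos hv, dif_pos hv]
      refine Fintype.sum_equiv (Equiv.mulRight c) _ _ fun a => ?_
      change D ((wq h S0 c).symm (wq h S0 a⁻¹ ⟨wp F P v, wp_wp P hv⟩)) • (a • x) =
        D (wq h S0 (a * c)⁻¹ ⟨wp F P v, wp_wp P hv⟩) • ((a * c) • x)
      have h2 : (wq h S0 c).symm (wq h S0 a⁻¹ ⟨wp F P v, wp_wp P hv⟩) =
          wq h S0 (a * c)⁻¹ ⟨wp F P v, wp_wp P hv⟩ := by
        rw [Equiv.symm_apply_eq]
        refine Subtype.ext ?_
        change pm (act a⁻¹) (wp F P v) = pm (act c) (pm (act (a * c)⁻¹) (wp F P v))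
        rw [← pm_act_mul]
        congr 2
        group
      rw [h2, mul_smul, hc]
    · rw [dif_neg hv, dif_neg hv]
  rw [h1]

omit [Fintype Q] in
private theorem lam_wq_mul {act : Q →* (F ≃+* F)} (h : KTriv act) (S0 : Finset (Pl K)) (a c : Q)
    (w : Wp F S0) : wq h S0 (a * c) w = wq h S0 a (wq h S0 c w) :=
  Subtype.ext (pm_act_mul act a c w.1)

omit [Fintype Q] in
private theorem lam_wq_one {act : Q →* (F ≃+* F)} (h : KTriv act) (S0 : Finset (Pl K))
    (w : Wp F S0) : wq h S0 1 w = w :=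
  Subtype.ext (pm_act_one act w.1)

omit [Fintype Q] in
private theorem lam_wq_inv {act : Q →* (F ≃+* F)} (h : KTriv act) (S0 : Finset (Pl K)) {c : Q}
    {w : Wp F S0} (hc : wq h S0 c w = w) : wq h S0 c⁻¹ w = w := by
  conv_lhs => rw [← hc]
  rw [← lam_wq_mul, inv_mul_cancel, lam_wq_one]

omit [Fintype Q] in
private theorem lam_ord_act {act : Q →* (F ≃+* F)} (h : KTriv act) (S0 : Finset (Pl K)) (a : Q)
    (x : Fˣ) (w : Wp F S0) : ord (wq h S0 a w).1 (ax act a x) = ord w.1 x := by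
  have h1 := DFunLike.congr_fun (dv1_ex h S0 a (Additive.ofMul x)) (wq h S0 a w)
  change ord (wq h S0 a w).1 (ax act a x) = ord ((wq h S0 a).symm (wq h S0 a w)).1 x at h1
  rwa [Equiv.symm_apply_apply] at h1

omit [Fintype Q] in
private theorem lam_inc {act : Q →* (F ≃+* F)} {U : Subgroup Q} {E : IntermediateField K F}
    [NumberField E] (hE : SubF act U E) {a : Q} (ha : a ∈ U) (z : Eˣ) :
    ax act a (inc E F z) = inc E F z := by
  refine Units.ext ?_
  exact (hE.mem (z : E)).1 (z : E).2 a ha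

omit [Fintype Q] in
private theorem lam_idx_act {act : Q →* (F ≃+* F)} (h : KTriv act) {S0 : Finset (Pl K)}
    {U : Subgroup Q} {E : IntermediateField K F} [NumberField E] (hE : SubF act U E) {a : Q}
    (ha : a ∈ U) (w : Wp F S0) : idx E (wq h S0 a w).1 = idx E w.1 := by
  obtain ⟨z, hz⟩ := exists_unif (un E w.1)
  have h1 := lam_ord_act h S0 a (inc E F z) w
  have h2 : un E (wq h S0 a w).1 = un E w.1 := un_act E hE ha w.1
  rw [lam_inc hE ha, idx_ord, idx_ord, h2, hz, mul_one, mul_one] at h1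
  exact_mod_cast h1

/-- the stabiliser of `w` in `U` -/
private def lamS {act : Q →* (F ≃+* F)} (h : KTriv act) {S0 : Finset (Pl K)} (U : Subgroup Q)
    (w : Wp F S0) : Subgroup Q where
  carrier := {c | c ∈ U ∧ wq h S0 c w = w}
  one_mem' := ⟨U.one_mem, lam_wq_one h S0 w⟩
  mul_mem' := by
    intro c d hc hd
    refine ⟨U.mul_mem hc.1 hd.1, ?_⟩
    rw [lam_wq_mul, hd.2, hc.2]
  inv_mem' := by
    intro c hc
    exact ⟨U.inv_mem hc.1, lam_wq_inv h S0 hc.2⟩

private theorem lamS_card {act : Q →* (F ≃+* F)} (h : KTriv act) {S0 : Finset (Pl K)}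
    (U : Subgroup Q) (w : Wp F S0) :
    Nat.card (lamS h U w) = (Finset.univ.filter fun c : Q => c ∈ U ∧ wq h S0 c w = w).card :=
  Nat.subtype_card _ fun c => by
    rw [Finset.mem_filter, and_iff_right (Finset.mem_univ c)]
    exact Iff.rfl

private theorem lam_idx_dvd {act : Q →* (F ≃+* F)} (h : KTriv act) {S0 : Finset (Pl K)}
    {U : Subgroup Q} {E : IntermediateField K F} [NumberField E] (hE : SubF act U E)
    (w : Wp F S0) : idx E w.1 ∣ Nat.card (lamS h U w) := by
  obtain ⟨ϖ, hϖ⟩ := exists_unif w.1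
  obtain ⟨π, hπ⟩ := weak_approx_one (Finset.univ.image fun c : Q => pm (act c) w.1)
    (fun v => if v = w.1 then ϖ else 1)
  have h1 : ∀ c : Q, ord (wq h S0 c w).1 π = if wq h S0 c w = w then 1 else 0 := by
    intro c
    have h2 := ord_of_one1 (hπ (pm (act c) w.1) (Finset.mem_image_of_mem _ (Finset.mem_univ c)))
    rw [ord_mul, ord_inv] at h2
    change ord (pm (act c) w.1) π = _
    by_cases hc : pm (act c) w.1 = w.1
    · rw [if_pos (show wq h S0 c w = w from Subtype.ext hc)]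
      rw [if_pos hc, hc, hϖ] at h2
      rw [hc]
      linarith
    · rw [if_neg (fun h3 : wq h S0 c w = w => hc (congrArg Subtype.val h3))]
      rw [if_neg hc, ord_one] at h2
      linarith
  have hfix : ∀ a ∈ U, ax act a (∏ c ∈ Finset.univ.filter (fun c : Q => c ∈ U), ax act c π) =
      ∏ c ∈ Finset.univ.filter (fun c : Q => c ∈ U), ax act c π := by
    intro a ha
    rw [map_prod]
    refine Finset.prod_bij' (fun c _ => a * c) (fun c _ => a⁻¹ * c) ?_ ?_ ?_ ?_ ?_
    · intro c hc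
      rw [Finset.mem_filter] at hc ⊢
      exact ⟨Finset.mem_univ _, U.mul_mem ha hc.2⟩
    · intro c hc
      rw [Finset.mem_filter] at hc ⊢
      exact ⟨Finset.mem_univ _, U.mul_mem (U.inv_mem ha) hc.2⟩
    · intro c _
      exact inv_mul_cancel_left a c
    · intro c _
      exact mul_inv_cancel_left a c
    · intro c _
      refine Units.ext ?_
      change act a (act c (π : F)) = act (a * c) (π : F)
      rw [map_mul]
      rfl
  obtain ⟨z, hz⟩ : ∃ z : Eˣ, inc E F z =
      ∏ c ∈ Finset.univ.filter (fun c : Q => c ∈ U), ax act c π := by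
    have hmem : ((∏ c ∈ Finset.univ.filter (fun c : Q => c ∈ U), ax act c π : Fˣ) : F) ∈ E := by
      rw [hE.mem]
      intro a ha
      exact congrArg Units.val (hfix a ha)
    refine ⟨Units.mk0 ⟨_, hmem⟩ ?_, ?_⟩
    · intro h0
      exact (∏ c ∈ Finset.univ.filter (fun c : Q => c ∈ U), ax act c π : Fˣ).ne_zero
        (congrArg Subtype.val h0)
    · exact Units.ext rfl
  have h4 : ord w.1 (inc E F z) = (Nat.card (lamS h U w) : ℤ) := by
    rw [hz, ord_prod, lamS_card]
    have h5 : ∀ c ∈ Finset.univ.filter (fun c : Q => c ∈ U), ord w.1 (ax act c π) =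
        if wq h S0 c w = w then 1 else 0 := by
      intro c _
      have h6 := lam_ord_act h S0 c π (wq h S0 c⁻¹ w)
      rw [← lam_wq_mul, mul_inv_cancel, lam_wq_one, h1 c⁻¹] at h6
      rw [h6]
      by_cases hc : wq h S0 c w = w
      · rw [if_pos hc, if_pos (lam_wq_inv h S0 hc)]
      · rw [if_neg hc, if_neg]
        intro h7
        apply hc
        have h8 := lam_wq_inv h S0 h7
        rwa [inv_inv] at h8
    rw [Finset.sum_congr rfl h5, Finset.sum_boole, Finset.filter_filter]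
  rw [idx_ord] at h4
  exact Int.natCast_dvd_natCast.1 ⟨_, h4.symm⟩

private theorem lam_rel {φ : Gal(QBar/K) →* Q} (hs : Function.Surjective φ)
    {act : Q →* (F ≃+* F)} (h : KTriv act) (H : Acts F φ act) {S0 : Finset (Pl K)}
    {U : Subgroup Q} {E : IntermediateField K F} [NumberField E] (hE : SubF act U E)
    (w : Wp F S0) :
    (idx E w.1 : ℤ) • ∑ c ∈ Finset.univ.filter (fun c : Q => c ∈ U),
        wx h S0 c (Finsupp.single w (1 : ℤ)) =
      (Nat.card (lamS h U w) : ℤ) • xd E S0 (Finsupp.single (un E w.1) 1) := by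
  ext w1
  rw [Finsupp.smul_apply, Finsupp.smul_apply, Finsupp.finsetSum_apply]
  have h1 : ∀ c ∈ Finset.univ.filter (fun c : Q => c ∈ U),
      wx h S0 c (Finsupp.single w (1 : ℤ)) w1 = if wq h S0 c w = w1 then 1 else 0 := by
    intro c _
    change (Finsupp.single w (1 : ℤ)) ((wq h S0 c).symm w1) = _
    rw [Finsupp.single_apply]
    by_cases hc : wq h S0 c w = w1
    · rw [if_pos hc, if_pos]
      rw [← hc, Equiv.symm_apply_apply]
    · rw [if_neg hc, if_neg]
      intro h2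
      apply hc
      rw [h2, Equiv.apply_symm_apply]
  have h2 : (xd E S0 (Finsupp.single (un E w.1) 1)) w1 =
      (idx E w1.1 : ℤ) * (Finsupp.single (un E w.1) (1 : ℤ)) (un E w1.1) := rfl
  rw [Finset.sum_congr rfl h1, h2]
  by_cases hu : un E w.1 = un E w1.1
  · obtain ⟨a, ha, haw⟩ := un_tr E hs H hE hu
    have h3 : w1 = wq h S0 a w := Subtype.ext haw.symm
    rw [← hu, Finsupp.single_eq_same, mul_one, h3, lam_idx_act h hE ha, lamS_card,
      Finset.sum_boole, Finset.filter_filter, smul_eq_mul, smul_eq_mul, mul_comm]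
    congr 1
    congr 1
    refine Finset.card_bij' (fun c _ => a⁻¹ * c) (fun c _ => a * c) ?_ ?_ ?_ ?_
    · intro c hc
      rw [Finset.mem_filter] at hc ⊢
      refine ⟨Finset.mem_univ _, U.mul_mem (U.inv_mem ha) hc.2.1, ?_⟩
      rw [lam_wq_mul, hc.2.2, ← lam_wq_mul, inv_mul_cancel, lam_wq_one]
    · intro c hc
      rw [Finset.mem_filter] at hc ⊢
      refine ⟨Finset.mem_univ _, U.mul_mem ha hc.2.1, ?_⟩
      rw [lam_wq_mul, hc.2.2]
    · intro c _
      exact mul_inv_cancel_left a c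
    · intro c _
      exact inv_mul_cancel_left a c
  · rw [Finsupp.single_eq_of_ne (Ne.symm hu), mul_zero, smul_zero, Finset.sum_eq_zero, smul_zero]
    intro c hc
    rw [Finset.mem_filter] at hc
    rw [if_neg]
    intro h3
    apply hu
    rw [← h3]
    exact (un_act E hE hc.2 w.1).symm

theorem lam_non {l : ℕ} (hl : l.Prime) (hV : ∀ x : V, l • x = 0)
    (hQ : Nat.Coprime l (Nat.card Q)) (b : Bs l V ι)
    {φ : Gal(QBar/K) →* Q} (hs : Function.Surjective φ) {act : Q →* (F ≃+* F)} (h : KTriv act)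
    (H : Acts F φ act) (P : DP K QBar)
    {S0 : Finset (Pl K)} (R : (ι → (Wp F S0 →₀ ℤ)) →+ Lab φ P S0 V)
    (hR : ∀ δ v, (R δ : Pl K →₀ V) v = lb b.m h P S0 δ v) (ξ : Lab φ P S0 V →+ ZMod l)
    {U : Subgroup Q} {E : IntermediateField K F} [NumberField E] (hE : SubF act U E) {x : V}
    (hx : ∀ a ∈ U, a • x = x) (h0 : ∀ w', lam b R ξ U E x w' = 0) (D : Wp F S0 →₀ ℤ) :
    ξ (R (gl b x D)) = 0 := by
  have hp : Fact l.Prime := ⟨hl⟩
  have hU : ((Nat.card U : ℕ) : ZMod l) ≠ 0 := lam_ne hl hQ U.card_subgroup_dvd_card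
  change Phi b R ξ x D = 0
  have h1 : ∀ w : Wp F S0, Phi b R ξ x (Finsupp.single w 1) = 0 := by
    intro w
    have h2 := congrArg (Phi b R ξ x) (lam_rel hs h H hE w)
    rw [map_zsmul, map_zsmul, map_sum] at h2
    have h3 : ∀ c ∈ Finset.univ.filter (fun c : Q => c ∈ U),
        Phi b R ξ x (wx h S0 c (Finsupp.single w (1 : ℤ))) =
          Phi b R ξ x (Finsupp.single w (1 : ℤ)) := by
      intro c hc
      rw [Finset.mem_filter] at hc
      exact lam_phi_wx hl hV b h P R hR ξ (hx c hc.2) _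
    have h4 : Phi b R ξ x (xd E S0 (Finsupp.single (un E w.1) 1)) = 0 := by
      have h5 := h0 (un E w.1)
      rw [lam_phi] at h5
      rcases mul_eq_zero.1 h5 with h6 | h6
      · exact absurd h6 (inv_ne_zero hU)
      · exact h6
    have h5 : (Finset.univ.filter fun c : Q => c ∈ U).card = Nat.card U :=
      (Nat.subtype_card _ fun c => by
        rw [Finset.mem_filter, and_iff_right (Finset.mem_univ c)]).symm
    rw [Finset.sum_congr rfl h3, h4, smul_zero, Finset.sum_const, h5, nsmul_eq_mul,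
      zsmul_eq_mul, Int.cast_natCast] at h2
    have h6 : ((idx E w.1 : ℕ) : ZMod l) ≠ 0 :=
      lam_ne hl hQ ((lam_idx_dvd h hE w).trans (lamS h U w).card_subgroup_dvd_card)
    rcases mul_eq_zero.1 h2 with h7 | h7
    · exact absurd h7 h6
    · rcases mul_eq_zero.1 h7 with h8 | h8
      · exact absurd h8 hU
      · exact h8
  induction D using Finsupp.induction_linear with
  | zero => exact map_zero _
  | add D D' hD hD' => rw [map_add, hD, hD', add_zero]
  | single w n =>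
    have h2 : (Finsupp.single w n : Wp F S0 →₀ ℤ) = n • Finsupp.single w 1 := by
      rw [Finsupp.smul_single, smul_eq_mul, mul_one]
    rw [h2, map_zsmul, h1, smul_zero]

end H12.KF
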