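import Pool.Agent.H12.KF.Lam

/-!
# [H12 KF NON] a non-trivial character of the labels gives a non-trivial character of some subfield, 40-70 lines

Suppose all `lam .. x` are `0` for the `x` of a set `L` which generates `V` (each with its own `U`, `E`). `lam_non`: `ξ (R (gl b x D)) = 0` for `x ∈ L`, all `D`. `x ↦ R (gl b x D)` is additive (`lb_gl`; two labels with the same values are equal), so it holds for all `x : V` (`AddSubgroup.closure_induction`). For `x = b.m j` and a family `δ`:
`R δ = ∑ j, R (gl b (b.m j) (δ j))` (compare the values: `lb_gl` and the definition of `lb`), so `ξ (R δ) = 0`; `R` is surjective (`lab_sur`): `ξ = 0`.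
-/

set_option autoImplicit false

open scoped NumberField
open IsDedekindDomain H38.ML
open scoped Classical

noncomputable section

namespace H12.KF

open H63.MA H51.SN H67.AQ

variable {K : IntermediateField ℚ QBar} [NumberField K] {Q : Type} [Group Q] [Fintype Q]
  {F : IntermediateField K QBar} [NumberField F] {V : Type} [AddCommGroup V] [DistribMulAction Q V]
  {ι : Type} [Fintype ι]

private theorem val_gl {l : ℕ} (hl : l.Prime) (hV : ∀ x : V, l • x = 0) (b : Bs l V ι)
    {φ : Gal(QBar/K) →* Q} {act : Q →* (F ≃+* F)} (h : KTriv act) (P : DP K QBar)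
    {S0 : Finset (Pl K)} (R : (ι → (Wp F S0 →₀ ℤ)) →+ Lab φ P S0 V)
    (hR : ∀ δ v, (R δ : Pl K →₀ V) v = lb b.m h P S0 δ v) (x : V) (D : Wp F S0 →₀ ℤ) (v : Pl K) :
    (R (gl b x D) : Pl K →₀ V) v =
      if hv : v ∉ S0 then ∑ a : Q, D (wq h S0 a⁻¹ ⟨wp F P v, wp_wp P hv⟩) • (a • x) else 0 := by
  rw [hR]
  by_cases hv : v ∉ S0
  · rw [dif_pos hv]
    exact lb_gl hl hV b h P S0 x D hv
  · rw [dif_neg hv]
    unfold lb
    rw [dif_neg hv]

theorem non {l : ℕ} (hl : l.Prime) (hV : ∀ x : V, l • x = 0)
    (hQ : Nat.Coprime l (Nat.card Q)) (b : Bs l V ι)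
    {φ : Gal(QBar/K) →* Q} (hs : Function.Surjective φ) {act : Q →* (F ≃+* F)} (h : KTriv act)
    (H : Acts F φ act) (P : DP K QBar)
    {S0 : Finset (Pl K)} (R : (ι → (Wp F S0 →₀ ℤ)) →+ Lab φ P S0 V)
    (hR : ∀ δ v, (R δ : Pl K →₀ V) v = lb b.m h P S0 δ v) (ξ : Lab φ P S0 V →+ ZMod l)
    (hξ : ξ ≠ 0) (L : Set V) (hL : AddSubgroup.closure L = ⊤)
    (h0 : ∀ x ∈ L, ∀ (U : Subgroup Q) (E : IntermediateField K F) (_ : NumberField E),
      SubF act U E → (∀ a, a ∈ U ↔ a • x = x) → ∀ w', lam b R ξ U E x w' = 0) : False := by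
  have hval := val_gl hl hV b h P R hR
  -- the elements of `L`
  have h1 : ∀ x ∈ L, ∀ D : Wp F S0 →₀ ℤ, ξ (R (gl b x D)) = 0 := by
    intro x hx D
    obtain ⟨E, hE, hEn⟩ := exists_sub h (MulAction.stabilizer Q x)
    exact lam_non hl hV hQ b hs h H P R hR ξ hE (fun a ha => MulAction.mem_stabilizer_iff.1 ha)
      (h0 x hx (MulAction.stabilizer Q x) E hEn hE fun a => MulAction.mem_stabilizer_iff) D
  -- all elements
  have h2 : ∀ x : V, ∀ D : Wp F S0 →₀ ℤ, ξ (R (gl b x D)) = 0 := by
    intro x
    have hx : x ∈ AddSubgroup.closure L := by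
      rw [hL]
      exact AddSubgroup.mem_top x
    induction hx using AddSubgroup.closure_induction with
    | mem x hx => exact h1 x hx
    | zero =>
      intro D
      have e : R (gl b (0 : V) D) = 0 := by
        refine Subtype.ext (Finsupp.ext fun v => ?_)
        rw [hval]
        by_cases hv : v ∉ S0
        · rw [dif_pos hv]
          exact Finset.sum_eq_zero fun a _ => by rw [smul_zero, smul_zero]
        · rw [dif_neg hv]
          rfl
      rw [e, map_zero]
    | add x y hx hy ihx ihy =>
      intro D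
      have e : R (gl b (x + y) D) = R (gl b x D) + R (gl b y D) := by
        refine Subtype.ext (Finsupp.ext fun v => ?_)
        rw [AddSubgroup.coe_add, Finsupp.add_apply, hval, hval, hval]
        by_cases hv : v ∉ S0
        · rw [dif_pos hv, dif_pos hv, dif_pos hv, ← Finset.sum_add_distrib]
          exact Finset.sum_congr rfl fun a _ => by rw [smul_add, smul_add]
        · rw [dif_neg hv, dif_neg hv, dif_neg hv, add_zero]
      rw [e, map_add, ihx, ihy, add_zero]
    | neg x hx ihx =>
      intro D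
      have e : R (gl b (-x) D) = -R (gl b x D) := by
        refine Subtype.ext (Finsupp.ext fun v => ?_)
        rw [AddSubgroup.coe_neg, Finsupp.neg_apply, hval, hval]
        by_cases hv : v ∉ S0
        · rw [dif_pos hv, dif_pos hv, ← Finset.sum_neg_distrib]
          exact Finset.sum_congr rfl fun a _ => by rw [smul_neg, smul_neg]
        · rw [dif_neg hv, dif_neg hv, neg_zero]
      rw [e, map_neg, ihx, neg_zero]
  -- families
  have h3 : ∀ δ : ι → (Wp F S0 →₀ ℤ), ξ (R δ) = 0 := by
    intro δ
    have e : R δ = ∑ j, R (gl b (b.m j) (δ j)) := by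
      refine Subtype.ext (Finsupp.ext fun v => ?_)
      rw [AddSubgroup.val_finsetSum, Finsupp.finsetSum_apply, Finset.sum_congr rfl fun j _ => hval (b.m j) (δ j) v, hR]
      unfold lb
      by_cases hv : v ∉ S0
      · rw [dif_pos hv, Finset.sum_comm]
        refine Finset.sum_congr rfl fun j _ => ?_
        rw [dif_pos hv]
      · rw [dif_neg hv]
        symm
        exact Finset.sum_eq_zero fun j _ => by rw [dif_neg hv]
    rw [e, map_sum]
    exact Finset.sum_eq_zero fun j _ => h2 _ _
  apply hξ
  refine AddMonoidHom.ext fun t => ?_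
  obtain ⟨δ, hδ⟩ := lab_sur hl hQ b hs h H P S0 t
  have e : t = R δ := by
    refine Subtype.ext (Finsupp.ext fun v => ?_)
    rw [hR, hδ]
  rw [e, h3]
  rfl

end H12.KF
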